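import Pool.Agent.N748.MG.Stm

set_option autoImplicit false

/-! Calculus of the quantifier `Ev`. -/

namespace Pool.Agent.N748.MG

open Finset Filter MeasureTheory Topology Complex

lemma Ev.and {P Q : ℝ → ℝ → Prop} (h1 : Ev P) (h2 : Ev Q) : Ev fun X δ => P X δ ∧ Q X δ := by
  obtain ⟨l1, d1, a1, b1, c1, e1⟩ := h1
  obtain ⟨l2, d2, a2, b2, c2, e2⟩ := h2
  refine ⟨max l1 l2, min d1 d2, lt_max_of_lt_left a1, lt_min b1 b2, (min_le_left _ _).trans c1, ?_⟩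
  filter_upwards [e1, e2] with X f1 f2 δ hδ hδ2 hX
  have h0 : 0 ≤ Real.log (1 / δ) ^ 2 := sq_nonneg _
  exact ⟨f1 δ hδ (hδ2.trans (min_le_left _ _)) ((mul_le_mul_of_nonneg_right (le_max_left _ _) h0).trans hX),
    f2 δ hδ (hδ2.trans (min_le_right _ _)) ((mul_le_mul_of_nonneg_right (le_max_right _ _) h0).trans hX)⟩

lemma Ev.mono {P Q : ℝ → ℝ → Prop} (h1 : Ev P) (h : ∀ X δ : ℝ, 1 ≤ X → 0 < δ → δ ≤ 1 / 16 → P X δ → Q X δ) :
    Ev Q := by
  obtain ⟨l1, d1, a1, b1, c1, e1⟩ := h1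
  refine ⟨l1, d1, a1, b1, c1, ?_⟩
  filter_upwards [e1, eventually_ge_atTop 1] with X f1 hX1 δ hδ hδ2 hX
  exact h X δ hX1 hδ (hδ2.trans c1) (f1 δ hδ hδ2 hX)

lemma Ev.small {C c e : ℝ} (hc : 0 < c) (he : 0 < e) : Ev fun _ δ => C * δ ^ c ≤ e := by
  have h1 : 0 < e / (|C| + 1) := by positivity
  refine ⟨1, min (1 / 16) ((e / (|C| + 1)) ^ (1 / c)), one_pos, lt_min (by norm_num) (Real.rpow_pos_of_pos h1 _),
    min_le_left _ _, Eventually.of_forall fun X δ hδ hδ2 _ => ?_⟩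
  have h2 : δ ^ c ≤ e / (|C| + 1) := by
    calc δ ^ c ≤ ((e / (|C| + 1)) ^ (1 / c)) ^ c :=
          Real.rpow_le_rpow hδ.le (hδ2.trans (min_le_right _ _)) hc.le
      _ = e / (|C| + 1) := by
          rw [← Real.rpow_mul h1.le, one_div, inv_mul_cancel₀ hc.ne', Real.rpow_one]
  have h3 : 0 ≤ δ ^ c := (Real.rpow_pos_of_pos hδ c).le
  calc C * δ ^ c ≤ (|C| + 1) * δ ^ c := mul_le_mul_of_nonneg_right (by linarith [le_abs_self C]) h3
    _ ≤ (|C| + 1) * (e / (|C| + 1)) := mul_le_mul_of_nonneg_left h2 (by positivity)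
    _ = e := by field_simp

lemma Ev.of_ev {P : ℝ → Prop} (h : ∀ᶠ X : ℝ in atTop, P X) : Ev fun X _ => P X := by
  refine ⟨1, 1 / 16, one_pos, by norm_num, le_rfl, ?_⟩
  filter_upwards [h] with X hX δ _ _ _
  exact hX

/-- small `δ` -/
lemma Ev.of_le {d : ℝ} (hd : 0 < d) : Ev fun _ δ => δ ≤ d := by
  refine ⟨1, min (1 / 16) d, one_pos, lt_min (by norm_num) hd, min_le_left _ _,
    Eventually.of_forall fun X δ _ hδ2 _ => hδ2.trans (min_le_right _ _)⟩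

lemma log_inv_ge {δ : ℝ} (hδ : 0 < δ) (h : δ ≤ 1 / 16) : 1 ≤ Real.log (1 / δ) := by
  rw [Real.le_log_iff_exp_le (by positivity)]
  have h1 : Real.exp 1 ≤ 16 := by linarith [Real.exp_one_lt_d9]
  refine h1.trans ?_
  rw [le_div_iff₀ hδ]
  linarith

lemma Ev.lam (l : ℝ) : Ev fun X δ => l * Real.log (1 / δ) ^ 2 ≤ δ * Real.log X := by
  refine ⟨max l 1, 1 / 16, lt_max_of_lt_right one_pos, by norm_num, le_rfl,
    Eventually.of_forall fun X δ _ _ hX => ?_⟩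
  have h0 : 0 ≤ Real.log (1 / δ) ^ 2 := sq_nonneg _
  exact (mul_le_mul_of_nonneg_right (le_max_left _ _) h0).trans hX

lemma Ev.linv : Ev fun X δ => 1 / δ ≤ Real.log X := by
  refine ⟨1, 1 / 16, one_pos, by norm_num, le_rfl, Eventually.of_forall fun X δ hδ hδ2 hX => ?_⟩
  have h1 := log_inv_ge hδ hδ2
  show 1 / δ ≤ Real.log X
  rw [div_le_iff₀ hδ]
  nlinarith

/-- powers of `1/δ` are small compared with powers of `X` -/
lemma Ev.win {D c e : ℝ} (hc : 0 < c) (he : 0 < e) : Ev fun X δ => δ ^ (-D) ≤ c * X ^ e := by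
  have hlog : ∀ᶠ T : ℝ in atTop, Real.log T ^ (max D 0) ≤ c * T ^ e := by
    have h2 := (isLittleO_log_rpow_rpow_atTop (max D 0) he).bound hc
    filter_upwards [h2, eventually_ge_atTop 1] with T h3 h4
    rw [Real.norm_of_nonneg (Real.rpow_nonneg (Real.log_nonneg h4) _),
      Real.norm_of_nonneg (by positivity)] at h3
    exact h3
  refine (Ev.linv.and (Ev.of_ev hlog)).mono ?_
  rintro X δ hX hδ hδ1 ⟨h1, h2⟩
  refine le_trans ?_ h2
  have h3 : δ ^ (-D) ≤ δ ^ (-(max D 0)) :=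
    Real.rpow_le_rpow_of_exponent_ge hδ (by linarith) (neg_le_neg (le_max_left _ _))
  refine h3.trans ?_
  rw [Real.rpow_neg hδ.le, ← Real.inv_rpow hδ.le, ← one_div]
  exact Real.rpow_le_rpow (by positivity) h1 (le_max_right _ _)

lemma Ev.up {P : ℝ → ℝ → Prop} (h : Ev P) : Ev fun X δ => ∀ X' : ℝ, X ≤ X' → P X' δ := by
  obtain ⟨l1, d1, a1, b1, c1, e1⟩ := h
  refine ⟨l1, d1, a1, b1, c1, ?_⟩
  obtain ⟨X0, hX0⟩ := eventually_atTop.mp e1
  filter_upwards [eventually_ge_atTop (max X0 1)] with X hX δ hδ hδ2 hX3 X' hX'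
  refine hX0 X' ((le_max_left _ _).trans (hX.trans hX')) δ hδ hδ2 (hX3.trans ?_)
  have h1 : 1 ≤ X := (le_max_right _ _).trans hX
  exact mul_le_mul_of_nonneg_left (Real.log_le_log (by linarith) hX') hδ.le

lemma Ev.app {P : ℝ → ℝ → Prop} (h : Ev P) {d : ℝ → ℝ} (hd : Ad d) : ∀ᶠ T : ℝ in atTop, P T (d T) := by
  obtain ⟨lam, δ0, h1, h2, h3, h4⟩ := h
  filter_upwards [h4, hd.pos, hd.t0.eventually_le_const h2, hd.tL.eventually_ge_atTop lam] with T g1 g2 g3 g4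
  refine g1 (d T) g2 g3 ?_
  have hl : 1 ≤ Real.log (1 / d T) := log_inv_ge g2 (g3.trans h3)
  have : 0 < Real.log (1 / d T) ^ 2 := by positivity
  rwa [le_div_iff₀ this] at g4

end Pool.Agent.N748.MG
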