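import Pool.Agent.N748.MG.Stm2

set_option autoImplicit false

/-!
# Tails and subcritical levels from the large deviation theorem
-/

namespace Pool.Agent.N748.MG.TMC

open Finset Filter MeasureTheory Topology Complex

theorem pw_ne {δ : ℝ} (h : δ < 1 / 2) (t : ℝ) : pw δ t ≠ 1 := by
  intro h'
  have := congrArg Complex.re h'
  simp [pw] at this
  linarith

theorem pw_cont (δ : ℝ) : Continuous (pw δ) := by
  unfold pw
  fun_prop

theorem pw_inj (δ : ℝ) : Function.Injective (pw δ) := by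
  intro s t h
  have := congrArg Complex.im h
  simpa [pw] using this

theorem zc {δ : ℝ} (h : δ < 1 / 2) : Continuous (fun t : ℝ => riemannZeta (pw δ t)) := by
  rw [continuous_iff_continuousAt]
  intro t
  exact ContinuousAt.comp (g := riemannZeta) (f := fun t : ℝ => pw δ t)
    (differentiableAt_riemannZeta (pw_ne h t)).continuousAt (pw_cont δ).continuousAt

theorem mz_meas {δ : ℝ} (h : δ < 1 / 2) : Measurable (mz δ) := (zc h).norm.measurable

/-- zeta has only countably many zeros on a line -/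
theorem ae_ne {δ : ℝ} (h : δ < 1 / 2) : ∀ᵐ t : ℝ, mz δ t ≠ 0 := by
  have h1 : ∀ z0 : ℂ, z0 ≠ 1 → ∀ᶠ z in 𝓝[≠] z0, riemannZeta z ≠ 0 := by
    intro z0 hz0
    by_contra hcon
    have h2 : ∃ᶠ z in 𝓝[≠] z0, riemannZeta z = 0 := by
      rw [Filter.not_eventually] at hcon
      exact hcon.mono fun z hz => not_not.1 hz
    have hf : AnalyticOnNhd ℂ riemannZeta {1}ᶜ :=
      DifferentiableOn.analyticOnNhd
        (fun z hz => (differentiableAt_riemannZeta hz).differentiableWithinAt)
        isOpen_compl_singleton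
    have hU : IsPreconnected ({1}ᶜ : Set ℂ) :=
      (isConnected_compl_singleton_of_one_lt_rank
        (by rw [Complex.rank_real_complex]; norm_num) 1).isPreconnected
    have h3 := hf.eqOn_zero_of_preconnected_of_frequently_eq_zero hU hz0 h2
    have h4 := h3 (show (2 : ℂ) ∈ ({1}ᶜ : Set ℂ) by norm_num)
    exact riemannZeta_ne_zero_of_one_lt_re (by norm_num) h4
  have h5 : {t : ℝ | mz δ t ≠ 0} ∈ codiscreteWithin (Set.univ : Set ℝ) := by
    rw [mem_codiscreteWithin_iff_forall_mem_nhdsNE]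
    intro t _
    have h6 := h1 (pw δ t) (pw_ne h t)
    have h7 : Tendsto (pw δ) (𝓝[≠] t) (𝓝[≠] (pw δ t)) := by
      refine tendsto_nhdsWithin_iff.2 ⟨(pw_cont δ).continuousAt.tendsto.mono_left
        nhdsWithin_le_nhds, ?_⟩
      filter_upwards [self_mem_nhdsWithin] with s hs
      exact fun h8 => hs (pw_inj δ h8)
    filter_upwards [h7.eventually h6] with s hs
    left
    simpa [mz] using hs
  have h8 := ae_restrict_le_codiscreteWithin (μ := volume) MeasurableSet.univ h5
  rwa [Measure.restrict_univ] at h8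

theorem exp_bd {a : ℝ} (ha : 0 < a) :
    ∃ C : ℝ, 0 ≤ C ∧ ∀ y : ℝ, 0 ≤ y → 1 + y ^ 2 ≤ C * Real.exp (a * y) := by
  refine ⟨1 + 2 / a ^ 2, by positivity, fun y hy => ?_⟩
  have h1 := Real.quadratic_le_exp_of_nonneg (mul_nonneg ha.le hy)
  have h2 : 1 + y ^ 2 ≤ (1 + 2 / a ^ 2) * (1 + a * y + (a * y) ^ 2 / 2) := by
    have e : (1 + 2 / a ^ 2) * (1 + a * y + (a * y) ^ 2 / 2) =
        1 + y ^ 2 + (a * y + (a * y) ^ 2 / 2 + 2 / a ^ 2 + 2 * y / a) := by
      field_simp
      ring
    rw [e]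
    have : 0 ≤ a * y + (a * y) ^ 2 / 2 + 2 / a ^ 2 + 2 * y / a := by positivity
    linarith
  exact h2.trans (mul_le_mul_of_nonneg_left h1 (by positivity))

/-- the large deviation theorem for an exponential on a half line -/
theorem gen (hL : S_LD) {d : ℝ → ℝ} (hd : Ad d) (V κ s : ℝ) (hs : s * s = 1)
    (ha : 0 < s * (V - κ)) (hκ : s * κ ≤ 0) (B : Set ℝ) (hB : MeasurableSet B)
    (h1 : ∀ x, 0 < s * x → x ∈ B) (h2 : ∀ x ∈ B, 0 ≤ s * x)
    (hI : ∫ x in B, Real.exp (-(2 * (V - κ)) * x) = 1 / (2 * (s * (V - κ)))) :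
    Tendsto (fun T : ℝ => Real.sqrt (Real.pi * Real.log (1 / (2 * d T))) *
      (2 * d T) ^ (-(V ^ 2)) * ((1 / T) * ∫ t in (0:ℝ)..T,
        B.indicator (fun x => Real.exp (2 * κ * x))
          (Real.log (mz (d T) t) - V * Real.log (1 / (2 * d T))))) atTop
    (𝓝 ((aC V).re * (1 / (2 * (s * (V - κ)))))) := by
  have hsq : ∀ x : ℝ, x = s * (s * x) := fun x => by rw [← mul_assoc, hs, one_mul]
  have hle1 : ∀ x, |B.indicator (fun x => Real.exp (2 * κ * x)) x| ≤ 1 := by
    intro x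
    by_cases hx : x ∈ B
    · rw [Set.indicator_of_mem hx, abs_of_pos (Real.exp_pos _)]
      apply Real.exp_le_one_iff.2
      have h3 := h2 x hx
      have h4 : κ * x = (s * κ) * (s * x) := by
        have : (s * κ) * (s * x) = (s * s) * (κ * x) := by ring
        rw [this, hs, one_mul]
      have h5 : (s * κ) * (s * x) ≤ 0 := mul_nonpos_of_nonpos_of_nonneg hκ h3
      rw [mul_assoc, h4]
      linarith
    · rw [Set.indicator_of_notMem hx, abs_zero]
      exact zero_le_one
  have key := hL d hd V (B.indicator (fun x => Real.exp (2 * κ * x))) {0}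
    ((by fun_prop : Measurable (fun x : ℝ => Real.exp (2 * κ * x))).indicator hB) ?_
    ⟨1, hle1⟩ ?_
  · have e : ∫ x, Real.exp (-(2 * V * x)) * B.indicator (fun x => Real.exp (2 * κ * x)) x =
        1 / (2 * (s * (V - κ))) := by
      rw [← hI, ← integral_indicator hB]
      refine integral_congr_ae (Filter.Eventually.of_forall fun x => ?_)
      change Real.exp (-(2 * V * x)) * B.indicator (fun x => Real.exp (2 * κ * x)) x =
        B.indicator (fun x => Real.exp (-(2 * (V - κ)) * x)) x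
      by_cases hx : x ∈ B
      · rw [Set.indicator_of_mem hx, Set.indicator_of_mem hx, ← Real.exp_add]
        congr 1
        ring
      · rw [Set.indicator_of_notMem hx, Set.indicator_of_notMem hx, mul_zero]
    rw [e] at key
    exact key
  · intro x hx
    have hx0 : x ≠ 0 := by simpa using hx
    have hs0 : s ≠ 0 := by
      rintro rfl
      norm_num at hs
    have hsx : s * x ≠ 0 := mul_ne_zero hs0 hx0
    rcases lt_or_gt_of_ne hsx with h3 | h3
    · have h4 : ∀ᶠ y in 𝓝 x, s * y < 0 :=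
        (by fun_prop : Continuous fun y : ℝ => s * y).continuousAt.eventually_lt
          continuousAt_const h3
      have h5 : B.indicator (fun x => Real.exp (2 * κ * x)) =ᶠ[𝓝 x] fun _ => (0 : ℝ) := by
        filter_upwards [h4] with y hy
        exact Set.indicator_of_notMem (fun hyB => absurd (h2 y hyB) (not_le.2 hy)) _
      exact continuousAt_const.congr h5.symm
    · have h4 : ∀ᶠ y in 𝓝 x, 0 < s * y :=
        continuousAt_const.eventually_lt
          (by fun_prop : Continuous fun y : ℝ => s * y).continuousAt h3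
      have h5 : B.indicator (fun x => Real.exp (2 * κ * x)) =ᶠ[𝓝 x]
          fun x => Real.exp (2 * κ * x) := by
        filter_upwards [h4] with y hy
        exact Set.indicator_of_mem (h1 y hy) _
      exact ContinuousAt.congr (by fun_prop) h5.symm
  · obtain ⟨C, hC, hC'⟩ := exp_bd (a := 2 * (s * (V - κ))) (by linarith)
    refine ⟨C, fun x => ?_⟩
    by_cases hx : x ∈ B
    · rw [Set.indicator_of_mem hx, abs_of_pos (Real.exp_pos _)]
      have h3 := hC' (s * x) (h2 x hx)
      have h4 : 1 + x ^ 2 = 1 + (s * x) ^ 2 := by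
        have : (s * x) ^ 2 = (s * s) * x ^ 2 := by ring
        rw [this, hs, one_mul]
      rw [h4]
      have h5 : Real.exp (2 * V * x) =
          Real.exp (2 * κ * x) * Real.exp (2 * (s * (V - κ)) * (s * x)) := by
        rw [← Real.exp_add]
        congr 1
        have : 2 * (s * (V - κ)) * (s * x) = (s * s) * (2 * (V - κ) * x) := by ring
        rw [this, hs, one_mul]
        ring
      rw [h5]
      calc Real.exp (2 * κ * x) * (1 + (s * x) ^ 2)
          ≤ Real.exp (2 * κ * x) * (C * Real.exp (2 * (s * (V - κ)) * (s * x))) :=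
            mul_le_mul_of_nonneg_left h3 (Real.exp_pos _).le
        _ = C * (Real.exp (2 * κ * x) * Real.exp (2 * (s * (V - κ)) * (s * x))) := by ring
    · rw [Set.indicator_of_notMem hx, abs_zero, zero_mul]
      positivity

/-- the level -/
theorem level {δ : ℝ} (h0 : 0 < δ) (V : ℝ) :
    (2 * δ) ^ (-V) = Real.exp (V * Real.log (1 / (2 * δ))) := by
  rw [Real.rpow_def_of_pos (by linarith), one_div, Real.log_inv]
  congr 1
  ring

theorem pow_eq {δ : ℝ} (h0 : 0 < δ) (V k : ℝ) {t : ℝ} (ht : 0 < mz δ t) :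
    mz δ t ^ (2 * k) = (2 * δ) ^ (-(2 * k * V)) *
      Real.exp (2 * k * (Real.log (mz δ t) - V * Real.log (1 / (2 * δ)))) := by
  rw [level h0 (2 * k * V), Real.rpow_def_of_pos ht, ← Real.exp_add]
  congr 1
  ring

theorem conv {δ T V k : ℝ} (h0 : 0 < δ) (h1 : δ < 1 / 2) (hT : 0 ≤ T) (B Q : Set ℝ)
    (hQ : MeasurableSet Q)
    (hQB : ∀ t, 0 < mz δ t → (t ∈ Q ↔ Real.log (mz δ t) - V * Real.log (1 / (2 * δ)) ∈ B)) :
    ∫ t in {t : ℝ | t ∈ Set.Icc 0 T ∧ t ∈ Q}, mz δ t ^ (2 * k) =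
      (2 * δ) ^ (-(2 * k * V)) * ∫ t in (0:ℝ)..T, B.indicator (fun x => Real.exp (2 * k * x))
          (Real.log (mz δ t) - V * Real.log (1 / (2 * δ))) := by
  have e1 : {t : ℝ | t ∈ Set.Icc 0 T ∧ t ∈ Q} = Set.Icc 0 T ∩ Q := rfl
  rw [e1, ← setIntegral_indicator hQ, intervalIntegral.integral_of_le hT,
    ← integral_Icc_eq_integral_Ioc, ← integral_const_mul]
  refine integral_congr_ae (ae_restrict_of_ae ?_)
  filter_upwards [ae_ne h1] with t ht
  have ht' : 0 < mz δ t := lt_of_le_of_ne (norm_nonneg _) (Ne.symm ht)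
  by_cases hq : t ∈ Q
  · rw [Set.indicator_of_mem hq, Set.indicator_of_mem ((hQB t ht').1 hq), pow_eq h0 V k ht']
  · rw [Set.indicator_of_notMem hq, Set.indicator_of_notMem fun h => hq ((hQB t ht').2 h),
      mul_zero]

theorem master (hL : S_LD) {d : ℝ → ℝ} (hd : Ad d) (V κ s : ℝ) (hs : s * s = 1)
    (ha : 0 < s * (V - κ)) (hκ : s * κ ≤ 0) (B : Set ℝ) (hB : MeasurableSet B)
    (h1 : ∀ x, 0 < s * x → x ∈ B) (h2 : ∀ x ∈ B, 0 ≤ s * x)
    (hI : ∫ x in B, Real.exp (-(2 * (V - κ)) * x) = 1 / (2 * (s * (V - κ))))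
    (Q : ℝ → Set ℝ) (hQ : ∀ T, d T < 1 / 2 → MeasurableSet (Q T))
    (hQB : ∀ T, 0 < d T → ∀ t, 0 < mz (d T) t →
      (t ∈ Q T ↔ Real.log (mz (d T) t) - V * Real.log (1 / (2 * d T)) ∈ B)) :
    Tendsto (fun T : ℝ => Real.sqrt (Real.pi * Real.log (1 / (2 * d T))) *
      (2 * d T) ^ (2 * κ * V - V ^ 2) * ((1 / T) * ∫ t in {t : ℝ | t ∈ Set.Icc 0 T ∧ t ∈ Q T},
        mz (d T) t ^ (2 * κ))) atTop (𝓝 ((aC V).re / (2 * (s * (V - κ))))) := by
  have key := gen hL hd V κ s hs ha hκ B hB h1 h2 hI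
  rw [mul_one_div] at key
  refine key.congr' ?_
  have hlt : ∀ᶠ T in atTop, d T < 1 / 2 := hd.t0.eventually_lt_const (by norm_num)
  filter_upwards [hd.pos, hlt, eventually_ge_atTop 0] with T a1 a2 a3
  rw [conv a1 a2 a3 B (Q T) (hQ T a2) (hQB T a1)]
  have e : (2 * d T) ^ (-(V ^ 2)) = (2 * d T) ^ (2 * κ * V - V ^ 2) *
      (2 * d T) ^ (-(2 * κ * V)) := by
    rw [← Real.rpow_add (by linarith)]
    congr 1
    ring
  rw [e]
  ring

theorem int_pos {a : ℝ} (ha : 0 < a) : ∫ x in Set.Ioi (0 : ℝ), Real.exp (-(2 * a) * x) =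
    1 / (2 * (1 * a)) := by
  rw [integral_exp_mul_Ioi (by linarith), mul_zero, Real.exp_zero, one_mul, neg_div_neg_eq]

theorem int_neg {a : ℝ} (ha : 0 < -1 * a) : ∫ x in Set.Iic (0 : ℝ), Real.exp (-(2 * a) * x) =
    1 / (2 * (-1 * a)) := by
  rw [integral_exp_mul_Iic (by linarith), mul_zero, Real.exp_zero]
  congr 1
  ring

theorem tm3 (hL : S_LD) : S_TM3 := by
  intro d hd k V hk hV
  have key := master hL hd V k (-1) (by norm_num) (by linarith) (by linarith) (Set.Iic 0)
    measurableSet_Iic (fun x hx => by rw [Set.mem_Iic]; linarith)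
    (fun x hx => by rw [Set.mem_Iic] at hx; linarith) (int_neg (by linarith))
    (fun T => {t | mz (d T) t ≤ (2 * d T) ^ (-V)})
    (fun T hT => measurableSet_le (mz_meas hT) measurable_const) (fun T h0 t ht => by
      rw [Set.mem_ofPred_eq, level h0, Set.mem_Iic, sub_nonpos, Real.log_le_iff_le_exp ht])
  have e : 2 * (-1 * (V - k)) = 2 * (k - V) := by ring
  rw [e] at key
  exact key

theorem nm3 (hL : S_LD) : S_NM3 := by
  intro d hd k V hk hV
  have key := master hL hd V k 1 (by norm_num) (by linarith) (by linarith) (Set.Ici 0)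
    measurableSet_Ici (fun x hx => by rw [Set.mem_Ici]; linarith)
    (fun x hx => by rw [Set.mem_Ici] at hx; linarith)
    (by rw [integral_Ici_eq_integral_Ioi]; exact int_pos (by linarith))
    (fun T => {t | (2 * d T) ^ (-V) ≤ mz (d T) t})
    (fun T hT => measurableSet_le measurable_const (mz_meas hT)) (fun T h0 t ht => by
      rw [Set.mem_ofPred_eq, level h0, Set.mem_Ici, sub_nonneg, Real.le_log_iff_exp_le ht])
  rw [one_mul] at key
  exact key

theorem vol_eq {S : Set ℝ} {δ : ℝ} : ∫ t in S, mz δ t ^ (2 * (0 : ℝ)) = (volume S).toReal := by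
  simp [Measure.real]

theorem ut (hL : S_LD) : S_UT := by
  intro d hd V hV
  have key := master hL hd V 0 1 (by norm_num) (by linarith) (by linarith) (Set.Ioi 0)
    measurableSet_Ioi (fun x hx => by rw [Set.mem_Ioi]; linarith)
    (fun x hx => by rw [Set.mem_Ioi] at hx; linarith) (int_pos (by linarith))
    (fun T => {t | (2 * d T) ^ (-V) < mz (d T) t})
    (fun T hT => measurableSet_lt measurable_const (mz_meas hT)) (fun T h0 t ht => by
      rw [Set.mem_ofPred_eq, level h0, Set.mem_Ioi, sub_pos, Real.lt_log_iff_exp_lt ht])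
  rw [one_mul, sub_zero] at key
  refine key.congr fun T => ?_
  have e : {t : ℝ | t ∈ Set.Icc 0 T ∧ t ∈ {t | (2 * d T) ^ (-V) < mz (d T) t}} =
      {t : ℝ | 0 ≤ t ∧ t ≤ T ∧ (2 * d T) ^ (-V) < mz (d T) t} := by
    ext t
    simp only [Set.mem_ofPred_eq, Set.mem_Icc, and_assoc]
  rw [vol_eq, e, mul_zero, zero_mul, zero_sub]

theorem lt (hL : S_LD) : S_LT := by
  intro d hd V hV
  have key := master hL hd V 0 (-1) (by norm_num) (by linarith) (by linarith) (Set.Iio 0)
    measurableSet_Iio (fun x hx => by rw [Set.mem_Iio]; linarith)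
    (fun x hx => by rw [Set.mem_Iio] at hx; linarith)
    (by rw [← integral_Iic_eq_integral_Iio]; exact int_neg (by linarith))
    (fun T => {t | mz (d T) t < (2 * d T) ^ (-V)})
    (fun T hT => measurableSet_lt (mz_meas hT) measurable_const) (fun T h0 t ht => by
      rw [Set.mem_ofPred_eq, level h0, Set.mem_Iio, sub_neg, Real.log_lt_iff_lt_exp ht])
  have e0 : 2 * (-1 * (V - 0)) = 2 * (-V) := by ring
  rw [e0] at key
  refine key.congr fun T => ?_
  have e : {t : ℝ | t ∈ Set.Icc 0 T ∧ t ∈ {t | mz (d T) t < (2 * d T) ^ (-V)}} =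
      {t : ℝ | 0 ≤ t ∧ t ≤ T ∧ mz (d T) t < (2 * d T) ^ (-V)} := by
    ext t
    simp only [Set.mem_ofPred_eq, Set.mem_Icc, and_assoc]
  rw [vol_eq, e, mul_zero, zero_mul, zero_sub]

theorem main (hL : S_LD) (_hM : S_CM) : S_TM3 ∧ S_NM3 ∧ S_UT ∧ S_LT :=
  ⟨tm3 hL, nm3 hL, ut hL, lt hL⟩

end Pool.Agent.N748.MG.TMC

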