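import Pool.Agent.N748.MG.Stm

/-!
# Project MG (helper748), part CON (helper232): the arithmetic factor
-/

set_option autoImplicit false

namespace Pool.Agent.N748.MG.CON

open Finset Filter Topology Complex
open Pool.Agent.N748.MG

/-! ### the coefficients -/

theorem lC_zero (s : ℂ) : lC s 0 = 1 := by
  unfold lC
  simp

theorem lC_one (s : ℂ) : lC s 1 = s := by
  unfold lC
  simp

theorem lC_succ (s : ℂ) (m : ℕ) : lC s (m + 1) = lC s m * ((s + m) / ((m : ℂ) + 1)) := by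
  unfold lC
  rw [prod_range_succ]

theorem lC_bd (k : ℕ) {s : ℂ} (hs : ‖s‖ ≤ k) (m : ℕ) : ‖lC s m‖ ≤ ((m : ℝ) + 1) ^ k := by
  induction m with
  | zero => rw [lC_zero]; simp
  | succ m ih =>
    have hm : (0 : ℝ) < (m : ℝ) + 1 := by positivity
    have h1 : ‖(s + m) / ((m : ℂ) + 1)‖ ≤ (1 + 1 / ((m : ℝ) + 1)) ^ k := by
      have e : ‖((m : ℂ) + 1)‖ = (m : ℝ) + 1 := by
        have : ((m : ℂ) + 1) = (((m : ℝ) + 1 : ℝ) : ℂ) := by push_cast; ring
        rw [this, Complex.norm_real, Real.norm_of_nonneg hm.le]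
      have h2 : ‖s + m‖ ≤ k + m := by
        refine (norm_add_le _ _).trans ?_
        rw [Complex.norm_natCast]
        linarith
      have h3 := one_add_mul_le_pow (a := 1 / ((m : ℝ) + 1))
        (by have : (0 : ℝ) ≤ 1 / ((m : ℝ) + 1) := by positivity
            linarith) k
      rw [norm_div, e]
      refine le_trans ?_ h3
      rw [div_le_iff₀ hm]
      have h4 : (1 + (k : ℝ) * (1 / ((m : ℝ) + 1))) * ((m : ℝ) + 1) = (m : ℝ) + 1 + k := by
        field_simp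
      rw [h4]
      linarith
    rw [lC_succ, norm_mul]
    calc ‖lC s m‖ * ‖(s + m) / ((m : ℂ) + 1)‖ ≤ ((m : ℝ) + 1) ^ k * (1 + 1 / ((m : ℝ) + 1)) ^ k :=
          mul_le_mul ih h1 (norm_nonneg _) (by positivity)
      _ = (((m + 1 : ℕ) : ℝ) + 1) ^ k := by
          rw [← mul_pow]
          congr 1
          push_cast
          field_simp

theorem lC_cont (m : ℕ) : Continuous fun s => lC s m := by
  unfold lC
  fun_prop

/-- the majorant -/
noncomputable def bb (k c m : ℕ) : ℝ := ((m : ℝ) + c) ^ (2 * k) * (1 / 2) ^ m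

theorem bb_sum (k c : ℕ) : Summable (bb k c) := by
  have h1 : Summable fun m : ℕ => (m : ℝ) ^ (2 * k) * (1 / 2 : ℝ) ^ m :=
    summable_pow_mul_geometric_of_norm_lt_one (2 * k) (by norm_num)
  have h2 := ((summable_nat_add_iff c).2 h1).mul_left ((2 : ℝ) ^ c)
  refine h2.congr fun m => ?_
  unfold bb
  push_cast
  rw [pow_add]
  have : (2 : ℝ) ^ c * (1 / 2) ^ c = 1 := by rw [← mul_pow]; norm_num
  linear_combination (((m : ℝ) + c) ^ (2 * k) * (1 / 2) ^ m) * this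

theorem term_bd (k c : ℕ) {s : ℂ} (hs : ‖s‖ ≤ k) {x : ℂ} (hx : ‖x‖ ≤ 1 / 2) (m : ℕ) :
    ‖lC s (m + c) ^ 2 * x ^ m‖ ≤ bb k (c + 1) m := by
  rw [norm_mul, norm_pow, norm_pow]
  unfold bb
  refine mul_le_mul ?_ (pow_le_pow_left₀ (norm_nonneg _) hx m) (by positivity) (by positivity)
  have h := lC_bd k hs (m + c)
  calc ‖lC s (m + c)‖ ^ 2 ≤ ((((m + c : ℕ) : ℝ) + 1) ^ k) ^ 2 :=
        pow_le_pow_left₀ (norm_nonneg _) h 2
    _ = ((m : ℝ) + ((c + 1 : ℕ) : ℝ)) ^ (2 * k) := by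
        rw [← pow_mul, mul_comm k 2]
        congr 1
        push_cast
        ring

/-- the sum -/
noncomputable def FF (s x : ℂ) : ℂ := ∑' m : ℕ, lC s m ^ 2 * x ^ m

theorem FF_summable {s x : ℂ} (hx : ‖x‖ ≤ 1 / 2) : Summable fun m : ℕ => lC s m ^ 2 * x ^ m := by
  obtain ⟨k, hk⟩ := exists_nat_ge ‖s‖
  exact Summable.of_norm_bounded (bb_sum k 1) fun m => term_bd k 0 hk hx m

theorem FF_exp (k : ℕ) {s x : ℂ} (hs : ‖s‖ ≤ k) (hx : ‖x‖ ≤ 1 / 2) :
    ∃ q : ℂ, FF s x = 1 + s ^ 2 * x + q ∧ ‖q‖ ≤ (∑' m, bb k 3 m) * ‖x‖ ^ 2 := by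
  have hsum := FF_summable (s := s) hx
  refine ⟨x ^ 2 * ∑' m : ℕ, lC s (m + 2) ^ 2 * x ^ m, ?_, ?_⟩
  · unfold FF
    rw [← hsum.sum_add_tsum_nat_add 2, sum_range_succ, sum_range_succ, sum_range_zero, lC_zero,
      lC_one, ← tsum_mul_left]
    congr 1
    · ring
    · congr 1
      funext m
      ring
  · rw [norm_mul, norm_pow, mul_comm]
    refine mul_le_mul_of_nonneg_right ?_ (by positivity)
    exact tsum_of_norm_bounded (bb_sum k 3).hasSum fun m => term_bd k 2 hs hx m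

theorem pow_exp (k : ℕ) {s : ℂ} (hs : ‖s‖ ≤ k) {x : ℂ} (hx : ‖x‖ ≤ 1 / 2) :
    ∃ r : ℂ, (1 - x) ^ (s ^ 2) = 1 - s ^ 2 * x + r ∧
      ‖r‖ ≤ ((k : ℝ) ^ 2 + (2 * (k : ℝ) ^ 2) ^ 2 * Real.exp (2 * (k : ℝ) ^ 2)) * ‖x‖ ^ 2 := by
  have h1x : (1 : ℂ) - x ≠ 0 := by
    intro h
    have : x = 1 := by linear_combination -h
    rw [this] at hx
    norm_num at hx
  set e : ℂ := Complex.log (1 - x) + x with he
  have hxn : ‖-x‖ < 1 := by rw [norm_neg]; linarith
  have h1 : ‖e‖ ≤ ‖x‖ ^ 2 := by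
    have h2 := Complex.norm_log_one_add_sub_self_le hxn
    have h3 : Complex.log (1 + -x) - -x = e := by rw [he, ← sub_eq_add_neg]; ring
    rw [h3, norm_neg] at h2
    refine h2.trans ?_
    have h4 : (1 - ‖x‖)⁻¹ ≤ 2 := by
      rw [inv_le_comm₀ (by linarith) (by norm_num)]
      linarith
    have h5 : 0 ≤ ‖x‖ ^ 2 := by positivity
    nlinarith
  set w : ℂ := Complex.log (1 - x) * s ^ 2 with hw
  have hs2 : ‖s ^ 2‖ ≤ (k : ℝ) ^ 2 := by
    rw [norm_pow]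
    exact pow_le_pow_left₀ (norm_nonneg _) hs 2
  have hwe : w = -(s ^ 2 * x) + s ^ 2 * e := by rw [hw, he]; ring
  have hxx : ‖x‖ ^ 2 ≤ ‖x‖ := by nlinarith [norm_nonneg x]
  have hwn : ‖w‖ ≤ 2 * (k : ℝ) ^ 2 * ‖x‖ := by
    rw [hwe]
    refine (norm_add_le _ _).trans ?_
    rw [norm_neg, norm_mul, norm_mul]
    have h2 : ‖s ^ 2‖ * ‖x‖ ≤ (k : ℝ) ^ 2 * ‖x‖ := mul_le_mul_of_nonneg_right hs2 (norm_nonneg _)
    have h3 : ‖s ^ 2‖ * ‖e‖ ≤ (k : ℝ) ^ 2 * ‖x‖ :=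
      mul_le_mul hs2 (h1.trans hxx) (norm_nonneg _) (by positivity)
    linarith
  have h2 := Complex.norm_exp_sub_sum_le_norm_mul_exp w 2
  rw [sum_range_succ, sum_range_succ, sum_range_zero] at h2
  norm_num at h2
  refine ⟨s ^ 2 * e + (Complex.exp w - (1 + w)), ?_, ?_⟩
  · rw [Complex.cpow_def_of_ne_zero h1x, ← hw, hwe]
    ring
  · refine (norm_add_le _ _).trans ?_
    rw [norm_mul, add_mul]
    refine add_le_add (mul_le_mul hs2 h1 (norm_nonneg _) (by positivity)) (h2.trans ?_)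
    have h3 : Real.exp ‖w‖ ≤ Real.exp (2 * (k : ℝ) ^ 2) := by
      apply Real.exp_le_exp.2
      refine hwn.trans ?_
      have : 2 * (k : ℝ) ^ 2 * ‖x‖ ≤ 2 * (k : ℝ) ^ 2 * 1 :=
        mul_le_mul_of_nonneg_left (by linarith) (by positivity)
      linarith
    have h4 : ‖w‖ ^ 2 ≤ (2 * (k : ℝ) ^ 2) ^ 2 * ‖x‖ ^ 2 := by
      rw [← mul_pow]
      exact pow_le_pow_left₀ (norm_nonneg _) hwn 2
    calc ‖w‖ ^ 2 * Real.exp ‖w‖ ≤ ((2 * (k : ℝ) ^ 2) ^ 2 * ‖x‖ ^ 2) * Real.exp (2 * (k : ℝ) ^ 2) :=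
          mul_le_mul h4 h3 (Real.exp_pos _).le (by positivity)
      _ = _ := by ring

/-- the local factor -/
noncomputable def Gp (s x : ℂ) : ℂ := (1 - x) ^ (s ^ 2) * FF s x

theorem Gp_bd (k : ℕ) : ∃ C : ℝ, 0 ≤ C ∧ ∀ s x : ℂ, ‖s‖ ≤ k → ‖x‖ ≤ 1 / 2 →
    ‖Gp s x - 1‖ ≤ C * ‖x‖ ^ 2 := by
  set A : ℝ := ∑' m, bb k 3 m with hA
  set B : ℝ := (k : ℝ) ^ 2 + (2 * (k : ℝ) ^ 2) ^ 2 * Real.exp (2 * (k : ℝ) ^ 2) with hB
  have hA0 : 0 ≤ A := tsum_nonneg fun m => by unfold bb; positivity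
  have hB0 : 0 ≤ B := by positivity
  refine ⟨(k : ℝ) ^ 4 + B * (1 + (k : ℝ) ^ 2 + A) + A * (1 + (k : ℝ) ^ 2), by positivity,
    fun s x hs hx => ?_⟩
  obtain ⟨q, hq, hq'⟩ := FF_exp k hs hx
  obtain ⟨r, hr, hr'⟩ := pow_exp k hs hx
  have e : Gp s x - 1 = -((s ^ 2) ^ 2 * x ^ 2) + r * (1 + s ^ 2 * x + q) + q * (1 - s ^ 2 * x) := by
    unfold Gp
    rw [hq, hr]
    ring
  have hx1 : ‖x‖ ≤ 1 := by linarith
  have hxx : ‖x‖ ^ 2 ≤ 1 := by nlinarith [norm_nonneg x]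
  have hs2 : ‖s ^ 2‖ ≤ (k : ℝ) ^ 2 := by
    rw [norm_pow]
    exact pow_le_pow_left₀ (norm_nonneg _) hs 2
  have hsx : ‖s ^ 2 * x‖ ≤ (k : ℝ) ^ 2 := by
    rw [norm_mul]
    calc ‖s ^ 2‖ * ‖x‖ ≤ (k : ℝ) ^ 2 * 1 := mul_le_mul hs2 hx1 (norm_nonneg _) (by positivity)
      _ = _ := mul_one _
  have hqA : ‖q‖ ≤ A := hq'.trans (mul_le_of_le_one_right hA0 hxx)
  have n1 : ‖-((s ^ 2) ^ 2 * x ^ 2)‖ ≤ (k : ℝ) ^ 4 * ‖x‖ ^ 2 := by
    rw [norm_neg, norm_mul, norm_pow (s ^ 2) 2, norm_pow x 2]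
    refine mul_le_mul_of_nonneg_right ?_ (by positivity)
    calc ‖s ^ 2‖ ^ 2 ≤ ((k : ℝ) ^ 2) ^ 2 := pow_le_pow_left₀ (norm_nonneg _) hs2 2
      _ = _ := by ring
  have n2 : ‖r * (1 + s ^ 2 * x + q)‖ ≤ (B * ‖x‖ ^ 2) * (1 + (k : ℝ) ^ 2 + A) := by
    rw [norm_mul]
    refine mul_le_mul hr' ?_ (norm_nonneg _) (by positivity)
    refine (norm_add_le _ _).trans (add_le_add ((norm_add_le _ _).trans ?_) hqA)
    rw [norm_one]
    linarith
  have n3 : ‖q * (1 - s ^ 2 * x)‖ ≤ (A * ‖x‖ ^ 2) * (1 + (k : ℝ) ^ 2) := by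
    rw [norm_mul]
    refine mul_le_mul hq' ?_ (norm_nonneg _) (by positivity)
    refine (norm_sub_le _ _).trans ?_
    rw [norm_one]
    linarith
  rw [e]
  refine (norm_add_le _ _).trans ?_
  refine (add_le_add ((norm_add_le _ _).trans (add_le_add n1 n2)) n3).trans (le_of_eq ?_)
  ring

theorem px (p : Nat.Primes) : ‖(1 / (p : ℂ))‖ = 1 / (p : ℝ) ∧ ‖(1 / (p : ℂ))‖ ≤ 1 / 2 := by
  have e : ‖(1 / (p : ℂ))‖ = 1 / (p : ℝ) := by
    rw [norm_div, norm_one, Complex.norm_natCast]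
  refine ⟨e, ?_⟩
  rw [e]
  have : (2 : ℝ) ≤ p := by exact_mod_cast p.2.two_le
  exact one_div_le_one_div_of_le (by norm_num) this

theorem sum_px (C : ℝ) : Summable fun p : Nat.Primes => C * (1 / (p : ℝ)) ^ 2 := by
  have h : Summable fun n : ℕ => 1 / (n : ℝ) ^ 2 := Real.summable_one_div_nat_pow.2 (by norm_num)
  have h2 := (h.comp_injective (i := fun p : Nat.Primes => (p : ℕ)) Subtype.coe_injective).mul_left C
  refine h2.congr fun p => ?_
  simp only [Function.comp_apply, div_pow, one_pow]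

theorem aC_eq (s : ℂ) : aC s = ∏' p : Nat.Primes, (1 + (Gp s (1 / (p : ℂ)) - 1)) := by
  unfold aC Gp FF
  congr 1
  funext p
  ring

theorem FF_cont (k : ℕ) {x : ℂ} (hx : ‖x‖ ≤ 1 / 2) :
    ContinuousOn (fun s => FF s x) (Metric.closedBall 0 k) := by
  unfold FF
  refine continuousOn_tsum (u := bb k 1) (fun m => ?_) (bb_sum k 1) fun m s hs => ?_
  · exact (((lC_cont m).pow 2).mul continuous_const).continuousOn
  · rw [mem_closedBall_zero_iff] at hs
    exact term_bd k 0 hs hx m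

theorem Gp_cont (k : ℕ) {x : ℂ} (hx : ‖x‖ ≤ 1 / 2) :
    ContinuousOn (fun s => Gp s x) (Metric.closedBall 0 k) := by
  have h1x : (1 : ℂ) - x ≠ 0 := by
    intro h
    have : x = 1 := by linear_combination -h
    rw [this] at hx
    norm_num at hx
  unfold Gp
  refine ContinuousOn.mul ?_ (FF_cont k hx)
  exact (Continuous.const_cpow (continuous_id.pow 2) (Or.inl h1x)).continuousOn

theorem aC_cont : Continuous aC := by
  rw [continuous_iff_continuousAt]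
  intro s0
  obtain ⟨k, hk⟩ := exists_nat_gt ‖s0‖
  have hmem : Metric.closedBall (0 : ℂ) k ∈ 𝓝 s0 := by
    refine Filter.mem_of_superset (Metric.isOpen_ball.mem_nhds ?_) Metric.ball_subset_closedBall
    rw [mem_ball_zero_iff]
    exact hk
  obtain ⟨C, hC, hCb⟩ := Gp_bd k
  have h := Summable.hasProdUniformlyOn_one_add (f := fun (p : Nat.Primes) (s : ℂ) =>
    Gp s (1 / (p : ℂ)) - 1) (isCompact_closedBall (0 : ℂ) k) (sum_px C)
    (Eventually.of_forall fun p s hs => by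
      rw [mem_closedBall_zero_iff] at hs
      have h1 := hCb s (1 / (p : ℂ)) hs (px p).2
      rwa [(px p).1] at h1)
    (fun p => (Gp_cont k (px p).2).sub continuousOn_const)
  have h2 := h.tendstoUniformlyOn
  have h3 : ContinuousOn (fun s => ∏' p : Nat.Primes, (1 + (Gp s (1 / (p : ℂ)) - 1)))
      (Metric.closedBall 0 k) := by
    refine h2.continuousOn (Eventually.of_forall fun I => ?_).frequently
    refine continuousOn_finsetProd I fun p _ => ?_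
    exact continuousOn_const.add ((Gp_cont k (px p).2).sub continuousOn_const)
  have h4 : ContinuousOn aC (Metric.closedBall 0 k) := h3.congr fun s _ => aC_eq s
  exact h4.continuousAt hmem

/-! ### real points -/

/-- the real coefficients -/
noncomputable def lR (V : ℝ) (m : ℕ) : ℝ := ∏ i ∈ range m, (V + i) / ((i : ℝ) + 1)

theorem lC_ofReal (V : ℝ) (m : ℕ) : lC V m = ((lR V m : ℝ) : ℂ) := by
  unfold lC lR
  push_cast
  rfl

theorem real_pos (V : ℝ) : ∃ r : ℝ, 0 < r ∧ aC V = r := by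
  obtain ⟨k, hk⟩ := exists_nat_ge ‖(V : ℂ)‖
  obtain ⟨C, hC, hCb⟩ := Gp_bd k
  set g : Nat.Primes → ℝ := fun p => (1 - 1 / (p : ℝ)) ^ (V ^ 2) *
    ∑' m : ℕ, lR V m ^ 2 * (1 / (p : ℝ)) ^ m with hg
  have h12 : ∀ p : Nat.Primes, (1 : ℝ) / 2 ≤ 1 - 1 / (p : ℝ) := by
    intro p
    have h := (px p).2
    rw [(px p).1] at h
    linarith
  have hsum : ∀ p : Nat.Primes, Summable fun m : ℕ => lR V m ^ 2 * (1 / (p : ℝ)) ^ m := by
    intro p
    have h := (FF_summable (s := V) (px p).2).norm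
    refine Summable.of_norm (h.congr fun m => ?_)
    rw [lC_ofReal, norm_mul, norm_mul, norm_pow, norm_pow, norm_pow, norm_pow, Complex.norm_real,
      (px p).1, Real.norm_of_nonneg (r := 1 / (p : ℝ)) (by positivity)]
  have hgC : ∀ p : Nat.Primes, Gp V (1 / (p : ℂ)) = ((g p : ℝ) : ℂ) := by
    intro p
    unfold Gp FF
    rw [hg]
    simp only
    rw [Complex.ofReal_mul, Complex.ofReal_cpow (by linarith [h12 p]), Complex.ofReal_tsum]
    congr 1
    · push_cast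
      rfl
    · congr 1
      funext m
      rw [lC_ofReal]
      push_cast
      rfl
  have hgpos : ∀ p, 0 < g p := by
    intro p
    rw [hg]
    refine mul_pos (Real.rpow_pos_of_pos (by linarith [h12 p]) _) ?_
    have h1 := (hsum p).le_tsum 0 fun m _ => by positivity
    have h2 : lR V 0 ^ 2 * (1 / (p : ℝ)) ^ 0 = 1 := by
      unfold lR
      simp
    rw [h2] at h1
    linarith
  have hgs : Summable fun p => g p - 1 := by
    refine Summable.of_norm_bounded (sum_px C) fun p => ?_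
    have h1 := hCb V (1 / (p : ℂ)) hk (px p).2
    rw [(px p).1, hgC] at h1
    rwa [← Complex.ofReal_one, ← Complex.ofReal_sub, Complex.norm_real] at h1
  have hlog : Summable fun p => Real.log (g p) := by
    refine (Real.summable_log_one_add_of_summable hgs).congr fun p => ?_
    rw [add_sub_cancel]
  have hprod := Real.hasProd_of_hasSum_log hgpos hlog.hasSum
  refine ⟨Real.exp (∑' p, Real.log (g p)), Real.exp_pos _, ?_⟩
  have h1 := hprod.map Complex.ofRealHom Complex.continuous_ofReal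
  rw [aC_eq]
  have h2 : (fun p : Nat.Primes => 1 + (Gp V (1 / (p : ℂ)) - 1)) = Complex.ofRealHom ∘ g := by
    funext p
    rw [hgC, add_sub_cancel]
    rfl
  rw [h2]
  exact h1.tprod_eq

theorem main : S_CON := ⟨aC_cont, real_pos⟩

end Pool.Agent.N748.MG.CON
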