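import Pool.Agent.N748.MG.Stm

set_option autoImplicit false

namespace Pool.Agent.N748.MG.LLT

open Filter MeasureTheory Topology Complex

/-- the kernel -/
noncomputable def k0 (x : ℝ) : ℝ := Real.sinc x ^ 2 + Real.sinc (x - Real.pi / 2) ^ 2

lemma k0_cont : Continuous k0 := by
  unfold k0
  fun_prop

lemma sinc_sq_le (y : ℝ) : Real.sinc y ^ 2 * (1 + y ^ 2) ≤ 2 := by
  have h1 : Real.sinc y ^ 2 ≤ 1 := by
    rw [sq_le_one_iff_abs_le_one]
    exact Real.abs_sinc_le_one y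
  have h2 : Real.sinc y ^ 2 * y ^ 2 ≤ 1 := by
    rcases eq_or_ne y 0 with rfl | hy
    · simp
    · rw [Real.sinc_of_ne_zero hy, div_pow, div_mul_cancel₀ _ (by positivity)]
      exact Real.sin_sq_le_one y
  linarith

lemma sinc_sq_ge (y : ℝ) : Real.sin y ^ 2 ≤ Real.sinc y ^ 2 * (1 + y ^ 2) := by
  rcases eq_or_ne y 0 with rfl | hy
  · simp
  · rw [Real.sinc_of_ne_zero hy, div_pow, mul_add, div_mul_cancel₀ _ (by positivity)]
    have : 0 ≤ Real.sin y ^ 2 / y ^ 2 := by positivity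
    linarith

lemma k0_ge (x : ℝ) : 1 / 6 ≤ k0 x * (1 + x ^ 2) := by
  have h1 := sinc_sq_ge x
  have h2 := sinc_sq_ge (x - Real.pi / 2)
  rw [Real.sin_sub_pi_div_two, neg_sq] at h2
  have h3 : 1 + (x - Real.pi / 2) ^ 2 ≤ 6 * (1 + x ^ 2) := by
    have := Real.pi_pos
    have := Real.pi_le_four
    have h4 := Real.pi_lt_d2
    nlinarith [sq_nonneg (x + Real.pi / 2)]
  have h5 : Real.sinc (x - Real.pi / 2) ^ 2 * (1 + (x - Real.pi / 2) ^ 2) ≤
      Real.sinc (x - Real.pi / 2) ^ 2 * (6 * (1 + x ^ 2)) := mul_le_mul_of_nonneg_left h3 (sq_nonneg _)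
  have h6 := Real.sin_sq_add_cos_sq x
  have h7 : 0 ≤ Real.sinc x ^ 2 * (1 + x ^ 2) := by positivity
  unfold k0
  nlinarith

lemma k0_pos (x : ℝ) : 0 < k0 x := by
  have h1 := k0_ge x
  have h2 : 0 < 1 + x ^ 2 := by positivity
  by_contra h
  push Not at h
  nlinarith

lemma k0_le (x : ℝ) : k0 x ≤ 14 * (1 + x ^ 2)⁻¹ := by
  have h1 := sinc_sq_le x
  have h2 := sinc_sq_le (x - Real.pi / 2)
  have h2' : 0 < 1 + x ^ 2 := by positivity
  rw [← div_eq_mul_inv, le_div_iff₀ h2']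
  have h3 : 1 + x ^ 2 ≤ 6 * (1 + (x - Real.pi / 2) ^ 2) := by
    have := Real.pi_pos
    have h4 := Real.pi_lt_d2
    nlinarith [sq_nonneg (x - Real.pi)]
  have h5 : Real.sinc (x - Real.pi / 2) ^ 2 * (1 + x ^ 2) ≤
      Real.sinc (x - Real.pi / 2) ^ 2 * (6 * (1 + (x - Real.pi / 2) ^ 2)) := mul_le_mul_of_nonneg_left h3 (sq_nonneg _)
  unfold k0
  nlinarith

lemma k0_int : Integrable k0 := by
  refine (integrable_inv_one_add_sq.const_mul 14).mono' k0_cont.aestronglyMeasurable (Eventually.of_forall fun x => ?_)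
  rw [Real.norm_of_nonneg (k0_pos x).le]
  exact k0_le x

/-- the square of `sinc` as a double integral -/
lemma sinc_int (y : ℝ) : ((Real.sinc y : ℝ) : ℂ) = (1 / 2) * ∫ a in Set.Icc (-1:ℝ) 1, Complex.exp (a * y * I) := by
  rw [integral_Icc_eq_integral_Ioc, ← intervalIntegral.integral_of_le (by norm_num)]
  rcases eq_or_ne y 0 with rfl | hy
  · simp
    norm_num
  · have h1 := integral_exp_mul_I_eq_sinc y
    have h2 := intervalIntegral.integral_comp_mul_right (a := -1) (b := 1) (fun t : ℝ => Complex.exp (t * I)) hy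
    simp only [neg_mul, one_mul] at h2
    have h3 : (∫ a in (-1:ℝ)..1, Complex.exp (a * y * I)) = ∫ x in (-1:ℝ)..1, Complex.exp ((x * y : ℝ) * I) := by
      refine intervalIntegral.integral_congr fun a _ => ?_
      push_cast
      rfl
    rw [h3, h2, h1, real_smul]
    have : (y:ℂ) ≠ 0 := by exact_mod_cast hy
    push_cast
    field_simp

/-- the square -/
noncomputable def Q : Measure (ℝ × ℝ) := (volume.restrict (Set.Icc (-1:ℝ) 1)).prod (volume.restrict (Set.Icc (-1:ℝ) 1))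

instance : IsFiniteMeasure Q := by unfold Q; infer_instance

lemma sinc_sq_int (y : ℝ) : ((Real.sinc y ^ 2 : ℝ) : ℂ) = (1 / 4) * ∫ p, Complex.exp ((p.1 - p.2 : ℝ) * y * I) ∂Q := by
  have h1 := sinc_int y
  have h2 := sinc_int (-y)
  rw [Real.sinc_neg] at h2
  have h3 : ∫ p, Complex.exp ((p.1 - p.2 : ℝ) * y * I) ∂Q =
      (∫ a in Set.Icc (-1:ℝ) 1, Complex.exp (a * y * I)) * ∫ b in Set.Icc (-1:ℝ) 1, Complex.exp (b * (-y : ℝ) * I) := by
    unfold Q
    rw [← integral_prod_mul]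
    refine integral_congr_ae (Eventually.of_forall fun p => ?_)
    simp only
    rw [← Complex.exp_add]
    congr 1
    push_cast
    ring
  rw [h3]
  push_cast
  rw [sq]
  nth_rewrite 1 [h1]
  rw [h2]
  push_cast
  ring

/-- the Fubini identity -/
lemma fub (ν : Measure ℝ) [IsFiniteMeasure ν] (c η : ℝ) :
    ∫ x, ((Real.sinc (x - c) ^ 2 : ℝ) : ℂ) * Complex.exp (η * x * I) ∂ν =
      (1 / 4) * ∫ p, Complex.exp (-((p.1 - p.2 : ℝ) * c * I)) * (∫ x, Complex.exp ((p.1 - p.2 + η : ℝ) * x * I) ∂ν) ∂Q := by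
  have h1 : ∀ x : ℝ, ((Real.sinc (x - c) ^ 2 : ℝ) : ℂ) * Complex.exp (η * x * I) =
      (1 / 4) * ∫ p, Complex.exp (-((p.1 - p.2 : ℝ) * c * I)) * Complex.exp ((p.1 - p.2 + η : ℝ) * x * I) ∂Q := by
    intro x
    rw [sinc_sq_int, mul_assoc, ← integral_mul_const]
    congr 1
    refine integral_congr_ae (Eventually.of_forall fun p => ?_)
    simp only
    rw [← Complex.exp_add, ← Complex.exp_add]
    congr 1
    push_cast
    ring
  simp_rw [h1]
  rw [integral_const_mul]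
  congr 1
  rw [integral_integral_swap]
  · refine integral_congr_ae (Eventually.of_forall fun p => ?_)
    simp only
    rw [integral_const_mul]
  · refine Integrable.of_bound (C := 1) ?_ (Eventually.of_forall fun q => ?_)
    · apply Continuous.aestronglyMeasurable
      simp only [Function.uncurry_def]
      fun_prop
    · simp only [Function.uncurry_def]
      have e1 : -(((q.2.1 - q.2.2 : ℝ) : ℂ) * (c:ℂ) * I) = (((-(q.2.1 - q.2.2) * c : ℝ)) : ℂ) * I := by push_cast; ring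
      have e2 : ((q.2.1 - q.2.2 + η : ℝ) : ℂ) * (q.1:ℂ) * I = ((((q.2.1 - q.2.2 + η) * q.1 : ℝ)) : ℂ) * I := by
        push_cast; ring
      rw [norm_mul, e1, e2, Complex.norm_exp_ofReal_mul_I, Complex.norm_exp_ofReal_mul_I, mul_one]


/-- the difference for the kernel -/
lemma k0_diff (ν γ : Measure ℝ) [IsFiniteMeasure ν] [IsFiniteMeasure γ] (η : ℝ) :
    ‖(∫ x, ((k0 x : ℝ) : ℂ) * Complex.exp (η * x * I) ∂ν) - ∫ x, ((k0 x : ℝ) : ℂ) * Complex.exp (η * x * I) ∂γ‖ ≤
      (1 / 2) * ∫ p, ‖(∫ x, Complex.exp ((p.1 - p.2 + η : ℝ) * x * I) ∂ν) -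
        ∫ x, Complex.exp ((p.1 - p.2 + η : ℝ) * x * I) ∂γ‖ ∂Q := by
  have hcont : ∀ (κ : Measure ℝ) [IsFiniteMeasure κ], Continuous fun ξ : ℝ => ∫ x, Complex.exp (ξ * x * I) ∂κ := by
    intro κ _
    have := continuous_charFun (μ := κ)
    refine this.congr fun ξ => ?_
    rw [charFun_apply_real]
  have hb : ∀ (κ : Measure ℝ) [IsFiniteMeasure κ] (ξ : ℝ), ‖∫ x, Complex.exp (ξ * x * I) ∂κ‖ ≤ κ.real Set.univ := by
    intro κ _ ξ
    rw [← charFun_apply_real]
    exact norm_charFun_le ξ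
  have hi : ∀ (κ : Measure ℝ) [IsFiniteMeasure κ] (c : ℝ), Integrable (fun p : ℝ × ℝ =>
      Complex.exp (-((p.1 - p.2 : ℝ) * c * I)) * (∫ x, Complex.exp ((p.1 - p.2 + η : ℝ) * x * I) ∂κ)) Q := by
    intro κ _ c
    refine Integrable.of_bound (C := κ.real Set.univ) ?_ (Eventually.of_forall fun p => ?_)
    · refine Continuous.aestronglyMeasurable (Continuous.mul (by fun_prop) ?_)
      exact (hcont κ).comp (by fun_prop : Continuous fun p : ℝ × ℝ => p.1 - p.2 + η)
    · have e1 : -(((p.1 - p.2 : ℝ) : ℂ) * (c:ℂ) * I) = (((-(p.1 - p.2) * c : ℝ)) : ℂ) * I := by push_cast; ring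
      rw [norm_mul, e1, Complex.norm_exp_ofReal_mul_I, one_mul]
      exact hb κ _
  have hk : ∀ (κ : Measure ℝ) [IsFiniteMeasure κ], ∫ x, ((k0 x : ℝ) : ℂ) * Complex.exp (η * x * I) ∂κ =
      (1 / 4) * (∫ p, Complex.exp (-((p.1 - p.2 : ℝ) * (0:ℝ) * I)) * (∫ x, Complex.exp ((p.1 - p.2 + η : ℝ) * x * I) ∂κ) ∂Q) +
      (1 / 4) * (∫ p, Complex.exp (-((p.1 - p.2 : ℝ) * (Real.pi / 2 : ℝ) * I)) *
        (∫ x, Complex.exp ((p.1 - p.2 + η : ℝ) * x * I) ∂κ) ∂Q) := by
    intro κ _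
    rw [← fub, ← fub, ← integral_add]
    · refine integral_congr_ae (Eventually.of_forall fun x => ?_)
      simp only [k0, sub_zero]
      push_cast
      ring
    all_goals
      refine Integrable.of_bound (C := 1) ?_ (Eventually.of_forall fun x => ?_)
      · apply Continuous.aestronglyMeasurable
        fun_prop
      · rw [norm_mul, ← Complex.ofReal_mul, Complex.norm_exp_ofReal_mul_I, mul_one, Complex.norm_real,
          Real.norm_of_nonneg (sq_nonneg _), sq_le_one_iff_abs_le_one]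
        exact Real.abs_sinc_le_one _
  have hd : ∀ c : ℝ, ‖(∫ p, Complex.exp (-((p.1 - p.2 : ℝ) * c * I)) * (∫ x, Complex.exp ((p.1 - p.2 + η : ℝ) * x * I) ∂ν) ∂Q) -
      (∫ p, Complex.exp (-((p.1 - p.2 : ℝ) * c * I)) * (∫ x, Complex.exp ((p.1 - p.2 + η : ℝ) * x * I) ∂γ) ∂Q)‖ ≤
      ∫ p, ‖(∫ x, Complex.exp ((p.1 - p.2 + η : ℝ) * x * I) ∂ν) -
        ∫ x, Complex.exp ((p.1 - p.2 + η : ℝ) * x * I) ∂γ‖ ∂Q := by
    intro c
    rw [← integral_sub (hi ν c) (hi γ c)]
    refine (norm_integral_le_integral_norm _).trans (le_of_eq ?_)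
    refine integral_congr_ae (Eventually.of_forall fun p => ?_)
    simp only
    have e1 : -(((p.1 - p.2 : ℝ) : ℂ) * (c:ℂ) * I) = (((-(p.1 - p.2) * c : ℝ)) : ℂ) * I := by push_cast; ring
    rw [← mul_sub, norm_mul, e1, Complex.norm_exp_ofReal_mul_I, one_mul]
  rw [hk ν, hk γ]
  set D := ∫ p, ‖(∫ x, Complex.exp ((p.1 - p.2 + η : ℝ) * x * I) ∂ν) -
        ∫ x, Complex.exp ((p.1 - p.2 + η : ℝ) * x * I) ∂γ‖ ∂Q
  have h1 := hd 0
  have h2 := hd (Real.pi / 2)
  set a1 := (∫ p, Complex.exp (-((p.1 - p.2 : ℝ) * (0:ℝ) * I)) * (∫ x, Complex.exp ((p.1 - p.2 + η : ℝ) * x * I) ∂ν) ∂Q)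
  set a2 := (∫ p, Complex.exp (-((p.1 - p.2 : ℝ) * (0:ℝ) * I)) * (∫ x, Complex.exp ((p.1 - p.2 + η : ℝ) * x * I) ∂γ) ∂Q)
  set b1 := (∫ p, Complex.exp (-((p.1 - p.2 : ℝ) * (Real.pi / 2 : ℝ) * I)) *
        (∫ x, Complex.exp ((p.1 - p.2 + η : ℝ) * x * I) ∂ν) ∂Q)
  set b2 := (∫ p, Complex.exp (-((p.1 - p.2 : ℝ) * (Real.pi / 2 : ℝ) * I)) *
        (∫ x, Complex.exp ((p.1 - p.2 + η : ℝ) * x * I) ∂γ) ∂Q)
  have h3 : 1 / 4 * a1 + 1 / 4 * b1 - (1 / 4 * a2 + 1 / 4 * b2) = (1 / 4) * (a1 - a2) + (1 / 4) * (b1 - b2) := by ring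
  rw [h3]
  refine (norm_add_le _ _).trans ?_
  rw [norm_mul, norm_mul]
  norm_num
  linarith

/-- the Gaussian integral over the square -/
lemma Q_gauss (η L : ℝ) (hL : 0 < L) :
    ∫ p, Real.exp (-((p.1 - p.2 + η) ^ 2 * L / 4)) ∂Q ≤ 2 * Real.sqrt (Real.pi / (L / 4)) := by
  have hg : ∀ b : ℝ, ∫ a in Set.Icc (-1:ℝ) 1, Real.exp (-((a - b + η) ^ 2 * L / 4)) ≤ Real.sqrt (Real.pi / (L / 4)) := by
    intro b
    rw [← integral_gaussian (L / 4)]
    have h1 : ∫ x : ℝ, Real.exp (-(L / 4) * x ^ 2) = ∫ a : ℝ, Real.exp (-((a - b + η) ^ 2 * L / 4)) := by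
      rw [← integral_add_right_eq_self (fun x : ℝ => Real.exp (-(L / 4) * x ^ 2)) (-b + η)]
      refine integral_congr_ae (Eventually.of_forall fun a => ?_)
      simp only
      congr 1
      ring
    rw [h1]
    refine setIntegral_le_integral ?_ (Eventually.of_forall fun a => (Real.exp_pos _).le)
    have h2 := (integrable_exp_neg_mul_sq (b := L / 4) (by positivity)).comp_add_right (-b + η)
    refine h2.congr (Eventually.of_forall fun a => ?_)
    simp only
    congr 1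
    ring
  have hI : Integrable (fun p : ℝ × ℝ => Real.exp (-((p.1 - p.2 + η) ^ 2 * L / 4))) Q := by
    refine Integrable.of_bound (C := 1) ?_ (Eventually.of_forall fun p => ?_)
    · apply Continuous.aestronglyMeasurable
      fun_prop
    · rw [Real.norm_of_nonneg (Real.exp_pos _).le, Real.exp_le_one_iff]
      have : 0 ≤ (p.1 - p.2 + η) ^ 2 * L / 4 := by positivity
      linarith
  unfold Q at hI ⊢
  rw [integral_prod_symm _ hI]
  have h3 : ∫ b in Set.Icc (-1:ℝ) 1, (∫ a in Set.Icc (-1:ℝ) 1, Real.exp (-((a - b + η) ^ 2 * L / 4))) ≤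
      ∫ b in Set.Icc (-1:ℝ) 1, Real.sqrt (Real.pi / (L / 4)) := by
    refine integral_mono_of_nonneg (Eventually.of_forall fun b => integral_nonneg fun a => (Real.exp_pos _).le)
      (integrable_const _) (Eventually.of_forall fun b => hg b)
  refine h3.trans ?_
  simp
  norm_num

open ProbabilityTheory in
/-- the comparison with the Gaussian law -/
lemma gauss_eq {L : ℝ} (hL : 0 < L) (f : ℝ → ℂ) :
    (Real.sqrt (Real.pi * L) : ℂ) * ∫ x, f x ∂(gaussianReal 0 (L / 2).toNNReal) = ∫ x, f x * Real.exp (-(x ^ 2 / L)) := by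
  have hv : (L / 2).toNNReal ≠ 0 := by
    rw [Ne, Real.toNNReal_eq_zero, not_le]
    positivity
  rw [integral_gaussianReal_eq_integral_smul hv, ← integral_const_mul]
  refine integral_congr_ae (Eventually.of_forall fun x => ?_)
  simp only
  rw [gaussianPDFReal_def, real_smul]
  have h1 : ((L / 2).toNNReal : ℝ) = L / 2 := Real.coe_toNNReal _ (by positivity)
  simp only [h1, sub_zero]
  have h2 : 2 * Real.pi * (L / 2) = Real.pi * L := by ring
  have h3 : -x ^ 2 / (2 * (L / 2)) = -(x ^ 2 / L) := by field_simp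
  rw [h2, h3]
  have h4 : (Real.sqrt (Real.pi * L) : ℂ) ≠ 0 := by
    have : 0 < Real.sqrt (Real.pi * L) := by positivity
    exact_mod_cast this.ne'
  push_cast
  field_simp

open ProbabilityTheory in
lemma gauss_cf {L : ℝ} (hL : 0 < L) (ξ : ℝ) :
    ∫ x, Complex.exp (ξ * x * I) ∂(gaussianReal 0 (L / 2).toNNReal) = (Real.exp (-(ξ ^ 2 * L / 4)) : ℂ) := by
  rw [← charFun_apply_real, charFun_gaussianReal]
  have h1 : ((L / 2).toNNReal : ℝ) = L / 2 := Real.coe_toNNReal _ (by positivity)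
  have h2 : (((L / 2).toNNReal : ℝ) : ℂ) = ((L / 2 : ℝ) : ℂ) := by rw [h1]
  push_cast at h2 ⊢
  rw [h2]
  congr 1
  ring

open ProbabilityTheory in
lemma gauss_lim (Λ : ℝ → ℝ) (hΛ : Tendsto Λ atTop atTop) (η : ℝ) :
    Tendsto (fun T => (Real.sqrt (Real.pi * Λ T) : ℂ) *
      ∫ x, ((k0 x : ℝ) : ℂ) * Complex.exp (η * x * I) ∂(gaussianReal 0 (Λ T / 2).toNNReal)) atTop
      (𝓝 (∫ x, ((k0 x : ℝ) : ℂ) * Complex.exp (η * x * I))) := by
  have h1 : Tendsto (fun T => ∫ x, ((k0 x : ℝ) : ℂ) * Complex.exp (η * x * I) * Real.exp (-(x ^ 2 / Λ T))) atTop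
      (𝓝 (∫ x, ((k0 x : ℝ) : ℂ) * Complex.exp (η * x * I))) := by
    refine tendsto_integral_filter_of_dominated_convergence k0 ?_ ?_ k0_int ?_
    · refine Eventually.of_forall fun T => Continuous.aestronglyMeasurable ?_
      have := k0_cont
      fun_prop
    · filter_upwards [hΛ.eventually_gt_atTop 0] with T hT
      refine Eventually.of_forall fun x => ?_
      rw [norm_mul, norm_mul, ← Complex.ofReal_mul, Complex.norm_exp_ofReal_mul_I, mul_one, Complex.norm_real,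
        Complex.norm_real, Real.norm_of_nonneg (k0_pos x).le, Real.norm_of_nonneg (Real.exp_pos _).le]
      have h2 : Real.exp (-(x ^ 2 / Λ T)) ≤ 1 := by
        rw [Real.exp_le_one_iff]
        have : 0 ≤ x ^ 2 / Λ T := by positivity
        linarith
      exact mul_le_of_le_one_right (k0_pos x).le h2
    · refine Eventually.of_forall fun x => ?_
      have h2 : Tendsto (fun T => Real.exp (-(x ^ 2 / Λ T))) atTop (𝓝 1) := by
        have h3 : Tendsto (fun T => -(x ^ 2 / Λ T)) atTop (𝓝 (-0)) := (hΛ.const_div_atTop (x ^ 2)).neg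
        have h4 := (Real.continuous_exp.tendsto (-0)).comp h3
        rw [neg_zero, Real.exp_zero] at h4
        exact h4
      have h5 : Tendsto (fun T => ((Real.exp (-(x ^ 2 / Λ T)) : ℝ) : ℂ)) atTop (𝓝 ((1:ℝ) : ℂ)) :=
        (Complex.continuous_ofReal.tendsto 1).comp h2
      have h6 := h5.const_mul (((k0 x : ℝ) : ℂ) * Complex.exp (η * x * I))
      simpa using h6
  refine h1.congr' ?_
  filter_upwards [hΛ.eventually_gt_atTop 0] with T hT
  rw [gauss_eq hT]

/-- the convergence of the transforms -/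
lemma key (ν : ℝ → Measure ℝ) (Λ : ℝ → ℝ) (g : ℝ → ℂ) (hν : ∀ᶠ T in atTop, IsFiniteMeasure (ν T))
    (hΛ : Tendsto Λ atTop atTop) (hg : Continuous g) (hg0 : g 0 = 1)
    (H : ∀ R : ℝ, 0 < R → ∀ ε : ℝ, 0 < ε → ∀ᶠ T in atTop, ∀ ξ : ℝ, |ξ| ≤ R →
      ‖(∫ x, Complex.exp (ξ * x * I) ∂(ν T)) - g ξ * Real.exp (-(ξ ^ 2 * Λ T / 4))‖ ≤
        ε * Real.exp (-(ξ ^ 2 * Λ T / 4))) (η : ℝ) :
    Tendsto (fun T => (Real.sqrt (Real.pi * Λ T) : ℂ) * ∫ x, ((k0 x : ℝ) : ℂ) * Complex.exp (η * x * I) ∂(ν T)) atTop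
      (𝓝 (∫ x, ((k0 x : ℝ) : ℂ) * Complex.exp (η * x * I))) := by
  have h1 := gauss_lim Λ hΛ η
  have h2 : Tendsto (fun T => (Real.sqrt (Real.pi * Λ T) : ℂ) * (∫ x, ((k0 x : ℝ) : ℂ) * Complex.exp (η * x * I) ∂(ν T)) -
      (Real.sqrt (Real.pi * Λ T) : ℂ) *
      ∫ x, ((k0 x : ℝ) : ℂ) * Complex.exp (η * x * I) ∂(ProbabilityTheory.gaussianReal 0 (Λ T / 2).toNNReal)) atTop (𝓝 0) := by
    rw [Metric.tendsto_nhds]
    intro ε hε
    simp only [dist_zero_right]
    set R : ℝ := 2 + |η| with hR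
    have hRpos : 0 < R := by positivity
    set e : ℝ := ε / (8 * Real.pi) with he
    have hepos : 0 < e := by positivity
    obtain ⟨B, hB⟩ := (isCompact_Icc (a := -R) (b := R)).exists_bound_of_continuousOn
      (f := fun ξ => g ξ - 1) (by fun_prop)
    have hB0 : 0 ≤ B := (norm_nonneg _).trans (hB 0 ⟨by linarith, hRpos.le⟩)
    obtain ⟨d, hd, hd2⟩ := Metric.continuousAt_iff.mp (hg.continuousAt (x := (0:ℝ))) e hepos
    rw [hg0] at hd2
    have hlim : Tendsto (fun T => 2 * B * (Real.sqrt (Real.pi * Λ T) * Real.exp (-(d ^ 2 * Λ T / 4)))) atTop (𝓝 0) := by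
      have h3 := (tendsto_rpow_mul_exp_neg_mul_atTop_nhds_zero (1 / 2) (d ^ 2 / 4) (by positivity)).comp hΛ
      have h4 := h3.const_mul (2 * B * Real.sqrt Real.pi)
      rw [mul_zero] at h4
      refine h4.congr' ?_
      filter_upwards [hΛ.eventually_gt_atTop 0] with T hT
      simp only [Function.comp]
      rw [← Real.sqrt_eq_rpow, Real.sqrt_mul Real.pi_pos.le]
      have : -(d ^ 2 / 4) * Λ T = -(d ^ 2 * Λ T / 4) := by ring
      rw [this]
      ring
    have hlim2 := hlim.eventually_lt_const (u := ε / 2) (by positivity)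
    filter_upwards [hν, hΛ.eventually_gt_atTop 0, H R hRpos e hepos, hlim2] with T f1 f2 f3 f4
    rw [← mul_sub, norm_mul, Complex.norm_real, Real.norm_of_nonneg (Real.sqrt_nonneg _)]
    have h5 := k0_diff (ν T) (ProbabilityTheory.gaussianReal 0 (Λ T / 2).toNNReal) η
    have hA : 0 < Real.sqrt (Real.pi * Λ T) := by positivity
    -- pointwise bound
    have h6 : ∀ ξ : ℝ, |ξ| ≤ R → ‖(∫ x, Complex.exp (ξ * x * I) ∂(ν T)) -
        ∫ x, Complex.exp (ξ * x * I) ∂(ProbabilityTheory.gaussianReal 0 (Λ T / 2).toNNReal)‖ ≤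
        2 * e * Real.exp (-(ξ ^ 2 * Λ T / 4)) + B * Real.exp (-(d ^ 2 * Λ T / 4)) := by
      intro ξ hξ
      rw [gauss_cf f2]
      have h7 := f3 ξ hξ
      have h8 : (∫ x, Complex.exp (ξ * x * I) ∂(ν T)) - (Real.exp (-(ξ ^ 2 * Λ T / 4)) : ℂ) =
          ((∫ x, Complex.exp (ξ * x * I) ∂(ν T)) - g ξ * Real.exp (-(ξ ^ 2 * Λ T / 4))) +
          (g ξ - 1) * Real.exp (-(ξ ^ 2 * Λ T / 4)) := by ring
      have h9 : ‖(g ξ - 1) * (Real.exp (-(ξ ^ 2 * Λ T / 4)) : ℂ)‖ ≤
          e * Real.exp (-(ξ ^ 2 * Λ T / 4)) + B * Real.exp (-(d ^ 2 * Λ T / 4)) := by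
        rw [norm_mul, Complex.norm_real, Real.norm_of_nonneg (Real.exp_pos _).le]
        by_cases hξd : |ξ| < d
        · have h10 : ‖g ξ - 1‖ < e := by
            have := hd2 (x := ξ) (by simpa [Real.dist_eq] using hξd)
            rwa [dist_eq_norm] at this
          have h11 : 0 ≤ B * Real.exp (-(d ^ 2 * Λ T / 4)) := by positivity
          have h12 := mul_le_mul_of_nonneg_right h10.le (Real.exp_pos (-(ξ ^ 2 * Λ T / 4))).le
          linarith
        · push Not at hξd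
          have h10 : ‖g ξ - 1‖ ≤ B := hB ξ (abs_le.mp hξ)
          have h11 : Real.exp (-(ξ ^ 2 * Λ T / 4)) ≤ Real.exp (-(d ^ 2 * Λ T / 4)) := by
            apply Real.exp_le_exp.mpr
            have : d ^ 2 ≤ ξ ^ 2 := by
              rw [← sq_abs ξ]
              exact pow_le_pow_left₀ hd.le hξd 2
            have := mul_le_mul_of_nonneg_right this f2.le
            linarith
          have h12 : ‖g ξ - 1‖ * Real.exp (-(ξ ^ 2 * Λ T / 4)) ≤ B * Real.exp (-(d ^ 2 * Λ T / 4)) :=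
            mul_le_mul h10 h11 (Real.exp_pos _).le hB0
          have h13 : 0 ≤ e * Real.exp (-(ξ ^ 2 * Λ T / 4)) := by positivity
          linarith
      rw [h8]
      refine (norm_add_le _ _).trans ?_
      linarith
    have h7 : ∫ p, ‖(∫ x, Complex.exp ((p.1 - p.2 + η : ℝ) * x * I) ∂(ν T)) -
        ∫ x, Complex.exp ((p.1 - p.2 + η : ℝ) * x * I) ∂(ProbabilityTheory.gaussianReal 0 (Λ T / 2).toNNReal)‖ ∂Q ≤
        ∫ p, (2 * e * Real.exp (-((p.1 - p.2 + η) ^ 2 * Λ T / 4)) + B * Real.exp (-(d ^ 2 * Λ T / 4))) ∂Q := by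
      refine integral_mono_of_nonneg (Eventually.of_forall fun p => norm_nonneg _) ?_ ?_
      · refine Integrable.add (Integrable.const_mul ?_ _) (integrable_const _)
        refine Integrable.of_bound (C := 1) ?_ (Eventually.of_forall fun p => ?_)
        · apply Continuous.aestronglyMeasurable
          fun_prop
        · rw [Real.norm_of_nonneg (Real.exp_pos _).le, Real.exp_le_one_iff]
          have : 0 ≤ (p.1 - p.2 + η) ^ 2 * Λ T / 4 := by positivity
          linarith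
      · have h8 : ∀ᵐ p ∂Q, p ∈ Set.Icc (-1:ℝ) 1 ×ˢ Set.Icc (-1:ℝ) 1 := by
          unfold Q
          rw [Measure.prod_restrict]
          exact ae_restrict_mem (measurableSet_Icc.prod measurableSet_Icc)
        filter_upwards [h8] with p hp
        apply h6
        obtain ⟨⟨q1, q2⟩, q3, q4⟩ := hp
        have h9 : |p.1 - p.2 + η| ≤ |p.1 - p.2| + |η| := abs_add_le _ _
        have h10 : |p.1 - p.2| ≤ 2 := by
          rw [abs_le]
          constructor <;> linarith
        linarith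
    have h8 : ∫ p, (2 * e * Real.exp (-((p.1 - p.2 + η) ^ 2 * Λ T / 4)) + B * Real.exp (-(d ^ 2 * Λ T / 4))) ∂Q ≤
        2 * e * (2 * Real.sqrt (Real.pi / (Λ T / 4))) + 4 * (B * Real.exp (-(d ^ 2 * Λ T / 4))) := by
      rw [integral_add, integral_const_mul, integral_const]
      · have h9 := Q_gauss η (Λ T) f2
        have h10 : Q.real Set.univ = 4 := by
          unfold Q
          rw [Measure.real, ← Set.univ_prod_univ, Measure.prod_prod]
          simp
          norm_num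
        rw [h10, smul_eq_mul]
        have := mul_le_mul_of_nonneg_left h9 (by positivity : 0 ≤ 2 * e)
        linarith
      · refine Integrable.const_mul ?_ _
        refine Integrable.of_bound (C := 1) ?_ (Eventually.of_forall fun p => ?_)
        · apply Continuous.aestronglyMeasurable
          fun_prop
        · rw [Real.norm_of_nonneg (Real.exp_pos _).le, Real.exp_le_one_iff]
          have : 0 ≤ (p.1 - p.2 + η) ^ 2 * Λ T / 4 := by positivity
          linarith
      · exact integrable_const _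
    have h9 : Real.sqrt (Real.pi * Λ T) * Real.sqrt (Real.pi / (Λ T / 4)) = 2 * Real.pi := by
      rw [← Real.sqrt_mul (by positivity)]
      have : Real.pi * Λ T * (Real.pi / (Λ T / 4)) = (2 * Real.pi) ^ 2 := by
        field_simp
        ring
      rw [this, Real.sqrt_sq (by positivity)]
    have h10 := mul_le_mul_of_nonneg_left (h5.trans (mul_le_mul_of_nonneg_left (h7.trans h8) (by norm_num))) hA.le
    refine h10.trans_lt ?_
    have h11 : Real.sqrt (Real.pi * Λ T) * (1 / 2 * (2 * e * (2 * Real.sqrt (Real.pi / (Λ T / 4))) +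
        4 * (B * Real.exp (-(d ^ 2 * Λ T / 4))))) = 2 * e * (Real.sqrt (Real.pi * Λ T) * Real.sqrt (Real.pi / (Λ T / 4))) +
        2 * B * (Real.sqrt (Real.pi * Λ T) * Real.exp (-(d ^ 2 * Λ T / 4))) := by ring
    rw [h11, h9]
    have h12 : 2 * e * (2 * Real.pi) = ε / 2 := by
      rw [he]
      field_simp
      ring
    linarith
  have h3 := h2.add h1
  simpa using h3

open scoped NNReal in
/-- the continuity theorem for finite measures -/
lemma fm_tendsto (μ : ℕ → FiniteMeasure ℝ) (μ' : FiniteMeasure ℝ) (hμ' : μ' ≠ 0)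
    (h : ∀ t : ℝ, Tendsto (fun n => ∫ x, Complex.exp (t * x * I) ∂(μ n : Measure ℝ)) atTop
      (𝓝 (∫ x, Complex.exp (t * x * I) ∂(μ' : Measure ℝ)))) :
    Tendsto μ atTop (𝓝 μ') := by
  have hmass : Tendsto (fun n => (μ n).mass) atTop (𝓝 μ'.mass) := by
    have h0 := h 0
    have h1 : ∀ κ : FiniteMeasure ℝ, ∫ x, Complex.exp (((0:ℝ):ℂ) * (x:ℂ) * I) ∂(κ : Measure ℝ) = ((κ.mass : ℝ) : ℂ) := by
      intro κ
      simp only [ofReal_zero, zero_mul, Complex.exp_zero, integral_const]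
      rw [real_smul, mul_one]
      rfl
    simp_rw [h1] at h0
    have h2 := (Complex.continuous_re.tendsto _).comp h0
    simp only [Function.comp_def, Complex.ofReal_re] at h2
    exact NNReal.tendsto_coe.mp h2
  refine FiniteMeasure.tendsto_of_tendsto_normalize_testAgainstNN_of_tendsto_mass ?_ hmass
  refine ProbabilityMeasure.tendsto_of_tendsto_charFun fun t => ?_
  have hm' : μ'.mass ≠ 0 := μ'.mass_nonzero_iff.mpr hμ'
  have hne : ∀ᶠ n in atTop, μ n ≠ 0 := by
    filter_upwards [hmass.eventually_ne hm'] with n hn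
    exact (μ n).mass_nonzero_iff.mp hn
  have h3 : ∀ κ : FiniteMeasure ℝ, κ ≠ 0 → charFun (κ.normalize : Measure ℝ) t =
      κ.mass⁻¹ • ∫ x, Complex.exp (t * x * I) ∂(κ : Measure ℝ) := by
    intro κ hκ
    rw [charFun_apply_real, FiniteMeasure.toMeasure_normalize_eq_of_nonzero κ hκ, integral_smul_nnreal_measure]
  rw [h3 μ' hμ']
  have h4 : Tendsto (fun n => (μ n).mass⁻¹ • ∫ x, Complex.exp (t * x * I) ∂(μ n : Measure ℝ)) atTop
      (𝓝 (μ'.mass⁻¹ • ∫ x, Complex.exp (t * x * I) ∂(μ' : Measure ℝ))) :=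
    (hmass.inv₀ hm').smul (h t)
  refine h4.congr' ?_
  filter_upwards [hne] with n hn
  rw [h3 (μ n) hn]

/-- discontinuities in a finite set -/
lemma fm_disc (μ : ℕ → FiniteMeasure ℝ) (μ' : FiniteMeasure ℝ) (hμ : Tendsto μ atTop (𝓝 μ'))
    (f : ℝ → ℝ) (S : Finset ℝ) (hf : Measurable f) (hfc : ∀ x, x ∉ S → ContinuousAt f x) (C : ℝ) (hC : ∀ x, |f x| ≤ C)
    (hS : ∀ᵐ x ∂(μ' : Measure ℝ), x ∉ S) :
    Tendsto (fun n => ∫ x, f x ∂(μ n : Measure ℝ)) atTop (𝓝 (∫ x, f x ∂(μ' : Measure ℝ))) := by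
  have hC0 : 0 ≤ C := (abs_nonneg _).trans (hC 0)
  -- the cutoff
  let χ : ℕ → ℝ → ℝ := fun j x => ∏ s ∈ S, min 1 ((j:ℝ) * |x - s|)
  have hχc : ∀ j, Continuous (χ j) := by
    intro j
    show Continuous fun x => ∏ s ∈ S, min 1 ((j:ℝ) * |x - s|)
    fun_prop
  have hχ0 : ∀ j x, 0 ≤ χ j x := fun j x => Finset.prod_nonneg fun s _ => le_min zero_le_one (by positivity)
  have hχ1 : ∀ j x, χ j x ≤ 1 := fun j x =>
    Finset.prod_le_one (fun s _ => le_min zero_le_one (by positivity)) fun s _ => min_le_left _ _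
  have hχS : ∀ j x, x ∈ S → χ j x = 0 := by
    intro j x hx
    refine Finset.prod_eq_zero hx ?_
    simp
  have hχlim : ∀ x, x ∉ S → Tendsto (fun j => χ j x) atTop (𝓝 1) := by
    intro x hx
    have h1 : Tendsto (fun j : ℕ => ∏ s ∈ S, min 1 ((j:ℝ) * |x - s|)) atTop (𝓝 (∏ s ∈ S, (1:ℝ))) := by
      refine tendsto_finsetProd _ fun s hs => ?_
      have h2 : 0 < |x - s| := by
        rw [abs_pos, sub_ne_zero]
        rintro rfl
        exact hx hs
      have h3 : Tendsto (fun j : ℕ => (j:ℝ) * |x - s|) atTop atTop :=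
        tendsto_natCast_atTop_atTop.atTop_mul_const h2
      refine tendsto_const_nhds.congr' ?_
      filter_upwards [h3.eventually_ge_atTop 1] with j hj
      rw [min_eq_left hj]
    simpa using h1
  -- the product is continuous
  have hfχ : ∀ j, Continuous fun x => f x * χ j x := by
    intro j
    rw [continuous_iff_continuousAt]
    intro x
    by_cases hx : x ∈ S
    · have h1 : f x * χ j x = 0 := by rw [hχS j x hx, mul_zero]
      rw [ContinuousAt, h1]
      have h2 : Tendsto (fun y => C * χ j y) (𝓝 x) (𝓝 0) := by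
        have := ((hχc j).tendsto x).const_mul C
        rwa [hχS j x hx, mul_zero] at this
      refine squeeze_zero_norm (fun y => ?_) h2
      rw [norm_mul, Real.norm_of_nonneg (hχ0 j y)]
      exact mul_le_mul_of_nonneg_right (hC y) (hχ0 j y)
    · exact (hfc x hx).mul (hχc j).continuousAt
  have hbd : ∀ (κ : FiniteMeasure ℝ) (u : ℝ → ℝ), Measurable u → (∀ x, |u x| ≤ C + 1) → Integrable u (κ : Measure ℝ) := by
    intro κ u hu hu2
    exact Integrable.of_bound hu.aestronglyMeasurable (C + 1) (Eventually.of_forall hu2)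
  have hfi : ∀ κ : FiniteMeasure ℝ, Integrable f (κ : Measure ℝ) := fun κ => hbd κ f hf fun x => (hC x).trans (by linarith)
  have hfχi : ∀ (κ : FiniteMeasure ℝ) j, Integrable (fun x => f x * χ j x) (κ : Measure ℝ) := by
    intro κ j
    refine hbd κ _ (hfχ j).measurable fun x => ?_
    rw [abs_mul, abs_of_nonneg (hχ0 j x)]
    have := mul_le_mul (hC x) (hχ1 j x) (hχ0 j x) hC0
    linarith
  have hχi : ∀ (κ : FiniteMeasure ℝ) j, Integrable (fun x => 1 - χ j x) (κ : Measure ℝ) := by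
    intro κ j
    refine hbd κ _ (continuous_const.sub (hχc j)).measurable fun x => ?_
    rw [abs_of_nonneg (by linarith [hχ1 j x])]
    linarith [hχ0 j x]
  -- the difference
  have hdiff : ∀ (κ : FiniteMeasure ℝ) j, |∫ x, f x ∂(κ : Measure ℝ) - ∫ x, f x * χ j x ∂(κ : Measure ℝ)| ≤
      C * ∫ x, (1 - χ j x) ∂(κ : Measure ℝ) := by
    intro κ j
    rw [← integral_sub (hfi κ) (hfχi κ j), ← integral_const_mul]
    refine (abs_integral_le_integral_abs).trans ?_
    refine integral_mono_of_nonneg (Eventually.of_forall fun x => abs_nonneg _) ((hχi κ j).const_mul C)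
      (Eventually.of_forall fun x => ?_)
    simp only
    have h1 : f x - f x * χ j x = f x * (1 - χ j x) := by ring
    have h2 : 0 ≤ 1 - χ j x := by linarith [hχ1 j x]
    rw [h1, abs_mul, abs_of_nonneg h2]
    exact mul_le_mul_of_nonneg_right (hC x) h2
  have hw : ∀ (u : ℝ → ℝ), Continuous u → (∀ x, |u x| ≤ C + 1) →
      Tendsto (fun n => ∫ x, u x ∂(μ n : Measure ℝ)) atTop (𝓝 (∫ x, u x ∂(μ' : Measure ℝ))) := by
    intro u hu hu2
    exact FiniteMeasure.tendsto_iff_forall_integral_tendsto.mp hμ (BoundedContinuousFunction.ofNormedAddCommGroup u hu (C + 1) hu2)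
  -- the limit of the cutoff
  have hlim : Tendsto (fun j => C * ∫ x, (1 - χ j x) ∂(μ' : Measure ℝ)) atTop (𝓝 0) := by
    have h1 : Tendsto (fun j => ∫ x, (1 - χ j x) ∂(μ' : Measure ℝ)) atTop (𝓝 (∫ x, (0:ℝ) ∂(μ' : Measure ℝ))) := by
      refine tendsto_integral_of_dominated_convergence (fun _ => (1:ℝ)) ?_ (integrable_const _) ?_ ?_
      · intro j
        exact (continuous_const.sub (hχc j)).aestronglyMeasurable
      · intro j
        refine Eventually.of_forall fun x => ?_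
        rw [Real.norm_of_nonneg (by linarith [hχ1 j x])]
        linarith [hχ0 j x]
      · filter_upwards [hS] with x hx
        have := (hχlim x hx).const_sub 1
        simpa using this
    have h2 := h1.const_mul C
    simpa using h2
  rw [Metric.tendsto_atTop]
  intro ε hε
  obtain ⟨j, hj⟩ := (hlim.eventually_lt_const (u := ε / 4) (by positivity)).exists
  have h1 := hw _ (hfχ j) (fun x => by
    rw [abs_mul, abs_of_nonneg (hχ0 j x)]
    have := mul_le_mul (hC x) (hχ1 j x) (hχ0 j x) hC0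
    linarith)
  have h2 := (hw (fun x => 1 - χ j x) (continuous_const.sub (hχc j)) (fun x => by
    have e1 : 0 ≤ 1 - χ j x := by linarith [hχ1 j x]
    rw [abs_of_nonneg e1]
    linarith [hχ0 j x])).const_mul C
  have h3 := h2.eventually_lt_const (u := ε / 4) hj
  rw [Metric.tendsto_atTop] at h1
  obtain ⟨N1, hN1⟩ := h1 (ε / 4) (by positivity)
  obtain ⟨N2, hN2⟩ := eventually_atTop.mp h3
  refine ⟨max N1 N2, fun n hn => ?_⟩
  have h4 := hN1 n ((le_max_left _ _).trans hn)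
  have h5 := hN2 n ((le_max_right _ _).trans hn)
  have h6 := hdiff (μ n) j
  have h7 := hdiff μ' j
  rw [Real.dist_eq] at h4 ⊢
  rw [abs_lt] at h4 ⊢
  rw [abs_le] at h6 h7
  constructor <;> linarith [h4.1, h4.2, h6.1, h6.2, h7.1, h7.2]

/-- the weighted measure -/
noncomputable def wd (κ : Measure ℝ) (a : ℝ) : Measure ℝ := κ.withDensity fun x => ENNReal.ofReal (a * k0 x)

lemma wd_int {E : Type} [NormedAddCommGroup E] [NormedSpace ℝ E] (κ : Measure ℝ) {a : ℝ} (ha : 0 ≤ a) (f : ℝ → E) :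
    ∫ x, f x ∂(wd κ a) = ∫ x, (a * k0 x) • f x ∂κ := by
  unfold wd
  rw [integral_withDensity_eq_integral_toReal_smul]
  · refine integral_congr_ae (Eventually.of_forall fun x => ?_)
    simp only
    rw [ENNReal.toReal_ofReal (mul_nonneg ha (k0_pos x).le)]
  · have := k0_cont
    fun_prop
  · exact Eventually.of_forall fun x => ENNReal.ofReal_lt_top

lemma wd_fin (κ : Measure ℝ) (a : ℝ) (h : Integrable k0 κ) : IsFiniteMeasure (wd κ a) :=
  isFiniteMeasure_withDensity_ofReal (h.const_mul a).2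

lemma k0_int_fin (κ : Measure ℝ) [IsFiniteMeasure κ] : Integrable k0 κ := by
  refine Integrable.of_bound k0_cont.aestronglyMeasurable 14 (Eventually.of_forall fun x => ?_)
  rw [Real.norm_of_nonneg (k0_pos x).le]
  refine (k0_le x).trans ?_
  have h1 : (1 + x ^ 2)⁻¹ ≤ 1 := inv_le_one_of_one_le₀ (by nlinarith [sq_nonneg x])
  linarith

/-- the sequential version -/
lemma seqv (ν : ℕ → Measure ℝ) (hf : ∀ n, IsFiniteMeasure (ν n)) (A : ℕ → ℝ) (hA : ∀ n, 0 ≤ A n)
    (hk : ∀ η : ℝ, Tendsto (fun n => (A n : ℂ) * ∫ x, ((k0 x : ℝ) : ℂ) * Complex.exp (η * x * I) ∂(ν n)) atTop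
      (𝓝 (∫ x, ((k0 x : ℝ) : ℂ) * Complex.exp (η * x * I))))
    (h : ℝ → ℝ) (S : Finset ℝ) (hh : Measurable h) (hhc : ∀ x, x ∉ S → ContinuousAt h x) (C : ℝ)
    (hC : ∀ x, |h x| * (1 + x ^ 2) ≤ C) :
    Tendsto (fun n => A n * ∫ x, h x ∂(ν n)) atTop (𝓝 (∫ x, h x)) := by
  let μ : ℕ → FiniteMeasure ℝ := fun n => ⟨wd (ν n) (A n), wd_fin _ _ (@k0_int_fin (ν n) (hf n))⟩
  let μ' : FiniteMeasure ℝ := ⟨wd volume 1, wd_fin _ _ k0_int⟩
  have hμ'0 : μ' ≠ 0 := by
    intro h0
    have h1 : wd volume 1 = 0 := by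
      have : (μ' : Measure ℝ) = 0 := by rw [h0]; rfl
      exact this
    have h2 : ∫ _x, (1:ℝ) ∂(wd volume 1) = 0 := by rw [h1]; simp
    rw [wd_int volume zero_le_one] at h2
    simp only [one_mul, smul_eq_mul, mul_one] at h2
    have h3 : 0 < ∫ x, k0 x := by
      rw [integral_pos_iff_support_of_nonneg (fun x => (k0_pos x).le) k0_int]
      have : Function.support k0 = Set.univ := by
        ext x
        simp [(k0_pos x).ne']
      rw [this]
      simp
    linarith
  have hw : Tendsto μ atTop (𝓝 μ') := by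
    refine fm_tendsto μ μ' hμ'0 fun t => ?_
    have h1 : ∀ n, ∫ x, Complex.exp (t * x * I) ∂(μ n : Measure ℝ) =
        (A n : ℂ) * ∫ x, ((k0 x : ℝ) : ℂ) * Complex.exp (t * x * I) ∂(ν n) := by
      intro n
      show ∫ x, Complex.exp (t * x * I) ∂(wd (ν n) (A n)) = _
      rw [wd_int _ (hA n), ← integral_const_mul]
      refine integral_congr_ae (Eventually.of_forall fun x => ?_)
      simp only
      rw [real_smul]
      push_cast
      ring
    have h2 : ∫ x, Complex.exp (t * x * I) ∂(μ' : Measure ℝ) = ∫ x, ((k0 x : ℝ) : ℂ) * Complex.exp (t * x * I) := by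
      show ∫ x, Complex.exp (t * x * I) ∂(wd volume 1) = _
      rw [wd_int _ zero_le_one]
      refine integral_congr_ae (Eventually.of_forall fun x => ?_)
      simp only
      rw [real_smul, one_mul]
    simp_rw [h1, h2]
    exact hk t
  have hcont : ∀ x, x ∉ S → ContinuousAt (fun x => h x / k0 x) x := fun x hx =>
    (hhc x hx).div k0_cont.continuousAt (k0_pos x).ne'
  have hbound : ∀ x, |h x / k0 x| ≤ 6 * C := by
    intro x
    rw [abs_div, abs_of_pos (k0_pos x), div_le_iff₀ (k0_pos x)]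
    have h1 := k0_ge x
    have h2 := hC x
    have h3 : 0 < 1 + x ^ 2 := by positivity
    have h4 : 0 ≤ C := le_trans (by positivity) h2
    have h5 : |h x| * (1 + x ^ 2) ≤ 6 * C * k0 x * (1 + x ^ 2) := by nlinarith
    exact le_of_mul_le_mul_right h5 h3
  have hSnull : ∀ᵐ x ∂(μ' : Measure ℝ), x ∉ S := by
    show ∀ᵐ x ∂(wd volume 1), x ∉ S
    have h1 : wd volume 1 ≪ volume := withDensity_absolutelyContinuous _ _
    refine h1.ae_le ?_
    have h2 : ∀ᵐ x : ℝ ∂volume, x ∉ (S : Set ℝ) := by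
      rw [ae_iff]
      simp only [not_not, Set.ofPred_mem_eq]
      exact S.finite_toSet.measure_zero _
    filter_upwards [h2] with x hx
    exact hx
  have h6 := fm_disc μ μ' hw (fun x => h x / k0 x) S (hh.div k0_cont.measurable) hcont (6 * C) hbound hSnull
  have h7 : ∀ n, ∫ x, h x / k0 x ∂(μ n : Measure ℝ) = A n * ∫ x, h x ∂(ν n) := by
    intro n
    show ∫ x, h x / k0 x ∂(wd (ν n) (A n)) = _
    rw [wd_int _ (hA n), ← integral_const_mul]
    refine integral_congr_ae (Eventually.of_forall fun x => ?_)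
    have := (k0_pos x).ne'
    simp only [smul_eq_mul]
    field_simp
  have h8 : ∫ x, h x / k0 x ∂(μ' : Measure ℝ) = ∫ x, h x := by
    show ∫ x, h x / k0 x ∂(wd volume 1) = _
    rw [wd_int _ zero_le_one]
    refine integral_congr_ae (Eventually.of_forall fun x => ?_)
    have := (k0_pos x).ne'
    simp only [smul_eq_mul]
    field_simp
  rw [h8] at h6
  refine h6.congr fun n => ?_
  exact h7 n

theorem main : S_LLT := by
  intro ν Λ g hν hΛ hg hg0 H h S hh hhc hC
  obtain ⟨C, hC⟩ := hC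
  refine tendsto_of_seq_tendsto fun u hu => ?_
  have hk : ∀ η : ℝ, Tendsto (fun n => (Real.sqrt (Real.pi * Λ (u n)) : ℂ) *
      ∫ x, ((k0 x : ℝ) : ℂ) * Complex.exp (η * x * I) ∂(ν (u n))) atTop
      (𝓝 (∫ x, ((k0 x : ℝ) : ℂ) * Complex.exp (η * x * I))) := fun η => (key ν Λ g hν hΛ hg hg0 H η).comp hu
  obtain ⟨N, hN⟩ := eventually_atTop.mp (hu.eventually hν)
  rw [← tendsto_add_atTop_iff_nat N]
  refine seqv (fun n => ν (u (n + N))) (fun n => hN (n + N) (Nat.le_add_left _ _)) (fun n => Real.sqrt (Real.pi * Λ (u (n + N))))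
    (fun n => Real.sqrt_nonneg _) (fun η => ?_) h S hh hhc C hC
  exact (tendsto_add_atTop_iff_nat (f := fun n => (Real.sqrt (Real.pi * Λ (u n)) : ℂ) *
      ∫ x, ((k0 x : ℝ) : ℂ) * Complex.exp (η * x * I) ∂(ν (u n))) N).mpr (hk η)

end Pool.Agent.N748.MG.LLT
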