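import Pool.Agent.N748.MG.Stm2
import Pool.Agent.N748.MG.LD
import Pool.Agent.N748.MG.LLT

set_option autoImplicit false

/-!
# Truncated moments in the critical window
-/

namespace Pool.Agent.N748.MG.TMB

open Finset Filter MeasureTheory Topology Complex
open ProbabilityTheory (gaussianReal)

theorem lam_tendsto {d : ℝ → ℝ} (hd : Ad d) :
    Tendsto (fun T : ℝ => Real.log (1 / (2 * d T))) atTop atTop := by
  have h1 : Tendsto (fun T : ℝ => 2 * d T) atTop (𝓝[>] 0) := by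
    rw [tendsto_nhdsWithin_iff]
    refine ⟨?_, ?_⟩
    · have := hd.t0.const_mul 2
      rwa [mul_zero] at this
    · filter_upwards [hd.pos] with T hT
      show 0 < 2 * d T
      linarith
  have h2 := Real.tendsto_log_nhdsGT_zero.comp h1
  have h3 := tendsto_neg_atBot_atTop.comp h2
  refine h3.congr fun T => ?_
  simp only [Function.comp_apply]
  rw [LD.log_eq]

theorem small {d : ℝ → ℝ} (hd : Ad d) : ∀ᶠ T : ℝ in atTop, 0 < d T ∧ d T ≤ 1 / 16 ∧ 1 ≤ T := by
  filter_upwards [hd.pos, hd.t0.eventually_le_const (show (0 : ℝ) < 1 / 16 by norm_num),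
    eventually_ge_atTop 1] with T a b c
  exact ⟨a, b, c⟩

/-- the central limit theorem for the tilted measure -/
theorem clt (hac : Continuous aC) {d : ℝ → ℝ} (hd : Ad d) {V D r : ℝ} (hr : 0 < r) (hrV : aC V = r)
    {N : ℝ → Set ℝ} (hN : ∀ n, ∀ᶠ T : ℝ in atTop, LD.Gd d D n T (N T)) (f : ℝ → ℝ) (S : Finset ℝ)
    (hf : Measurable f) (hfc : ∀ x, x ∉ S → ContinuousAt f x) (C : ℝ) (hC : ∀ x, |f x| ≤ C) :
    Tendsto (fun T : ℝ => ∫ x, f (x / Real.sqrt (Real.log (1 / (2 * d T)) / 2))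
      ∂(LD.nu (d T) V r T (N T))) atTop (𝓝 (∫ x, f x ∂(gaussianReal 0 1))) := by
  have hsm := small hd
  have hΛ := lam_tendsto hd
  have hfin : ∀ᶠ T : ℝ in atTop, IsFiniteMeasure (LD.nu (d T) V r T (N T)) := by
    obtain ⟨n, hn⟩ := exists_nat_gt (max |V| (1 / r))
    filter_upwards [hN n, hsm] with T hT hT2
    have h1 : |V| ≤ (n : ℝ) + 1 := by linarith [le_max_left |V| (1 / r)]
    refine LD.fin hT hT2.1 hT2.2.1 hr (by linarith [hT2.2.2]) h1 hrV ?_
    have h2 : 1 / r < (n : ℝ) + 1 := by linarith [le_max_right |V| (1 / r)]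
    rw [div_lt_iff₀ hr] at h2
    rw [div_lt_iff₀ (by positivity)]
    linarith
  -- the frequency tends to zero
  have hη : ∀ ξ : ℝ, Tendsto (fun T : ℝ => ξ / Real.sqrt (Real.log (1 / (2 * d T)) / 2)) atTop (𝓝 0) := by
    intro ξ
    have h1 : Tendsto (fun T : ℝ => Real.sqrt (Real.log (1 / (2 * d T)) / 2)) atTop atTop :=
      Real.tendsto_sqrt_atTop.comp (hΛ.atTop_div_const (by norm_num))
    exact h1.const_div_atTop ξ
  -- the characteristic functions
  have hcf : ∀ ξ : ℝ, Tendsto (fun T : ℝ => ∫ x, cexp (((ξ / Real.sqrt (Real.log (1 / (2 * d T)) / 2) : ℝ) : ℂ) * x * I)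
      ∂(LD.nu (d T) V r T (N T))) atTop (𝓝 (Real.exp (-(ξ ^ 2 / 2)) : ℂ)) := by
    intro ξ
    obtain ⟨η, hηd⟩ : ∃ η : ℝ → ℝ, ∀ T, η T = ξ / Real.sqrt (Real.log (1 / (2 * d T)) / 2) :=
      ⟨_, fun T => rfl⟩
    have hη0 : Tendsto η atTop (𝓝 0) := (hη ξ).congr fun T => (hηd T).symm
    -- the limit of the arithmetic factor
    have hA : Tendsto (fun T : ℝ => aC (V + (η T : ℂ) / 2 * I)) atTop (𝓝 (r : ℂ)) := by
      have h1 : Continuous (fun e : ℝ => aC ((V : ℂ) + (e : ℂ) / 2 * I)) := by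
        have : Continuous (fun e : ℝ => (V : ℂ) + (e : ℂ) / 2 * I) := by fun_prop
        exact hac.comp this
      have h2 := (h1.tendsto 0).comp hη0
      simp only [Function.comp_def, Complex.ofReal_zero, zero_div, zero_mul, add_zero] at h2
      rw [hrV] at h2
      exact h2
    obtain ⟨W, hWd⟩ : ∃ W : ℝ → ℂ, ∀ T, W T = ((2 * d T : ℝ) : ℂ) ^ ((V + (η T : ℂ) / 2 * I : ℂ) ^ 2) *
          ∫ t in N T, ((‖riemannZeta (pw (d T) t)‖ : ℝ) : ℂ) ^ (2 * (V + (η T : ℂ) / 2 * I : ℂ)) :=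
      ⟨_, fun T => rfl⟩
    -- the error
    have hB : Tendsto (fun T : ℝ => (1 / (T * r) : ℂ) * (W T - T * aC (V + (η T : ℂ) / 2 * I))) atTop (𝓝 0) := by
      rw [tendsto_zero_iff_norm_tendsto_zero, Metric.tendsto_atTop']
      intro ε hε
      have hη1 : ∀ᶠ T : ℝ in atTop, |η T| ≤ 1 := by
        have := hη0.abs
        rw [abs_zero] at this
        exact this.eventually_le_const one_pos
      obtain ⟨n, hn⟩ := exists_nat_gt (max (|V| + 1) (1 / (ε / 2 * r)))
      have hev : ∀ᶠ T : ℝ in atTop, dist ‖(1 / (T * r) : ℂ) * (W T - T * aC (V + (η T : ℂ) / 2 * I))‖ 0 < ε := by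
        filter_upwards [hN n, hsm, hη1] with T hT hT2 hT3
        obtain ⟨h0, h1, hT1⟩ := hT2
        have hT0 : 0 < T := by linarith
        have h2 : ‖(V : ℂ) + (η T : ℂ) / 2 * I‖ ≤ (n : ℝ) + 1 := by
          have h3 : ‖(V : ℂ) + (η T : ℂ) / 2 * I‖ ≤ |V| + |η T| / 2 := by
            refine (norm_add_le _ _).trans ?_
            rw [Complex.norm_real, norm_mul, Complex.norm_I, mul_one, norm_div, Complex.norm_real,
              Real.norm_eq_abs, Real.norm_eq_abs]
            norm_num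
          have := le_max_left (|V| + 1) (1 / (ε / 2 * r))
          linarith
        have h4 := hT.est _ h2
        rw [← hWd T] at h4
        have h5 : 1 / ((n : ℝ) + 1) ≤ ε / 2 * r := by
          have h6 := le_max_right (|V| + 1) (1 / (ε / 2 * r))
          have h7 : 1 / (ε / 2 * r) < (n : ℝ) + 1 := by linarith
          rw [div_lt_iff₀ (by positivity)] at h7
          rw [div_le_iff₀ (by positivity)]
          linarith
        rw [Real.dist_eq, sub_zero, abs_norm, norm_mul]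
        have e2 : ‖(1 / (T * r) : ℂ)‖ = 1 / (T * r) := by
          rw [norm_div, norm_one, norm_mul, Complex.norm_real, Complex.norm_real,
            Real.norm_of_nonneg hT0.le, Real.norm_of_nonneg hr.le]
        rw [e2]
        calc 1 / (T * r) * ‖W T - T * aC (V + (η T : ℂ) / 2 * I)‖ ≤ 1 / (T * r) * (ε / 2 * r * T) := by
              refine mul_le_mul_of_nonneg_left (h4.trans ?_) (by positivity)
              exact mul_le_mul_of_nonneg_right h5 hT0.le
          _ = ε / 2 := by field_simp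
          _ < ε := by linarith
      obtain ⟨T0, hT0⟩ := eventually_atTop.mp hev
      exact ⟨T0, fun T hT => hT0 T hT.le⟩
    have hsum : Tendsto (fun T : ℝ => (Real.exp (-(ξ ^ 2 / 2)) : ℂ) *
        ((1 / (T * r) : ℂ) * (W T - T * aC (V + (η T : ℂ) / 2 * I)) + aC (V + (η T : ℂ) / 2 * I) / r)) atTop
        (𝓝 ((Real.exp (-(ξ ^ 2 / 2)) : ℂ) * (0 + (r : ℂ) / r))) :=
      (hB.add (hA.div_const _)).const_mul _
    have hr' : (r : ℂ) ≠ 0 := by exact_mod_cast hr.ne'
    rw [div_self hr', zero_add, mul_one] at hsum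
    refine hsum.congr' ?_
    filter_upwards [hN 0, hsm, hΛ.eventually_gt_atTop 0] with T hT hT2 hT4
    obtain ⟨h0, h1, hT1⟩ := hT2
    have hT0 : 0 < T := by linarith
    rw [← hηd T, LD.four h0 h1 hr hT0 V (η T) hT.meas hT.nz, ← hWd T]
    have hT' : (T : ℂ) ≠ 0 := by exact_mod_cast hT0.ne'
    have e3 : η T ^ 2 * Real.log (1 / (2 * d T)) / 4 = ξ ^ 2 / 2 := by
      rw [hηd T, div_pow, Real.sq_sqrt (by positivity)]
      field_simp
      norm_num
    rw [e3]
    field_simp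
    ring
  refine tendsto_of_seq_tendsto fun u hu => ?_
  obtain ⟨M, hM⟩ := eventually_atTop.mp (hu.eventually hfin)
  rw [← tendsto_add_atTop_iff_nat M]
  have hg : ∀ T : ℝ, Measurable (fun x : ℝ => x / Real.sqrt (Real.log (1 / (2 * d T)) / 2)) := fun T => by fun_prop
  let μ : ℕ → FiniteMeasure ℝ := fun n => ⟨(LD.nu (d (u (n + M))) V r (u (n + M)) (N (u (n + M)))).map
    (fun x : ℝ => x / Real.sqrt (Real.log (1 / (2 * d (u (n + M)))) / 2)),
    @Measure.isFiniteMeasure_map _ _ _ _ _ (hM (n + M) (Nat.le_add_left _ _)) _⟩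
  let μ' : FiniteMeasure ℝ := ⟨gaussianReal 0 1, inferInstance⟩
  have hμi : ∀ {E : Type} [NormedAddCommGroup E] [NormedSpace ℝ E] (g : ℝ → E) (n : ℕ), StronglyMeasurable g →
      ∫ x, g x ∂(μ n : Measure ℝ) = ∫ x, g (x / Real.sqrt (Real.log (1 / (2 * d (u (n + M)))) / 2))
        ∂(LD.nu (d (u (n + M))) V r (u (n + M)) (N (u (n + M)))) := by
    intro E _ _ g n hg'
    show ∫ x, g x ∂((LD.nu (d (u (n + M))) V r (u (n + M)) (N (u (n + M)))).map
      (fun x : ℝ => x / Real.sqrt (Real.log (1 / (2 * d (u (n + M)))) / 2))) = _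
    rw [integral_map (hg _).aemeasurable hg'.aestronglyMeasurable]
  have hμ'0 : μ' ≠ 0 := by
    intro h0
    have h1 : (gaussianReal 0 1 : Measure ℝ) = 0 := by
      have : (μ' : Measure ℝ) = 0 := by rw [h0]; rfl
      exact this
    exact IsProbabilityMeasure.ne_zero _ h1
  have hw : Tendsto μ atTop (𝓝 μ') := by
    refine LLT.fm_tendsto μ μ' hμ'0 fun t => ?_
    have h1 : ∀ n, ∫ x, Complex.exp (t * x * I) ∂(μ n : Measure ℝ) =
        ∫ x, cexp (((t / Real.sqrt (Real.log (1 / (2 * d (u (n + M)))) / 2) : ℝ) : ℂ) * x * I)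
      ∂(LD.nu (d (u (n + M))) V r (u (n + M)) (N (u (n + M)))) := by
      intro n
      rw [hμi _ n (by
        have : Continuous (fun x : ℝ => Complex.exp (t * x * I)) := by fun_prop
        exact this.stronglyMeasurable)]
      refine integral_congr_ae (Eventually.of_forall fun x => ?_)
      simp only
      congr 1
      push_cast
      ring
    have h2 : ∫ x, Complex.exp (t * x * I) ∂(μ' : Measure ℝ) = (Real.exp (-(t ^ 2 / 2)) : ℂ) := by
      show ∫ x, Complex.exp (t * x * I) ∂(gaussianReal 0 1) = _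
      rw [← charFun_apply_real, ProbabilityTheory.charFun_gaussianReal]
      push_cast
      congr 1
      ring
    simp_rw [h1, h2]
    have h3 := (hcf t).comp hu
    exact (tendsto_add_atTop_iff_nat (f := fun n => ∫ x, cexp (((t / Real.sqrt (Real.log (1 / (2 * d (u n))) / 2) : ℝ) : ℂ) * x * I)
      ∂(LD.nu (d (u n)) V r (u n) (N (u n)))) M).mpr h3
  have hSnull : ∀ᵐ x ∂(μ' : Measure ℝ), x ∉ S := by
    show ∀ᵐ x ∂(gaussianReal 0 1), x ∉ S
    have : NullSingletonClass (gaussianReal 0 1) := ProbabilityTheory.nullSingletonClass_gaussianReal one_ne_zero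
    have h2 : ∀ᵐ x : ℝ ∂(gaussianReal 0 1), x ∉ (S : Set ℝ) := by
      rw [ae_iff]
      simp only [not_not, Set.ofPred_mem_eq]
      exact S.finite_toSet.measure_zero _
    filter_upwards [h2] with x hx
    exact hx
  have h6 := LLT.fm_disc μ μ' hw f S hf hfc C hC hSnull
  refine h6.congr fun n => ?_
  exact hμi f n hf.stronglyMeasurable

/-- the integral against the tilted measure -/
theorem int_f {δ r T : ℝ} (h0 : 0 < δ) (h1 : δ ≤ 1 / 16) (hr : 0 < r) (hT : 0 < T) (V : ℝ)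
    {N : Set ℝ} {f : ℝ → ℝ} (hm : Measurable f) (a : ℝ) :
    r * ∫ x, f (x / a) ∂(LD.nu δ V r T N) =
      (2 * δ) ^ (V ^ 2) * ((1 / T) * ∫ t in N, mz δ t ^ (2 * V) * f (LD.X δ V t / a)) := by
  rw [LD.int_nu h0 h1 hr hT V N (f := fun x => f (x / a))
    (hm.comp (measurable_id.div_const a)).stronglyMeasurable, ← integral_const_mul,
    ← integral_const_mul, ← integral_const_mul]
  refine integral_congr_ae (Eventually.of_forall fun t => ?_)
  simp only [smul_eq_mul]
  have e : LD.rho δ V r T t = 1 / r * ((2 * δ) ^ (V ^ 2) * (1 / T)) * mz δ t ^ (2 * V) := by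
    unfold LD.rho mz
    rw [Real.rpow_def_of_pos (by positivity : 0 < 2 * δ), LD.log_eq]
    have e2 : -(-Real.log (2 * δ) * V ^ 2) = Real.log (2 * δ) * V ^ 2 := by ring
    rw [e2]
    ring
  rw [e]
  field_simp

theorem mz_nn (δ t : ℝ) : 0 ≤ mz δ t := norm_nonneg _

theorem mz_cont {δ : ℝ} (h0 : 0 < δ) (h1 : δ ≤ 1 / 16) : Continuous (mz δ) := (LD.zc h0 h1).norm

/-- the common part of the two statements -/
theorem core (h : S_CM) (hC : S_CON) {d : ℝ → ℝ} (hd : Ad d) (k : ℝ) (B : Set ℝ) (S : Finset ℝ)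
    (hB : MeasurableSet B) (hBc : ∀ y, y ∉ S → ContinuousAt (B.indicator (fun _ => (1 : ℝ))) y)
    (Q : ℝ → ℝ → Prop) (hQm : ∀ T, MeasurableSet {z | Q T z})
    (hQ : ∀ᶠ T : ℝ in atTop, ∀ z, 0 < z → (Q T z ↔
      (Real.log z - k * Real.log (1 / (2 * d T))) / Real.sqrt (Real.log (1 / (2 * d T)) / 2) ∈ B))
    (hQb : ∀ᶠ T : ℝ in atTop, ∀ z, 0 ≤ z → Q T z → z ^ (2 * k) ≤ (2 * d T) ^ (-(2 * k ^ 2) - 1)) :
    Tendsto (fun T : ℝ => (2 * d T) ^ (k ^ 2) * ((1 / T) *
      ∫ t in {t : ℝ | t ∈ Set.Icc 0 T ∧ Q T (mz (d T) t)}, mz (d T) t ^ (2 * k))) atTop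
      (𝓝 ((aC k).re * (gaussianReal 0 1 B).toReal)) := by
  obtain ⟨hac, hpos⟩ := hC
  obtain ⟨r, hr, hrV⟩ := hpos k
  have hD : 0 < k ^ 2 + 2 := by positivity
  obtain ⟨N, hN⟩ := LD.exists_sets h hd hD
  have hsm := small hd
  have hfm : Measurable (B.indicator (fun _ => (1 : ℝ))) := measurable_const.indicator hB
  have key := clt hac hd hr hrV hN (B.indicator (fun _ => (1 : ℝ))) S hfm hBc 1 (fun x => by
    by_cases hx : x ∈ B
    · rw [Set.indicator_of_mem hx]
      simp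
    · rw [Set.indicator_of_notMem hx]
      simp)
  have hg : ∫ y, B.indicator (fun _ => (1 : ℝ)) y ∂(gaussianReal 0 1) = (gaussianReal 0 1 B).toReal := by
    exact integral_indicator_one (μ := gaussianReal 0 1) hB
  rw [hg] at key
  have hre : (aC k).re = r := by rw [hrV, Complex.ofReal_re]
  rw [hre]
  obtain ⟨E, hE⟩ : ∃ E : ℝ → ℝ, ∀ T, E T = (2 * d T) ^ (k ^ 2) * ((1 / T) *
      ∫ t in {t : ℝ | t ∈ Set.Icc 0 T \ N T ∧ Q T (mz (d T) t)}, mz (d T) t ^ (2 * k)) := ⟨_, fun T => rfl⟩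
  have hE0 : Tendsto E atTop (𝓝 0) := by
    refine squeeze_zero_norm' (a := fun T => d T) ?_ hd.t0
    filter_upwards [hN 0, hsm, hQb] with T hT hT2 hb
    obtain ⟨h0, h1, hT1⟩ := hT2
    have hT0 : 0 < T := by linarith
    have hms : MeasurableSet {t : ℝ | t ∈ Set.Icc 0 T \ N T ∧ Q T (mz (d T) t)} :=
      (measurableSet_Icc.diff hT.meas).inter ((mz_cont h0 h1).measurable (hQm T))
    have hsub : {t : ℝ | t ∈ Set.Icc 0 T \ N T ∧ Q T (mz (d T) t)} ⊆ Set.Icc 0 T \ N T := fun t ht => ht.1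
    have hvol : volume {t : ℝ | t ∈ Set.Icc 0 T \ N T ∧ Q T (mz (d T) t)} ≤ ENNReal.ofReal (d T ^ (k ^ 2 + 2) * T) :=
      (measure_mono hsub).trans hT.vol
    have h2 : ‖∫ t in {t : ℝ | t ∈ Set.Icc 0 T \ N T ∧ Q T (mz (d T) t)}, mz (d T) t ^ (2 * k)‖ ≤
        (2 * d T) ^ (-(2 * k ^ 2) - 1) * (d T ^ (k ^ 2 + 2) * T) := by
      have hfin : volume {t : ℝ | t ∈ Set.Icc 0 T \ N T ∧ Q T (mz (d T) t)} < ⊤ :=
        lt_of_le_of_lt hvol ENNReal.ofReal_lt_top
      refine (norm_setIntegral_le_of_norm_le_const (C := (2 * d T) ^ (-(2 * k ^ 2) - 1)) hfin fun t ht => ?_).trans ?_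
      · rw [Real.norm_of_nonneg (Real.rpow_nonneg (mz_nn _ _) _)]
        exact hb _ (mz_nn _ _) ht.2
      · refine mul_le_mul_of_nonneg_left ?_ (by positivity)
        have h3 := ENNReal.toReal_mono ENNReal.ofReal_ne_top hvol
        rw [ENNReal.toReal_ofReal (by positivity)] at h3
        exact h3
    have h8 : (2 * d T) ^ (k ^ 2) * (2 * d T) ^ (-(2 * k ^ 2) - 1) * d T ^ (k ^ 2 + 2) ≤ d T := by
      rw [← Real.rpow_add (by positivity), Real.mul_rpow (by norm_num) h0.le, mul_assoc, ← Real.rpow_add h0]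
      have h9 : (2 : ℝ) ^ (k ^ 2 + (-(2 * k ^ 2) - 1)) ≤ 1 :=
        Real.rpow_le_one_of_one_le_of_nonpos (by norm_num) (by nlinarith [sq_nonneg k])
      have h10 : d T ^ (k ^ 2 + (-(2 * k ^ 2) - 1) + (k ^ 2 + 2)) = d T := by
        rw [show k ^ 2 + (-(2 * k ^ 2) - 1) + (k ^ 2 + 2) = 1 by ring, Real.rpow_one]
      rw [h10]
      calc (2 : ℝ) ^ (k ^ 2 + (-(2 * k ^ 2) - 1)) * d T ≤ 1 * d T :=
            mul_le_mul_of_nonneg_right h9 h0.le
        _ = d T := one_mul _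
    rw [hE, norm_mul, norm_mul, Real.norm_of_nonneg (by positivity : (0 : ℝ) ≤ (2 * d T) ^ (k ^ 2)),
      Real.norm_of_nonneg (by positivity : (0 : ℝ) ≤ 1 / T)]
    calc (2 * d T) ^ (k ^ 2) * (1 / T * ‖∫ t in {t : ℝ | t ∈ Set.Icc 0 T \ N T ∧ Q T (mz (d T) t)}, mz (d T) t ^ (2 * k)‖)
        ≤ (2 * d T) ^ (k ^ 2) * (1 / T * ((2 * d T) ^ (-(2 * k ^ 2) - 1) * (d T ^ (k ^ 2 + 2) * T))) := by
          gcongr
      _ = (2 * d T) ^ (k ^ 2) * (2 * d T) ^ (-(2 * k ^ 2) - 1) * d T ^ (k ^ 2 + 2) := by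
          field_simp
      _ ≤ d T := h8
  have hlim := (key.const_mul r).add hE0
  rw [add_zero] at hlim
  refine hlim.congr' ?_
  filter_upwards [hN 0, hsm, hQ, hQb] with T hT hT2 hq hb
  obtain ⟨h0, h1, hT1⟩ := hT2
  have hT0 : 0 < T := by linarith
  have hmc : Measurable (mz (d T)) := (mz_cont h0 h1).measurable
  have hms : MeasurableSet {t : ℝ | Q T (mz (d T) t)} := hmc (hQm T)
  have hbnd : ∀ t, Q T (mz (d T) t) → ‖mz (d T) t ^ (2 * k)‖ ≤ (2 * d T) ^ (-(2 * k ^ 2) - 1) := by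
    intro t ht
    rw [Real.norm_of_nonneg (Real.rpow_nonneg (mz_nn _ _) _)]
    exact hb _ (mz_nn _ _) ht
  have hint : ∀ A : Set ℝ, MeasurableSet A → A ⊆ Set.Icc 0 T →
      IntegrableOn (fun t => mz (d T) t ^ (2 * k)) (A ∩ {t : ℝ | Q T (mz (d T) t)}) volume := by
    intro A hA hA2
    refine Measure.integrableOn_of_bounded (M := (2 * d T) ^ (-(2 * k ^ 2) - 1)) ?_ ?_ ?_
    · refine ((measure_mono (Set.inter_subset_left.trans hA2)).trans_lt ?_).ne
      rw [Real.volume_Icc]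
      exact ENNReal.ofReal_lt_top
    · exact (hmc.pow_const _).aestronglyMeasurable
    · filter_upwards [ae_restrict_mem (hA.inter hms)] with t ht
      exact hbnd t ht.2
  have hsplit : ∫ t in {t : ℝ | t ∈ Set.Icc 0 T ∧ Q T (mz (d T) t)}, mz (d T) t ^ (2 * k) =
      (∫ t in N T ∩ {t : ℝ | Q T (mz (d T) t)}, mz (d T) t ^ (2 * k)) +
      ∫ t in {t : ℝ | t ∈ Set.Icc 0 T \ N T ∧ Q T (mz (d T) t)}, mz (d T) t ^ (2 * k) := by
    have hu : {t : ℝ | t ∈ Set.Icc 0 T ∧ Q T (mz (d T) t)} = (N T ∩ {t : ℝ | Q T (mz (d T) t)}) ∪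
        ((Set.Icc 0 T \ N T) ∩ {t : ℝ | Q T (mz (d T) t)}) := by
      rw [← Set.union_inter_distrib_right, Set.union_sdiff_cancel hT.sub]
      rfl
    have hdis : Disjoint (N T ∩ {t : ℝ | Q T (mz (d T) t)}) ((Set.Icc 0 T \ N T) ∩ {t : ℝ | Q T (mz (d T) t)}) :=
      (Set.disjoint_sdiff_right (s := N T) (t := Set.Icc 0 T)).mono Set.inter_subset_left Set.inter_subset_left
    rw [hu, setIntegral_union hdis ((measurableSet_Icc.diff hT.meas).inter hms)
      (hint _ hT.meas hT.sub) (hint _ (measurableSet_Icc.diff hT.meas) Set.sdiff_subset)]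
    rfl
  have hmain : ∫ t in N T, mz (d T) t ^ (2 * k) * B.indicator (fun _ => (1 : ℝ))
      (LD.X (d T) k t / Real.sqrt (Real.log (1 / (2 * d T)) / 2)) =
      ∫ t in N T ∩ {t : ℝ | Q T (mz (d T) t)}, mz (d T) t ^ (2 * k) := by
    rw [← setIntegral_indicator hms]
    refine setIntegral_congr_fun hT.meas fun t ht => ?_
    have hz : 0 < mz (d T) t := norm_pos_iff.2 (hT.nz t ht)
    have h5 := hq _ hz
    by_cases hQt : Q T (mz (d T) t)
    · have h6 : LD.X (d T) k t / Real.sqrt (Real.log (1 / (2 * d T)) / 2) ∈ B := h5.1 hQt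
      have h7 : t ∈ {t : ℝ | Q T (mz (d T) t)} := hQt
      rw [Set.indicator_of_mem h6, Set.indicator_of_mem h7, mul_one]
    · have h6 : LD.X (d T) k t / Real.sqrt (Real.log (1 / (2 * d T)) / 2) ∉ B := fun h7 => hQt (h5.2 h7)
      have h7 : t ∉ {t : ℝ | Q T (mz (d T) t)} := hQt
      rw [Set.indicator_of_notMem h6, Set.indicator_of_notMem h7, mul_zero]
  rw [int_f h0 h1 hr hT0 k hfm, hmain, hE, hsplit]
  ring

theorem rpow_eq {δ : ℝ} (h0 : 0 < δ) (a : ℝ) :
    (2 * δ) ^ a = Real.exp (-(a * Real.log (1 / (2 * δ)))) := by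
  rw [Real.rpow_def_of_pos (by positivity), LD.log_eq]
  congr 1
  ring

theorem sq_tendsto {d : ℝ → ℝ} (hd : Ad d) :
    Tendsto (fun T : ℝ => Real.sqrt (Real.log (1 / (2 * d T)) / 2)) atTop atTop :=
  Real.tendsto_sqrt_atTop.comp ((lam_tendsto hd).atTop_div_const (by norm_num))

theorem tm2 (h : S_CM) (hC : S_CON) : S_TM2 := by
  intro d hd k x hk
  have key := core h hC hd k (Set.Iic x) {x} measurableSet_Iic ?_
    (fun T z => z ≤ (2 * d T) ^ (-k) * Real.exp (x * Real.sqrt (Real.log (1 / (2 * d T)) / 2)))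
    (fun T => measurableSet_Iic) ?_ ?_
  · exact key
  · intro y hy
    have hy' : y ≠ x := by simpa using hy
    rcases lt_or_gt_of_ne hy' with h1 | h1
    · refine (continuousAt_const (y := (1 : ℝ))).congr ?_
      filter_upwards [Iio_mem_nhds h1] with z hz
      have : z ∈ Set.Iic x := Set.mem_Iic.2 (le_of_lt hz)
      rw [Set.indicator_of_mem this]
    · refine (continuousAt_const (y := (0 : ℝ))).congr ?_
      filter_upwards [Ioi_mem_nhds h1] with z hz
      have : z ∉ Set.Iic x := fun h2 => absurd (Set.mem_Iic.1 h2) (not_le.2 hz)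
      rw [Set.indicator_of_notMem this]
  · filter_upwards [small hd, (sq_tendsto hd).eventually_gt_atTop 0] with T hT hs z hz
    rw [rpow_eq hT.1, ← Real.exp_add, ← Real.log_le_iff_le_exp hz, Set.mem_Iic, div_le_iff₀ hs]
    constructor <;> intro h1 <;> linarith
  · filter_upwards [small hd, (sq_tendsto hd).eventually_ge_atTop (k * x),
      (lam_tendsto hd).eventually_ge_atTop 0] with T hT hs hL z hz hz2
    have hs2 : Real.sqrt (Real.log (1 / (2 * d T)) / 2) ^ 2 = Real.log (1 / (2 * d T)) / 2 :=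
      Real.sq_sqrt (by linarith)
    have h0 : 0 ≤ Real.sqrt (Real.log (1 / (2 * d T)) / 2) := Real.sqrt_nonneg _
    have h2 := Real.rpow_le_rpow hz hz2 (by positivity : 0 ≤ 2 * k)
    refine h2.trans ?_
    rw [rpow_eq hT.1, rpow_eq hT.1, ← Real.exp_add, ← Real.exp_mul, Real.exp_le_exp]
    nlinarith

theorem nm2 (h : S_CM) (hC : S_CON) : S_NM2 := by
  intro d hd k x hk
  have key := core h hC hd k (Set.Ici (-x)) {-x} measurableSet_Ici ?_
    (fun T z => (2 * d T) ^ (-k) * Real.exp (-(x * Real.sqrt (Real.log (1 / (2 * d T)) / 2))) ≤ z)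
    (fun T => measurableSet_Ici) ?_ ?_
  · have e : gaussianReal 0 1 (Set.Ici (-x)) = gaussianReal 0 1 (Set.Iic x) := by
      have h1 : (gaussianReal 0 1).map (fun y : ℝ => -y) = gaussianReal 0 1 := by
        rw [ProbabilityTheory.gaussianReal_map_neg, neg_zero]
      have h2 : (fun y : ℝ => -y) ⁻¹' Set.Ici (-x) = Set.Iic x := by
        ext y
        simp
      calc gaussianReal 0 1 (Set.Ici (-x)) = ((gaussianReal 0 1).map (fun y : ℝ => -y)) (Set.Ici (-x)) := by rw [h1]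
        _ = gaussianReal 0 1 ((fun y : ℝ => -y) ⁻¹' Set.Ici (-x)) :=
            Measure.map_apply measurable_neg measurableSet_Ici
        _ = gaussianReal 0 1 (Set.Iic x) := by rw [h2]
    rw [e] at key
    exact key
  · intro y hy
    have hy' : y ≠ -x := by simpa using hy
    rcases lt_or_gt_of_ne hy' with h1 | h1
    · refine (continuousAt_const (y := (0 : ℝ))).congr ?_
      filter_upwards [Iio_mem_nhds h1] with z hz
      have : z ∉ Set.Ici (-x) := fun h2 => absurd (Set.mem_Ici.1 h2) (not_le.2 hz)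
      rw [Set.indicator_of_notMem this]
    · refine (continuousAt_const (y := (1 : ℝ))).congr ?_
      filter_upwards [Ioi_mem_nhds h1] with z hz
      have : z ∈ Set.Ici (-x) := Set.mem_Ici.2 (le_of_lt hz)
      rw [Set.indicator_of_mem this]
  · filter_upwards [small hd, (sq_tendsto hd).eventually_gt_atTop 0] with T hT hs z hz
    rw [rpow_eq hT.1, ← Real.exp_add, ← Real.le_log_iff_exp_le hz, Set.mem_Ici, le_div_iff₀ hs]
    constructor <;> intro h1 <;> linarith
  · filter_upwards [small hd, (sq_tendsto hd).eventually_ge_atTop (-(k * x)),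
      (lam_tendsto hd).eventually_ge_atTop 0] with T hT hs hL z hz hz2
    have hs2 : Real.sqrt (Real.log (1 / (2 * d T)) / 2) ^ 2 = Real.log (1 / (2 * d T)) / 2 :=
      Real.sq_sqrt (by linarith)
    have h0 : 0 ≤ Real.sqrt (Real.log (1 / (2 * d T)) / 2) := Real.sqrt_nonneg _
    rw [rpow_eq hT.1, ← Real.exp_add] at hz2
    have h2 := Real.rpow_le_rpow_of_nonpos (Real.exp_pos _) hz2 (by linarith : 2 * k ≤ 0)
    refine h2.trans ?_
    rw [rpow_eq hT.1, ← Real.exp_mul, Real.exp_le_exp]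
    nlinarith

theorem main (h : S_CM) (hC : S_CON) : S_TM2 ∧ S_NM2 := ⟨tm2 h hC, nm2 h hC⟩

end Pool.Agent.N748.MG.TMB
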