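import Pool.Agent.N748.MG.Ev

set_option autoImplicit false

/-! (CM) complex moments outside tiny sets (helper160, for project MG of helper748) -/

namespace Pool.Agent.N748.MG.CM

open Finset Filter MeasureTheory Topology Complex
open Pool.Agent.N748.MG

lemma conj_lC (s : ℂ) (m : ℕ) : (starRingEnd ℂ) (lC s m) = lC ((starRingEnd ℂ) s) m := by
  unfold lC
  rw [map_prod]
  refine Finset.prod_congr rfl fun i _ => ?_
  rw [map_div₀, map_add, map_add, Complex.conj_natCast, map_one]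

lemma conj_dS (s : ℂ) (n : ℕ) : (starRingEnd ℂ) (dS s n) = dS ((starRingEnd ℂ) s) n := by
  unfold dS
  rw [map_prod]
  exact Finset.prod_congr rfl fun p _ => conj_lC s _

lemma AS_cont (s : ℂ) (y : ℝ) (K : ℕ) (δ : ℝ) : Continuous fun t : ℝ => AS s y K (pw δ t) := by
  unfold AS
  refine continuous_finsetSum _ fun n hn => ?_
  refine Continuous.mul continuous_const (Continuous.const_cpow ?_ (Or.inl ?_))
  · unfold pw
    fun_prop
  · unfold FS at hn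
    rw [Finset.mem_filter] at hn
    exact_mod_cast hn.2.1

/-- comparison on the good set -/
lemma cmpN (f F : ℝ → ℂ) (hf : Measurable f) (hF : Continuous F) (X : ℝ) (hX : 0 ≤ X) (N : Set ℝ)
    (hN : MeasurableSet N) (hNX : N ⊆ Set.Icc 0 X) (c0 : ℝ) (hc0 : 0 ≤ c0)
    (h : ∀ t ∈ N, ‖f t - F t‖ ≤ c0) : ‖(∫ t in N, f t) - ∫ t in N, F t‖ ≤ c0 * X := by
  have hvol : volume N ≤ ENNReal.ofReal X := by
    refine (measure_mono hNX).trans ?_
    rw [Real.volume_Icc, sub_zero]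
  have hfin : volume N < ⊤ := hvol.trans_lt ENNReal.ofReal_lt_top
  have hFi : IntegrableOn F N := (hF.integrableOn_Icc (a := 0) (b := X)).mono_set hNX
  have hd : IntegrableOn (fun t => f t - F t) N := by
    refine Measure.integrableOn_of_bounded (M := c0) hfin.ne
      (hf.sub hF.measurable).aestronglyMeasurable ?_
    exact (ae_restrict_iff' hN).2 (Eventually.of_forall h)
  have hfi : IntegrableOn f N := by
    have := hd.add hFi
    refine this.congr_fun (fun t _ => ?_) hN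
    simp
  rw [← integral_sub hfi hFi]
  refine (norm_setIntegral_le_of_norm_le_const hfin h).trans ?_
  refine mul_le_mul_of_nonneg_left ?_ hc0
  exact ENNReal.toReal_le_of_le_ofReal hX hvol

/-- the integral over the bad set -/
lemma bad (P Q : ℝ → ℂ) (hP : Continuous P) (hQ : Continuous Q) (X : ℝ) (hX : 0 ≤ X) (N : Set ℝ)
    (hN : MeasurableSet N) (hNX : N ⊆ Set.Icc 0 X) (M m lam : ℝ) (hlam : 0 < lam) (hm : 0 ≤ m)
    (h1 : ∫ t in (0:ℝ)..X, ‖P t‖ ^ 4 ≤ M) (h2 : ∫ t in (0:ℝ)..X, ‖Q t‖ ^ 4 ≤ M)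
    (hB : volume (Set.Icc 0 X \ N) ≤ ENNReal.ofReal m) :
    ‖(∫ t in N, P t * (starRingEnd ℂ) (Q t)) - ∫ t in (0:ℝ)..X, P t * (starRingEnd ℂ) (Q t)‖ ≤
      lam / 2 * M + m / (2 * lam) := by
  have hF : Continuous fun t => P t * (starRingEnd ℂ) (Q t) :=
    hP.mul (Complex.continuous_conj.comp hQ)
  have hFi : IntegrableOn (fun t => P t * (starRingEnd ℂ) (Q t)) (Set.Icc 0 X) :=
    hF.integrableOn_Icc
  have hG : Continuous fun t => lam / 4 * (‖P t‖ ^ 4 + ‖Q t‖ ^ 4) := by fun_prop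
  have hG1 : Continuous fun t => ‖P t‖ ^ 4 := by fun_prop
  have hG2 : Continuous fun t => ‖Q t‖ ^ 4 := by fun_prop
  rw [intervalIntegral.integral_of_le hX, ← integral_Icc_eq_integral_Ioc] at h1 h2
  rw [intervalIntegral.integral_of_le hX, ← integral_Icc_eq_integral_Ioc]
  have hfinB : volume (Set.Icc 0 X \ N) < ⊤ := hB.trans_lt ENNReal.ofReal_lt_top
  have e1 : (∫ t in N, P t * (starRingEnd ℂ) (Q t)) - ∫ t in Set.Icc 0 X, P t * (starRingEnd ℂ) (Q t) =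
      -(∫ t in Set.Icc 0 X \ N, P t * (starRingEnd ℂ) (Q t)) := by
    rw [setIntegral_sdiff hN hFi hNX]
    ring
  rw [e1, norm_neg]
  have hGi : IntegrableOn (fun t => lam / 4 * (‖P t‖ ^ 4 + ‖Q t‖ ^ 4)) (Set.Icc 0 X \ N) :=
    (hG.integrableOn_Icc).mono_set Set.sdiff_subset
  have hci : IntegrableOn (fun _ : ℝ => 1 / (2 * lam)) (Set.Icc 0 X \ N) :=
    integrableOn_const hfinB.ne
  have h3 : ∀ t, ‖P t * (starRingEnd ℂ) (Q t)‖ ≤ lam / 4 * (‖P t‖ ^ 4 + ‖Q t‖ ^ 4) + 1 / (2 * lam) := by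
    intro t
    rw [norm_mul, RCLike.norm_conj]
    have a1 := norm_nonneg (P t)
    have a2 := norm_nonneg (Q t)
    obtain ⟨x, hx⟩ : ∃ x, x = ‖P t‖ := ⟨_, rfl⟩
    obtain ⟨y, hy⟩ : ∃ y, y = ‖Q t‖ := ⟨_, rfl⟩
    rw [← hx, ← hy] at *
    have b1 : x * y ≤ lam / 2 * (x * y) ^ 2 + 1 / (2 * lam) := by
      have : lam / 2 * (x * y) ^ 2 + 1 / (2 * lam) - x * y = (lam * (x * y) - 1) ^ 2 / (2 * lam) := by
        field_simp
        ring
      have h : 0 ≤ (lam * (x * y) - 1) ^ 2 / (2 * lam) := by positivity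
      linarith
    have b2 : (x * y) ^ 2 ≤ (x ^ 4 + y ^ 4) / 2 := by nlinarith [sq_nonneg (x ^ 2 - y ^ 2)]
    have b3 := mul_le_mul_of_nonneg_left b2 (by positivity : 0 ≤ lam / 2)
    linarith
  refine (norm_integral_le_integral_norm _).trans ?_
  have h4 : ∫ t in Set.Icc 0 X \ N, ‖P t * (starRingEnd ℂ) (Q t)‖ ≤
      ∫ t in Set.Icc 0 X \ N, (lam / 4 * (‖P t‖ ^ 4 + ‖Q t‖ ^ 4) + 1 / (2 * lam)) :=
    integral_mono (hFi.mono_set Set.sdiff_subset).norm (hGi.add hci) h3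
  refine h4.trans ?_
  rw [integral_add hGi hci]
  have h5 : ∫ t in Set.Icc 0 X \ N, lam / 4 * (‖P t‖ ^ 4 + ‖Q t‖ ^ 4) ≤ lam / 2 * M := by
    have h6 : ∫ t in Set.Icc 0 X \ N, lam / 4 * (‖P t‖ ^ 4 + ‖Q t‖ ^ 4) ≤
        ∫ t in Set.Icc 0 X, lam / 4 * (‖P t‖ ^ 4 + ‖Q t‖ ^ 4) := by
      refine setIntegral_mono_set hG.integrableOn_Icc ?_ ?_
      · exact Eventually.of_forall fun t => by
          simp only [Pi.zero_apply]
          positivity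
      · exact (Set.sdiff_subset).eventuallyLE
    refine h6.trans ?_
    rw [integral_const_mul, integral_add hG1.integrableOn_Icc hG2.integrableOn_Icc]
    nlinarith
  have h7 : ∫ _t in Set.Icc 0 X \ N, (1 / (2 * lam)) ≤ m / (2 * lam) := by
    rw [setIntegral_const, smul_eq_mul, div_eq_mul_one_div m]
    refine mul_le_mul_of_nonneg_right ?_ (by positivity)
    exact ENNReal.toReal_le_of_le_ofReal hm hB
  linarith

lemma zeta_meas (δ : ℝ) (hδ : 0 < δ) (hδ1 : δ ≤ 1 / 16) (s : ℂ) :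
    Measurable fun t : ℝ => ((‖riemannZeta (pw δ t)‖ : ℝ) : ℂ) ^ (2 * s) := by
  have hc : Continuous fun t : ℝ => riemannZeta (pw δ t) := by
    rw [continuous_iff_continuousAt]
    intro t
    have hne : pw δ t ≠ 1 := by
      intro h
      have h1 := congrArg Complex.re h
      unfold pw at h1
      simp at h1
      linarith
    have h1 : ContinuousAt riemannZeta (pw δ t) := (differentiableAt_riemannZeta hne).continuousAt
    have h2 : Continuous fun t : ℝ => pw δ t := by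
      unfold pw
      fun_prop
    exact ContinuousAt.comp (f := fun t : ℝ => pw δ t) h1 h2.continuousAt
  exact (Complex.measurable_ofReal.comp hc.norm.measurable).pow_const _

lemma rpow_eq {δ : ℝ} (hδ : 0 < δ) (a : ℝ) : δ ^ a = Real.exp (-(a * Real.log (1 / δ))) := by
  rw [Real.rpow_def_of_pos hδ, one_div, Real.log_inv]
  congr 1
  ring

lemma cpow_norm {δ R : ℝ} (hδ : 0 < δ) (hδ1 : δ ≤ 1 / 16) (s : ℂ) (hs : ‖s‖ ≤ R) :
    ‖((2 * δ : ℝ) : ℂ) ^ (s ^ 2)‖ ≤ δ ^ (-(R ^ 2)) := by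
  rw [Complex.norm_cpow_eq_rpow_re_of_pos (by positivity)]
  have h1 : -(R ^ 2) ≤ (s ^ 2).re := by
    have h2 : |(s ^ 2).re| ≤ ‖s ^ 2‖ := Complex.abs_re_le_norm _
    rw [norm_pow] at h2
    have h3 : ‖s‖ ^ 2 ≤ R ^ 2 := pow_le_pow_left₀ (norm_nonneg _) hs 2
    have := (abs_le.1 h2).1
    linarith
  calc (2 * δ) ^ (s ^ 2).re ≤ (2 * δ) ^ (-(R ^ 2)) :=
        Real.rpow_le_rpow_of_exponent_ge (by positivity) (by linarith) h1
    _ ≤ δ ^ (-(R ^ 2)) := by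
        rw [Real.rpow_neg (by positivity), Real.rpow_neg hδ.le]
        refine inv_anti₀ (Real.rpow_pos_of_pos hδ _) ?_
        exact Real.rpow_le_rpow hδ.le (by linarith) (sq_nonneg _)

theorem main (hC : S_CMP) (hV : S_MVS) (hS : S_SIZ) (h4 : S_L4) (h1 : S_DIA1) (h2 : S_DIA2)
    (hN : S_NIC) : S_CM := by
  intro R D hR hD ε hε
  obtain ⟨C4, hC40, hC4⟩ := h4 R hR.le
  obtain ⟨D1, hD1⟩ : ∃ D1, D1 = max D (C4 + 2 * R ^ 2 + 4) := ⟨_, rfl⟩
  have hD1D : D ≤ D1 := by rw [hD1]; exact le_max_left _ _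
  have hD1C : C4 + 2 * R ^ 2 + 4 ≤ D1 := by rw [hD1]; exact le_max_right _ _
  obtain ⟨ca, hca, hN'⟩ := hN D1 (by linarith)
  obtain ⟨Cc, hCc0, hCc⟩ := hC R hR.le
  obtain ⟨C0, hC00, hC0⟩ := hS R hR.le
  obtain ⟨C1, δ1, hC10, hδ10, hC1⟩ := h1 R (R ^ 2 + 2) hR.le (by positivity)
  obtain ⟨δ2, hδ20, hδ2⟩ := h2 R hR.le (ε / 2) (by positivity)
  obtain ⟨B, hB⟩ : ∃ B, B = Cc * (ca + 3) := ⟨_, rfl⟩
  have hB0 : 0 < B := by rw [hB]; positivity
  obtain ⟨A, hA⟩ : ∃ A, A = B + R ^ 2 + 2 := ⟨_, rfl⟩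
  have hA0 : 0 < A := by rw [hA]; positivity
  obtain ⟨C, hCd⟩ : ∃ C, C = 5 * (A + B) + C4 + C1 + 2 * (1 + 2 * C0) := ⟨_, rfl⟩
  have hCA : 5 * (A + B) ≤ C := by rw [hCd]; linarith
  have hCC4 : C4 ≤ C := by rw [hCd]; linarith
  have hCC1 : C1 ≤ C := by rw [hCd]; linarith
  have hCC0 : 2 * (1 + 2 * C0) ≤ C := by rw [hCd]; linarith
  have hC0' : 0 < C := by linarith
  have hEv := ((((hN' C hC0').and (Ev.win (D := R ^ 2 + 2) (c := 1 / 4) (e := 1 / 2) (by norm_num)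
    (by norm_num))).and (Ev.of_le hδ10)).and (Ev.of_le hδ20)).and
    (Ev.small (C := 4) (c := 2) (e := ε / 2) (by norm_num) (by positivity))
  refine hEv.mono ?_
  rintro X δ hX hδ hδ16 ⟨⟨⟨⟨⟨y, K, N, hy, hy1, hK1, hKX, hv, hNm, hNX, hNv, hNt⟩, hwin⟩, hd1⟩, hd2⟩, hsm⟩
  obtain ⟨L, hL⟩ : ∃ L, L = Real.log (1 / δ) := ⟨_, rfl⟩
  have hL1 : 1 ≤ L := by rw [hL]; exact log_inv_ge hδ hδ16
  have hL0 : 0 < L := by linarith
  have hX0 : (0 : ℝ) < X := by linarith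
  have hδ1' : δ ≤ 1 := by linarith
  have hrp : ∀ a : ℝ, δ ^ a = Real.exp (-(a * L)) := fun a => by rw [hL]; exact rpow_eq hδ a
  have hly : 0 < Real.log y := Real.log_pos (by linarith)
  rw [← hL] at hy1 hK1 hv hNt
  have hKly : 0 ≤ (K + 1) * Real.log y := by positivity
  have hexpE : ∀ s : ℝ, s = Cc * (ca * L + 2 * L + 1) → Real.exp s ≤ Real.exp (B * L) := by
    intro s hs
    rw [hs, hB]
    apply Real.exp_le_exp.2
    nlinarith
  have hK45 : ((4 : ℝ) / 5) ^ K ≤ Real.exp (-((A + B) * L)) := by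
    have g1 : (4 : ℝ) / 5 ≤ Real.exp (-(1 / 5)) := by
      have := Real.add_one_le_exp (-(1 / 5 : ℝ))
      linarith
    calc ((4 : ℝ) / 5) ^ K ≤ Real.exp (-(1 / 5)) ^ K := pow_le_pow_left₀ (by norm_num) g1 K
      _ = Real.exp (-(K / 5)) := by
        rw [← Real.exp_nat_mul]
        congr 1
        ring
      _ ≤ _ := by
        apply Real.exp_le_exp.2
        nlinarith
  -- pointwise comparison
  have hpt : ∀ t ∈ N, ∀ s : ℂ, ‖s‖ ≤ R →
      ‖((‖riemannZeta (pw δ t)‖ : ℝ) : ℂ) ^ (2 * s) - AS s y K (pw δ t) *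
        (starRingEnd ℂ) (AS ((starRingEnd ℂ) s) y K (pw δ t))‖ ≤ δ ^ (R ^ 2 + 2) := by
    intro t ht s hs
    obtain ⟨g1, g2⟩ := hNt t ht
    have hre : 1 / 2 ≤ (pw δ t).re := by
      unfold pw
      simp
      linarith
    have k1 : ‖riemannZeta (pw δ t) * AS (-1) y K (pw δ t) - 1‖ ≤ δ ^ A :=
      g2.trans (Real.rpow_le_rpow_of_exponent_ge hδ hδ1' (by linarith))
    have k2 : (4 / 5 : ℝ) ^ K * Real.exp (Cc * (ca * L + 2 * L + 1)) ≤ δ ^ A := by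
      rw [hrp]
      calc _ ≤ Real.exp (-((A + B) * L)) * Real.exp (B * L) :=
            mul_le_mul hK45 (hexpE _ rfl) (Real.exp_pos _).le (Real.exp_pos _).le
        _ = Real.exp (-(A * L)) := by
          rw [← Real.exp_add]
          congr 1
          ring
    have k3 : δ ^ A * Real.exp (Cc * (ca * L + 2 * L + 1)) ≤ δ ^ (R ^ 2 + 2) := by
      rw [hrp, hrp]
      calc _ ≤ Real.exp (-(A * L)) * Real.exp (B * L) :=
            mul_le_mul_of_nonneg_left (hexpE _ rfl) (Real.exp_pos _).le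
        _ = _ := by
          rw [← Real.exp_add, hA]
          congr 1
          ring
    have k4 : δ ^ (R ^ 2 + 2) ≤ 1 := Real.rpow_le_one hδ.le hδ1' (by positivity)
    exact (hCc y K (pw δ t) (ca * L) (2 * L) (δ ^ A) hy hre g1 hv (Real.rpow_pos_of_pos hδ _) k1 k2
      (k3.trans k4) s hs).trans k3
  refine ⟨N, hNm, hNX, hNv.trans (ENNReal.ofReal_le_ofReal (mul_le_mul_of_nonneg_right
    (Real.rpow_le_rpow_of_exponent_ge hδ hδ1' hD1D) hX0.le)), ?_, ?_⟩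
  · intro t ht h0
    have g2 := (hNt t ht).2
    rw [h0, zero_mul, zero_sub, norm_neg, norm_one] at g2
    have : δ ^ C < 1 := Real.rpow_lt_one hδ.le (by linarith) hC0'
    linarith
  intro s hs
  have hs' : ‖(starRingEnd ℂ) s‖ ≤ R := by rwa [RCLike.norm_conj]
  obtain ⟨P, hP⟩ : ∃ P : ℝ → ℂ, P = fun t => AS s y K (pw δ t) := ⟨_, rfl⟩
  obtain ⟨Q, hQ⟩ : ∃ Q : ℝ → ℂ, Q = fun t => AS ((starRingEnd ℂ) s) y K (pw δ t) := ⟨_, rfl⟩
  have hPc : Continuous P := by rw [hP]; exact AS_cont s y K δ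
  have hQc : Continuous Q := by rw [hQ]; exact AS_cont _ y K δ
  have hKC4 : C4 * ((K + 1) * Real.log y) ≤ Real.log X :=
    (mul_le_mul_of_nonneg_right hCC4 hKly).trans hKX
  obtain ⟨Z, hZ⟩ : ∃ Z : ℂ, Z = ∫ t in N, ((‖riemannZeta (pw δ t)‖ : ℝ) : ℂ) ^ (2 * s) := ⟨_, rfl⟩
  obtain ⟨I1, hI1⟩ : ∃ I1 : ℂ, I1 = ∫ t in N, P t * (starRingEnd ℂ) (Q t) := ⟨_, rfl⟩
  obtain ⟨I2, hI2⟩ : ∃ I2 : ℂ, I2 = ∫ t in (0:ℝ)..X, P t * (starRingEnd ℂ) (Q t) := ⟨_, rfl⟩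
  obtain ⟨S1, hS1⟩ : ∃ S1 : ℂ, S1 = ∑ n ∈ FS y K, dS s n ^ 2 * (((n:ℝ) ^ (-(1 + 2 * δ)) : ℝ) : ℂ) :=
    ⟨_, rfl⟩
  obtain ⟨S2, hS2⟩ : ∃ S2 : ℂ, S2 = ∑' n : ℕ, dS s n ^ 2 * (((n:ℝ) ^ (-(1 + 2 * δ)) : ℝ) : ℂ) :=
    ⟨_, rfl⟩
  obtain ⟨q, hq⟩ : ∃ q : ℝ, q = δ ^ (R ^ 2 + 2) := ⟨_, rfl⟩
  have hq0 : 0 < q := by rw [hq]; exact Real.rpow_pos_of_pos hδ _
  have t1 : ‖Z - I1‖ ≤ q * X := by
    rw [hZ, hI1]
    refine cmpN _ _ (zeta_meas δ hδ hδ16 s) (hPc.mul (Complex.continuous_conj.comp hQc)) X hX0.le N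
      hNm hNX q hq0.le ?_
    intro t ht
    rw [hP, hQ, hq]
    exact hpt t ht s hs
  have t2 : ‖I1 - I2‖ ≤ q * X := by
    rw [hI1, hI2]
    have hl0 : 0 < δ ^ ((D1 + C4) / 2) := Real.rpow_pos_of_pos hδ _
    have g1 := bad P Q hPc hQc X hX0.le N hNm hNX (X * δ ^ (-C4)) (δ ^ D1 * X)
      (δ ^ ((D1 + C4) / 2)) hl0 (by positivity)
      (by rw [hP]; exact hC4 y K δ X hy hδ hδ16 hX0 hKC4 s hs)
      (by rw [hQ]; exact hC4 y K δ X hy hδ hδ16 hX0 hKC4 _ hs') hNv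
    refine g1.trans ?_
    have g2 : δ ^ ((D1 + C4) / 2) * δ ^ (-C4) = δ ^ ((D1 - C4) / 2) := by
      rw [← Real.rpow_add hδ]
      congr 1
      ring
    have g3 : δ ^ D1 / δ ^ ((D1 + C4) / 2) = δ ^ ((D1 - C4) / 2) := by
      rw [← Real.rpow_sub hδ]
      congr 1
      ring
    have g4 : δ ^ ((D1 - C4) / 2) ≤ q := by
      rw [hq]
      exact Real.rpow_le_rpow_of_exponent_ge hδ hδ1' (by linarith)
    have e : δ ^ ((D1 + C4) / 2) / 2 * (X * δ ^ (-C4)) + δ ^ D1 * X / (2 * δ ^ ((D1 + C4) / 2)) =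
        (δ ^ ((D1 + C4) / 2) * δ ^ (-C4)) * X / 2 + (δ ^ D1 / δ ^ ((D1 + C4) / 2)) * X / 2 := by
      field_simp
    rw [e, g2, g3]
    nlinarith
  have t3 : ‖I2 - X * S1‖ ≤ q * X := by
    have g1 := hV (FS y K) (Real.exp (K * Real.log y)) (dS s) (dS ((starRingEnd ℂ) s))
      (hC0 y hy K).1 δ X hδ.le hX0.le
    have e1 : ∑ n ∈ FS y K, dS s n * (starRingEnd ℂ) (dS ((starRingEnd ℂ) s) n) *
        (((n:ℝ) ^ (-(1 + 2 * δ)) : ℝ) : ℂ) = S1 := by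
      rw [hS1]
      refine Finset.sum_congr rfl fun n _ => ?_
      rw [conj_dS, Complex.conj_conj]
      ring
    rw [e1] at g1
    have e2 : (∫ t in (0:ℝ)..X, (∑ n ∈ FS y K, dS s n * (n:ℂ) ^ (-(pw δ t))) *
      (starRingEnd ℂ) (∑ n ∈ FS y K, dS ((starRingEnd ℂ) s) n * (n:ℂ) ^ (-(pw δ t)))) = I2 := by
      rw [hI2, hP, hQ]
      rfl
    rw [e2] at g1
    refine g1.trans ?_
    have g2 := (hC0 y hy K).2 s hs
    have g3 := (hC0 y hy K).2 _ hs'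
    have g4 : 4 * Real.exp (K * Real.log y) * (∑ n ∈ FS y K, ‖dS s n‖) *
        (∑ n ∈ FS y K, ‖dS ((starRingEnd ℂ) s) n‖) ≤ 4 * Real.exp (K * Real.log y) *
        Real.exp (C0 * ((K + 1) * Real.log y)) * Real.exp (C0 * ((K + 1) * Real.log y)) := by
      have k1 : 0 ≤ ∑ n ∈ FS y K, ‖dS ((starRingEnd ℂ) s) n‖ :=
        Finset.sum_nonneg fun _ _ => norm_nonneg _
      have k2 : 0 ≤ ∑ n ∈ FS y K, ‖dS s n‖ := Finset.sum_nonneg fun _ _ => norm_nonneg _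
      gcongr
    refine g4.trans ?_
    have g5 : 4 * Real.exp (K * Real.log y) *
        Real.exp (C0 * ((K + 1) * Real.log y)) * Real.exp (C0 * ((K + 1) * Real.log y)) ≤
        4 * X ^ ((1 : ℝ) / 2) := by
      rw [mul_assoc, mul_assoc, ← Real.exp_add, ← Real.exp_add, Real.rpow_def_of_pos hX0]
      refine mul_le_mul_of_nonneg_left (Real.exp_le_exp.2 ?_) (by norm_num)
      have k1 := (mul_le_mul_of_nonneg_right hCC0 hKly).trans hKX
      nlinarith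
    refine g5.trans ?_
    have g6 : q * δ ^ (-(R ^ 2 + 2)) = 1 := by
      rw [hq, ← Real.rpow_add hδ, add_neg_cancel, Real.rpow_zero]
    have g7 : X ^ ((1 : ℝ) / 2) * X ^ ((1 : ℝ) / 2) = X := by
      rw [← Real.rpow_add hX0]
      norm_num
    have g8 : 0 < X ^ ((1 : ℝ) / 2) := Real.rpow_pos_of_pos hX0 _
    have g9 : 1 ≤ q * (1 / 4 * X ^ ((1 : ℝ) / 2)) :=
      g6.symm.le.trans (mul_le_mul_of_nonneg_left hwin hq0.le)
    nlinarith
  have t4 : ‖S1 - S2‖ ≤ q := by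
    rw [hS1, hS2, hq]
    exact hC1 δ hδ hd1 y K hy ((mul_le_mul_of_nonneg_right hCC1 (by rw [← hL]; exact hL0.le)).trans
      (by rw [← hL]; exact hy1)) ((mul_le_mul_of_nonneg_right hCC1 (by rw [← hL]; exact hL0.le)).trans
      (by rw [← hL]; exact hK1)) s hs
  have t5 : ‖((2 * δ : ℝ) : ℂ) ^ (s ^ 2) * S2 - aC s‖ ≤ ε / 2 := by
    rw [hS2]
    exact hδ2 δ hδ hd2 s hs
  have t6 := cpow_norm hδ hδ16 s hs
  obtain ⟨u, hu⟩ : ∃ u : ℂ, u = ((2 * δ : ℝ) : ℂ) ^ (s ^ 2) := ⟨_, rfl⟩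
  rw [← hZ, ← hu]
  rw [← hu] at t5 t6
  have e : u * Z - X * aC s = u * ((Z - I1) + (I1 - I2) + (I2 - X * S1) + X * (S1 - S2)) +
      X * (u * S2 - aC s) := by ring
  rw [e]
  have n1 : ‖(Z - I1) + (I1 - I2) + (I2 - X * S1) + X * (S1 - S2)‖ ≤ 4 * (q * X) := by
    have k1 := norm_add_le ((Z - I1) + (I1 - I2) + (I2 - X * S1)) (X * (S1 - S2))
    have k2 := norm_add_le ((Z - I1) + (I1 - I2)) (I2 - X * S1)
    have k3 := norm_add_le (Z - I1) (I1 - I2)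
    have k4 : ‖(X : ℂ) * (S1 - S2)‖ ≤ q * X := by
      rw [norm_mul, Complex.norm_real, Real.norm_eq_abs, abs_of_pos hX0, mul_comm]
      exact mul_le_mul_of_nonneg_right t4 hX0.le
    linarith
  have n2 : ‖u * ((Z - I1) + (I1 - I2) + (I2 - X * S1) + X * (S1 - S2))‖ ≤ ε / 2 * X := by
    rw [norm_mul]
    refine (mul_le_mul t6 n1 (norm_nonneg _) (Real.rpow_pos_of_pos hδ _).le).trans ?_
    have k1 : δ ^ (-(R ^ 2)) * q = δ ^ (2 : ℝ) := by
      rw [hq, ← Real.rpow_add hδ]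
      congr 1
      ring
    calc δ ^ (-(R ^ 2)) * (4 * (q * X)) = (4 * (δ ^ (-(R ^ 2)) * q)) * X := by ring
      _ = (4 * δ ^ (2 : ℝ)) * X := by rw [k1]
      _ ≤ ε / 2 * X := mul_le_mul_of_nonneg_right hsm hX0.le
  have n3 : ‖(X : ℂ) * (u * S2 - aC s)‖ ≤ ε / 2 * X := by
    rw [norm_mul, Complex.norm_real, Real.norm_eq_abs, abs_of_pos hX0, mul_comm]
    exact mul_le_mul_of_nonneg_right t5 hX0.le
  refine (norm_add_le _ _).trans ?_
  linarith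

end Pool.Agent.N748.MG.CM
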