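import Pool.Agent.N748.MG.Stm

/-!
# Project MG (CMP): pointwise comparison of the powers of zeta with the polynomials (helper262)
-/

set_option autoImplicit false

namespace Pool.Agent.N748.MG.CMP

open Finset Filter MeasureTheory Topology Complex
open Pool.Agent.N748.MG

/-- the sum of the logarithms of the Euler factors -/
noncomputable def Lam (y : ℝ) (w : ℂ) : ℂ := ∑ p ∈ PA y, Complex.log (1 - (p:ℂ) ^ (-w))

theorem mem_PA {y : ℝ} {p : ℕ} (h : p ∈ PA y) : 2 ≤ p :=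
  (Finset.mem_Icc.mp (Finset.mem_filter.mp h).1).1

theorem norm_x {p : ℕ} (hp : 2 ≤ p) {w : ℂ} (hw : 1 / 2 ≤ w.re) :
    ‖(p:ℂ) ^ (-w)‖ ^ 2 ≤ 1 / (p:ℝ) := by
  have hp0 : (0:ℝ) < p := by exact_mod_cast (by omega : 0 < p)
  have hp1 : (1:ℝ) ≤ p := by exact_mod_cast (by omega : 1 ≤ p)
  rw [Complex.norm_natCast_cpow_of_pos (by omega), ← Real.rpow_natCast, ← Real.rpow_mul hp0.le,
    one_div, ← Real.rpow_neg_one]
  refine Real.rpow_le_rpow_of_exponent_le hp1 ?_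
  rw [Complex.neg_re]
  push_cast
  linarith

theorem norm_x' {p : ℕ} (hp : 2 ≤ p) {w : ℂ} (hw : 1 / 2 ≤ w.re) : ‖(p:ℂ) ^ (-w)‖ ≤ 3 / 4 := by
  have h := norm_x hp hw
  have h2 : (1:ℝ) / p ≤ 1 / 2 := by
    have : (2:ℝ) ≤ p := by exact_mod_cast hp
    exact one_div_le_one_div_of_le (by norm_num) this
  have h3 := norm_nonneg ((p:ℂ) ^ (-w))
  nlinarith

theorem one_sub_ne {p : ℕ} (hp : 2 ≤ p) {w : ℂ} (hw : 1 / 2 ≤ w.re) : 1 - (p:ℂ) ^ (-w) ≠ 0 := by
  intro h
  have h1 := norm_x' hp hw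
  have h2 : (p:ℂ) ^ (-w) = 1 := (sub_eq_zero.mp h).symm
  rw [h2, norm_one] at h1
  norm_num at h1

theorem log_bd {x : ℂ} (hx : ‖x‖ ≤ 3 / 4) : ‖Complex.log (1 - x) + x‖ ≤ 2 * ‖x‖ ^ 2 := by
  have h := Complex.norm_log_one_add_sub_self_le (z := -x) (by rw [norm_neg]; linarith)
  rw [norm_neg, sub_neg_eq_add, ← sub_eq_add_neg] at h
  refine h.trans ?_
  have h1 : (1 - ‖x‖)⁻¹ ≤ 4 := by
    rw [inv_le_comm₀ (by linarith) (by norm_num)]
    linarith
  have h2 : 0 ≤ ‖x‖ ^ 2 := by positivity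
  nlinarith

theorem norm_Lam {y : ℝ} {w : ℂ} {a v : ℝ} (hw : 1 / 2 ≤ w.re)
    (ha : ‖∑ p ∈ PA y, (p:ℂ) ^ (-w)‖ ≤ a) (hv : ∑ p ∈ PA y, 1 / (p:ℝ) ≤ v) :
    ‖Lam y w‖ ≤ a + 2 * v := by
  have h1 : Lam y w = ∑ p ∈ PA y, (Complex.log (1 - (p:ℂ) ^ (-w)) + (p:ℂ) ^ (-w)) -
      ∑ p ∈ PA y, (p:ℂ) ^ (-w) := by
    rw [← Finset.sum_sub_distrib, Lam]
    exact Finset.sum_congr rfl fun p _ => by ring
  have h2 : ‖∑ p ∈ PA y, (Complex.log (1 - (p:ℂ) ^ (-w)) + (p:ℂ) ^ (-w))‖ ≤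
      ∑ p ∈ PA y, 2 * (1 / (p:ℝ)) := by
    refine norm_sum_le_of_le _ fun p hp => ?_
    refine (log_bd (norm_x' (mem_PA hp) hw)).trans ?_
    have := norm_x (mem_PA hp) hw
    linarith
  rw [← Finset.mul_sum] at h2
  rw [h1]
  refine (norm_sub_le _ _).trans ?_
  linarith

theorem prod_eq {y : ℝ} {w : ℂ} (hw : 1 / 2 ≤ w.re) (s : ℂ) :
    ∏ p ∈ PA y, (1 - (p:ℂ) ^ (-w)) ^ (-s) = Complex.exp (-s * Lam y w) := by
  rw [Lam, Finset.mul_sum, Complex.exp_sum]
  refine Finset.prod_congr rfl fun p hp => ?_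
  rw [Complex.cpow_def_of_ne_zero (one_sub_ne (mem_PA hp) hw), mul_comm]

/-- the elementary part -/
theorem core {R C₁ T e κ : ℝ} (hR : 0 ≤ R) (hC₁ : 0 < C₁) (hT : 1 ≤ T) (he : 0 < e)
    (Z A A₁ A₂ s Λ : ℂ) (hΛ : ‖Λ‖ ≤ 2 * T) (hs : ‖s‖ ≤ R) (hZ : ‖Z * A - 1‖ ≤ e)
    (hκ : κ * Real.exp ((C₁ + 20 * R + 10) * T) ≤ e)
    (he2 : e * Real.exp ((C₁ + 20 * R + 10) * T) ≤ 1)
    (hA : ‖A - Complex.exp Λ‖ ≤ κ * Real.exp (C₁ * T))
    (hA₁ : ‖A₁ - Complex.exp (-s * Λ)‖ ≤ κ * Real.exp (C₁ * T))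
    (hA₂ : ‖A₂ - Complex.exp (-(starRingEnd ℂ s) * Λ)‖ ≤ κ * Real.exp (C₁ * T)) :
    ‖((‖Z‖ : ℝ) : ℂ) ^ (2 * s) - A₁ * starRingEnd ℂ A₂‖ ≤
      e * Real.exp ((C₁ + 20 * R + 10) * T) := by
  have hT0 : 0 < T := by linarith
  -- the error
  set d : ℝ := κ * Real.exp (C₁ * T) with hd
  have hd0 : 0 ≤ d := (norm_nonneg _).trans hA
  have hde : d * Real.exp (10 * T) ≤ e := by
    refine le_trans ?_ hκ
    have h1 : Real.exp ((C₁ + 20 * R + 10) * T) =
        Real.exp (C₁ * T) * Real.exp (10 * T) * Real.exp (20 * R * T) := by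
      rw [← Real.exp_add, ← Real.exp_add]; congr 1; ring
    rw [h1, ← mul_assoc, ← mul_assoc]
    have h2 : 1 ≤ Real.exp (20 * R * T) := Real.one_le_exp (by positivity)
    have h3 : 0 ≤ d * Real.exp (10 * T) := by positivity
    nlinarith
  have he10 : e * Real.exp (10 * T) ≤ 1 := by
    refine le_trans ?_ he2
    refine mul_le_mul_of_nonneg_left (Real.exp_le_exp.mpr ?_) he.le
    nlinarith [mul_nonneg hR hT0.le, mul_pos hC₁ hT0]
  have hexp10 : Real.exp (10 * T) = Real.exp (2 * T) * Real.exp (8 * T) := by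
    rw [← Real.exp_add]; congr 1; ring
  have hx8 : 9 ≤ Real.exp (8 * T) := by
    have := Real.add_one_le_exp (8 * T); linarith
  have hx2 : 3 ≤ Real.exp (2 * T) := by
    have := Real.add_one_le_exp (2 * T); linarith
  have hx10 : 27 ≤ Real.exp (10 * T) := by rw [hexp10]; nlinarith
  have he1 : e ≤ 1 / 27 := by
    by_contra h
    push Not at h
    nlinarith
  have hde1 : d ≤ e := by nlinarith
  -- norms of the exponentials
  have hnorm : ∀ z : ℂ, ‖z‖ ≤ R → ‖Complex.exp (-z * Λ)‖ ≤ Real.exp (2 * R * T) := by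
    intro z hz
    rw [Complex.norm_exp]
    refine Real.exp_le_exp.mpr ((Complex.re_le_norm _).trans ?_)
    rw [norm_mul, norm_neg]
    have := mul_le_mul hz hΛ (norm_nonneg _) hR
    linarith
  have hFup : ‖Complex.exp Λ‖ ≤ Real.exp (2 * T) := by
    rw [Complex.norm_exp]
    exact Real.exp_le_exp.mpr ((Complex.re_le_norm _).trans hΛ)
  have hFlo : Real.exp (-(2 * T)) ≤ ‖Complex.exp Λ‖ := by
    rw [Complex.norm_exp]
    refine Real.exp_le_exp.mpr ?_
    have := (abs_le.mp ((Complex.abs_re_le_norm Λ).trans hΛ)).1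
    linarith
  have hx2' : Real.exp (-(2 * T)) * Real.exp (2 * T) = 1 := by
    rw [← Real.exp_add]; simp
  -- the lower bound for `A`
  have hAlo : Real.exp (-(2 * T)) / 2 ≤ ‖A‖ := by
    have h1 : ‖Complex.exp Λ‖ ≤ ‖A‖ + d := by
      have : Complex.exp Λ = A - (A - Complex.exp Λ) := by ring
      rw [this]
      exact (norm_sub_le _ _).trans (by linarith)
    have h2 : d ≤ Real.exp (-(2 * T)) / 2 := by
      have h3 : d * Real.exp (2 * T) * 9 ≤ 1 := by
        have h4 : d * Real.exp (2 * T) * Real.exp (8 * T) ≤ 1 := by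
          rw [mul_assoc, ← hexp10]; linarith
        have h5 : 0 ≤ d * Real.exp (2 * T) := by positivity
        nlinarith
      have h6 : 0 < Real.exp (-(2 * T)) := Real.exp_pos _
      have h7 : d = d * Real.exp (2 * T) * Real.exp (-(2 * T)) := by
        rw [mul_assoc, mul_comm (Real.exp (2 * T)), hx2', mul_one]
      rw [h7]
      nlinarith
    linarith
  have hZup : ‖Z‖ ≤ 4 * Real.exp (2 * T) := by
    have h1 : ‖Z‖ * ‖A‖ ≤ 1 + e := by
      rw [← norm_mul]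
      have : Z * A = 1 + (Z * A - 1) := by ring
      rw [this]
      exact (norm_add_le _ _).trans (by rw [norm_one]; linarith)
    have h2 : ‖Z‖ * (Real.exp (-(2 * T)) / 2) ≤ 2 :=
      (mul_le_mul_of_nonneg_left hAlo (norm_nonneg _)).trans (by linarith)
    have h3 : ‖Z‖ = ‖Z‖ * (Real.exp (-(2 * T)) / 2) * (2 * Real.exp (2 * T)) := by
      have : ‖Z‖ * (Real.exp (-(2 * T)) / 2) * (2 * Real.exp (2 * T)) =
        ‖Z‖ * (Real.exp (-(2 * T)) * Real.exp (2 * T)) := by ring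
      rw [this, hx2', mul_one]
    rw [h3]
    have h4 : 0 < Real.exp (2 * T) := Real.exp_pos _
    nlinarith
  -- `Z F` is near 1
  have hη : ‖Z * Complex.exp Λ - 1‖ ≤ 2 * e := by
    have h1 : Z * Complex.exp Λ - 1 = (Z * A - 1) - Z * (A - Complex.exp Λ) := by ring
    rw [h1]
    refine (norm_sub_le _ _).trans ?_
    rw [norm_mul]
    have h2 : ‖Z‖ * ‖A - Complex.exp Λ‖ ≤ 4 * Real.exp (2 * T) * d :=
      mul_le_mul hZup hA (norm_nonneg _) (by positivity)
    have h3 : 4 * Real.exp (2 * T) * d ≤ e := by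
      refine le_trans ?_ hde
      rw [hexp10]
      have : 0 ≤ Real.exp (2 * T) * d := by positivity
      nlinarith
    linarith
  set ρ : ℝ := ‖Z‖ * ‖Complex.exp Λ‖ with hρ
  have hρ1 : |ρ - 1| ≤ 2 * e := by
    have h1 := abs_norm_sub_norm_le (Z * Complex.exp Λ) 1
    rw [norm_mul, norm_one] at h1
    exact h1.trans hη
  have hρ2 := abs_le.mp hρ1
  have hρ0 : 0 < ρ := by linarith
  have hZ0 : 0 < ‖Z‖ := by
    rcases (norm_nonneg Z).lt_or_eq with h | h
    · exact h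
    · rw [hρ, ← h, zero_mul] at hρ0
      exact absurd hρ0 (lt_irrefl _)
  have hlogρ : |Real.log ρ| ≤ 4 * e := by
    rw [abs_le]
    constructor
    · have h1 := Real.one_sub_inv_le_log_of_pos hρ0
      have h2 : ρ⁻¹ ≤ 1 + 4 * e := by
        rw [inv_le_comm₀ hρ0 (by linarith)]
        rw [inv_le_iff_one_le_mul₀ (by linarith)]
        nlinarith
      linarith
    · have := Real.log_le_sub_one_of_pos hρ0
      linarith
  have hlogZ : Real.log ‖Z‖ = Real.log ρ - Λ.re := by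
    rw [hρ, Real.log_mul hZ0.ne' (norm_ne_zero_iff.mpr (Complex.exp_ne_zero _)), Complex.norm_exp,
      Real.log_exp]
    ring
  -- the power of zeta
  have hpow : ((‖Z‖ : ℝ) : ℂ) ^ (2 * s) =
      Complex.exp (-s * Λ) * Complex.exp (-s * starRingEnd ℂ Λ) *
        Complex.exp (2 * s * (Real.log ρ : ℂ)) := by
    rw [Complex.cpow_def_of_ne_zero (by exact_mod_cast hZ0.ne'), ← Complex.ofReal_log hZ0.le,
      hlogZ, ← Complex.exp_add, ← Complex.exp_add]
    congr 1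
    have h1 : Λ + starRingEnd ℂ Λ = ((2 * Λ.re : ℝ) : ℂ) := Complex.add_conj Λ
    push_cast at h1 ⊢
    linear_combination s * h1
  have hconj : starRingEnd ℂ (Complex.exp (-(starRingEnd ℂ s) * Λ)) =
      Complex.exp (-s * starRingEnd ℂ Λ) := by
    rw [← Complex.exp_conj, map_mul, map_neg, Complex.conj_conj]
  set E₁ := Complex.exp (-s * Λ) with hE₁
  set E₂ := Complex.exp (-s * starRingEnd ℂ Λ) with hE₂
  have nE₁ : ‖E₁‖ ≤ Real.exp (2 * R * T) := hnorm s hs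
  have nE₂ : ‖E₂‖ ≤ Real.exp (2 * R * T) := by
    rw [← hconj, Complex.norm_conj]
    exact hnorm _ (by rwa [Complex.norm_conj])
  have hA₂' : ‖starRingEnd ℂ A₂ - E₂‖ ≤ d := by
    rw [← hconj, ← map_sub, Complex.norm_conj]
    exact hA₂
  -- the last factor
  have hlast : ‖Complex.exp (2 * s * (Real.log ρ : ℂ)) - 1‖ ≤ 16 * R * e := by
    have h1 : ‖2 * s * (Real.log ρ : ℂ)‖ ≤ 8 * R * e := by
      rw [norm_mul, norm_mul, Complex.norm_real, Real.norm_eq_abs, Complex.norm_ofNat]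
      have := mul_le_mul hs hlogρ (abs_nonneg _) hR
      linarith
    have h2 : 8 * R * e ≤ 1 := by
      have h3 : 8 * R ≤ Real.exp ((C₁ + 20 * R + 10) * T) := by
        have h4 := Real.add_one_le_exp ((C₁ + 20 * R + 10) * T)
        nlinarith [mul_nonneg hR (show 0 ≤ T - 1 by linarith), mul_pos hC₁ hT0]
      nlinarith
    have := Complex.norm_exp_sub_one_le (h1.trans h2)
    linarith
  -- the sum
  set M := Real.exp (2 * R * T) with hM
  have hM1 : 1 ≤ M := Real.one_le_exp (by positivity)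
  have hfin : ‖((‖Z‖ : ℝ) : ℂ) ^ (2 * s) - A₁ * starRingEnd ℂ A₂‖ ≤
      e * ((16 * R + 3) * (M * M)) := by
    rw [hpow]
    have h1 : E₁ * E₂ * Complex.exp (2 * s * (Real.log ρ : ℂ)) - A₁ * starRingEnd ℂ A₂ =
        E₁ * E₂ * (Complex.exp (2 * s * (Real.log ρ : ℂ)) - 1) -
        ((A₁ - E₁) * (starRingEnd ℂ A₂ - E₂) + (A₁ - E₁) * E₂ + E₁ * (starRingEnd ℂ A₂ - E₂)) := by
      ring
    rw [h1]
    refine (norm_sub_le _ _).trans ?_
    have h2 : ‖E₁ * E₂ * (Complex.exp (2 * s * (Real.log ρ : ℂ)) - 1)‖ ≤ M * M * (16 * R * e) := by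
      rw [norm_mul, norm_mul]
      exact mul_le_mul (mul_le_mul nE₁ nE₂ (norm_nonneg _) (by linarith)) hlast (norm_nonneg _)
        (by positivity)
    have h3 : ‖(A₁ - E₁) * (starRingEnd ℂ A₂ - E₂) + (A₁ - E₁) * E₂ +
        E₁ * (starRingEnd ℂ A₂ - E₂)‖ ≤ d * d + d * M + M * d := by
      refine (norm_add_le _ _).trans (add_le_add ((norm_add_le _ _).trans (add_le_add ?_ ?_)) ?_)
      · rw [norm_mul]; exact mul_le_mul hA₁ hA₂' (norm_nonneg _) hd0
      · rw [norm_mul]; exact mul_le_mul hA₁ nE₂ (norm_nonneg _) hd0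
      · rw [norm_mul]; exact mul_le_mul nE₁ hA₂' (norm_nonneg _) (by linarith)
    have h4 : d * d + d * M + M * d ≤ 3 * e * (M * M) := by
      have h5 : d * d ≤ e * (M * M) := by
        have : d ≤ 1 := by linarith
        have : 1 ≤ M * M := by nlinarith
        nlinarith
      have h6 : d * M ≤ e * (M * M) := by
        have : M ≤ M * M := by nlinarith
        exact mul_le_mul hde1 this (by linarith) he.le
      linarith
    linarith
  refine hfin.trans (mul_le_mul_of_nonneg_left ?_ he.le)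
  have h1 : 16 * R + 3 ≤ Real.exp (16 * R + 2) := by
    have := Real.add_one_le_exp (16 * R + 2); linarith
  have h2 : M * M = Real.exp (4 * R * T) := by
    rw [hM, ← Real.exp_add]; congr 1; ring
  rw [h2]
  calc (16 * R + 3) * Real.exp (4 * R * T) ≤ Real.exp (16 * R + 2) * Real.exp (4 * R * T) :=
        mul_le_mul_of_nonneg_right h1 (Real.exp_pos _).le
    _ = Real.exp (16 * R + 2 + 4 * R * T) := (Real.exp_add _ _).symm
    _ ≤ Real.exp ((C₁ + 20 * R + 10) * T) := by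
        refine Real.exp_le_exp.mpr ?_
        nlinarith [mul_nonneg hR (show 0 ≤ T - 1 by linarith), mul_pos hC₁ hT0]

theorem main (hE : S_EUL) : S_CMP := by
  intro R hR
  obtain ⟨C₁, hC₁, h₁⟩ := hE (max R 1) (le_max_of_le_left hR)
  refine ⟨C₁ + 20 * R + 10, by positivity, ?_⟩
  intro y K w a v e hy hw ha hv he hZ hκ he2 s hs
  have ha0 : 0 ≤ a := (norm_nonneg _).trans ha
  have hv0 : 0 ≤ v := le_trans (Finset.sum_nonneg fun p _ => by positivity) hv
  have hΛ : ‖Lam y w‖ ≤ 2 * (a + v + 1) := (norm_Lam hw ha hv).trans (by linarith)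
  refine core (κ := (4 / 5) ^ K) hR hC₁ (by linarith) he (riemannZeta w) (AS (-1) y K w)
    (AS s y K w) (AS ((starRingEnd ℂ) s) y K w) s (Lam y w) hΛ hs hZ hκ he2 ?_ ?_ ?_
  · have := h₁ y K w (-1) a v hy hw (by rw [norm_neg, norm_one]; exact le_max_right _ _) ha hv
    rwa [prod_eq hw, neg_neg, one_mul] at this
  · have := h₁ y K w s a v hy hw (hs.trans (le_max_left _ _)) ha hv
    rwa [prod_eq hw] at this
  · have := h₁ y K w ((starRingEnd ℂ) s) a v hy hw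
      (by rw [Complex.norm_conj]; exact hs.trans (le_max_left _ _)) ha hv
    rwa [prod_eq hw] at this

end Pool.Agent.N748.MG.CMP
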