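import Pool.Agent.N748.MG.Stm

set_option autoImplicit false

/-! The tails of the diagonal sums. -/

namespace Pool.Agent.N748.MG.DIA1

open Finset Filter Topology Complex
open Pool.Agent.N748.MG

/-! ### real series -/

lemma zeta_term {η : ℝ} (hη : 0 < η) (n : ℕ) :
    η * ((n + 2 : ℕ) : ℝ) ^ (-(1 + η)) ≤ ((n + 1 : ℕ) : ℝ) ^ (-η) - ((n + 2 : ℕ) : ℝ) ^ (-η) := by
  have hx : (0 : ℝ) < ((n + 2 : ℕ) : ℝ) := by positivity
  have hy : (0 : ℝ) < ((n + 1 : ℕ) : ℝ) := by positivity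
  have hxy : ((n + 1 : ℕ) : ℝ) = ((n + 2 : ℕ) : ℝ) - 1 := by push_cast; ring
  set x : ℝ := ((n + 2 : ℕ) : ℝ) with hxdef
  set y : ℝ := ((n + 1 : ℕ) : ℝ) with hydef
  have h1 : 1 / x ≤ Real.log x - Real.log y := by
    have h2 := Real.log_le_sub_one_of_pos (show 0 < y / x by positivity)
    rw [Real.log_div hy.ne' hx.ne'] at h2
    have h3 : y / x = 1 - 1 / x := by
      rw [hxy]; field_simp
    rw [h3] at h2
    linarith
  have h2 : x ^ (-η) * (1 + η / x) ≤ y ^ (-η) := by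
    have h3 : y ^ (-η) = x ^ (-η) * Real.exp (η * (Real.log x - Real.log y)) := by
      rw [Real.rpow_def_of_pos hx, Real.rpow_def_of_pos hy, ← Real.exp_add]
      congr 1
      ring
    rw [h3]
    apply mul_le_mul_of_nonneg_left _ (Real.rpow_nonneg hx.le _)
    have h4 := Real.add_one_le_exp (η * (Real.log x - Real.log y))
    have h5 : η / x ≤ η * (Real.log x - Real.log y) := by
      calc η / x = η * (1 / x) := by ring
        _ ≤ _ := mul_le_mul_of_nonneg_left h1 hη.le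
    linarith
  have h3 : x ^ (-(1 + η)) = x ^ (-η) / x := by
    rw [show -(1 + η) = -η - 1 by ring, Real.rpow_sub_one hx.ne']
  rw [h3]
  have h4 : η * (x ^ (-η) / x) = x ^ (-η) * (1 + η / x) - x ^ (-η) := by ring
  rw [h4]
  linarith

lemma zeta_sum2 {η : ℝ} (hη : 0 < η) (N : ℕ) :
    ∑ n ∈ range (N + 2), (n : ℝ) ^ (-(1 + η)) ≤ 1 + (1 - ((N + 1 : ℕ) : ℝ) ^ (-η)) / η := by
  induction N with
  | zero =>
    rw [sum_range_succ, sum_range_succ, sum_range_zero]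
    have h0 : ((0 : ℕ) : ℝ) ^ (-(1 + η)) = 0 := by
      rw [Nat.cast_zero, Real.zero_rpow (by linarith)]
    rw [h0]
    simp
  | succ N ih =>
    rw [sum_range_succ]
    have h1 := zeta_term hη N
    have h2 : ((N + 2 : ℕ) : ℝ) ^ (-(1 + η)) ≤
        (((N + 1 : ℕ) : ℝ) ^ (-η) - ((N + 2 : ℕ) : ℝ) ^ (-η)) / η := by
      rw [le_div_iff₀ hη]; linarith
    have h3 : (1 - ((N + 1 + 1 : ℕ) : ℝ) ^ (-η)) / η = (1 - ((N + 1 : ℕ) : ℝ) ^ (-η)) / η +
        (((N + 1 : ℕ) : ℝ) ^ (-η) - ((N + 2 : ℕ) : ℝ) ^ (-η)) / η := by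
      rw [show N + 1 + 1 = N + 2 by rfl]; ring
    rw [h3]
    linarith

lemma zeta_sum {η : ℝ} (hη : 0 < η) (N : ℕ) :
    ∑ n ∈ range N, (n : ℝ) ^ (-(1 + η)) ≤ 1 + 1 / η := by
  have h1 : ∑ n ∈ range N, (n : ℝ) ^ (-(1 + η)) ≤ ∑ n ∈ range (N + 2), (n : ℝ) ^ (-(1 + η)) := by
    apply sum_le_sum_of_subset_of_nonneg
    · exact range_subset_range.2 (by omega)
    · intro n _ _
      positivity
  refine h1.trans ((zeta_sum2 hη N).trans ?_)
  have h2 : 0 ≤ ((N + 1 : ℕ) : ℝ) ^ (-η) := by positivity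
  have h3 : (1 - ((N + 1 : ℕ) : ℝ) ^ (-η)) / η ≤ 1 / η := by
    apply div_le_div_of_nonneg_right _ hη.le
    linarith
  linarith

lemma zeta_summable {η : ℝ} (hη : 0 < η) : Summable fun n : ℕ => (n : ℝ) ^ (-(1 + η)) :=
  summable_of_sum_range_le (fun n => by positivity) (zeta_sum hη)

lemma zeta_tsum {η : ℝ} (hη : 0 < η) : ∑' n : ℕ, (n : ℝ) ^ (-(1 + η)) ≤ 1 + 1 / η :=
  Real.tsum_le_of_sum_range_le (fun n => by positivity) (zeta_sum hη)

lemma pow_rpow (p m : ℕ) (a : ℝ) : (((p ^ m : ℕ)) : ℝ) ^ a = ((p : ℝ) ^ a) ^ m := by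
  push_cast
  rw [← Real.rpow_natCast, ← Real.rpow_natCast, ← Real.rpow_mul (by positivity),
    ← Real.rpow_mul (by positivity), mul_comm]

lemma x_lt {p : ℕ} (hp : p.Prime) {η : ℝ} (hη : 0 < η) : (p : ℝ) ^ (-(1 + η)) ≤ (p : ℝ)⁻¹ := by
  rw [← Real.rpow_neg_one]
  apply Real.rpow_le_rpow_of_exponent_le
  · exact_mod_cast hp.one_lt.le
  · linarith

lemma inv_le_half {p : ℕ} (hp : p.Prime) : (p : ℝ)⁻¹ ≤ 1 / 2 := by
  have : (2 : ℝ) ≤ p := by exact_mod_cast hp.two_le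
  rw [one_div]
  exact inv_anti₀ (by norm_num) this

lemma exp_primes {η : ℝ} (hη : 0 < η) (N : ℕ) :
    Real.exp (∑ p ∈ N.primesBelow, (p : ℝ) ^ (-(1 + η))) ≤ 1 + 1 / η := by
  have hS := zeta_summable hη
  have hE := EulerProduct.prod_primesBelow_tsum_eq_tsum_smoothNumbers
    (f := fun n : ℕ => (n : ℝ) ^ (-(1 + η))) (by simp)
    (by intro m n _; push_cast; rw [Real.mul_rpow (by positivity) (by positivity)])
    hS.norm N
  have h1 : ∑' m : N.smoothNumbers, ((m : ℕ) : ℝ) ^ (-(1 + η)) ≤ 1 + 1 / η := by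
    refine le_trans ?_ (zeta_tsum hη)
    exact hS.tsum_subtype_le (fun n : ℕ => (n : ℝ) ^ (-(1 + η))) _ (fun n => by positivity)
  rw [← hE] at h1
  refine le_trans ?_ h1
  rw [Real.exp_sum]
  apply Finset.prod_le_prod
  · intro p _; positivity
  · intro p hp
    have hpp := Nat.prime_of_mem_primesBelow hp
    have hx0 : 0 ≤ (p : ℝ) ^ (-(1 + η)) := by positivity
    have hx1 : (p : ℝ) ^ (-(1 + η)) < 1 := by
      have := x_lt hpp hη
      have := inv_le_half hpp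
      linarith
    have h2 : ∑' n : ℕ, ((p ^ n : ℕ) : ℝ) ^ (-(1 + η)) = (1 - (p : ℝ) ^ (-(1 + η)))⁻¹ := by
      rw [← tsum_geometric_of_lt_one hx0 hx1]
      exact tsum_congr fun n => pow_rpow p n _
    rw [h2]
    have h3 := Real.one_sub_le_exp_neg ((p : ℝ) ^ (-(1 + η)))
    rw [Real.exp_neg] at h3
    have h4 : 0 < 1 - (p : ℝ) ^ (-(1 + η)) := by linarith
    rw [le_inv_comm₀ (Real.exp_pos _) h4]
    exact h3

/-! ### the coefficients -/

lemma lC_norm {s : ℂ} {k : ℕ} (hs : ‖s‖ ≤ k) (m : ℕ) : ‖lC s m‖ ≤ ((m : ℝ) + 1) ^ k := by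
  induction m with
  | zero => simp [lC]
  | succ m ih =>
    have hm : (0 : ℝ) < (m : ℝ) + 1 := by positivity
    have h1 : lC s (m + 1) = lC s m * ((s + m) / ((m : ℂ) + 1)) := by
      unfold lC
      rw [prod_range_succ]
    rw [h1, norm_mul, norm_div]
    have h2 : ‖((m : ℂ) + 1)‖ = (m : ℝ) + 1 := by
      have : ((m : ℂ) + 1) = (((m : ℝ) + 1 : ℝ) : ℂ) := by push_cast; rfl
      rw [this, Complex.norm_real, Real.norm_of_nonneg hm.le]
    have h3 : ‖s + m‖ ≤ k + m := by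
      refine (norm_add_le _ _).trans ?_
      rw [Complex.norm_natCast]
      linarith
    rw [h2]
    have h4 := one_add_mul_le_pow (a := 1 / ((m : ℝ) + 1)) (by
      have : 0 ≤ 1 / ((m : ℝ) + 1) := by positivity
      linarith) k
    have h5 : (1 + 1 / ((m : ℝ) + 1)) ^ k * ((m : ℝ) + 1) ^ k = (((m + 1 : ℕ) : ℝ) + 1) ^ k := by
      rw [← mul_pow]
      congr 1
      push_cast
      field_simp
    rw [← h5]
    have h6 : ‖s + m‖ / ((m : ℝ) + 1) ≤ (1 + 1 / ((m : ℝ) + 1)) ^ k := by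
      refine le_trans ?_ h4
      rw [div_le_iff₀ hm]
      have : (1 + (k : ℝ) * (1 / ((m : ℝ) + 1))) * ((m : ℝ) + 1) = m + 1 + k := by
        field_simp
      rw [this]
      linarith
    calc ‖lC s m‖ * (‖s + m‖ / ((m : ℝ) + 1)) ≤
          ((m : ℝ) + 1) ^ k * (1 + 1 / ((m : ℝ) + 1)) ^ k :=
          mul_le_mul ih h6 (by positivity) (by positivity)
      _ = _ := by ring

lemma dS_one (s : ℂ) : dS s 1 = 1 := by simp [dS]

lemma dS_mul (s : ℂ) {m n : ℕ} (h : Nat.Coprime m n) : dS s (m * n) = dS s m * dS s n := by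
  rcases Nat.eq_zero_or_pos m with rfl | hm
  · have hn : n = 1 := by simpa using h
    subst hn
    rw [mul_one, dS_one, mul_one]
  rcases Nat.eq_zero_or_pos n with rfl | hn
  · have hm : m = 1 := by simpa using h
    subst hm
    rw [one_mul, dS_one, one_mul]
  unfold dS
  rw [h.primeFactors_mul, prod_union h.disjoint_primeFactors]
  congr 1
  · refine prod_congr rfl fun p hp => ?_
    have h1 : n.factorization p = 0 := by
      apply Nat.factorization_eq_zero_of_not_dvd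
      intro h2
      have h3 := Nat.dvd_gcd (Nat.dvd_of_mem_primeFactors hp) h2
      rw [h] at h3
      exact (Nat.prime_of_mem_primeFactors hp).one_lt.ne' (Nat.dvd_one.1 h3)
    rw [Nat.factorization_mul hm.ne' hn.ne', Finsupp.add_apply, h1, add_zero]
  · refine prod_congr rfl fun p hp => ?_
    have h1 : m.factorization p = 0 := by
      apply Nat.factorization_eq_zero_of_not_dvd
      intro h2
      have h3 := Nat.dvd_gcd h2 (Nat.dvd_of_mem_primeFactors hp)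
      rw [h] at h3
      exact (Nat.prime_of_mem_primeFactors hp).one_lt.ne' (Nat.dvd_one.1 h3)
    rw [Nat.factorization_mul hm.ne' hn.ne', Finsupp.add_apply, h1, zero_add]

lemma dS_pow (s : ℂ) {p : ℕ} (hp : p.Prime) (m : ℕ) : dS s (p ^ m) = lC s m := by
  rcases Nat.eq_zero_or_pos m with rfl | hm
  · rw [pow_zero, dS_one]; simp [lC]
  · unfold dS
    rw [Nat.primeFactors_prime_pow hm.ne' hp, prod_singleton, hp.factorization_pow]
    simp

/-! ### the majorant -/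

/-- the majorant -/
noncomputable def gg (s : ℂ) (η : ℝ) (n : ℕ) : ℝ :=
  ‖dS s n‖ ^ 2 * (5 / 4 : ℝ) ^ (ArithmeticFunction.cardFactors n) * (n : ℝ) ^ (-(1 + η))

lemma gg_nonneg (s : ℂ) (η : ℝ) (n : ℕ) : 0 ≤ gg s η n := by unfold gg; positivity

lemma gg_one (s : ℂ) (η : ℝ) : gg s η 1 = 1 := by simp [gg, dS_one]

lemma gg_zero (s : ℂ) {η : ℝ} (hη : 0 < η) : gg s η 0 = 0 := by
  unfold gg
  rw [Nat.cast_zero, Real.zero_rpow (by linarith), mul_zero]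

lemma gg_mul (s : ℂ) {η : ℝ} (hη : 0 < η) {m n : ℕ} (h : Nat.Coprime m n) :
    gg s η (m * n) = gg s η m * gg s η n := by
  rcases Nat.eq_zero_or_pos m with rfl | hm
  · rw [zero_mul, gg_zero s hη, zero_mul]
  rcases Nat.eq_zero_or_pos n with rfl | hn
  · rw [mul_zero, gg_zero s hη, mul_zero]
  unfold gg
  rw [dS_mul s h, ArithmeticFunction.cardFactors_mul hm.ne' hn.ne', pow_add, norm_mul]
  push_cast
  rw [Real.mul_rpow (by positivity) (by positivity)]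
  ring

lemma gg_pow (s : ℂ) (η : ℝ) {p : ℕ} (hp : p.Prime) (m : ℕ) :
    gg s η (p ^ m) = ‖lC s m‖ ^ 2 * (5 / 4 : ℝ) ^ m * ((p : ℝ) ^ (-(1 + η))) ^ m := by
  unfold gg
  rw [dS_pow s hp, ArithmeticFunction.cardFactors_apply_prime_pow hp, pow_rpow]

/-- the dominating series -/
noncomputable def ww (k m : ℕ) : ℝ := ((m : ℝ) + 1) ^ (2 * k) * (5 / 8 : ℝ) ^ m

lemma ww_nonneg (k m : ℕ) : 0 ≤ ww k m := by unfold ww; positivity

lemma ww_summable (k : ℕ) : Summable (ww k) := by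
  have h1 := summable_pow_mul_geometric_of_norm_lt_one (R := ℝ) (2 * k) (r := 5 / 8)
    (by rw [Real.norm_eq_abs, abs_of_pos (by norm_num)]; norm_num)
  have h2 := (summable_nat_add_iff 1).2 h1
  have h3 := h2.mul_left (8 / 5 : ℝ)
  refine h3.congr fun m => ?_
  unfold ww
  push_cast
  rw [pow_succ (5 / 8 : ℝ) m]
  ring

lemma gg_le_ww {s : ℂ} {k : ℕ} (hs : ‖s‖ ≤ k) {η : ℝ} (hη : 0 < η) {p : ℕ} (hp : p.Prime)
    (m : ℕ) : gg s η (p ^ m) ≤ ww k m := by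
  rw [gg_pow s η hp, ww]
  have h1 := pow_le_pow_left₀ (norm_nonneg _) (lC_norm hs m) 2
  have h2 : ((p : ℝ) ^ (-(1 + η))) ^ m ≤ (1 / 2 : ℝ) ^ m :=
    pow_le_pow_left₀ (by positivity) ((x_lt hp hη).trans (inv_le_half hp)) m
  calc ‖lC s m‖ ^ 2 * (5 / 4 : ℝ) ^ m * ((p : ℝ) ^ (-(1 + η))) ^ m
      ≤ (((m : ℝ) + 1) ^ k) ^ 2 * (5 / 4 : ℝ) ^ m * (1 / 2 : ℝ) ^ m := by gcongr
    _ = ((m : ℝ) + 1) ^ (2 * k) * (5 / 8 : ℝ) ^ m := by
        rw [mul_assoc, ← mul_pow, ← pow_mul, mul_comm k 2]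
        norm_num

lemma gg_summable_p {s : ℂ} {k : ℕ} (hs : ‖s‖ ≤ k) {η : ℝ} (hη : 0 < η) {p : ℕ} (hp : p.Prime) :
    Summable fun m : ℕ => ‖gg s η (p ^ m)‖ := by
  refine Summable.of_nonneg_of_le (fun _ => norm_nonneg _) (fun m => ?_) (ww_summable k)
  rw [Real.norm_of_nonneg (gg_nonneg _ _ _)]
  exact gg_le_ww hs hη hp m

/-- the constant -/
noncomputable def b0 (k : ℕ) : ℝ := ∑' m, ww k m

lemma b0_nonneg (k : ℕ) : 0 ≤ b0 k := tsum_nonneg (ww_nonneg k)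

lemma local_bound {s : ℂ} {k : ℕ} (hs : ‖s‖ ≤ k) {η : ℝ} (hη : 0 < η) {p : ℕ} (hp : p.Prime) :
    ∑' m : ℕ, gg s η (p ^ m) ≤ Real.exp (4 ^ k * (5 / 4) * (p : ℝ) ^ (-(1 + η)) +
      4 * b0 k * (p : ℝ) ^ (-(1 + (1 : ℝ)))) := by
  have hS : Summable fun m : ℕ => gg s η (p ^ m) := (gg_summable_p hs hη hp).of_norm
  have hp0 : (0 : ℝ) < p := by exact_mod_cast hp.pos
  have h1 := hS.sum_add_tsum_nat_add 2
  rw [sum_range_succ, sum_range_succ, sum_range_zero, zero_add, pow_zero, gg_one] at h1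
  have h2 : gg s η (p ^ 1) ≤ 4 ^ k * (5 / 4) * (p : ℝ) ^ (-(1 + η)) := by
    rw [gg_pow s η hp, pow_one, pow_one]
    have h3 := pow_le_pow_left₀ (norm_nonneg _) (lC_norm hs 1) 2
    have h4 : ((((1 : ℕ) : ℝ) + 1) ^ k) ^ 2 = 4 ^ k := by
      rw [← pow_mul, mul_comm, pow_mul]; norm_num
    rw [h4] at h3
    gcongr
  have hu : (p : ℝ) ^ (-(1 + (1 : ℝ))) = (p : ℝ)⁻¹ ^ 2 := by
    rw [show -(1 + (1 : ℝ)) = -((2 : ℕ) : ℝ) by norm_num, Real.rpow_neg hp0.le, Real.rpow_natCast,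
      inv_pow]
  have h3 : ∀ m : ℕ, gg s η (p ^ (m + 2)) ≤ 4 * (p : ℝ) ^ (-(1 + (1 : ℝ))) * ww k (m + 2) := by
    intro m
    rw [gg_pow s η hp, ww, hu]
    have h4 := pow_le_pow_left₀ (norm_nonneg _) (lC_norm hs (m + 2)) 2
    have h5 : ((p : ℝ) ^ (-(1 + η))) ^ (m + 2) ≤ (p : ℝ)⁻¹ ^ 2 * (1 / 2 : ℝ) ^ m := by
      calc ((p : ℝ) ^ (-(1 + η))) ^ (m + 2) ≤ ((p : ℝ)⁻¹) ^ (m + 2) :=
            pow_le_pow_left₀ (by positivity) (x_lt hp hη) _
        _ = (p : ℝ)⁻¹ ^ 2 * (p : ℝ)⁻¹ ^ m := by rw [← pow_add]; congr 1; omega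
        _ ≤ (p : ℝ)⁻¹ ^ 2 * (1 / 2 : ℝ) ^ m := by
            have := pow_le_pow_left₀ (by positivity) (inv_le_half hp) m
            gcongr
    calc ‖lC s (m + 2)‖ ^ 2 * (5 / 4 : ℝ) ^ (m + 2) * ((p : ℝ) ^ (-(1 + η))) ^ (m + 2)
        ≤ ((((m + 2 : ℕ) : ℝ) + 1) ^ k) ^ 2 * (5 / 4 : ℝ) ^ (m + 2) *
            ((p : ℝ)⁻¹ ^ 2 * (1 / 2 : ℝ) ^ m) := by gcongr
      _ = 4 * (p : ℝ)⁻¹ ^ 2 * ((((m + 2 : ℕ) : ℝ) + 1) ^ (2 * k) * (5 / 8 : ℝ) ^ (m + 2)) := by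
          have e1 : (5 / 8 : ℝ) ^ (m + 2) = (5 / 4 : ℝ) ^ (m + 2) * ((1 / 2 : ℝ) ^ m * (1 / 4)) := by
            rw [show (5 / 8 : ℝ) = 5 / 4 * (1 / 2) by norm_num, mul_pow, pow_add (1 / 2 : ℝ)]
            norm_num
          rw [e1, ← pow_mul, mul_comm k 2]
          ring
  have h4 : ∑' m : ℕ, gg s η (p ^ (m + 2)) ≤ 4 * b0 k * (p : ℝ) ^ (-(1 + (1 : ℝ))) := by
    have hw := (summable_nat_add_iff 2).2 (ww_summable k)
    have h5 : ∑' m : ℕ, ww k (m + 2) ≤ b0 k := by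
      have h6 := (ww_summable k).sum_add_tsum_nat_add 2
      have h7 : 0 ≤ ∑ m ∈ range 2, ww k m := sum_nonneg fun m _ => ww_nonneg k m
      unfold b0
      linarith
    calc ∑' m : ℕ, gg s η (p ^ (m + 2)) ≤ ∑' m : ℕ, 4 * (p : ℝ) ^ (-(1 + (1 : ℝ))) * ww k (m + 2) :=
          Summable.tsum_le_tsum h3 ((summable_nat_add_iff 2).2 hS) (hw.mul_left _)
      _ = 4 * (p : ℝ) ^ (-(1 + (1 : ℝ))) * ∑' m : ℕ, ww k (m + 2) := tsum_mul_left
      _ ≤ 4 * (p : ℝ) ^ (-(1 + (1 : ℝ))) * b0 k := by gcongr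
      _ = _ := by ring
  have key : ∀ a b A B : ℝ, a ≤ A → b ≤ B → 1 + a + b ≤ Real.exp (A + B) := by
    intro a b A B ha hb
    have := Real.add_one_le_exp (A + B)
    linarith
  rw [← h1]
  exact key _ _ _ _ h2 h4

/-- the bound of the partial sums -/
lemma gg_sum {s : ℂ} {k : ℕ} (hs : ‖s‖ ≤ k) {η : ℝ} (hη : 0 < η) (hη1 : η ≤ 1) (N : ℕ) :
    ∑ n ∈ range N, gg s η n ≤ Real.exp (8 * b0 k) * (2 / η) ^ ((4 : ℝ) ^ k * (5 / 4)) := by
  have hE := (EulerProduct.summable_and_hasSum_smoothNumbers_prod_primesBelow_tsum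
    (f := gg s η) (gg_one s η) (fun h => gg_mul s hη h) (fun hp => gg_summable_p hs hη hp) N).2
  have h1 : ∑ n ∈ range N, gg s η n ≤ ∏ p ∈ N.primesBelow, ∑' m : ℕ, gg s η (p ^ m) := by
    have h2 : ∑ n ∈ range N, gg s η n = ∑ n ∈ (range N).filter (fun n => n ≠ 0), gg s η n := by
      rw [sum_filter]
      refine sum_congr rfl fun n _ => ?_
      split_ifs with h
      · rfl
      · push Not at h
        rw [h, gg_zero s hη]
    have h3 : ∀ n ∈ (range N).filter (fun n => n ≠ 0), n ∈ N.smoothNumbers := by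
      intro n hn
      rw [mem_filter, mem_range] at hn
      rw [Nat.mem_smoothNumbers']
      intro p _ hpn
      exact (Nat.le_of_dvd (Nat.pos_of_ne_zero hn.2) hpn).trans_lt hn.1
    classical
    rw [h2, ← sum_subtype_of_mem (gg s η) h3]
    exact sum_le_hasSum _ (fun n _ => gg_nonneg s η n) hE
  refine h1.trans ?_
  have h2 : ∏ p ∈ N.primesBelow, ∑' m : ℕ, gg s η (p ^ m) ≤
      ∏ p ∈ N.primesBelow, Real.exp (4 ^ k * (5 / 4) * (p : ℝ) ^ (-(1 + η)) +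
      4 * b0 k * (p : ℝ) ^ (-(1 + (1 : ℝ)))) := by
    apply Finset.prod_le_prod
    · intro p _
      exact tsum_nonneg fun m => gg_nonneg _ _ _
    · intro p hp
      exact local_bound hs hη (Nat.prime_of_mem_primesBelow hp)
  refine h2.trans ?_
  rw [← Real.exp_sum, sum_add_distrib, ← mul_sum, ← mul_sum]
  have h3 : ∑ p ∈ N.primesBelow, (p : ℝ) ^ (-(1 + (1 : ℝ))) ≤ 2 := by
    calc ∑ p ∈ N.primesBelow, (p : ℝ) ^ (-(1 + (1 : ℝ))) ≤
          ∑ n ∈ range N, (n : ℝ) ^ (-(1 + (1 : ℝ))) := by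
          apply sum_le_sum_of_subset_of_nonneg
          · exact filter_subset _ _
          · intro n _ _; positivity
      _ ≤ 1 + 1 / 1 := zeta_sum one_pos N
      _ = 2 := by norm_num
  have h4 := exp_primes hη N
  have h5 : 1 + 1 / η ≤ 2 / η := by
    rw [le_div_iff₀ hη, add_mul, one_div, inv_mul_cancel₀ hη.ne']
    linarith
  have hc : (0 : ℝ) ≤ 4 ^ k * (5 / 4) := by positivity
  rw [Real.exp_add]
  have h6 : Real.exp (4 ^ k * (5 / 4) * ∑ p ∈ N.primesBelow, (p : ℝ) ^ (-(1 + η))) ≤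
      (2 / η) ^ ((4 : ℝ) ^ k * (5 / 4)) := by
    rw [mul_comm, Real.exp_mul]
    exact Real.rpow_le_rpow (Real.exp_pos _).le (h4.trans h5) hc
  have h7 : Real.exp (4 * b0 k * ∑ p ∈ N.primesBelow, (p : ℝ) ^ (-(1 + (1 : ℝ)))) ≤
      Real.exp (8 * b0 k) := by
    apply Real.exp_le_exp.2
    have := mul_le_mul_of_nonneg_left h3 (show 0 ≤ 4 * b0 k from mul_nonneg (by norm_num) (b0_nonneg k))
    linarith
  calc _ ≤ (2 / η) ^ ((4 : ℝ) ^ k * (5 / 4)) * Real.exp (8 * b0 k) :=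
        mul_le_mul h6 h7 (Real.exp_pos _).le (by positivity)
    _ = _ := by ring

/-- the bound of the series -/
lemma gg_series {s : ℂ} {k : ℕ} (hs : ‖s‖ ≤ k) {η : ℝ} (hη : 0 < η) (hη1 : η ≤ 1) :
    Summable (gg s η) ∧
      ∑' n, gg s η n ≤ Real.exp (8 * b0 k) * (2 / η) ^ ((4 : ℝ) ^ k * (5 / 4)) :=
  ⟨summable_of_sum_range_le (gg_nonneg s η) (gg_sum hs hη hη1),
    Real.tsum_le_of_sum_range_le (gg_nonneg s η) (gg_sum hs hη hη1)⟩

/-! ### the tails -/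

/-- the terms -/
noncomputable def ff (s : ℂ) (δ : ℝ) (n : ℕ) : ℂ := dS s n ^ 2 * (((n : ℝ) ^ (-(1 + 2 * δ)) : ℝ) : ℂ)

lemma ff_norm (s : ℂ) (δ : ℝ) (n : ℕ) : ‖ff s δ n‖ = ‖dS s n‖ ^ 2 * (n : ℝ) ^ (-(1 + 2 * δ)) := by
  unfold ff
  rw [norm_mul, norm_pow, Complex.norm_real, Real.norm_of_nonneg (by positivity)]

lemma ff_le_gg (s : ℂ) (δ : ℝ) (n : ℕ) : ‖ff s δ n‖ ≤ gg s (2 * δ) n := by
  rw [ff_norm, gg]
  have h1 : (1 : ℝ) ≤ (5 / 4 : ℝ) ^ (ArithmeticFunction.cardFactors n) :=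
    one_le_pow₀ (by norm_num)
  calc ‖dS s n‖ ^ 2 * (n : ℝ) ^ (-(1 + 2 * δ)) = ‖dS s n‖ ^ 2 * 1 * (n : ℝ) ^ (-(1 + 2 * δ)) := by
        ring
    _ ≤ _ := by gcongr

lemma mem_FS {y : ℝ} {K n : ℕ} (hn : n ≠ 0) (h1 : n.primeFactors ⊆ PA y)
    (h2 : n.primeFactorsList.length ≤ K) (hy : 2 ≤ y) : n ∈ FS y K := by
  unfold FS
  rw [mem_filter]
  refine ⟨?_, hn, h1, h2⟩
  rw [mem_range, Nat.lt_succ_iff]
  have h3 : 1 ≤ ⌊y⌋₊ := by
    rw [Nat.one_le_floor_iff]; linarith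
  have h4 : n.primeFactorsList.prod ≤ ⌊y⌋₊ ^ n.primeFactorsList.length := by
    apply List.prod_le_pow_card
    intro p hp
    have h5 : p ∈ PA y := h1 (List.mem_toFinset.2 hp)
    unfold PA at h5
    rw [mem_filter, mem_Icc] at h5
    exact h5.1.2
  rw [Nat.prod_primeFactorsList hn] at h4
  exact h4.trans (Nat.pow_le_pow_right h3 h2)

lemma tail_le {s : ℂ} {δ y : ℝ} {K n : ℕ} (hδ : 0 < δ) (hy : 2 ≤ y) (h : n ∉ FS y K) :
    ‖ff s δ n‖ ≤ y ^ (-δ) * gg s δ n + (4 / 5) ^ K * gg s (2 * δ) n := by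
  have hy0 : 0 < y := by linarith
  have hA : 0 ≤ y ^ (-δ) * gg s δ n := mul_nonneg (by positivity) (gg_nonneg _ _ _)
  have hB : 0 ≤ (4 / 5 : ℝ) ^ K * gg s (2 * δ) n := mul_nonneg (by positivity) (gg_nonneg _ _ _)
  rcases Nat.eq_zero_or_pos n with rfl | hn
  · have : ‖ff s δ 0‖ = 0 := by
      rw [ff_norm, Nat.cast_zero, Real.zero_rpow (by linarith), mul_zero]
    rw [this]
    linarith
  rcases lt_or_ge K (n.primeFactorsList.length) with hK | hK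
  · have h1 : (1 : ℝ) ≤ (4 / 5) ^ K * (5 / 4 : ℝ) ^ (ArithmeticFunction.cardFactors n) := by
      rw [ArithmeticFunction.cardFactors_apply]
      have h2 : (5 / 4 : ℝ) ^ K ≤ (5 / 4 : ℝ) ^ (n.primeFactorsList.length) :=
        pow_le_pow_right₀ (by norm_num) hK.le
      calc (1 : ℝ) = (4 / 5) ^ K * (5 / 4 : ℝ) ^ K := by rw [← mul_pow]; norm_num
        _ ≤ _ := by gcongr
    have h2 : ‖ff s δ n‖ ≤ (4 / 5) ^ K * gg s (2 * δ) n := by
      rw [ff_norm, gg]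
      calc ‖dS s n‖ ^ 2 * (n : ℝ) ^ (-(1 + 2 * δ))
          = ‖dS s n‖ ^ 2 * (n : ℝ) ^ (-(1 + 2 * δ)) * 1 := by ring
        _ ≤ ‖dS s n‖ ^ 2 * (n : ℝ) ^ (-(1 + 2 * δ)) *
            ((4 / 5) ^ K * (5 / 4 : ℝ) ^ (ArithmeticFunction.cardFactors n)) := by gcongr
        _ = _ := by ring
    linarith
  · have h1 : ¬ n.primeFactors ⊆ PA y := fun h1 => h (mem_FS hn.ne' h1 hK hy)
    rw [not_subset] at h1
    obtain ⟨p, hp, hpy⟩ := h1
    have hpp := Nat.prime_of_mem_primeFactors hp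
    have hpy2 : y < p := by
      unfold PA at hpy
      rw [mem_filter, mem_Icc] at hpy
      have h3 : ⌊y⌋₊ < p := by
        by_contra h4
        push Not at h4
        exact hpy ⟨⟨hpp.two_le, h4⟩, hpp⟩
      exact Nat.lt_of_floor_lt h3
    have hyn : y ≤ n := by
      have h3 : (p : ℝ) ≤ n := by
        exact_mod_cast Nat.le_of_dvd hn (Nat.dvd_of_mem_primeFactors hp)
      linarith
    have hn0 : (0 : ℝ) < n := by exact_mod_cast hn
    have h2 : (n : ℝ) ^ (-(1 + 2 * δ)) ≤ y ^ (-δ) * (n : ℝ) ^ (-(1 + δ)) := by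
      have h3 : (n : ℝ) ^ (-(1 + 2 * δ)) = (n : ℝ) ^ (-δ) * (n : ℝ) ^ (-(1 + δ)) := by
        rw [← Real.rpow_add hn0]; congr 1; ring
      rw [h3]
      apply mul_le_mul_of_nonneg_right _ (by positivity)
      exact Real.rpow_le_rpow_of_nonpos hy0 hyn (by linarith)
    have h4 : (1 : ℝ) ≤ (5 / 4 : ℝ) ^ (ArithmeticFunction.cardFactors n) :=
      one_le_pow₀ (by norm_num)
    have h5 : ‖ff s δ n‖ ≤ y ^ (-δ) * gg s δ n := by
      rw [ff_norm, gg]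
      calc ‖dS s n‖ ^ 2 * (n : ℝ) ^ (-(1 + 2 * δ)) ≤
            ‖dS s n‖ ^ 2 * (y ^ (-δ) * (n : ℝ) ^ (-(1 + δ))) := by gcongr
        _ = y ^ (-δ) * (‖dS s n‖ ^ 2 * 1 * (n : ℝ) ^ (-(1 + δ))) := by ring
        _ ≤ _ := by gcongr
    linarith

theorem main : S_DIA1 := by
  intro R D hR hD
  obtain ⟨k, hk⟩ := exists_nat_ge R
  set c : ℝ := (4 : ℝ) ^ k * (5 / 4) with hc
  have hc0 : 0 < c := by positivity
  set C1 : ℝ := Real.exp (8 * b0 k) * 2 ^ c with hC1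
  have hC1p : 0 < C1 := by positivity
  refine ⟨5 * (D + 1 + c), min (1 / 2) (1 / (2 * C1)), by positivity,
    lt_min (by norm_num) (by positivity), ?_⟩
  intro δ hδ hδ0 y K hy hylog hK s hs
  have hδ1 : δ ≤ 1 / 2 := hδ0.trans (min_le_left _ _)
  have hδ2 : δ ≤ 1 / (2 * C1) := hδ0.trans (min_le_right _ _)
  have hsk : ‖s‖ ≤ k := hs.trans hk
  have hy0 : 0 < y := by linarith
  have hL : 0 ≤ Real.log (1 / δ) := by
    apply Real.log_nonneg
    rw [le_div_iff₀ hδ]; linarith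
  have hLe : Real.log (1 / δ) = -Real.log δ := by rw [one_div, Real.log_inv]
  obtain ⟨hg1, hg1'⟩ := gg_series hsk hδ (by linarith)
  obtain ⟨hg2, hg2'⟩ := gg_series hsk (η := 2 * δ) (by linarith) (by linarith)
  have hsum1 : ∑' n, gg s δ n ≤ C1 * δ ^ (-c) := by
    refine hg1'.trans (le_of_eq ?_)
    rw [Real.div_rpow (by norm_num) hδ.le, Real.rpow_neg hδ.le, hC1]
    ring
  have hsum2 : ∑' n, gg s (2 * δ) n ≤ C1 * δ ^ (-c) := by
    refine hg2'.trans ?_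
    have h1 : 2 / (2 * δ) ≤ 2 / δ := by
      rw [div_le_div_iff₀ (by linarith) hδ]; linarith
    calc Real.exp (8 * b0 k) * (2 / (2 * δ)) ^ c ≤ Real.exp (8 * b0 k) * (2 / δ) ^ c := by
          gcongr
      _ = C1 * δ ^ (-c) := by
          rw [Real.div_rpow (by norm_num) hδ.le, Real.rpow_neg hδ.le, hC1]
          ring
  have hff : Summable (ff s δ) := Summable.of_norm_bounded hg2 (fun n => ff_le_gg s δ n)
  -- the tail
  have hsplit : (∑ n ∈ FS y K, ff s δ n) - ∑' n, ff s δ n =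
      -∑' n, (if n ∈ FS y K then 0 else ff s δ n) := by
    have h1 : HasSum (fun n => if n ∈ FS y K then ff s δ n else 0) (∑ n ∈ FS y K, ff s δ n) := by
      have h0 : HasSum (fun n => if n ∈ FS y K then ff s δ n else 0)
          (∑ n ∈ FS y K, (if n ∈ FS y K then ff s δ n else 0)) :=
        hasSum_sum_of_ne_finset_zero (fun n hn => by simp [hn])
      have h00 : ∑ n ∈ FS y K, (if n ∈ FS y K then ff s δ n else 0) = ∑ n ∈ FS y K, ff s δ n :=
        sum_congr rfl fun n hn => by simp [hn]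
      rwa [h00] at h0
    have h2 := hff.hasSum.sub h1
    have h3 : (fun n => ff s δ n - if n ∈ FS y K then ff s δ n else 0) =
        fun n => if n ∈ FS y K then 0 else ff s δ n := by
      funext n
      split_ifs <;> simp
    rw [h3] at h2
    rw [h2.tsum_eq]
    ring
  change ‖(∑ n ∈ FS y K, ff s δ n) - ∑' n, ff s δ n‖ ≤ δ ^ D
  rw [hsplit, norm_neg]
  have hbd : HasSum (fun n => y ^ (-δ) * gg s δ n + (4 / 5) ^ K * gg s (2 * δ) n)
      (y ^ (-δ) * ∑' n, gg s δ n + (4 / 5) ^ K * ∑' n, gg s (2 * δ) n) :=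
    (hg1.hasSum.mul_left _).add (hg2.hasSum.mul_left _)
  have h1 := tsum_of_norm_bounded (f := fun n => if n ∈ FS y K then 0 else ff s δ n) hbd (by
    intro n
    split_ifs with hn
    · rw [norm_zero]
      exact add_nonneg (mul_nonneg (by positivity) (gg_nonneg _ _ _))
        (mul_nonneg (by positivity) (gg_nonneg _ _ _))
    · exact tail_le hδ hy hn)
  refine h1.trans ?_
  have h2 : y ^ (-δ) ≤ δ ^ (D + 1 + c) := by
    rw [Real.rpow_def_of_pos hy0, Real.rpow_def_of_pos hδ]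
    apply Real.exp_le_exp.2
    have h3 : 0 ≤ (D + 1 + c) * Real.log (1 / δ) := by positivity
    rw [hLe] at h3 hylog
    nlinarith
  have h3 : (4 / 5 : ℝ) ^ K ≤ δ ^ (D + 1 + c) := by
    rw [← Real.rpow_natCast, Real.rpow_def_of_pos (by norm_num), Real.rpow_def_of_pos hδ]
    apply Real.exp_le_exp.2
    have h4 : Real.log (4 / 5) ≤ -(1 / 5) := by
      have := Real.log_le_sub_one_of_pos (show (0 : ℝ) < 4 / 5 by norm_num)
      linarith
    have h5 : (0 : ℝ) ≤ K := Nat.cast_nonneg K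
    have h6 : Real.log (4 / 5) * K ≤ -(1 / 5) * K := mul_le_mul_of_nonneg_right h4 h5
    rw [hLe] at hK
    linarith
  have hpow : 0 < δ ^ (-c) := Real.rpow_pos_of_pos hδ _
  have h4 : ∀ x : ℝ, 0 ≤ x → x ≤ δ ^ (D + 1 + c) → ∀ S : ℝ, 0 ≤ S → S ≤ C1 * δ ^ (-c) →
      x * S ≤ C1 * δ * δ ^ D := by
    intro x hx0 hx S hS0 hS
    calc x * S ≤ δ ^ (D + 1 + c) * (C1 * δ ^ (-c)) := mul_le_mul hx hS hS0 (by positivity)
      _ = C1 * (δ ^ (D + 1 + c) * δ ^ (-c)) := by ring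
      _ = C1 * δ * δ ^ D := by
          rw [← Real.rpow_add hδ, show D + 1 + c + -c = 1 + D by ring, Real.rpow_add hδ,
            Real.rpow_one]
          ring
  have h5 := h4 _ (by positivity) h2 _ (tsum_nonneg (gg_nonneg s δ)) hsum1
  have h6 := h4 _ (by positivity) h3 _ (tsum_nonneg (gg_nonneg s (2 * δ))) hsum2
  have h7 : 2 * (C1 * δ) ≤ 1 := by
    rw [le_div_iff₀ (by positivity)] at hδ2
    linarith
  have h8 : 0 < δ ^ D := Real.rpow_pos_of_pos hδ _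
  nlinarith

end Pool.Agent.N748.MG.DIA1
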