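import Pool.Agent.N748.MG.L4

set_option autoImplicit false

/-!
# The diagonal sums, asymptotics (helper130)
-/

namespace Pool.Agent.N748.MG.DIA2

open Finset Filter MeasureTheory Topology Complex Pool.Agent.N748.MG.L4

/-! ### the binomial series -/

theorem choose_eq_lC (a : ℂ) (n : ℕ) : Ring.choose (a + n - 1) n = lC a n := by
  have h1 : Ring.choose (a + n - 1) n = Ring.multichoose a n := by
    unfold Ring.choose
    congr 1
    ring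
  rw [h1]
  have h2 := Ring.factorial_nsmul_multichoose_eq_ascPochhammer a n
  rw [Polynomial.ascPochhammer_smeval_eq_eval] at h2
  have h3 : ∀ n : ℕ, (ascPochhammer ℂ n).eval a = (n.factorial : ℂ) * lC a n := by
    intro n
    induction n with
    | zero => simp [lC]
    | succ n ih =>
      rw [ascPochhammer_succ_eval, ih]
      unfold lC
      rw [Finset.prod_range_succ, Nat.factorial_succ]
      have h4 : ((n : ℂ) + 1) ≠ 0 := Nat.cast_add_one_ne_zero n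
      push_cast
      field_simp
  rw [h3, nsmul_eq_mul] at h2
  have h5 : (n.factorial : ℂ) ≠ 0 := Nat.cast_ne_zero.2 (Nat.factorial_ne_zero n)
  exact mul_left_cancel₀ h5 h2

theorem hasSum_lC (a x : ℂ) (hx : ‖x‖ < 1) : HasSum (fun m => lC a m * x ^ m) (1 / (1 - x) ^ a) := by
  have h1 := Complex.one_div_one_sub_cpow_hasFPowerSeriesOnBall_zero a
  have h2 : x ∈ Metric.eball (0 : ℂ) 1 := by
    rw [← ENNReal.ofReal_one, Metric.eball_ofReal]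
    simpa using hx
  have h3 := h1.hasSum h2
  rw [zero_add] at h3
  have h4 : (fun m => lC a m * x ^ m) = fun n => (FormalMultilinearSeries.ofScalars ℂ
      fun n : ℕ => Ring.choose (a + n - 1) n) n fun _ => x := by
    funext n
    rw [FormalMultilinearSeries.ofScalars_apply_eq, choose_eq_lC, smul_eq_mul]
  rw [h4]
  exact h3

/-! ### the local factor -/

/-- the local factor -/
noncomputable def E (s : ℂ) (x : ℝ) : ℂ := (1 - (x : ℂ)) ^ (s ^ 2) * ∑' m : ℕ, lC s m ^ 2 * (x : ℂ) ^ m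

/-- its coefficients -/
noncomputable def ec (s : ℂ) (m : ℕ) : ℂ := ∑ q ∈ antidiagonal m, lC (-(s ^ 2)) q.1 * lC s q.2 ^ 2

theorem lC_zero (s : ℂ) : lC s 0 = 1 := by simp [lC]

theorem lC_one (s : ℂ) : lC s 1 = s := by simp [lC]

theorem ec_zero (s : ℂ) : ec s 0 = 1 := by simp [ec, lC_zero]

theorem ec_one (s : ℂ) : ec s 1 = 0 := by
  unfold ec
  rw [Finset.Nat.antidiagonal_succ]
  simp [lC_zero, lC_one]

theorem norm_sq_le {s : ℂ} {k : ℕ} (hs : ‖s‖ ≤ k) : ‖-(s ^ 2)‖ ≤ ((k ^ 2 : ℕ) : ℝ) := by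
  rw [norm_neg, norm_pow]
  push_cast
  exact pow_le_pow_left₀ (norm_nonneg _) hs 2

theorem norm_ec (s : ℂ) (k : ℕ) (hs : ‖s‖ ≤ k) (m : ℕ) :
    ‖ec s m‖ ≤ ((m : ℝ) + 1) ^ (k ^ 2 + 2 * k + 1) := by
  unfold ec
  calc ‖∑ q ∈ antidiagonal m, lC (-(s ^ 2)) q.1 * lC s q.2 ^ 2‖
      ≤ ∑ q ∈ antidiagonal m, ‖lC (-(s ^ 2)) q.1 * lC s q.2 ^ 2‖ := norm_sum_le _ _
    _ ≤ ∑ q ∈ antidiagonal m, ((m : ℝ) + 1) ^ (k ^ 2 + 2 * k) := by
        refine Finset.sum_le_sum fun q hq => ?_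
        have h1 : q.1 + q.2 = m := Finset.HasAntidiagonal.mem_antidiagonal.1 hq
        have h2 : (q.1 : ℝ) ≤ m := by exact_mod_cast (by omega : q.1 ≤ m)
        have h3 : (q.2 : ℝ) ≤ m := by exact_mod_cast (by omega : q.2 ≤ m)
        have h4 : ‖lC (-(s ^ 2)) q.1‖ ≤ ((m : ℝ) + 1) ^ (k ^ 2) :=
          ((norm_lC _ (k ^ 2) (norm_sq_le hs) _).trans (B_le _ _)).trans
            (pow_le_pow_left₀ (by positivity) (by linarith) _)
        have h5 : ‖lC s q.2‖ ≤ ((m : ℝ) + 1) ^ k :=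
          ((norm_lC _ k hs _).trans (B_le _ _)).trans
            (pow_le_pow_left₀ (by positivity) (by linarith) _)
        rw [norm_mul, norm_pow]
        calc ‖lC (-(s ^ 2)) q.1‖ * ‖lC s q.2‖ ^ 2
            ≤ ((m : ℝ) + 1) ^ (k ^ 2) * (((m : ℝ) + 1) ^ k) ^ 2 := by gcongr
          _ = _ := by rw [← pow_mul, ← pow_add]; congr 1; ring
    _ = _ := by
        rw [Finset.sum_const, Finset.Nat.card_antidiagonal, nsmul_eq_mul]
        push_cast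
        ring

/-- summability of power series with polynomially bounded coefficients -/
theorem summ_ps (c : ℕ → ℂ) (j : ℕ) (hc : ∀ m, ‖c m‖ ≤ ((m : ℝ) + 1) ^ j) {x : ℝ} (hx0 : 0 ≤ x)
    (hx : x ≤ 1 / 2) : Summable fun m => ‖c m * (x : ℂ) ^ m‖ := by
  have h1 := summ_poly (fun m => ((m : ℝ) + 1) ^ j) (fun m => by positivity) j (fun m => le_rfl)
  refine Summable.of_nonneg_of_le (fun m => norm_nonneg _) (fun m => ?_) h1
  rw [norm_mul, norm_pow, Complex.norm_real, Real.norm_of_nonneg hx0]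
  have h2 : x ^ m ≤ (1 / 2 : ℝ) ^ m := pow_le_pow_left₀ hx0 hx m
  have h3 : ((m : ℝ) + 1) ^ j ≤ (((m + 1 : ℕ) : ℝ) + 1) ^ j :=
    pow_le_pow_left₀ (by positivity) (by push_cast; linarith) j
  calc ‖c m‖ * x ^ m ≤ (((m + 1 : ℕ) : ℝ) + 1) ^ j * (1 / 2 : ℝ) ^ m :=
        mul_le_mul ((hc m).trans h3) h2 (by positivity) (by positivity)
    _ = _ := by simp only [one_div]

theorem E_eq (s : ℂ) (k : ℕ) (hs : ‖s‖ ≤ k) {x : ℝ} (hx0 : 0 ≤ x) (hx : x ≤ 1 / 2) :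
    E s x = ∑' m : ℕ, ec s m * (x : ℂ) ^ m := by
  have hx1 : ‖(x : ℂ)‖ < 1 := by
    rw [Complex.norm_real, Real.norm_of_nonneg hx0]; linarith
  have h1 := hasSum_lC (-(s ^ 2)) (x : ℂ) hx1
  have h2 : 1 / (1 - (x : ℂ)) ^ (-(s ^ 2)) = (1 - (x : ℂ)) ^ (s ^ 2) := by
    rw [Complex.cpow_neg, one_div, inv_inv]
  rw [h2] at h1
  unfold E
  rw [← h1.tsum_eq]
  have hf : Summable fun m => ‖lC (-(s ^ 2)) m * (x : ℂ) ^ m‖ :=
    summ_ps _ (k ^ 2) (fun m => (norm_lC _ (k ^ 2) (norm_sq_le hs) _).trans (B_le _ _)) hx0 hx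
  have hg : Summable fun m => ‖lC s m ^ 2 * (x : ℂ) ^ m‖ :=
    summ_ps (fun m => lC s m ^ 2) (k * 2) (fun m => by
      rw [norm_pow, pow_mul]
      exact pow_le_pow_left₀ (norm_nonneg _) ((norm_lC _ k hs _).trans (B_le _ _)) 2) hx0 hx
  rw [tsum_mul_tsum_eq_tsum_sum_antidiagonal_of_summable_norm hf hg]
  refine tsum_congr fun m => ?_
  unfold ec
  rw [Finset.sum_mul]
  refine Finset.sum_congr rfl fun q hq => ?_
  have h3 : q.1 + q.2 = m := Finset.HasAntidiagonal.mem_antidiagonal.1 hq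
  rw [← h3, pow_add]
  ring

theorem pow_diff {x y : ℝ} (hy : 0 ≤ y) (hxy : y ≤ x) (m : ℕ) :
    x ^ (m+1) - y ^ (m+1) ≤ ((m : ℝ) + 1) * x ^ m * (x - y) := by
  induction m with
  | zero => simp
  | succ m ih =>
    have hx : 0 ≤ x := hy.trans hxy
    have h1 : x ^ (m+1+1) - y ^ (m+1+1) = x ^ (m+1) * (x - y) + y * (x ^ (m+1) - y ^ (m+1)) := by ring
    rw [h1]
    have h2 : 0 ≤ ((m : ℝ) + 1) * x ^ m * (x - y) := by
      have := sub_nonneg.2 hxy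
      positivity
    have h3 : y * (x ^ (m+1) - y ^ (m+1)) ≤ x * (((m : ℝ) + 1) * x ^ m * (x - y)) :=
      (mul_le_mul_of_nonneg_left ih hy).trans (mul_le_mul_of_nonneg_right hxy h2)
    push_cast
    calc x ^ (m+1) * (x - y) + y * (x ^ (m+1) - y ^ (m+1))
        ≤ x ^ (m+1) * (x - y) + x * (((m : ℝ) + 1) * x ^ m * (x - y)) := by linarith
      _ = _ := by ring

/-- the local factors are close -/
theorem E_diff (k : ℕ) : ∃ C : ℝ, 0 ≤ C ∧ ∀ s : ℂ, ‖s‖ ≤ k → ∀ x y : ℝ, 0 ≤ y → y ≤ x → x ≤ 1 / 2 →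
    ‖E s x - E s y‖ ≤ C * x * (x - y) := by
  set j : ℕ := k ^ 2 + 2 * k + 1 with hj
  have hS : Summable (fun m : ℕ => ((m : ℝ) + 3) ^ (j + 1) * (1 / 2 : ℝ) ^ m) := by
    have h1 : Summable (fun n : ℕ => (n : ℝ) ^ (j + 1) * (1 / 2 : ℝ) ^ n) :=
      summable_pow_mul_geometric_of_norm_lt_one (j + 1) (by norm_num)
    have h2 := (summable_nat_add_iff (f := fun n : ℕ => (n : ℝ) ^ (j + 1) * (1 / 2 : ℝ) ^ n) 3).2 h1
    refine (h2.mul_left 8).congr fun m => ?_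
    push_cast
    rw [pow_add (1 / 2 : ℝ) m 3]
    ring
  refine ⟨∑' m : ℕ, ((m : ℝ) + 3) ^ (j + 1) * (1 / 2 : ℝ) ^ m, tsum_nonneg fun m => by positivity, ?_⟩
  intro s hs x y hy hxy hx
  have hx0 : 0 ≤ x := hy.trans hxy
  have hxy' : 0 ≤ x - y := sub_nonneg.2 hxy
  have s1 := summ_ps (ec s) j (norm_ec s k hs) hx0 hx
  have s2 := summ_ps (ec s) j (norm_ec s k hs) hy (hxy.trans hx)
  rw [E_eq s k hs hx0 hx, E_eq s k hs hy (hxy.trans hx), ← s1.of_norm.tsum_sub s2.of_norm]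
  have s3 : Summable fun m => ec s m * (x : ℂ) ^ m - ec s m * (y : ℂ) ^ m := s1.of_norm.sub s2.of_norm
  rw [← s3.sum_add_tsum_nat_add 2, Finset.sum_range_succ, Finset.sum_range_succ, Finset.sum_range_zero,
    ec_zero, ec_one]
  have e0 : (0 : ℂ) + (1 * (x : ℂ) ^ 0 - 1 * (y : ℂ) ^ 0) + (0 * (x : ℂ) ^ 1 - 0 * (y : ℂ) ^ 1) = 0 := by
    simp
  rw [e0, zero_add]
  have hb : ∀ m : ℕ, ‖ec s (m+2) * (x : ℂ) ^ (m+2) - ec s (m+2) * (y : ℂ) ^ (m+2)‖ ≤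
      (((m : ℝ) + 3) ^ (j + 1) * (1 / 2 : ℝ) ^ m) * (x * (x - y)) := by
    intro m
    rw [← mul_sub, norm_mul]
    have h1 : ‖ec s (m+2)‖ ≤ ((m : ℝ) + 3) ^ j := by
      have := norm_ec s k hs (m+2)
      push_cast at this
      rw [show (m : ℝ) + 2 + 1 = (m : ℝ) + 3 by ring] at this
      exact this
    have h2 : ‖(x : ℂ) ^ (m+2) - (y : ℂ) ^ (m+2)‖ ≤ ((m : ℝ) + 3) * (1 / 2 : ℝ) ^ m * (x * (x - y)) := by
      rw [← Complex.ofReal_pow, ← Complex.ofReal_pow, ← Complex.ofReal_sub, Complex.norm_real,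
        Real.norm_of_nonneg (sub_nonneg.2 (pow_le_pow_left₀ hy hxy _))]
      have h3 := pow_diff hy hxy (m+1)
      push_cast at h3
      have h4 : x ^ (m+1) ≤ x * (1 / 2 : ℝ) ^ m := by
        rw [pow_succ, mul_comm]
        exact mul_le_mul_of_nonneg_left (pow_le_pow_left₀ hx0 hx m) hx0
      calc x ^ (m+2) - y ^ (m+2) ≤ ((m : ℝ) + 1 + 1) * x ^ (m+1) * (x - y) := h3
        _ ≤ ((m : ℝ) + 3) * (x * (1 / 2 : ℝ) ^ m) * (x - y) := by
            apply mul_le_mul_of_nonneg_right _ hxy'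
            apply mul_le_mul (by linarith) h4 (by positivity) (by positivity)
        _ = _ := by ring
    calc ‖ec s (m+2)‖ * ‖(x : ℂ) ^ (m+2) - (y : ℂ) ^ (m+2)‖
        ≤ ((m : ℝ) + 3) ^ j * (((m : ℝ) + 3) * (1 / 2 : ℝ) ^ m * (x * (x - y))) :=
          mul_le_mul h1 h2 (norm_nonneg _) (by positivity)
      _ = _ := by ring
  have h5 := tsum_of_norm_bounded (hS.mul_right (x * (x - y))).hasSum hb
  rw [tsum_mul_right] at h5
  calc _ ≤ _ := h5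
    _ = _ := by ring

theorem E_zero (s : ℂ) : E s 0 = 1 := by
  unfold E
  rw [tsum_eq_single 0]
  · simp [lC_zero]
  · intro m hm
    simp [hm]

/-! ### differences of products -/

theorem prod_bd {ι : Type*} (t : Finset ι) (a : ι → ℂ) (α : ι → ℝ)
    (ha : ∀ i, ‖a i‖ ≤ 1 + α i) : ‖∏ i ∈ t, a i‖ ≤ ∏ i ∈ t, (1 + α i) := by
  rw [norm_prod]
  exact Finset.prod_le_prod (fun _ _ => norm_nonneg _) fun i _ => ha i

theorem prod_diff {ι : Type*} (t : Finset ι) (a b : ι → ℂ) (α : ι → ℝ) (hα : ∀ i, 0 ≤ α i)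
    (ha : ∀ i, ‖a i‖ ≤ 1 + α i) (hb : ∀ i, ‖b i‖ ≤ 1 + α i) :
    ‖∏ i ∈ t, a i - ∏ i ∈ t, b i‖ ≤ (∏ i ∈ t, (1 + α i)) * ∑ i ∈ t, ‖a i - b i‖ := by
  classical
  induction t using Finset.induction_on with
  | empty => simp
  | insert q t hq ih =>
    rw [Finset.prod_insert hq, Finset.prod_insert hq, Finset.prod_insert hq, Finset.sum_insert hq]
    have h1 : a q * ∏ i ∈ t, a i - b q * ∏ i ∈ t, b i =
        (a q - b q) * ∏ i ∈ t, a i + b q * (∏ i ∈ t, a i - ∏ i ∈ t, b i) := by ring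
    rw [h1]
    have h2 := prod_bd t a α ha
    have h3 : 0 ≤ ∏ i ∈ t, (1 + α i) := Finset.prod_nonneg fun i _ => by linarith [hα i]
    have h4 : 0 ≤ ∑ i ∈ t, ‖a i - b i‖ := Finset.sum_nonneg fun _ _ => norm_nonneg _
    have h5 : ‖(a q - b q) * ∏ i ∈ t, a i‖ ≤ ‖a q - b q‖ * ∏ i ∈ t, (1 + α i) := by
      rw [norm_mul]
      exact mul_le_mul_of_nonneg_left h2 (norm_nonneg _)
    have h6 : ‖b q * (∏ i ∈ t, a i - ∏ i ∈ t, b i)‖ ≤
        (1 + α q) * ((∏ i ∈ t, (1 + α i)) * ∑ i ∈ t, ‖a i - b i‖) := by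
      rw [norm_mul]
      exact mul_le_mul (hb q) ih (norm_nonneg _) (by linarith [hα q])
    have h7 : ‖a q - b q‖ * ∏ i ∈ t, (1 + α i) ≤ (1 + α q) * (∏ i ∈ t, (1 + α i)) * ‖a q - b q‖ := by
      have h8 : 0 ≤ α q * (∏ i ∈ t, (1 + α i)) * ‖a q - b q‖ := by
        have := hα q
        positivity
      linarith
    calc _ ≤ _ := norm_add_le _ _
      _ ≤ (1 + α q) * (∏ i ∈ t, (1 + α i)) * ‖a q - b q‖ +
          (1 + α q) * ((∏ i ∈ t, (1 + α i)) * ∑ i ∈ t, ‖a i - b i‖) := by linarith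
      _ = _ := by ring

theorem prod_exp {ι : Type*} (t : Finset ι) (α : ι → ℝ) (hα : ∀ i, 0 ≤ α i) (hs : Summable α) :
    ∏ i ∈ t, (1 + α i) ≤ Real.exp (∑' i, α i) := by
  calc ∏ i ∈ t, (1 + α i) ≤ ∏ i ∈ t, Real.exp (α i) :=
        Finset.prod_le_prod (fun i _ => by linarith [hα i]) fun i _ => by
          linarith [Real.add_one_le_exp (α i)]
    _ = Real.exp (∑ i ∈ t, α i) := (Real.exp_sum t α).symm
    _ ≤ _ := Real.exp_le_exp.2 (hs.sum_le_tsum t fun i _ => hα i)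

theorem tprod_bd {ι : Type*} (a : ι → ℂ) (α : ι → ℝ) (hα : ∀ i, 0 ≤ α i) (hs : Summable α)
    (ha : ∀ i, ‖a i‖ ≤ 1 + α i) {A : ℂ} (hA : HasProd a A) : ‖A‖ ≤ Real.exp (∑' i, α i) := by
  have h1 : Tendsto (fun t : Finset ι => ‖∏ i ∈ t, a i‖) atTop (𝓝 ‖A‖) := by
    have := hA
    unfold HasProd at this
    rw [SummationFilter.unconditional_filter] at this
    exact this.norm
  exact le_of_tendsto' h1 fun t => (prod_bd t a α ha).trans (prod_exp t α hα hs)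

theorem tprod_diff {ι : Type*} (a b : ι → ℂ) (α β : ι → ℝ) (hα : ∀ i, 0 ≤ α i) (hs : Summable α)
    (ha : ∀ i, ‖a i‖ ≤ 1 + α i) (hb : ∀ i, ‖b i‖ ≤ 1 + α i) (hab : ∀ i, ‖a i - b i‖ ≤ β i)
    (hβ : Summable β) {A A' : ℂ} (hA : HasProd a A) (hB : HasProd b A') :
    ‖A - A'‖ ≤ Real.exp (∑' i, α i) * ∑' i, β i := by
  have h1 : Tendsto (fun t : Finset ι => ‖∏ i ∈ t, a i - ∏ i ∈ t, b i‖) atTop (𝓝 ‖A - A'‖) := by
    have h2 := hA
    have h3 := hB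
    unfold HasProd at h2 h3
    rw [SummationFilter.unconditional_filter] at h2 h3
    exact (h2.sub h3).norm
  refine le_of_tendsto' h1 fun t => (prod_diff t a b α hα ha hb).trans ?_
  have h4 : ∑ i ∈ t, ‖a i - b i‖ ≤ ∑' i, β i :=
    (Finset.sum_le_sum fun i _ => hab i).trans
      (hβ.sum_le_tsum t fun i _ => (norm_nonneg _).trans (hab i))
  exact mul_le_mul (prod_exp t α hα hs) h4 (Finset.sum_nonneg fun _ _ => norm_nonneg _)
    (Real.exp_pos _).le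

/-! ### the Euler product -/

/-- the terms of the diagonal sum -/
noncomputable def ft (s : ℂ) (δ : ℝ) (n : ℕ) : ℂ := dS s n ^ 2 * (((n:ℝ) ^ (-(1 + 2 * δ)) : ℝ) : ℂ)

theorem ft_zero (s : ℂ) {δ : ℝ} (hδ : 0 < δ) : ft s δ 0 = 0 := by
  unfold ft
  rw [Nat.cast_zero, Real.zero_rpow (by linarith)]
  simp

theorem ft_one (s : ℂ) (δ : ℝ) : ft s δ 1 = 1 := by
  unfold ft
  rw [dS_eq, mf_one]
  simp

theorem ft_mul (s : ℂ) (δ : ℝ) {m n : ℕ} (h : Nat.Coprime m n) : ft s δ (m * n) = ft s δ m * ft s δ n := by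
  unfold ft
  rw [dS_eq, dS_eq, dS_eq, mf_mul _ h]
  push_cast
  rw [Real.mul_rpow (Nat.cast_nonneg _) (Nat.cast_nonneg _)]
  push_cast
  ring

theorem ft_pow (s : ℂ) (δ : ℝ) {p : ℕ} (hp : p.Prime) (m : ℕ) :
    ft s δ (p ^ m) = lC s m ^ 2 * ((ph (1 + 2 * δ) p : ℝ) : ℂ) ^ m := by
  unfold ft
  rw [dS_eq, mf_prime_pow _ (lC_zero s) hp, ← Complex.ofReal_pow, ← map_pow]
  rfl

theorem ft_summable (s : ℂ) (k : ℕ) (hs : ‖s‖ ≤ k) {δ : ℝ} (hδ : 0 < δ) : Summable fun n => ‖ft s δ n‖ := by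
  have h1 : Summable fun n : ℕ => mf (fun m => B k m ^ 2) n * (n : ℝ) ^ (-(1 + 2 * δ)) := by
    refine summable_of_sum_le (c := (1 + 1 / (2 * δ)) ^ (∑' m, B k (m+1) ^ 2 * (1 / 2 : ℝ) ^ m)) ?_ ?_
    · intro n
      exact mul_nonneg (mf_nonneg _ (fun m => by positivity) n) (Real.rpow_nonneg (Nat.cast_nonneg _) _)
    · intro u
      refine sum_mf_le (fun m => B k m ^ 2) (by simp [B_zero]) (fun m => by positivity)
        (summ_poly (fun m => B k m ^ 2) (fun m => by positivity) (k * 2) (fun m => ?_))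
        (by positivity : 0 < 2 * δ) u
      rw [pow_mul]
      exact pow_le_pow_left₀ (B_nonneg _ _) (B_le k m) 2
  refine Summable.of_nonneg_of_le (fun n => norm_nonneg _) (fun n => ?_) h1
  unfold ft
  rw [norm_mul, norm_pow, Complex.norm_real, Real.norm_of_nonneg (Real.rpow_nonneg (Nat.cast_nonneg _) _)]
  apply mul_le_mul_of_nonneg_right _ (Real.rpow_nonneg (Nat.cast_nonneg _) _)
  have h2 : mf (fun m => B k m ^ 2) n = mf (B k) n ^ 2 := by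
    unfold mf
    rw [Finset.prod_pow]
  rw [h2]
  exact pow_le_pow_left₀ (norm_nonneg _) (norm_dS s k hs n) 2

theorem ft_euler (s : ℂ) (k : ℕ) (hs : ‖s‖ ≤ k) {δ : ℝ} (hδ : 0 < δ) :
    HasProd (fun p : Nat.Primes => ∑' m : ℕ, lC s m ^ 2 * ((ph (1 + 2 * δ) (p : ℕ) : ℝ) : ℂ) ^ m)
      (∑' n : ℕ, ft s δ n) := by
  have h1 := EulerProduct.eulerProduct_hasProd (f := ft s δ) (ft_one s δ) (fun h => ft_mul s δ h)
    (ft_summable s k hs hδ) (ft_zero s hδ)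
  have h2 : (fun p : Nat.Primes => ∑' m : ℕ, ft s δ ((p : ℕ) ^ m)) =
      fun p : Nat.Primes => ∑' m : ℕ, lC s m ^ 2 * ((ph (1 + 2 * δ) (p : ℕ) : ℝ) : ℂ) ^ m := by
    funext p
    exact tsum_congr fun m => ft_pow s δ p.2 m
  rw [← h2]
  exact h1

/-! ### the logarithms -/

theorem ph_summable {δ : ℝ} (hδ : 0 < δ) : Summable fun p : Nat.Primes => ph (1 + 2 * δ) (p : ℕ) := by
  have h1 : Summable fun n : ℕ => (n : ℝ) ^ (-(1 + 2 * δ)) := summ (by positivity : 0 < 2 * δ)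
  exact h1.comp_injective Nat.Primes.coe_nat_injective

theorem log_bd {x : ℝ} (hx0 : 0 ≤ x) (hx : x ≤ 1 / 2) : |Real.log (1 - x)| ≤ 2 * x := by
  have h1 : Real.log (1 - x) ≤ 0 := Real.log_nonpos (by linarith) (by linarith)
  rw [abs_of_nonpos h1]
  have h2 := Real.one_sub_inv_le_log_of_pos (show 0 < 1 - x by linarith)
  have h3 : 1 - (1 - x)⁻¹ = - x / (1 - x) := by
    have : 1 - x ≠ 0 := by linarith
    field_simp
    ring
  rw [h3] at h2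
  have h4 : x / (1 - x) ≤ 2 * x := by
    rw [div_le_iff₀ (by linarith)]
    nlinarith
  have h5 : -x / (1 - x) = -(x / (1 - x)) := neg_div _ _
  linarith

theorem ell_summable {δ : ℝ} (hδ : 0 < δ) :
    Summable fun p : Nat.Primes => Real.log (1 - ph (1 + 2 * δ) (p : ℕ)) := by
  refine Summable.of_norm_bounded ((ph_summable hδ).mul_left 2) fun p => ?_
  exact log_bd (ph_pos _ p.2).le (ph_le_half (by linarith) p.2)

/-- the sum of the logarithms -/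
noncomputable def Lm (δ : ℝ) : ℝ := ∑' p : Nat.Primes, Real.log (1 - ph (1 + 2 * δ) (p : ℕ))

theorem exp_Lm {δ : ℝ} (hδ : 0 < δ) : ((Real.exp (-(Lm δ)) : ℝ) : ℂ) = riemannZeta (1 + 2 * δ) := by
  have h1 : HasSum (fun p : Nat.Primes => -Real.log (1 - ph (1 + 2 * δ) (p : ℕ))) (-(Lm δ)) :=
    (ell_summable hδ).hasSum.neg
  have h2 := h1.rexp
  have h3 : HasProd (fun p : Nat.Primes => (((1 - ph (1 + 2 * δ) (p : ℕ))⁻¹ : ℝ) : ℂ))
      ((Real.exp (-(Lm δ)) : ℝ) : ℂ) := by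
    have h4 : (Real.exp ∘ fun p : Nat.Primes => -Real.log (1 - ph (1 + 2 * δ) (p : ℕ))) =
        fun p : Nat.Primes => (1 - ph (1 + 2 * δ) (p : ℕ))⁻¹ := by
      funext p
      simp only [Function.comp_apply]
      have h5 := ph_le_half (σ := 1 + 2 * δ) (by linarith) p.2
      rw [Real.exp_neg, Real.exp_log (by linarith)]
    rw [h4] at h2
    exact h2.map Complex.ofRealHom.toMonoidHom Complex.continuous_ofReal
  have h6 := riemannZeta_eulerProduct_hasProd (s := 1 + 2 * δ) (by simp [hδ])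
  refine h3.unique ?_
  have h7 : (fun p : Nat.Primes => (((1 - ph (1 + 2 * δ) (p : ℕ))⁻¹ : ℝ) : ℂ)) =
      fun p : Nat.Primes => (1 - (p : ℂ) ^ (-((1 : ℂ) + 2 * δ)))⁻¹ := by
    funext p
    rw [ph_apply]
    push_cast
    rw [Complex.ofReal_cpow (Nat.cast_nonneg _)]
    push_cast
    rfl
  rw [h7]
  exact h6

theorem tendsto_Lam : Tendsto (fun δ : ℝ => Real.log (2 * δ) - Lm δ) (𝓝[>] 0) (𝓝 0) := by
  have h1 : Tendsto (fun δ : ℝ => (1 : ℂ) + 2 * δ) (𝓝[>] 0) (𝓝[≠] 1) := by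
    rw [tendsto_nhdsWithin_iff]
    constructor
    · have h2 : Tendsto (fun δ : ℝ => (1 : ℂ) + 2 * δ) (𝓝 0) (𝓝 (1 + 2 * ((0 : ℝ) : ℂ))) := by
        apply Continuous.tendsto
        fun_prop
      rw [Complex.ofReal_zero, mul_zero, add_zero] at h2
      exact h2.mono_left nhdsWithin_le_nhds
    · filter_upwards [self_mem_nhdsWithin] with δ hδ
      have hδ' : 0 < δ := hδ
      rw [Set.mem_compl_iff, Set.mem_singleton_iff]
      intro h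
      have h2 : (2 : ℂ) * δ = 0 := by linear_combination h
      have h3 : (δ : ℂ) = 0 := by
        rcases mul_eq_zero.1 h2 with h4 | h4
        · norm_num at h4
        · exact h4
      exact hδ'.ne' (by exact_mod_cast h3)
  have h2 := (riemannZeta_residue_one.comp h1).norm
  rw [norm_one] at h2
  have h3 := (Real.continuousAt_log one_ne_zero).tendsto.comp h2
  rw [Real.log_one] at h3
  refine h3.congr' ?_
  filter_upwards [self_mem_nhdsWithin] with δ hδ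
  have hδ' : 0 < δ := hδ
  simp only [Function.comp_apply]
  rw [← exp_Lm hδ', add_sub_cancel_left, norm_mul, Complex.norm_real, Real.norm_of_nonneg (Real.exp_pos _).le]
  have h4 : ‖(2 : ℂ) * δ‖ = 2 * δ := by
    rw [norm_mul, Complex.norm_real, Real.norm_of_nonneg hδ'.le]
    simp
  rw [h4, Real.log_mul (by positivity) (Real.exp_pos _).ne', Real.log_exp]
  ring

/-! ### the result -/

theorem E_hasProd (s : ℂ) (k : ℕ) (hs : ‖s‖ ≤ k) {δ : ℝ} (hδ : 0 < δ) :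
    HasProd (fun p : Nat.Primes => E s (ph (1 + 2 * δ) (p : ℕ)))
      (Complex.exp ((Lm δ : ℂ) * s ^ 2) * ∑' n : ℕ, ft s δ n) := by
  have h1 : HasSum (fun p : Nat.Primes => ((Real.log (1 - ph (1 + 2 * δ) (p : ℕ)) : ℝ) : ℂ) * s ^ 2)
      ((Lm δ : ℂ) * s ^ 2) :=
    (Complex.hasSum_ofReal.2 (ell_summable hδ).hasSum).mul_right _
  have h2 := h1.cexp.mul (ft_euler s k hs hδ)
  convert h2 using 2 with p
  unfold E
  congr 1
  have h3 := ph_le_half (σ := 1 + 2 * δ) (by linarith) p.2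
  have h4 : (1 - ((ph (1 + 2 * δ) (p : ℕ) : ℝ) : ℂ)) = ((1 - ph (1 + 2 * δ) (p : ℕ) : ℝ) : ℂ) := by
    push_cast; ring
  simp only [Function.comp_apply]
  rw [h4, Complex.cpow_def_of_ne_zero (by
    rw [Complex.ofReal_ne_zero]
    linarith), Complex.ofReal_log (by linarith)]

theorem inv_sub_ph {δ : ℝ} (hδ : 0 < δ) {p : ℕ} (hp : p.Prime) :
    (p : ℝ)⁻¹ * ((p : ℝ)⁻¹ - ph (1 + 2 * δ) p) ≤ 4 * δ * (p : ℝ) ^ (-(1 + 1 / 2 : ℝ)) := by
  have hp0 : (0 : ℝ) < p := by exact_mod_cast hp.pos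
  have h1 : ph (1 + 2 * δ) p = (p : ℝ)⁻¹ * (p : ℝ) ^ (-(2 * δ)) := by
    rw [ph_apply, ← Real.rpow_neg_one, ← Real.rpow_add hp0]
    congr 1
    ring
  have h2 : 1 - 2 * δ * Real.log p ≤ (p : ℝ) ^ (-(2 * δ)) := by
    rw [Real.rpow_def_of_pos hp0]
    have := Real.add_one_le_exp (Real.log p * -(2 * δ))
    linarith
  have h3 : Real.log p ≤ 2 * (p : ℝ) ^ (1 / 2 : ℝ) := by
    have := Real.log_le_rpow_div hp0.le (by norm_num : (0 : ℝ) < 1 / 2)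
    linarith
  have h4 : (p : ℝ) ^ (-(1 + 1 / 2 : ℝ)) = (p : ℝ)⁻¹ * (p : ℝ)⁻¹ * (p : ℝ) ^ (1 / 2 : ℝ) := by
    rw [← Real.rpow_neg_one, ← Real.rpow_add hp0, ← Real.rpow_add hp0]
    norm_num
  rw [h1, h4]
  have h5 : 0 < (p : ℝ)⁻¹ := by positivity
  have h6 : (p : ℝ)⁻¹ * ((p : ℝ)⁻¹ - (p : ℝ)⁻¹ * (p : ℝ) ^ (-(2 * δ))) =
      (p : ℝ)⁻¹ * (p : ℝ)⁻¹ * (1 - (p : ℝ) ^ (-(2 * δ))) := by ring
  rw [h6]
  have h7 : 1 - (p : ℝ) ^ (-(2 * δ)) ≤ 4 * δ * (p : ℝ) ^ (1 / 2 : ℝ) := by nlinarith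
  calc (p : ℝ)⁻¹ * (p : ℝ)⁻¹ * (1 - (p : ℝ) ^ (-(2 * δ)))
      ≤ (p : ℝ)⁻¹ * (p : ℝ)⁻¹ * (4 * δ * (p : ℝ) ^ (1 / 2 : ℝ)) :=
        mul_le_mul_of_nonneg_left h7 (by positivity)
    _ = _ := by ring

theorem aC_hasProd (s : ℂ) (C : ℝ)
    (hE : ∀ x : ℝ, 0 ≤ x → x ≤ 1 / 2 → ‖E s x - 1‖ ≤ C * x * x) :
    HasProd (fun p : Nat.Primes => E s ((p : ℝ)⁻¹)) (aC s) := by
  have h1 : Summable fun p : Nat.Primes => ‖E s ((p : ℝ)⁻¹) - 1‖ := by
    have h2 : Summable fun p : Nat.Primes => C * ((p : ℕ) : ℝ) ^ (-(1 + 1 : ℝ)) :=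
      ((summ one_pos).comp_injective Nat.Primes.coe_nat_injective).mul_left C
    refine Summable.of_nonneg_of_le (fun p => norm_nonneg _) (fun p => ?_) h2
    have hp0 : (0 : ℝ) < (p : ℕ) := by exact_mod_cast p.2.pos
    have h3 := hE ((p : ℝ)⁻¹) (by positivity) (by
      rw [one_div]
      apply inv_anti₀ (by norm_num)
      exact_mod_cast p.2.two_le)
    have h4 : ((p : ℕ) : ℝ) ^ (-(1 + 1 : ℝ)) = (p : ℝ)⁻¹ * (p : ℝ)⁻¹ := by
      rw [← Real.rpow_neg_one, ← Real.rpow_add hp0]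
      norm_num
    rw [h4]
    linarith
  have h2 := (multipliable_one_add_of_summable h1).hasProd
  have h3 : (fun p : Nat.Primes => 1 + (E s ((p : ℝ)⁻¹) - 1)) = fun p : Nat.Primes => E s ((p : ℝ)⁻¹) := by
    funext p; ring
  rw [h3] at h2
  have h4 : ∏' p : Nat.Primes, E s ((p : ℝ)⁻¹) = aC s := by
    unfold aC
    refine tprod_congr fun p => ?_
    unfold E
    push_cast
    simp only [one_div]
  rw [h4] at h2
  exact h2

/-- (DIA2) the diagonal terms, asymptotics -/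
theorem main : S_DIA2 := by
  intro R hR ε hε
  obtain ⟨k, hk⟩ := exists_nat_ge R
  obtain ⟨C, hC, hEd⟩ := E_diff k
  set W1 : ℝ := ∑' p : Nat.Primes, C * ((p : ℕ) : ℝ) ^ (-(1 + 1 : ℝ)) with hW1
  set W2 : ℝ := ∑' p : Nat.Primes, C * (4 * ((p : ℕ) : ℝ) ^ (-(1 + 1 / 2 : ℝ))) with hW2
  have s1 : Summable fun p : Nat.Primes => C * ((p : ℕ) : ℝ) ^ (-(1 + 1 : ℝ)) :=
    ((summ one_pos).comp_injective Nat.Primes.coe_nat_injective).mul_left C
  have s2 : Summable fun p : Nat.Primes => C * (4 * ((p : ℕ) : ℝ) ^ (-(1 + 1 / 2 : ℝ))) :=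
    (((summ (by norm_num : (0 : ℝ) < 1 / 2)).comp_injective Nat.Primes.coe_nat_injective).mul_left 4).mul_left C
  have hW2nn : 0 ≤ W2 := tsum_nonneg fun p => by positivity
  set M : ℝ := Real.exp W1 with hM
  have hM0 : 0 < M := Real.exp_pos _
  set η : ℝ := min (1 / ((k : ℝ) ^ 2 + 1)) (ε / (4 * ((k : ℝ) ^ 2 + 1) * M)) with hη
  have hη0 : 0 < η := by positivity
  have hL := Metric.tendsto_nhdsWithin_nhds.1 tendsto_Lam η hη0
  obtain ⟨δ1, hδ1, hL'⟩ := hL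
  refine ⟨min (δ1 / 2) (ε / (2 * (M * W2 + 1))), by positivity, ?_⟩
  intro δ hδ hδ2 s hs
  have hsk : ‖s‖ ≤ k := hs.trans hk
  have hδa : δ < δ1 := by
    have := hδ2.trans (min_le_left _ _)
    linarith
  have hδb : δ ≤ ε / (2 * (M * W2 + 1)) := hδ2.trans (min_le_right _ _)
  have hLam : |Real.log (2 * δ) - Lm δ| < η := by
    have := hL' (x := δ) hδ (by rw [dist_zero_right, Real.norm_of_nonneg hδ.le]; exact hδa)
    rwa [dist_zero_right] at this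
  set Λ : ℝ := Real.log (2 * δ) - Lm δ with hΛ
  have hE1 : ∀ x : ℝ, 0 ≤ x → x ≤ 1 / 2 → ‖E s x - 1‖ ≤ C * x * x := by
    intro x hx0 hx
    have := hEd s hsk x 0 le_rfl hx0 hx
    rw [E_zero, sub_zero] at this
    exact this
  have hP := E_hasProd s k hsk hδ
  have hA := aC_hasProd s C hE1
  set S : ℂ := ∑' n : ℕ, ft s δ n with hS
  set P : ℂ := Complex.exp ((Lm δ : ℂ) * s ^ 2) * S with hPdef
  have hinv : ∀ p : Nat.Primes, 0 ≤ ((p : ℕ) : ℝ)⁻¹ ∧ ((p : ℕ) : ℝ)⁻¹ ≤ 1 / 2 := by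
    intro p
    have hp0 : (0 : ℝ) < (p : ℕ) := by exact_mod_cast p.2.pos
    refine ⟨by positivity, ?_⟩
    rw [one_div]
    apply inv_anti₀ (by norm_num)
    exact_mod_cast p.2.two_le
  have hsq : ∀ p : Nat.Primes, ((p : ℕ) : ℝ) ^ (-(1 + 1 : ℝ)) = ((p : ℕ) : ℝ)⁻¹ * ((p : ℕ) : ℝ)⁻¹ := by
    intro p
    have hp0 : (0 : ℝ) < (p : ℕ) := by exact_mod_cast p.2.pos
    rw [← Real.rpow_neg_one, ← Real.rpow_add hp0]
    norm_num
  have hbd : ∀ x : ℝ, ∀ p : Nat.Primes, 0 ≤ x → x ≤ ((p : ℕ) : ℝ)⁻¹ →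
      ‖E s x‖ ≤ 1 + C * ((p : ℕ) : ℝ) ^ (-(1 + 1 : ℝ)) := by
    intro x p hx0 hx
    have h1 := hE1 x hx0 (hx.trans (hinv p).2)
    have h2 : ‖E s x‖ ≤ ‖E s x - 1‖ + 1 := by
      have := norm_add_le (E s x - 1) 1
      rw [sub_add_cancel, norm_one] at this
      exact this
    rw [hsq]
    have h3 : C * x * x ≤ C * (((p : ℕ) : ℝ)⁻¹ * ((p : ℕ) : ℝ)⁻¹) := by
      rw [mul_assoc]
      exact mul_le_mul_of_nonneg_left (mul_le_mul hx hx hx0 (hinv p).1) hC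
    linarith
  have hph : ∀ p : Nat.Primes, 0 ≤ ph (1 + 2 * δ) (p : ℕ) ∧ ph (1 + 2 * δ) (p : ℕ) ≤ ((p : ℕ) : ℝ)⁻¹ :=
    fun p => ⟨(ph_pos _ p.2).le, ph_le_inv (by linarith) p.2⟩
  have hαnn : ∀ p : Nat.Primes, 0 ≤ C * ((p : ℕ) : ℝ) ^ (-(1 + 1 : ℝ)) := fun p => by positivity
  have hPn : ‖P‖ ≤ M := tprod_bd _ _ hαnn s1 (fun p => hbd _ p (hph p).1 (hph p).2) hP
  have hPA : ‖P - aC s‖ ≤ M * (δ * W2) := by
    have h1 := tprod_diff _ _ (fun p : Nat.Primes => C * ((p : ℕ) : ℝ) ^ (-(1 + 1 : ℝ)))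
      (fun p : Nat.Primes => δ * (C * (4 * ((p : ℕ) : ℝ) ^ (-(1 + 1 / 2 : ℝ))))) hαnn s1
      (fun p => hbd _ p (hph p).1 (hph p).2) (fun p => hbd _ p (hinv p).1 le_rfl) (by
        intro p
        rw [norm_sub_rev]
        have h2 := hEd s hsk (((p : ℕ) : ℝ)⁻¹) (ph (1 + 2 * δ) (p : ℕ)) (hph p).1 (hph p).2 (hinv p).2
        have h3 := inv_sub_ph hδ p.2
        refine h2.trans ?_
        calc C * ((p : ℕ) : ℝ)⁻¹ * (((p : ℕ) : ℝ)⁻¹ - ph (1 + 2 * δ) (p : ℕ))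
            = C * (((p : ℕ) : ℝ)⁻¹ * (((p : ℕ) : ℝ)⁻¹ - ph (1 + 2 * δ) (p : ℕ))) := by ring
          _ ≤ C * (4 * δ * ((p : ℕ) : ℝ) ^ (-(1 + 1 / 2 : ℝ))) := mul_le_mul_of_nonneg_left h3 hC
          _ = _ := by ring) (s2.mul_left δ) hP hA
    have h4 : ∑' p : Nat.Primes, δ * (C * (4 * ((p : ℕ) : ℝ) ^ (-(1 + 1 / 2 : ℝ)))) = δ * W2 := by
      rw [hW2, ← tsum_mul_left]
    rw [h4] at h1
    exact h1
  -- the first factor
  have hkey : ((2 * δ : ℝ) : ℂ) ^ (s ^ 2) * S = Complex.exp ((Λ : ℂ) * s ^ 2) * P := by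
    rw [hPdef, ← mul_assoc, ← Complex.exp_add, Complex.cpow_def_of_ne_zero (by
      rw [Complex.ofReal_ne_zero]
      positivity), ← Complex.ofReal_log (by positivity)]
    congr 2
    rw [hΛ]
    push_cast
    ring
  have hz : ‖(Λ : ℂ) * s ^ 2‖ ≤ |Λ| * (k : ℝ) ^ 2 := by
    rw [norm_mul, norm_pow, Complex.norm_real, Real.norm_eq_abs]
    exact mul_le_mul_of_nonneg_left (pow_le_pow_left₀ (norm_nonneg _) hsk 2) (abs_nonneg _)
  have hk2 : (k : ℝ) ^ 2 ≤ (k : ℝ) ^ 2 + 1 := by linarith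
  have hz1 : |Λ| * (k : ℝ) ^ 2 ≤ 1 := by
    have h1 : |Λ| ≤ 1 / ((k : ℝ) ^ 2 + 1) := hLam.le.trans (min_le_left _ _)
    calc |Λ| * (k : ℝ) ^ 2 ≤ 1 / ((k : ℝ) ^ 2 + 1) * ((k : ℝ) ^ 2 + 1) :=
          mul_le_mul h1 hk2 (by positivity) (by positivity)
      _ = 1 := by field_simp
  have hz2 : 2 * (|Λ| * (k : ℝ) ^ 2) * M ≤ ε / 2 := by
    have h1 : |Λ| ≤ ε / (4 * ((k : ℝ) ^ 2 + 1) * M) := hLam.le.trans (min_le_right _ _)
    calc 2 * (|Λ| * (k : ℝ) ^ 2) * M ≤ 2 * (ε / (4 * ((k : ℝ) ^ 2 + 1) * M) * ((k : ℝ) ^ 2 + 1)) * M := by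
          gcongr
      _ = ε / 2 := by field_simp; ring
  have hex := Complex.norm_exp_sub_one_le (hz.trans hz1)
  have hgoal : ((2 * δ : ℝ) : ℂ) ^ (s ^ 2) * (∑' n : ℕ, dS s n ^ 2 * (((n:ℝ) ^ (-(1 + 2 * δ)) : ℝ) : ℂ)) -
      aC s = (Complex.exp ((Λ : ℂ) * s ^ 2) - 1) * P + (P - aC s) := by
    have h1 : (∑' n : ℕ, dS s n ^ 2 * (((n:ℝ) ^ (-(1 + 2 * δ)) : ℝ) : ℂ)) = S := rfl
    rw [h1, hkey]
    ring
  rw [hgoal]
  have h1 : ‖(Complex.exp ((Λ : ℂ) * s ^ 2) - 1) * P‖ ≤ ε / 2 := by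
    rw [norm_mul]
    calc ‖Complex.exp ((Λ : ℂ) * s ^ 2) - 1‖ * ‖P‖ ≤ (2 * (|Λ| * (k : ℝ) ^ 2)) * M :=
          mul_le_mul (hex.trans (by linarith)) hPn (norm_nonneg _) (by positivity)
      _ ≤ ε / 2 := hz2
  have h2 : ‖P - aC s‖ ≤ ε / 2 := by
    refine hPA.trans ?_
    have h3 : 0 < M * W2 + 1 := by positivity
    calc M * (δ * W2) ≤ δ * (M * W2 + 1) := by nlinarith
      _ ≤ ε / (2 * (M * W2 + 1)) * (M * W2 + 1) := mul_le_mul_of_nonneg_right hδb h3.le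
      _ = ε / 2 := by field_simp
  calc _ ≤ _ := norm_add_le _ _
    _ ≤ ε / 2 + ε / 2 := add_le_add h1 h2
    _ = ε := by ring

end Pool.Agent.N748.MG.DIA2
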