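import Pool.Agent.N748.MG.Stm

set_option autoImplicit false

/-! Truncation of powers of Euler products. -/

namespace Pool.Agent.N748.MG.EUL

open Finset Filter Topology

/-! ### the binomial series -/

theorem choose_eq (s : ℂ) (m : ℕ) : Ring.choose (s + m - 1) m = lC s m := by
  rw [← Ring.multichoose_eq]
  have h1 := Ring.factorial_nsmul_multichoose_eq_ascPochhammer s m
  rw [Polynomial.ascPochhammer_smeval_eq_eval, nsmul_eq_mul] at h1
  have h2 : ∀ n : ℕ, (n.factorial : ℂ) * lC s n = (ascPochhammer ℂ n).eval s := by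
    intro n
    induction n with
    | zero => simp [lC]
    | succ n ih =>
      have e1 : lC s (n + 1) = lC s n * ((s + n) / ((n : ℂ) + 1)) := by
        unfold lC
        rw [prod_range_succ]
      have e2 : (n : ℂ) + 1 ≠ 0 := Nat.cast_add_one_ne_zero n
      rw [ascPochhammer_succ_eval, ← ih, e1, Nat.factorial_succ]
      push_cast
      field_simp
  have h3 : (m.factorial : ℂ) ≠ 0 := by exact_mod_cast m.factorial_ne_zero
  apply mul_left_cancel₀ h3
  rw [h1, h2]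

theorem hasSum_lC (s z : ℂ) (hz : ‖z‖ < 1) :
    HasSum (fun m => lC s m * z ^ m) ((1 - z) ^ (-s)) ∧ Summable fun m => ‖lC s m * z ^ m‖ := by
  have h1 := Complex.one_div_one_sub_cpow_hasFPowerSeriesOnBall_zero s
  have hz' : z ∈ Metric.eball (0 : ℂ) 1 := by
    rw [← ENNReal.ofReal_one, Metric.eball_ofReal]
    simpa using hz
  have h2 := h1.hasSum hz'
  have h3 : ∀ n : ℕ, (FormalMultilinearSeries.ofScalars ℂ fun n ↦ Ring.choose (s + n - 1) n) n
      (fun _ => z) = lC s n * z ^ n := by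
    intro n
    simp [FormalMultilinearSeries.ofScalars, choose_eq]
  have h4 := FormalMultilinearSeries.summable_norm_apply _ (Metric.eball_subset_eball h1.r_le hz')
  simp only [h3] at h2 h4
  refine ⟨?_, h4⟩
  rw [zero_add, one_div, ← Complex.cpow_neg] at h2
  exact h2

/-! ### products of power series -/

/-- the local factor -/
noncomputable def Fp (s : ℂ) (x : ℂ) : PowerSeries ℂ := PowerSeries.mk fun m => lC s m * x ^ m

/-- the power series converges absolutely at `u` -/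
def Cv (F : PowerSeries ℂ) (u a : ℂ) : Prop :=
  HasSum (fun k => PowerSeries.coeff k F * u ^ k) a ∧
    Summable fun k => ‖PowerSeries.coeff k F * u ^ k‖

theorem Cv.one (u : ℂ) : Cv 1 u 1 := by
  have h1 : (fun k : ℕ => PowerSeries.coeff k (1 : PowerSeries ℂ) * u ^ k) =
      fun k => if k = 0 then 1 else 0 := by
    funext k
    rw [PowerSeries.coeff_one]
    split_ifs with hk
    · rw [hk]; simp
    · simp
  unfold Cv
  rw [h1]
  refine ⟨hasSum_ite_eq 0 1, ?_⟩
  have h2 := (hasSum_ite_eq (0 : ℕ) (1 : ℝ)).summable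
  refine h2.congr fun k => ?_
  have h3 : PowerSeries.coeff k (1 : PowerSeries ℂ) * u ^ k = if k = 0 then 1 else 0 :=
    congrFun h1 k
  rw [h3]
  split_ifs <;> simp

theorem Cv.mul {F G : PowerSeries ℂ} {u a b : ℂ} (hF : Cv F u a) (hG : Cv G u b) :
    Cv (F * G) u (a * b) := by
  have h1 : (fun k : ℕ => PowerSeries.coeff k (F * G) * u ^ k) =
      fun k => ∑ ij ∈ antidiagonal k, (PowerSeries.coeff ij.1 F * u ^ ij.1) *
        (PowerSeries.coeff ij.2 G * u ^ ij.2) := by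
    funext k
    rw [PowerSeries.coeff_mul, sum_mul]
    refine sum_congr rfl fun ij hij => ?_
    rw [HasAntidiagonal.mem_antidiagonal] at hij
    rw [← hij, pow_add]
    ring
  have h2 := summable_norm_sum_mul_antidiagonal_of_summable_norm hF.2 hG.2
  have h3 := tsum_mul_tsum_eq_tsum_sum_antidiagonal_of_summable_norm hF.2 hG.2
  rw [hF.1.tsum_eq, hG.1.tsum_eq] at h3
  have h4 := h2.of_norm.hasSum
  rw [← h3] at h4
  refine ⟨?_, ?_⟩
  · rw [h1]
    exact h4
  · refine h2.congr fun k => ?_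
    rw [congrFun h1 k]

theorem Cv.fp (s u x : ℂ) (h : ‖u * x‖ < 1) : Cv (Fp s x) u ((1 - u * x) ^ (-s)) := by
  obtain ⟨j1, j2⟩ := hasSum_lC s (u * x) h
  have h1 : (fun k : ℕ => PowerSeries.coeff k (Fp s x) * u ^ k) =
      fun k => lC s k * (u * x) ^ k := by
    funext k
    rw [Fp, PowerSeries.coeff_mk, mul_pow]
    ring
  unfold Cv
  refine ⟨by rw [h1]; exact j1, ?_⟩
  refine j2.congr fun k => ?_
  rw [congrFun h1 k]

theorem Cv.prod (s u : ℂ) (x : ℕ → ℂ) (Q : Finset ℕ) (h : ∀ p ∈ Q, ‖u * x p‖ < 1) :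
    Cv (∏ p ∈ Q, Fp s (x p)) u (∏ p ∈ Q, (1 - u * x p) ^ (-s)) := by
  classical
  induction Q using Finset.induction_on with
  | empty =>
    rw [prod_empty, prod_empty]
    exact Cv.one u
  | insert p Q hp ih =>
    rw [prod_insert hp, prod_insert hp]
    exact (Cv.fp s u (x p) (h p (mem_insert_self _ _))).mul
      (ih fun q hq => h q (mem_insert_of_mem hq))

/-! ### Cauchy's estimate -/

theorem cauchy_bound (c : ℕ → ℂ) (f : ℂ → ℂ) (r r' M : ℝ) (hr : 0 < r) (hrr : r < r')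
    (hs : ∀ u : ℂ, ‖u‖ ≤ r' → HasSum (fun k => c k * u ^ k) (f u))
    (hn : Summable fun k => ‖c k * (r' : ℂ) ^ k‖)
    (hM : ∀ u : ℂ, ‖u‖ = r → ‖f u‖ ≤ M) (k : ℕ) : ‖c k‖ ≤ M / r ^ k := by
  have hr' : 0 < r' := hr.trans hrr
  set p : FormalMultilinearSeries ℂ ℂ ℂ := FormalMultilinearSeries.ofScalars ℂ c with hp
  have hpn : ∀ n (z : ℂ), p n (fun _ => z) = c n * z ^ n := by
    intro n z
    simp [hp, FormalMultilinearSeries.ofScalars]
  have hnorm : ∀ n, ‖p n‖ = ‖c n‖ := by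
    intro n
    rw [hp]
    exact FormalMultilinearSeries.ofScalars_norm ℂ c n
  let ρ : NNReal := ⟨r', hr'.le⟩
  have hrad : (ρ : ENNReal) ≤ p.radius := by
    apply FormalMultilinearSeries.le_radius_of_summable_norm
    refine hn.congr fun n => ?_
    rw [hnorm, norm_mul, norm_pow, Complex.norm_real, Real.norm_of_nonneg hr'.le]
    rfl
  have hρ : (ρ : ℝ) = r' := rfl
  have hρ0 : 0 < ρ := hr'
  have hball : HasFPowerSeriesOnBall f p 0 (ρ : ENNReal) := by
    refine ⟨hrad, by exact_mod_cast hρ0, ?_⟩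
    intro y hy
    simp only [hpn, zero_add]
    apply hs
    have : y ∈ Metric.ball (0 : ℂ) r' := by
      rw [Metric.eball_coe] at hy
      exact hy
    rw [mem_ball_zero_iff] at this
    exact this.le
  have hcoef := hball.factorial_smul 1 k
  rw [hpn, one_pow, mul_one] at hcoef
  have hdiff : DifferentiableOn ℂ f (Metric.ball 0 r') := by
    have h1 := hball.differentiableOn
    rw [Metric.eball_coe] at h1
    exact h1
  have hcl : DiffContOnCl ℂ f (Metric.ball 0 r) := by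
    apply (hdiff.mono _).diffContOnCl_ball (U := Metric.ball 0 r')
    · exact Metric.closedBall_subset_ball hrr
    · exact subset_rfl
  have h2 := Complex.norm_iteratedDeriv_le_of_forall_mem_sphere_norm_le k hr hcl (C := M)
    (fun z hz => hM z (by rwa [mem_sphere_zero_iff_norm] at hz))
  rw [iteratedDeriv_eq_iteratedFDeriv, ← hcoef, nsmul_eq_mul, norm_mul, Complex.norm_natCast,
    mul_div_assoc] at h2
  have h3 : (0 : ℝ) < k.factorial := by exact_mod_cast k.factorial_pos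
  exact le_of_mul_le_mul_left h2 h3

/-! ### the coefficients -/

theorem cpow_pow_nat (p k : ℕ) (z : ℂ) : ((p ^ k : ℕ) : ℂ) ^ z = ((p : ℂ) ^ z) ^ k := by
  induction k with
  | zero => simp
  | succ k ih =>
    rw [pow_succ, Nat.cast_mul, Complex.natCast_mul_natCast_cpow, ih, pow_succ]

theorem cpow_prod_nat (Q : Finset ℕ) (e : ℕ → ℕ) (z : ℂ) :
    ((∏ p ∈ Q, p ^ e p : ℕ) : ℂ) ^ z = ∏ p ∈ Q, ((p : ℂ) ^ z) ^ e p := by
  classical
  induction Q using Finset.induction_on with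
  | empty => simp
  | insert p Q hp ih =>
    rw [prod_insert hp, prod_insert hp, Nat.cast_mul, Complex.natCast_mul_natCast_cpow, ih,
      cpow_pow_nat]

theorem omega_eq {Q : Finset ℕ} {n : ℕ} (h : n.primeFactors ⊆ Q) :
    n.primeFactorsList.length = Q.sum n.factorization := by
  rw [← ArithmeticFunction.cardFactors_apply, ArithmeticFunction.cardFactors_eq_sum_factorization,
    Finsupp.sum]
  apply sum_subset
  · rw [Nat.support_factorization]; exact h
  · intro p _ hp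
    exact Finsupp.notMem_support_iff.1 hp

theorem lC_zero (s : ℂ) : lC s 0 = 1 := by simp [lC]

theorem term_eq (s w : ℂ) {Q : Finset ℕ} {n : ℕ} (hn : n ≠ 0) (h : n.primeFactors ⊆ Q) :
    dS s n * (n : ℂ) ^ (-w) =
      ∏ p ∈ Q, lC s (n.factorization p) * ((p : ℂ) ^ (-w)) ^ n.factorization p := by
  rw [prod_mul_distrib]
  congr 1
  · unfold dS
    apply prod_subset h
    intro p _ hp
    rw [← Nat.support_factorization, Finsupp.notMem_support_iff] at hp
    rw [hp, lC_zero]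
  · rw [← cpow_prod_nat]
    congr 2
    conv_lhs => rw [← Nat.prod_factorization_pow_eq_self hn]
    rw [Finsupp.prod]
    apply prod_subset
    · rw [Nat.support_factorization]; exact h
    · intro p _ hp
      rw [Finsupp.notMem_support_iff] at hp
      rw [hp, pow_zero]

theorem PA_prime {y : ℝ} {p : ℕ} (hp : p ∈ PA y) : p.Prime ∧ p ≤ ⌊y⌋₊ := by
  unfold PA at hp
  rw [mem_filter, mem_Icc] at hp
  exact ⟨hp.2, hp.1.2⟩

theorem AS_eq (s : ℂ) {y : ℝ} (hy : 2 ≤ y) (K : ℕ) (w : ℂ) :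
    AS s y K w = ∑ k ∈ range (K + 1),
      PowerSeries.coeff k (∏ p ∈ PA y, Fp s ((p : ℂ) ^ (-w))) := by
  classical
  have hy2 : 1 ≤ ⌊y⌋₊ := by
    rw [Nat.one_le_floor_iff]
    linarith
  unfold AS
  rw [← sum_fiberwise_of_maps_to (s := FS y K) (t := range (K + 1))
    (g := fun n => n.primeFactorsList.length)]
  swap
  · intro n hn
    unfold FS at hn
    rw [mem_filter] at hn
    rw [mem_range]
    have := hn.2.2.2
    omega
  refine sum_congr rfl fun k hk => ?_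
  rw [mem_range] at hk
  rw [PowerSeries.coeff_prod]
  refine sum_bij' (fun n _ => n.factorization) (fun l _ => l.prod (· ^ ·)) ?_ ?_ ?_ ?_ ?_
  · intro n hn
    unfold FS at hn
    rw [mem_filter, mem_filter] at hn
    rw [mem_finsuppAntidiag, Nat.support_factorization]
    exact ⟨by rw [← omega_eq hn.1.2.2.1]; exact hn.2, hn.1.2.2.1⟩
  · intro l hl
    rw [mem_finsuppAntidiag] at hl
    have hpr : ∀ p ∈ l.support, p.Prime := fun p hp => (PA_prime (hl.2 hp)).1
    have hf : (l.prod (· ^ ·)).factorization = l := Nat.prod_pow_factorization_eq_self hpr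
    have h0 : l.prod (· ^ ·) ≠ 0 := by
      rw [Finsupp.prod]
      exact prod_ne_zero_iff.2 fun p hp => pow_ne_zero _ (hpr p hp).ne_zero
    have hsub : (l.prod (· ^ ·)).primeFactors ⊆ PA y := by
      rw [← Nat.support_factorization, hf]
      exact hl.2
    have hom : (l.prod (· ^ ·)).primeFactorsList.length = k := by
      rw [omega_eq hsub, hf]
      exact hl.1
    unfold FS
    rw [mem_filter, mem_filter, mem_range]
    refine ⟨⟨?_, h0, hsub, by rw [hom]; omega⟩, hom⟩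
    rw [Nat.lt_succ_iff]
    calc l.prod (· ^ ·) ≤ ∏ p ∈ l.support, ⌊y⌋₊ ^ l p := by
          rw [Finsupp.prod]
          exact prod_le_prod' fun p hp => Nat.pow_le_pow_left (PA_prime (hl.2 hp)).2 _
      _ = ⌊y⌋₊ ^ (∑ p ∈ l.support, l p) := prod_pow_eq_pow_sum _ _ _
      _ ≤ ⌊y⌋₊ ^ K := by
          apply Nat.pow_le_pow_right hy2
          have h1 : ∑ p ∈ l.support, l p ≤ (PA y).sum l := sum_le_sum_of_subset hl.2
          rw [hl.1] at h1
          omega
  · intro n hn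
    unfold FS at hn
    rw [mem_filter, mem_filter] at hn
    exact Nat.prod_factorization_pow_eq_self hn.1.2.1
  · intro l hl
    rw [mem_finsuppAntidiag] at hl
    have hpr : ∀ p ∈ l.support, p.Prime := fun p hp => (PA_prime (hl.2 hp)).1
    exact Nat.prod_pow_factorization_eq_self hpr
  · intro n hn
    unfold FS at hn
    rw [mem_filter, mem_filter] at hn
    rw [term_eq s w hn.1.2.1 hn.1.2.2.1]
    refine prod_congr rfl fun p _ => ?_
    rw [Fp, PowerSeries.coeff_mk]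

/-! ### the size of the Euler product -/

theorem norm_x {p : ℕ} (hp : p.Prime) {w : ℂ} (hw : 1 / 2 ≤ w.re) :
    ‖(p : ℂ) ^ (-w)‖ ^ 2 ≤ 1 / p ∧ (1 : ℝ) / p ≤ 1 / 2 := by
  have h1 : (0 : ℝ) < p := by exact_mod_cast hp.pos
  have h2 : (2 : ℝ) ≤ p := by exact_mod_cast hp.two_le
  refine ⟨?_, by gcongr⟩
  rw [Complex.norm_natCast_cpow_of_pos hp.pos, ← Real.rpow_natCast, ← Real.rpow_mul h1.le,
    one_div, ← Real.rpow_neg_one]
  apply Real.rpow_le_rpow_of_exponent_le (by linarith)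
  simp only [Complex.neg_re]
  push_cast
  linarith

theorem log_part {t : ℂ} {q : ℝ} (hq : 0 ≤ q) (hq2 : q ≤ 1 / 2) (ht : ‖t‖ ^ 2 ≤ q) {u : ℂ}
    (hu : ‖u‖ = 5 / 4) : ‖Complex.log (1 - u * t) + u * t‖ ≤ 7 * q ∧ 1 - u * t ≠ 0 := by
  have h1 : ‖-(u * t)‖ = 5 / 4 * ‖t‖ := by rw [norm_neg, norm_mul, hu]
  have h0 : 0 ≤ ‖t‖ := norm_nonneg t
  have h2 : ‖-(u * t)‖ ≤ 0.888 := by
    rw [h1]
    nlinarith
  have h3 := Complex.norm_log_one_add_sub_self_le (z := -(u * t)) (by linarith)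
  have e1 : Complex.log (1 + -(u * t)) - -(u * t) = Complex.log (1 - u * t) + u * t := by
    rw [← sub_eq_add_neg]; ring
  rw [e1] at h3
  refine ⟨h3.trans ?_, ?_⟩
  · have h4 : (1 - ‖-(u * t)‖)⁻¹ ≤ 8.95 := by
      rw [inv_le_comm₀ (by linarith) (by norm_num)]
      have : (8.95 : ℝ)⁻¹ ≤ 0.112 := by norm_num
      linarith
    have h5 : ‖-(u * t)‖ ^ 2 ≤ 25 / 16 * q := by
      rw [h1]
      nlinarith
    have h6 : 0 ≤ (1 - ‖-(u * t)‖)⁻¹ := inv_nonneg.2 (by linarith)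
    calc ‖-(u * t)‖ ^ 2 * (1 - ‖-(u * t)‖)⁻¹ / 2 ≤ (25 / 16 * q) * 8.95 / 2 := by gcongr
      _ ≤ 7 * q := by nlinarith
  · intro h
    have h5 : u * t = 1 := by linear_combination -h
    rw [h5, norm_neg, norm_one] at h2
    norm_num at h2

theorem P_bound {y : ℝ} {w s u : ℂ} {R a v : ℝ} (hw : 1 / 2 ≤ w.re) (hs : ‖s‖ ≤ R)
    (ha : ‖∑ p ∈ PA y, (p : ℂ) ^ (-w)‖ ≤ a) (hv : ∑ p ∈ PA y, 1 / (p : ℝ) ≤ v)
    (hu : ‖u‖ = 5 / 4) :
    ‖∏ p ∈ PA y, (1 - u * (p : ℂ) ^ (-w)) ^ (-s)‖ ≤ Real.exp (R * (5 / 4 * a + 7 * v)) := by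
  have h1 : ∏ p ∈ PA y, (1 - u * (p : ℂ) ^ (-w)) ^ (-s) =
      Complex.exp (∑ p ∈ PA y, Complex.log (1 - u * (p : ℂ) ^ (-w)) * (-s)) := by
    rw [Complex.exp_sum]
    refine prod_congr rfl fun p hp => ?_
    obtain ⟨n1, n2⟩ := norm_x (PA_prime hp).1 hw
    rw [Complex.cpow_def_of_ne_zero (log_part (by positivity) n2 n1 hu).2]
  rw [h1, Complex.norm_exp]
  apply Real.exp_le_exp.2
  refine (Complex.re_le_norm _).trans ?_
  rw [← sum_mul, norm_mul, norm_neg, mul_comm]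
  have hR : 0 ≤ R := (norm_nonneg s).trans hs
  apply mul_le_mul hs _ (norm_nonneg _) hR
  have h2 : ∑ p ∈ PA y, Complex.log (1 - u * (p : ℂ) ^ (-w)) =
      ∑ p ∈ PA y, (Complex.log (1 - u * (p : ℂ) ^ (-w)) + u * (p : ℂ) ^ (-w)) -
        u * ∑ p ∈ PA y, (p : ℂ) ^ (-w) := by
    rw [sum_add_distrib, ← mul_sum]
    ring
  rw [h2]
  refine (norm_sub_le _ _).trans ?_
  rw [norm_mul, hu]
  have h3 : ‖∑ p ∈ PA y, (Complex.log (1 - u * (p : ℂ) ^ (-w)) + u * (p : ℂ) ^ (-w))‖ ≤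
      7 * ∑ p ∈ PA y, 1 / (p : ℝ) := by
    rw [mul_sum]
    refine norm_sum_le_of_le _ fun p hp => ?_
    obtain ⟨n1, n2⟩ := norm_x (PA_prime hp).1 hw
    exact (log_part (by positivity) n2 n1 hu).1
  linarith

theorem main : S_EUL := by
  intro R hR
  refine ⟨7 * R + 2, by positivity, fun y K w s a v hy hw hs ha hv => ?_⟩
  set c : ℕ → ℂ := fun k => PowerSeries.coeff k (∏ p ∈ PA y, Fp s ((p : ℂ) ^ (-w))) with hc
  set M : ℝ := Real.exp (R * (5 / 4 * a + 7 * v)) with hM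
  have hlt : ∀ u : ℂ, ‖u‖ ≤ 4 / 3 → ∀ p ∈ PA y, ‖u * (p : ℂ) ^ (-w)‖ < 1 := by
    intro u hu p hp
    obtain ⟨n1, n2⟩ := norm_x (PA_prime hp).1 hw
    rw [norm_mul]
    have h1 : 0 ≤ ‖(p : ℂ) ^ (-w)‖ := norm_nonneg _
    have h2 : ‖(p : ℂ) ^ (-w)‖ ≤ 0.7072 := by nlinarith
    have h3 : 0 ≤ ‖u‖ := norm_nonneg _
    nlinarith
  have hCv : ∀ u : ℂ, ‖u‖ ≤ 4 / 3 → Cv (∏ p ∈ PA y, Fp s ((p : ℂ) ^ (-w))) u
      (∏ p ∈ PA y, (1 - u * (p : ℂ) ^ (-w)) ^ (-s)) := fun u hu =>
    Cv.prod s u (fun p => (p : ℂ) ^ (-w)) (PA y) (hlt u hu)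
  have hb : ∀ k, ‖c k‖ ≤ M * (4 / 5) ^ k := by
    intro k
    have h1 := cauchy_bound c (fun u => ∏ p ∈ PA y, (1 - u * (p : ℂ) ^ (-w)) ^ (-s)) (5 / 4)
      (4 / 3) M (by norm_num) (by norm_num) (fun u hu => (hCv u hu).1) (by
        have := (hCv ((4 / 3 : ℝ) : ℂ) (by
          rw [Complex.norm_real, Real.norm_of_nonneg (by norm_num)])).2
        exact this) (fun u hu => P_bound hw hs ha hv hu) k
    refine h1.trans (le_of_eq ?_)
    rw [div_eq_mul_inv, ← inv_pow]
    norm_num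
  have h1 := (hCv 1 (by norm_num)).1
  simp only [one_pow, mul_one, one_mul] at h1
  have h2 := norm_sub_le_of_geometric_bound_of_hasSum (r := 4 / 5) (C := M) (by norm_num) hb h1
    (K + 1)
  rw [AS_eq s hy K w]
  refine h2.trans ?_
  have hM4 : M * 4 ≤ Real.exp ((7 * R + 2) * (a + v + 1)) := by
    have ha0 : 0 ≤ a := (norm_nonneg _).trans ha
    have hv0 : 0 ≤ v := le_trans (sum_nonneg fun p _ => by positivity) hv
    have h4 : (4 : ℝ) ≤ Real.exp 2 := by
      have h5 := Real.exp_one_gt_d9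
      have h6 : Real.exp 2 = Real.exp 1 * Real.exp 1 := by rw [← Real.exp_add]; norm_num
      rw [h6]
      nlinarith
    calc M * 4 ≤ M * Real.exp 2 := by
          apply mul_le_mul_of_nonneg_left h4 (Real.exp_pos _).le
      _ = Real.exp (R * (5 / 4 * a + 7 * v) + 2) := by rw [hM, Real.exp_add]
      _ ≤ Real.exp ((7 * R + 2) * (a + v + 1)) := by
          apply Real.exp_le_exp.2
          have e1 := mul_nonneg hR ha0
          have e2 := mul_nonneg hR hv0
          nlinarith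
  calc M * (4 / 5) ^ (K + 1) / (1 - 4 / 5) = (4 / 5) ^ K * (M * 4) := by
        rw [pow_succ]
        ring
    _ ≤ _ := mul_le_mul_of_nonneg_left hM4 (by positivity)

end Pool.Agent.N748.MG.EUL
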