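import Pool.Agent.N748.MG.Stm
import Pool.Agent.N748.HM.ZM1
import Pool.Agent.N748.HM.ZM2
import Pool.Agent.N748.HM.ZM3
import Pool.Agent.N748.HM.XS2
import Pool.Agent.N748.HM.SUP
import Pool.Agent.N748.GC.COS

set_option autoImplicit false

/-! The inputs from project HM. -/

namespace Pool.Agent.N748.MG.Inp

open Finset Filter MeasureTheory Topology Complex

lemma lC0 (s : ℂ) : lC s 0 = 1 := by simp [lC]

lemma lCm1 : lC (-1) 1 = -1 := by simp [lC]

lemma lCm2 (m : ℕ) (hm : 2 ≤ m) : lC (-1) m = 0 := by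
  unfold lC
  refine Finset.prod_eq_zero (i := 1) (mem_range.2 (by omega)) ?_
  simp

lemma PP_two (y : ℝ) : HM.PP 2 y = PA y := rfl

lemma ecs (s : ℂ) (n : ℕ) (c : ℂ) : GC.ec s (MonoidAlgebra.single n c) = c * (n:ℂ) ^ (-s) := by
  unfold GC.ec
  rw [MonoidAlgebra.lift_single]
  rfl

lemma PA_prime {y : ℝ} {p : ℕ} (h : p ∈ PA y) : p.Prime := (mem_filter.1 h).2

lemma PA_le {y : ℝ} {p : ℕ} (h : p ∈ PA y) : p ≤ ⌊y⌋₊ := (mem_Icc.1 (mem_filter.1 h).1).2

lemma fac {S : Finset ℕ} (hS : ∀ p ∈ S, Nat.Prime p) : (∏ p ∈ S, p).primeFactors = S := Nat.primeFactors_prod hS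

lemma fact1 {S : Finset ℕ} (hS : ∀ p ∈ S, Nat.Prime p) (q : ℕ) (hq : q ∈ S) : (∏ p ∈ S, p).factorization q = 1 := by
  rw [Nat.factorization_prod (fun p hp => (hS p hp).ne_zero)]
  rw [Finset.sum_congr rfl fun p hp => (hS p hp).factorization]
  rw [Finsupp.finset_sum_apply]
  rw [Finset.sum_eq_single q]
  · simp
  · intro b _ hb
    simp [Finsupp.single_apply, hb]
  · intro h; exact absurd hq h

lemma len {n : ℕ} (h : ∀ p ∈ n.primeFactors, n.factorization p = 1) : n.primeFactorsList.length = n.primeFactors.card := by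
  rw [← List.sum_toFinset_count_eq_length]
  rw [Finset.card_eq_sum_ones]
  refine Finset.sum_congr rfl fun p hp => ?_
  rw [Nat.primeFactorsList_count_eq]
  exact h p hp

lemma dS_prod {S : Finset ℕ} (hS : ∀ p ∈ S, Nat.Prime p) : dS (-1) (∏ p ∈ S, p) = (-1) ^ S.card := by
  unfold dS
  rw [fac hS]
  rw [Finset.prod_congr rfl fun p hp => by rw [fact1 hS p hp, lCm1]]
  rw [Finset.prod_const]

lemma ec_MB (y : ℝ) (hy : 2 ≤ y) (K : ℕ) (s : ℂ) : GC.ec s (HM.MB 2 y K) = AS (-1) y K s := by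
  classical
  have hfy : 1 ≤ ⌊y⌋₊ := Nat.one_le_floor_iff _ |>.2 (by linarith)
  unfold HM.MB AS
  rw [map_sum, PP_two]
  have h1 : ∀ S ∈ ((PA y).powerset).filter (fun S => S.card ≤ K), ∀ p ∈ S, p ∈ PA y := fun S hS =>
    mem_powerset.1 (mem_filter.1 hS).1
  have h2 : ∀ S ∈ ((PA y).powerset).filter (fun S => S.card ≤ K), ∀ p ∈ S, Nat.Prime p := fun S hS p hp =>
    PA_prime (h1 S hS p hp)
  have hinj : Set.InjOn (fun S : Finset ℕ => ∏ p ∈ S, p) (((PA y).powerset).filter (fun S => S.card ≤ K) : Finset (Finset ℕ)) := by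
    intro S hS T hT h
    have h3 := fac (h2 S hS)
    have h4 := fac (h2 T hT)
    simp only at h
    rw [← h3, h, h4]
  have hL : ∑ S ∈ ((PA y).powerset).filter (fun S => S.card ≤ K), GC.ec s (MonoidAlgebra.single (∏ p ∈ S, p) ((-1 : ℂ) ^ S.card)) =
      ∑ n ∈ (((PA y).powerset).filter (fun S => S.card ≤ K)).image (fun S : Finset ℕ => ∏ p ∈ S, p),
        dS (-1) n * (n:ℂ) ^ (-s) := by
    rw [Finset.sum_image hinj]
    refine Finset.sum_congr rfl fun S hS => ?_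
    rw [ecs, dS_prod (h2 S hS)]
  rw [hL]
  refine Finset.sum_subset ?_ ?_
  · intro n hn
    obtain ⟨S, hS, rfl⟩ := mem_image.1 hn
    have hK : S.card ≤ K := (mem_filter.1 hS).2
    unfold FS
    refine mem_filter.2 ⟨mem_range.2 (Nat.lt_succ_of_le ?_), ?_, ?_, ?_⟩
    · calc ∏ p ∈ S, p ≤ ∏ _p ∈ S, ⌊y⌋₊ := Finset.prod_le_prod' fun p hp => PA_le (h1 S hS p hp)
        _ = ⌊y⌋₊ ^ S.card := Finset.prod_const _
        _ ≤ ⌊y⌋₊ ^ K := Nat.pow_le_pow_right hfy hK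
    · exact Finset.prod_ne_zero_iff.2 fun p hp => (h2 S hS p hp).ne_zero
    · rw [fac (h2 S hS)]
      exact h1 S hS
    · rw [len, fac (h2 S hS)]
      · exact hK
      · rw [fac (h2 S hS)]
        exact fact1 (h2 S hS)
  · intro n hn hn2
    obtain ⟨hn0, hn1, hnK⟩ := (mem_filter.1 hn).2
    by_cases hsq : ∀ p ∈ n.primeFactors, n.factorization p = 1
    · exfalso
      refine hn2 (mem_image.2 ⟨n.primeFactors, mem_filter.2 ⟨mem_powerset.2 hn1, ?_⟩, ?_⟩)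
      · rw [← len hsq]; exact hnK
      · have h5 := Nat.prod_factorization_pow_eq_self hn0
        rw [Finsupp.prod, Nat.support_factorization] at h5
        rw [Finset.prod_congr rfl fun p hp => by rw [hsq p hp, pow_one]] at h5
        exact h5
    · push Not at hsq
      obtain ⟨p, hp, hp2⟩ := hsq
      have h6 : 1 ≤ n.factorization p := by
        have := (Nat.support_factorization n).symm ▸ hp
        exact Nat.one_le_iff_ne_zero.2 (Finsupp.mem_support_iff.1 this)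
      have h7 : dS (-1) n = 0 := by
        unfold dS
        refine Finset.prod_eq_zero hp (lCm2 _ (by omega))
      rw [h7, zero_mul]

lemma ez (y : ℝ) (hy : 2 ≤ y) (K : ℕ) (s : ℂ) : HM.Ez 2 y K s = riemannZeta s * AS (-1) y K s - 1 := by
  unfold HM.Ez
  have h1 : GC.Sm 2 = ∅ := by decide
  rw [h1, Finset.prod_empty, mul_one, ec_MB y hy]

theorem zm2 : S_ZM2 := by
  intro D hD
  obtain ⟨a, b, ha, hb, h⟩ := HM.ZM3.main HM.ZM1.main HM.ZM2.main D hD
  obtain ⟨lam, δ0, hδ0, hδ1, h⟩ := h 2 le_rfl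
  refine ⟨a, b, ha, hb, lam, δ0, hδ0, hδ1, ?_⟩
  filter_upwards [h] with X hX δ hδ hδ2 hl y K hy hay hbK hK
  have h2 := hX δ hδ hδ2 hl y K (by exact_mod_cast hy) hay hbK hK δ (by linarith) (by linarith)
  have h3 : (fun t : ℝ => ‖HM.Ez 2 y K (1 / 2 + δ + t * I)‖ ^ 2) =
      fun t : ℝ => ‖riemannZeta (pw δ t) * AS (-1) y K (pw δ t) - 1‖ ^ 2 := by
    funext t
    rw [ez y hy]
    rfl
  rw [h3] at h2
  exact h2

theorem xsa : S_XSA := by
  intro D hD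
  obtain ⟨a, b, ha, hb, δ0, hδ0, hδ1, h⟩ := HM.XS2.main HM.SUP.main D hD
  refine ⟨a, b, ha, hb, δ0, hδ0, hδ1, ?_⟩
  filter_upwards [h, eventually_ge_atTop 0] with X hX hX0 δ hδ hδ2 y hy hy2 hX3
  have h2 := hX δ hδ hδ2 2 y le_rfl (by exact_mod_cast hy) hy2 hX3 0 le_rfl (Real.rpow_nonneg hX0 _)
  have h3 : {t : ℝ | X ^ ((9:ℝ) / 10) + 1 ≤ t ∧ t ≤ X ∧ a * Real.log (1 / δ) < ‖∑ p ∈ PA y, (p:ℂ) ^ (-(pw δ t))‖} ⊆
      {t : ℝ | X ^ ((9:ℝ) / 10) + 1 ≤ t ∧ t ≤ X ∧ ∃ u : ℝ, t ≤ u ∧ u ≤ t + 0 ∧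
        a * Real.log (1 / δ) < ‖GC.ec (1 / 2 + δ + u * I) (GC.xc (HM.PP 2 y))‖} := by
    rintro t ⟨ht1, ht2, ht3⟩
    refine ⟨ht1, ht2, t, le_rfl, by linarith, ?_⟩
    have h4 : GC.ec (1 / 2 + δ + t * I) (GC.xc (HM.PP 2 y)) = ∑ p ∈ PA y, (p:ℂ) ^ (-(pw δ t)) := by
      unfold GC.xc
      rw [map_sum, PP_two]
      refine Finset.sum_congr rfl fun p _ => ?_
      rw [ecs, one_mul]
      rfl
    rw [h4]
    exact ht3
  refine (measure_mono h3).trans (h2.trans (le_of_eq ?_))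
  congr 1
  ring

theorem mea : S_MEA := by
  obtain ⟨C, hC, h⟩ := GC.COS.mer
  have hl2 : 0 < Real.log 2 := Real.log_pos (by norm_num)
  refine ⟨C / Real.log 2 + |Real.log (Real.log 2)| + 1, by positivity, fun y hy => ?_⟩
  have h1 := h 2 y le_rfl (by push_cast; linarith)
  have hly : 0 < Real.log y := Real.log_pos (by linarith)
  have h2 : ∑ p ∈ PA y, 1 / (p:ℝ) = ∑ p ∈ (Icc 2 ⌊y⌋₊).filter Nat.Prime, 1 / (p:ℝ) := rfl
  rw [h2]
  have h3 := (abs_le.1 h1).2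
  have h4 : Real.log (Real.log y / Real.log ((2:ℕ):ℝ)) = Real.log (Real.log y) - Real.log (Real.log 2) := by
    rw [Real.log_div hly.ne' (by push_cast; exact hl2.ne')]
    push_cast
    rfl
  rw [h4] at h3
  have h5 : -|Real.log (Real.log 2)| ≤ Real.log (Real.log 2) := neg_abs_le _
  have h6 : C / Real.log ((2:ℕ):ℝ) = C / Real.log 2 := by norm_num
  rw [h6] at h3
  linarith

end Pool.Agent.N748.MG.Inp
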