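import Pool.Agent.N748.MG.Stm

set_option autoImplicit false

/-!
# The fourth moments of the polynomials (helper130)
-/

namespace Pool.Agent.N748.MG.L4

open Finset Filter MeasureTheory Topology Complex

/-! ### multiplicative functions -/

/-- the multiplicative function with the values `g m` at `p^m` -/
noncomputable def mf {R : Type*} [CommMonoid R] (g : ℕ → R) (n : ℕ) : R :=
  ∏ p ∈ n.primeFactors, g (n.factorization p)

theorem mf_one {R : Type*} [CommMonoid R] (g : ℕ → R) : mf g 1 = 1 := by simp [mf]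

theorem mf_zero {R : Type*} [CommMonoid R] (g : ℕ → R) : mf g 0 = 1 := by simp [mf]

theorem mf_mul {R : Type*} [CommMonoid R] (g : ℕ → R) {m n : ℕ} (h : Nat.Coprime m n) :
    mf g (m * n) = mf g m * mf g n := by
  unfold mf
  rw [Nat.Coprime.primeFactors_mul h, Finset.prod_union h.disjoint_primeFactors]
  congr 1
  · refine Finset.prod_congr rfl fun p hp => ?_
    rw [Nat.factorization_eq_of_coprime_left h (Nat.mem_primeFactors_iff_mem_primeFactorsList.1 hp)]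
  · refine Finset.prod_congr rfl fun p hp => ?_
    rw [Nat.factorization_eq_of_coprime_right h (Nat.mem_primeFactors_iff_mem_primeFactorsList.1 hp)]

theorem mf_prime_pow {R : Type*} [CommMonoid R] (g : ℕ → R) (g0 : g 0 = 1) {p : ℕ} (hp : p.Prime)
    (m : ℕ) : mf g (p ^ m) = g m := by
  unfold mf
  rcases Nat.eq_zero_or_pos m with rfl | hm
  · simp [g0]
  · rw [Nat.primeFactors_prime_pow hm.ne' hp, Finset.prod_singleton, hp.factorization_pow]
    simp

theorem mf_nonneg (g : ℕ → ℝ) (hg : ∀ m, 0 ≤ g m) (n : ℕ) : 0 ≤ mf g n :=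
  Finset.prod_nonneg fun _ _ => hg _

/-! ### the sum of `n ^ (-σ)` -/

theorem term_le {a x : ℝ} (ha : 0 < a) (hx : 1 < x) :
    a * x ^ (-(1 + a)) ≤ (x - 1) ^ (-a) - x ^ (-a) := by
  have hx0 : 0 < x := by linarith
  have h1 : 0 < 1 - 1 / x := by
    rw [sub_pos, div_lt_one hx0]; exact hx
  have h2 : x - 1 = x * (1 - 1 / x) := by field_simp
  have h3 : (x - 1) ^ (-a) = x ^ (-a) * (1 - 1 / x) ^ (-a) := by
    rw [h2, Real.mul_rpow hx0.le h1.le]
  have h4 : 1 + a / x ≤ (1 - 1 / x) ^ (-a) := by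
    rw [Real.rpow_def_of_pos h1]
    have h5 := Real.log_le_sub_one_of_pos h1
    have h6 := Real.add_one_le_exp (Real.log (1 - 1 / x) * -a)
    have h7 : a / x ≤ Real.log (1 - 1 / x) * -a := by
      have : a / x = -a * (1 - 1 / x - 1) := by field_simp; ring
      rw [this]
      nlinarith
    linarith
  have h8 : x ^ (-(1 + a)) = x ^ (-a) / x := by
    rw [show -(1 + a) = -a - 1 by ring, Real.rpow_sub_one hx0.ne']
  rw [h3, h8]
  have h9 : 0 < x ^ (-a) := Real.rpow_pos_of_pos hx0 _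
  have h10 : x ^ (-a) * (1 + a / x) ≤ x ^ (-a) * (1 - 1 / x) ^ (-a) :=
    mul_le_mul_of_nonneg_left h4 h9.le
  have h11 : a * (x ^ (-a) / x) = x ^ (-a) * (1 + a / x) - x ^ (-a) := by ring
  rw [h11]
  linarith

theorem sum_range_le {a : ℝ} (ha : 0 < a) (M : ℕ) :
    ∑ n ∈ range (M + 2), (n : ℝ) ^ (-(1 + a)) ≤ 1 + (1 - ((M : ℝ) + 1) ^ (-a)) / a := by
  induction M with
  | zero =>
    rw [Finset.sum_range_succ, Finset.sum_range_succ, Finset.sum_range_zero]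
    have h1 : ((0 : ℕ) : ℝ) ^ (-(1 + a)) = 0 := by
      rw [Nat.cast_zero, Real.zero_rpow (by linarith)]
    rw [h1]
    simp
  | succ M ih =>
    rw [Finset.sum_range_succ]
    have hM : (0 : ℝ) ≤ M := Nat.cast_nonneg _
    have h1 := term_le ha (show (1 : ℝ) < (M : ℝ) + 2 by linarith)
    have h2 : ((M + 2 : ℕ) : ℝ) = (M : ℝ) + 2 := by push_cast; ring
    have h3 : (((M + 1 : ℕ) : ℝ) + 1) = (M : ℝ) + 2 := by push_cast; ring
    have h4 : (M : ℝ) + 2 - 1 = (M : ℝ) + 1 := by ring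
    rw [h4] at h1
    rw [h2, h3]
    have h5 : ((M : ℝ) + 2) ^ (-(1 + a)) ≤ (((M : ℝ) + 1) ^ (-a) - ((M : ℝ) + 2) ^ (-a)) / a := by
      rw [le_div_iff₀ ha]; linarith
    have h6 : 1 + (1 - ((M : ℝ) + 2) ^ (-a)) / a = 1 + (1 - ((M : ℝ) + 1) ^ (-a)) / a +
        (((M : ℝ) + 1) ^ (-a) - ((M : ℝ) + 2) ^ (-a)) / a := by
      field_simp; ring
    rw [h6]
    linarith

theorem tsum_le {a : ℝ} (ha : 0 < a) : ∑' n : ℕ, (n : ℝ) ^ (-(1 + a)) ≤ 1 + 1 / a := by
  apply Real.tsum_le_of_sum_range_le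
  · intro n
    exact Real.rpow_nonneg (Nat.cast_nonneg _) _
  · intro M
    have h0 : ∀ n ∈ range (M + 2), n ∉ range M → 0 ≤ (n : ℝ) ^ (-(1 + a)) := fun n _ _ =>
      Real.rpow_nonneg (Nat.cast_nonneg _) _
    have h1 : ∑ n ∈ range M, (n : ℝ) ^ (-(1 + a)) ≤ ∑ n ∈ range (M + 2), (n : ℝ) ^ (-(1 + a)) :=
      Finset.sum_le_sum_of_subset_of_nonneg (Finset.range_subset_range.2 (by omega)) h0
    refine h1.trans ((sum_range_le ha M).trans ?_)
    have h2 : 0 ≤ ((M : ℝ) + 1) ^ (-a) := Real.rpow_nonneg (by positivity) _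
    have h3 : (1 - ((M : ℝ) + 1) ^ (-a)) / a ≤ 1 / a :=
      div_le_div_of_nonneg_right (by linarith) ha.le
    linarith

theorem summ {a : ℝ} (ha : 0 < a) : Summable fun n : ℕ => (n : ℝ) ^ (-(1 + a)) :=
  Real.summable_nat_rpow.2 (by linarith)

/-- the powers as a homomorphism -/
noncomputable def ph (σ : ℝ) : ℕ →* ℝ where
  toFun n := (n : ℝ) ^ (-σ)
  map_one' := by simp
  map_mul' m n := by
    push_cast
    exact Real.mul_rpow (Nat.cast_nonneg _) (Nat.cast_nonneg _)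

theorem ph_apply (σ : ℝ) (n : ℕ) : ph σ n = (n : ℝ) ^ (-σ) := rfl

theorem ph_pos (σ : ℝ) {p : ℕ} (hp : p.Prime) : 0 < ph σ p :=
  Real.rpow_pos_of_pos (by exact_mod_cast hp.pos) _

theorem ph_le_inv {σ : ℝ} (hσ : 1 ≤ σ) {p : ℕ} (hp : p.Prime) : ph σ p ≤ (p : ℝ)⁻¹ := by
  rw [ph_apply, ← Real.rpow_neg_one]
  apply Real.rpow_le_rpow_of_exponent_le
  · exact_mod_cast hp.one_le
  · linarith

theorem ph_le_half {σ : ℝ} (hσ : 1 ≤ σ) {p : ℕ} (hp : p.Prime) : ph σ p ≤ 1 / 2 := by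
  refine (ph_le_inv hσ hp).trans ?_
  rw [one_div]
  apply inv_anti₀ (by norm_num)
  exact_mod_cast hp.two_le

/-- the sum over the primes -/
theorem exp_sum_le {a : ℝ} (ha : 0 < a) (N : ℕ) :
    Real.exp (∑ p ∈ N.primesBelow, ph (1 + a) p) ≤ 1 + 1 / a := by
  have hlt : ∀ {p : ℕ}, p.Prime → ‖ph (1 + a) p‖ < 1 := by
    intro p hp
    rw [Real.norm_of_nonneg (ph_pos _ hp).le]
    have := ph_le_half (σ := 1 + a) (by linarith) hp
    linarith
  have h1 := (EulerProduct.summable_and_hasSum_smoothNumbers_prod_primesBelow_geometric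
    (f := ph (1 + a)) hlt N).2
  have h2 : HasSum (Set.indicator (N.smoothNumbers : Set ℕ) (fun n => ph (1 + a) n))
      (∏ p ∈ N.primesBelow, (1 - ph (1 + a) p)⁻¹) :=
    (hasSum_subtype_iff_indicator (f := fun n : ℕ => ph (1 + a) n)).1 h1
  have h3 : ∏ p ∈ N.primesBelow, (1 - ph (1 + a) p)⁻¹ ≤ ∑' n : ℕ, (n : ℝ) ^ (-(1 + a)) := by
    refine hasSum_le ?_ h2 (summ ha).hasSum
    intro n
    have h4 : 0 ≤ (n : ℝ) ^ (-(1 + a)) := Real.rpow_nonneg (Nat.cast_nonneg _) _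
    exact Set.indicator_le_self' (fun _ _ => h4) n
  rw [Real.exp_sum]
  calc ∏ p ∈ N.primesBelow, Real.exp (ph (1 + a) p)
      ≤ ∏ p ∈ N.primesBelow, (1 - ph (1 + a) p)⁻¹ := by
        apply Finset.prod_le_prod (fun _ _ => (Real.exp_pos _).le)
        intro p hp
        have hpp := Nat.prime_of_mem_primesBelow hp
        have h5 := ph_le_half (σ := 1 + a) (by linarith) hpp
        have h6 := Real.add_one_le_exp (-(ph (1 + a) p))
        rw [← inv_inv (Real.exp _), ← Real.exp_neg]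
        exact inv_anti₀ (by linarith) (by linarith)
    _ ≤ _ := h3.trans (tsum_le ha)

/-- bound for the sum of a multiplicative function with polynomially bounded values at the powers of the primes -/
theorem sum_mf_le (g : ℕ → ℝ) (g0 : g 0 = 1) (gnn : ∀ m, 0 ≤ g m)
    (hs : Summable (fun m => g (m+1) * (1 / 2 : ℝ) ^ m)) {a : ℝ} (ha : 0 < a) (u : Finset ℕ) :
    ∑ n ∈ u, mf g n * (n : ℝ) ^ (-(1 + a)) ≤ (1 + 1 / a) ^ (∑' m, g (m+1) * (1 / 2 : ℝ) ^ m) := by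
  set Cg : ℝ := ∑' m, g (m+1) * (1 / 2 : ℝ) ^ m with hCg
  have hCg0 : 0 ≤ Cg := tsum_nonneg fun m => by have := gnn (m+1); positivity
  set f : ℕ → ℝ := fun n => mf g n * (n : ℝ) ^ (-(1 + a)) with hf
  have hfnn : ∀ n, 0 ≤ f n := fun n => mul_nonneg (mf_nonneg g gnn n) (Real.rpow_nonneg (Nat.cast_nonneg _) _)
  have hf0 : f 0 = 0 := by
    rw [hf]
    simp only
    rw [Nat.cast_zero, Real.zero_rpow (by linarith), mul_zero]
  have hf1 : f 1 = 1 := by
    rw [hf]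
    simp only
    rw [mf_one]; simp
  have hmul : ∀ {m n : ℕ}, Nat.Coprime m n → f (m * n) = f m * f n := by
    intro m n h
    rw [hf]
    simp only
    rw [mf_mul g h]
    push_cast
    rw [Real.mul_rpow (Nat.cast_nonneg _) (Nat.cast_nonneg _)]
    ring
  have hpow : ∀ {p : ℕ}, p.Prime → ∀ m : ℕ, f (p ^ m) = g m * (ph (1 + a) p) ^ m := by
    intro p hp m
    rw [hf]
    simp only
    rw [mf_prime_pow g g0 hp, ← map_pow]
    rfl
  have hbd : ∀ {p : ℕ}, p.Prime → ∀ m : ℕ, f (p ^ (m+1)) ≤ ph (1 + a) p * (g (m+1) * (1 / 2 : ℝ) ^ m) := by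
    intro p hp m
    rw [hpow hp, pow_succ]
    have h1 : (ph (1 + a) p) ^ m ≤ (1 / 2 : ℝ) ^ m :=
      pow_le_pow_left₀ (ph_pos _ hp).le (ph_le_half (by linarith) hp) m
    have h2 := gnn (m+1)
    have h3 := (ph_pos (1 + a) hp).le
    calc g (m+1) * ((ph (1 + a) p) ^ m * ph (1 + a) p)
        ≤ g (m+1) * ((1 / 2 : ℝ) ^ m * ph (1 + a) p) := by gcongr
      _ = _ := by ring
  have hsum1 : ∀ {p : ℕ}, p.Prime → Summable (fun m : ℕ => f (p ^ (m+1))) := by
    intro p hp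
    exact Summable.of_nonneg_of_le (fun m => hfnn _) (fun m => hbd hp m) (hs.mul_left _)
  have hsum : ∀ {p : ℕ}, p.Prime → Summable (fun m : ℕ => ‖f (p ^ m)‖) := by
    intro p hp
    have h1 : Summable (fun m : ℕ => f (p ^ m)) :=
      (summable_nat_add_iff (f := fun m : ℕ => f (p ^ m)) 1).1 (hsum1 hp)
    exact h1.norm
  set N : ℕ := u.sup id + 1 with hN
  have h1 := (EulerProduct.summable_and_hasSum_smoothNumbers_prod_primesBelow_tsum hf1 hmul hsum N).2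
  have h2 : HasSum (Set.indicator (N.smoothNumbers : Set ℕ) f)
      (∏ p ∈ N.primesBelow, ∑' m : ℕ, f (p ^ m)) :=
    (hasSum_subtype_iff_indicator (f := f)).1 h1
  have h3 : ∑ n ∈ u, f n ≤ ∏ p ∈ N.primesBelow, ∑' m : ℕ, f (p ^ m) := by
    have h4 : ∑ n ∈ u, f n = ∑ n ∈ u, Set.indicator (N.smoothNumbers : Set ℕ) f n := by
      refine Finset.sum_congr rfl fun n hn => ?_
      by_cases hn0 : n = 0
      · rw [hn0, hf0]
        rw [Set.indicator_of_notMem]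
        intro h
        exact (Nat.mem_smoothNumbers.1 h).1 rfl
      · rw [Set.indicator_of_mem]
        rw [Nat.mem_smoothNumbers]
        refine ⟨hn0, fun p hp => ?_⟩
        have h5 : n ≤ u.sup id := Finset.le_sup (f := id) hn
        have h6 := Nat.le_of_mem_primeFactorsList hp
        omega
    rw [h4]
    refine sum_le_hasSum u (fun n _ => ?_) h2
    exact Set.indicator_nonneg (fun n _ => hfnn n) n
  refine h3.trans ?_
  have h7 : ∀ p ∈ N.primesBelow, ∑' m : ℕ, f (p ^ m) ≤ Real.exp (Cg * ph (1 + a) p) := by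
    intro p hp
    have hpp := Nat.prime_of_mem_primesBelow hp
    have h8 : Summable (fun m : ℕ => f (p ^ m)) :=
      (summable_nat_add_iff (f := fun m : ℕ => f (p ^ m)) 1).1 (hsum1 hpp)
    rw [h8.tsum_eq_zero_add, pow_zero, hf1]
    have h9 : ∑' m : ℕ, f (p ^ (m+1)) ≤ ph (1 + a) p * Cg := by
      rw [hCg, ← tsum_mul_left]
      exact (hsum1 hpp).tsum_le_tsum (fun m => hbd hpp m) (hs.mul_left _)
    have h10 := Real.add_one_le_exp (Cg * ph (1 + a) p)
    linarith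
  calc ∏ p ∈ N.primesBelow, ∑' m : ℕ, f (p ^ m)
      ≤ ∏ p ∈ N.primesBelow, Real.exp (Cg * ph (1 + a) p) :=
        Finset.prod_le_prod (fun p _ => tsum_nonneg fun m => hfnn _) h7
    _ = (Real.exp (∑ p ∈ N.primesBelow, ph (1 + a) p)) ^ Cg := by
        rw [← Real.exp_sum, ← Finset.mul_sum, ← Real.exp_mul, mul_comm]
    _ ≤ _ := Real.rpow_le_rpow (Real.exp_pos _).le (exp_sum_le ha N) hCg0

/-! ### the coefficients -/

/-- the coefficients of `(1-x)^(-k)` -/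
noncomputable def B (k m : ℕ) : ℝ := ∏ i ∈ range m, ((k : ℝ) + i) / (i + 1)

theorem B_zero (k : ℕ) : B k 0 = 1 := by simp [B]

theorem B_succ (k m : ℕ) : B k (m+1) = B k m * (((k : ℝ) + m) / (m + 1)) := by
  unfold B
  rw [Finset.prod_range_succ]

theorem B_nonneg (k m : ℕ) : 0 ≤ B k m := Finset.prod_nonneg fun i _ => by positivity

theorem B_one_le (k : ℕ) (hk : 1 ≤ k) (m : ℕ) : 1 ≤ B k m := by
  induction m with
  | zero => rw [B_zero]
  | succ m ih =>
    rw [B_succ]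
    have hk' : (1 : ℝ) ≤ k := by exact_mod_cast hk
    have h1 : 1 ≤ ((k : ℝ) + m) / (m + 1) := by
      rw [le_div_iff₀ (by positivity)]; linarith
    nlinarith

theorem B_mono (k : ℕ) (hk : 1 ≤ k) : Monotone (B k) := by
  apply monotone_nat_of_le_succ
  intro m
  rw [B_succ]
  have hk' : (1 : ℝ) ≤ k := by exact_mod_cast hk
  have h1 : 1 ≤ ((k : ℝ) + m) / (m + 1) := by
    rw [le_div_iff₀ (by positivity)]; linarith
  have := B_nonneg k m
  nlinarith

theorem B_le (k m : ℕ) : B k m ≤ ((m : ℝ) + 1) ^ k := by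
  induction m with
  | zero => rw [B_zero]; simp
  | succ m ih =>
    rw [B_succ]
    have hm : (0 : ℝ) < (m : ℝ) + 1 := by positivity
    have h1 : ((k : ℝ) + m) / (m + 1) ≤ (1 + 1 / ((m : ℝ) + 1)) ^ k := by
      have h2 := one_add_mul_le_pow (a := 1 / ((m : ℝ) + 1)) (by
        have : 0 ≤ 1 / ((m : ℝ) + 1) := by positivity
        linarith) k
      refine le_trans ?_ h2
      rw [div_le_iff₀ hm]
      field_simp
      linarith
    have h3 : ((m : ℝ) + 1) ^ k * (1 + 1 / ((m : ℝ) + 1)) ^ k = (((m + 1 : ℕ) : ℝ) + 1) ^ k := by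
      rw [← mul_pow]
      congr 1
      push_cast
      field_simp
    rw [← h3]
    apply mul_le_mul ih h1 (by positivity) (by positivity)

theorem norm_lC (s : ℂ) (k : ℕ) (hs : ‖s‖ ≤ k) (m : ℕ) : ‖lC s m‖ ≤ B k m := by
  unfold lC B
  rw [norm_prod]
  apply Finset.prod_le_prod (fun _ _ => norm_nonneg _)
  intro i _
  rw [norm_div]
  have h1 : ‖(i : ℂ) + 1‖ = (i : ℝ) + 1 := by
    have : (i : ℂ) + 1 = ((i + 1 : ℕ) : ℂ) := by push_cast; ring
    rw [this, Complex.norm_natCast]; push_cast; ring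
  have h2 : ‖s + i‖ ≤ k + i := (norm_add_le _ _).trans (by rw [Complex.norm_natCast]; linarith)
  rw [h1]
  gcongr

theorem dS_eq (s : ℂ) (n : ℕ) : dS s n = mf (lC s) n := rfl

theorem norm_dS (s : ℂ) (k : ℕ) (hs : ‖s‖ ≤ k) (n : ℕ) : ‖dS s n‖ ≤ mf (B k) n := by
  unfold dS mf
  rw [norm_prod]
  exact Finset.prod_le_prod (fun _ _ => norm_nonneg _) fun p _ => norm_lC s k hs _

theorem mfB_dvd (k : ℕ) (hk : 1 ≤ k) {a n : ℕ} (h : a ∣ n) (hn : n ≠ 0) : mf (B k) a ≤ mf (B k) n := by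
  have ha : a ≠ 0 := fun h' => hn (Nat.eq_zero_of_zero_dvd (h' ▸ h))
  unfold mf
  calc ∏ p ∈ a.primeFactors, B k (a.factorization p) ≤ ∏ p ∈ a.primeFactors, B k (n.factorization p) := by
        apply Finset.prod_le_prod (fun _ _ => B_nonneg _ _)
        intro p _
        exact B_mono k hk ((Nat.factorization_le_iff_dvd ha hn).2 h p)
    _ ≤ _ := by
        rw [← Finset.prod_sdiff (Nat.primeFactors_mono h hn)]
        have h1 : (1 : ℝ) ≤ ∏ p ∈ n.primeFactors \ a.primeFactors, B k (n.factorization p) := by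
          calc (1 : ℝ) = ∏ p ∈ n.primeFactors \ a.primeFactors, (1 : ℝ) := by simp
            _ ≤ _ := Finset.prod_le_prod (fun _ _ => zero_le_one) fun p _ => B_one_le k hk _
        have h2 : 0 ≤ ∏ p ∈ a.primeFactors, B k (n.factorization p) :=
          Finset.prod_nonneg fun _ _ => B_nonneg _ _
        nlinarith

/-- summability -/
theorem summ_poly (g : ℕ → ℝ) (gnn : ∀ m, 0 ≤ g m) (j : ℕ) (hg : ∀ m : ℕ, g m ≤ ((m : ℝ) + 1) ^ j) :
    Summable (fun m => g (m+1) * (1 / 2 : ℝ) ^ m) := by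
  have h1 : Summable (fun n : ℕ => (n : ℝ) ^ j * (1 / 2 : ℝ) ^ n) :=
    summable_pow_mul_geometric_of_norm_lt_one j (by norm_num)
  have h2 : Summable (fun n : ℕ => (((n + 2 : ℕ) : ℝ) ^ j * (1 / 2 : ℝ) ^ (n + 2))) :=
    (summable_nat_add_iff (f := fun n : ℕ => (n : ℝ) ^ j * (1 / 2 : ℝ) ^ n) 2).2 h1
  refine Summable.of_nonneg_of_le (fun m => ?_) (fun m => ?_) (h2.mul_left 4)
  · have := gnn (m+1)
    positivity
  · have h3 := hg (m+1)
    have h4 : ((m + 1 : ℕ) : ℝ) + 1 = ((m + 2 : ℕ) : ℝ) := by push_cast; ring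
    rw [h4] at h3
    calc g (m+1) * (1 / 2 : ℝ) ^ m ≤ ((m + 2 : ℕ) : ℝ) ^ j * (1 / 2 : ℝ) ^ m :=
          mul_le_mul_of_nonneg_right h3 (by positivity)
      _ = _ := by rw [pow_add (1 / 2 : ℝ) m 2]; ring

/-! ### the square of the polynomial -/

/-- the pairs -/
noncomputable def QQp (y : ℝ) (K : ℕ) : Finset (ℕ × ℕ) := FS y K ×ˢ FS y K

/-- the support of the square -/
noncomputable def F2 (y : ℝ) (K : ℕ) : Finset ℕ := (QQp y K).image fun q => q.1 * q.2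

/-- the coefficients of the square -/
noncomputable def cc (s : ℂ) (y : ℝ) (K : ℕ) (n : ℕ) : ℂ :=
  ∑ q ∈ QQp y K with q.1 * q.2 = n, dS s q.1 * dS s q.2

theorem FS_ne {y : ℝ} {K n : ℕ} (h : n ∈ FS y K) : n ≠ 0 := by
  unfold FS at h
  exact (Finset.mem_filter.1 h).2.1

theorem F2_ne {y : ℝ} {K n : ℕ} (h : n ∈ F2 y K) : n ≠ 0 := by
  unfold F2 QQp at h
  obtain ⟨q, hq, rfl⟩ := Finset.mem_image.1 h
  obtain ⟨h1, h2⟩ := Finset.mem_product.1 hq
  exact mul_ne_zero (FS_ne h1) (FS_ne h2)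

theorem AS_sq (s : ℂ) (y : ℝ) (K : ℕ) (w : ℂ) :
    AS s y K w ^ 2 = ∑ n ∈ F2 y K, cc s y K n * (n : ℂ) ^ (-w) := by
  classical
  unfold AS
  rw [sq, Finset.sum_mul_sum, ← Finset.sum_product']
  have h1 : ∀ q ∈ QQp y K, (fun q : ℕ × ℕ => q.1 * q.2) q ∈ F2 y K := fun q hq =>
    Finset.mem_image_of_mem _ hq
  have h2 := Finset.sum_fiberwise_of_maps_to h1
    (fun q : ℕ × ℕ => dS s q.1 * (q.1 : ℂ) ^ (-w) * (dS s q.2 * (q.2 : ℂ) ^ (-w)))
  have h3 : ∑ q ∈ FS y K ×ˢ FS y K, dS s q.1 * (q.1 : ℂ) ^ (-w) * (dS s q.2 * (q.2 : ℂ) ^ (-w)) =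
    ∑ q ∈ QQp y K, dS s q.1 * (q.1 : ℂ) ^ (-w) * (dS s q.2 * (q.2 : ℂ) ^ (-w)) := rfl
  rw [h3, ← h2]
  refine Finset.sum_congr rfl fun n _ => ?_
  unfold cc
  rw [Finset.sum_mul]
  refine Finset.sum_congr rfl fun q hq => ?_
  have h4 : q.1 * q.2 = n := (Finset.mem_filter.1 hq).2
  have h5 : (n : ℂ) ^ (-w) = (q.1 : ℂ) ^ (-w) * (q.2 : ℂ) ^ (-w) := by
    rw [← natCast_mul_natCast_cpow, ← h4]
    push_cast
    rfl
  rw [h5]
  ring

theorem sum_cc_le (s : ℂ) (y : ℝ) (K : ℕ) :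
    ∑ n ∈ F2 y K, ‖cc s y K n‖ ≤ (∑ n ∈ FS y K, ‖dS s n‖) ^ 2 := by
  classical
  have h1 : ∀ q ∈ QQp y K, (fun q : ℕ × ℕ => q.1 * q.2) q ∈ F2 y K := fun q hq =>
    Finset.mem_image_of_mem _ hq
  have h2 := Finset.sum_fiberwise_of_maps_to h1 (fun q : ℕ × ℕ => ‖dS s q.1‖ * ‖dS s q.2‖)
  have h3 : ∑ q ∈ QQp y K, ‖dS s q.1‖ * ‖dS s q.2‖ = (∑ n ∈ FS y K, ‖dS s n‖) ^ 2 := by
    rw [sq, Finset.sum_mul_sum, ← Finset.sum_product']
    rfl
  rw [← h3, ← h2]
  refine Finset.sum_le_sum fun n _ => ?_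
  unfold cc
  refine (norm_sum_le _ _).trans (Finset.sum_le_sum fun q _ => ?_)
  rw [norm_mul]

/-- the multiplicative bound -/
noncomputable def gg (k m : ℕ) : ℝ := ((m : ℝ) + 1) ^ 2 * B k m ^ 4

theorem gg_zero (k : ℕ) : gg k 0 = 1 := by unfold gg; rw [B_zero]; simp

theorem gg_nonneg (k m : ℕ) : 0 ≤ gg k m := by
  unfold gg
  have := B_nonneg k m
  positivity

theorem gg_le (k m : ℕ) : gg k m ≤ ((m : ℝ) + 1) ^ (2 + 4 * k) := by
  unfold gg
  have h1 : B k m ^ 4 ≤ (((m : ℝ) + 1) ^ k) ^ 4 := pow_le_pow_left₀ (B_nonneg _ _) (B_le k m) 4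
  calc ((m : ℝ) + 1) ^ 2 * B k m ^ 4 ≤ ((m : ℝ) + 1) ^ 2 * (((m : ℝ) + 1) ^ k) ^ 4 :=
        mul_le_mul_of_nonneg_left h1 (by positivity)
    _ = _ := by rw [← pow_mul, ← pow_add]; congr 1; ring

theorem norm_cc_sq (s : ℂ) (k : ℕ) (hk : 1 ≤ k) (hs : ‖s‖ ≤ k) (y : ℝ) (K : ℕ) {n : ℕ} (hn : n ≠ 0) :
    ‖cc s y K n‖ ^ 2 ≤ mf (gg k) n := by
  classical
  have h1 : ‖cc s y K n‖ ≤ n.divisors.card * mf (B k) n ^ 2 := by
    unfold cc
    calc ‖∑ q ∈ QQp y K with q.1 * q.2 = n, dS s q.1 * dS s q.2‖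
        ≤ ∑ q ∈ QQp y K with q.1 * q.2 = n, ‖dS s q.1 * dS s q.2‖ := norm_sum_le _ _
      _ ≤ ∑ q ∈ QQp y K with q.1 * q.2 = n, mf (B k) n ^ 2 := by
          refine Finset.sum_le_sum fun q hq => ?_
          have h2 : q.1 * q.2 = n := (Finset.mem_filter.1 hq).2
          rw [norm_mul, sq]
          have h3 := (norm_dS s k hs q.1).trans (mfB_dvd k hk (Dvd.intro _ h2) hn)
          have h4 := (norm_dS s k hs q.2).trans (mfB_dvd k hk (Dvd.intro_left _ h2) hn)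
          exact mul_le_mul h3 h4 (norm_nonneg _) (mf_nonneg _ (B_nonneg k) _)
      _ = (((QQp y K).filter fun q => q.1 * q.2 = n).card : ℝ) * mf (B k) n ^ 2 := by
          rw [Finset.sum_const, nsmul_eq_mul]
      _ ≤ _ := by
          apply mul_le_mul_of_nonneg_right _ (by positivity)
          have h6 : ((QQp y K).filter fun q => q.1 * q.2 = n).card ≤ n.divisors.card := by
            apply Finset.card_le_card_of_injOn (fun q : ℕ × ℕ => q.1)
            · intro q hq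
              have h5 : q.1 * q.2 = n := (Finset.mem_filter.1 hq).2
              exact Nat.mem_divisors.2 ⟨Dvd.intro _ h5, hn⟩
            · intro q hq q' hq' h
              have h5 : q.1 * q.2 = n := (Finset.mem_filter.1 hq).2
              have h5' : q'.1 * q'.2 = n := (Finset.mem_filter.1 hq').2
              have h7 : q.1 = q'.1 := h
              have h8 : q.1 ≠ 0 := by
                intro h0
                rw [h0, zero_mul] at h5
                exact hn h5.symm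
              rw [← h7, ← h5] at h5'
              exact Prod.ext h7 (Nat.eq_of_mul_eq_mul_left (Nat.pos_of_ne_zero h8) h5'.symm)
          exact_mod_cast h6
  have h2 : ((n.divisors.card : ℝ) * mf (B k) n ^ 2) ^ 2 = mf (gg k) n := by
    rw [Nat.card_divisors hn]
    unfold mf gg
    push_cast
    rw [Finset.prod_mul_distrib, Finset.prod_pow, Finset.prod_pow]
    ring
  rw [← h2]
  exact pow_le_pow_left₀ (norm_nonneg _) h1 2

/-- (L4) the fourth moments -/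
theorem main (hV : S_MVS) (hS : S_SIZ) : S_L4 := by
  intro R hR
  obtain ⟨k, hk⟩ := exists_nat_ge (max R 1)
  have hkR : R ≤ k := (le_max_left _ _).trans hk
  have hk1 : 1 ≤ k := by exact_mod_cast (le_max_right _ _).trans hk
  obtain ⟨C1, hC1, hsiz⟩ := hS R hR
  set Cg : ℝ := ∑' m, gg k (m+1) * (1 / 2 : ℝ) ^ m with hCg
  have hCg0 : 0 ≤ Cg := tsum_nonneg fun m => by have := gg_nonneg k (m+1); positivity
  refine ⟨max (4 + 4 * C1) (Cg + 1), lt_max_of_lt_right (by linarith), ?_⟩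
  intro y K δ X hy hδ hδ2 hX hlog s hs
  set C : ℝ := max (4 + 4 * C1) (Cg + 1) with hC
  obtain ⟨hN, hsum⟩ := hsiz y hy K
  have hly : 0 < Real.log y := Real.log_pos (by linarith)
  set E : ℝ := (K + 1) * Real.log y with hE
  have hE0 : 0 < E := by positivity
  have hlog2 : Real.log 2 ≤ E := by
    have h1 : Real.log 2 ≤ Real.log y := Real.log_le_log (by norm_num) hy
    have h2 : (1 : ℝ) ≤ (K : ℝ) + 1 := by
      have : (0 : ℝ) ≤ K := Nat.cast_nonneg _
      linarith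
    rw [hE]
    nlinarith
  have hKE : K * Real.log y ≤ E := by rw [hE]; nlinarith
  -- the sizes
  have hF2 : ∀ n ∈ F2 y K, 1 ≤ n ∧ (n : ℝ) ≤ Real.exp (2 * E) := by
    intro n hn
    refine ⟨Nat.one_le_iff_ne_zero.2 (F2_ne hn), ?_⟩
    unfold F2 QQp at hn
    obtain ⟨q, hq, rfl⟩ := Finset.mem_image.1 hn
    obtain ⟨h1, h2⟩ := Finset.mem_product.1 hq
    push_cast
    calc (q.1 : ℝ) * q.2 ≤ Real.exp (K * Real.log y) * Real.exp (K * Real.log y) :=
          mul_le_mul (hN q.1 h1).2 (hN q.2 h2).2 (Nat.cast_nonneg _) (Real.exp_pos _).le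
      _ = Real.exp (2 * (K * Real.log y)) := by rw [← Real.exp_add]; congr 1; ring
      _ ≤ _ := Real.exp_le_exp.2 (by linarith)
  have hmv := hV (F2 y K) (Real.exp (2 * E)) (cc s y K) (cc s y K) hF2 δ X hδ.le hX.le
  -- the integrals
  have hint : (∫ t in (0:ℝ)..X, (∑ n ∈ F2 y K, cc s y K n * (n:ℂ) ^ (-(pw δ t))) *
      (starRingEnd ℂ) (∑ n ∈ F2 y K, cc s y K n * (n:ℂ) ^ (-(pw δ t)))) =
      ((∫ t in (0:ℝ)..X, ‖AS s y K (pw δ t)‖ ^ 4 : ℝ) : ℂ) := by
    rw [← intervalIntegral.integral_ofReal]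
    apply intervalIntegral.integral_congr
    intro t _
    simp only
    rw [← AS_sq, Complex.mul_conj, Complex.normSq_eq_norm_sq, norm_pow]
    push_cast
    ring
  have hdiag : ∑ n ∈ F2 y K, cc s y K n * (starRingEnd ℂ) (cc s y K n) *
      (((n:ℝ) ^ (-(1 + 2 * δ)) : ℝ) : ℂ) =
      ((∑ n ∈ F2 y K, ‖cc s y K n‖ ^ 2 * (n:ℝ) ^ (-(1 + 2 * δ)) : ℝ) : ℂ) := by
    rw [Complex.ofReal_sum]
    refine Finset.sum_congr rfl fun n _ => ?_
    rw [Complex.mul_conj, Complex.normSq_eq_norm_sq]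
    push_cast
    ring
  rw [hint, hdiag, ← Complex.ofReal_mul, ← Complex.ofReal_sub, Complex.norm_real, Real.norm_eq_abs] at hmv
  have h1 := (abs_le.1 hmv).2
  -- the diagonal
  have hd1 : ∑ n ∈ F2 y K, ‖cc s y K n‖ ^ 2 * (n:ℝ) ^ (-(1 + 2 * δ)) ≤ δ ^ (-Cg) := by
    calc ∑ n ∈ F2 y K, ‖cc s y K n‖ ^ 2 * (n:ℝ) ^ (-(1 + 2 * δ))
        ≤ ∑ n ∈ F2 y K, mf (gg k) n * (n:ℝ) ^ (-(1 + 2 * δ)) := by
          refine Finset.sum_le_sum fun n hn => ?_
          apply mul_le_mul_of_nonneg_right _ (Real.rpow_nonneg (Nat.cast_nonneg _) _)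
          exact norm_cc_sq s k hk1 (hs.trans hkR) y K (F2_ne hn)
      _ ≤ (1 + 1 / (2 * δ)) ^ Cg :=
          sum_mf_le (gg k) (gg_zero k) (gg_nonneg k) (summ_poly _ (gg_nonneg k) _ (gg_le k))
            (by positivity) _
      _ ≤ (1 / δ) ^ Cg := by
          apply Real.rpow_le_rpow (by positivity) _ hCg0
          rw [le_div_iff₀ hδ]
          field_simp
          linarith
      _ = δ ^ (-Cg) := by
          rw [one_div, Real.inv_rpow hδ.le, Real.rpow_neg hδ.le]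
  -- the error
  have hs2 : ∑ n ∈ F2 y K, ‖cc s y K n‖ ≤ Real.exp (2 * (C1 * E)) := by
    calc ∑ n ∈ F2 y K, ‖cc s y K n‖ ≤ (∑ n ∈ FS y K, ‖dS s n‖) ^ 2 := sum_cc_le s y K
      _ ≤ (Real.exp (C1 * E)) ^ 2 := by
          apply pow_le_pow_left₀ (Finset.sum_nonneg fun _ _ => norm_nonneg _)
          exact hsum s hs
      _ = _ := by rw [← Real.exp_nat_mul]; congr 1
  have hs0 : 0 ≤ ∑ n ∈ F2 y K, ‖cc s y K n‖ := Finset.sum_nonneg fun _ _ => norm_nonneg _
  have herr : 4 * Real.exp (2 * E) * (∑ n ∈ F2 y K, ‖cc s y K n‖) * (∑ n ∈ F2 y K, ‖cc s y K n‖) ≤ X := by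
    calc 4 * Real.exp (2 * E) * (∑ n ∈ F2 y K, ‖cc s y K n‖) * (∑ n ∈ F2 y K, ‖cc s y K n‖)
        ≤ 4 * Real.exp (2 * E) * Real.exp (2 * (C1 * E)) * Real.exp (2 * (C1 * E)) := by gcongr
      _ ≤ Real.exp (2 * E) * Real.exp (2 * E) * Real.exp (2 * (C1 * E)) * Real.exp (2 * (C1 * E)) := by
          have h4 : (4 : ℝ) ≤ Real.exp (2 * E) := by
            have h5 : (4 : ℝ) = Real.exp (2 * Real.log 2) := by
              rw [mul_comm, Real.exp_mul, Real.exp_log (by norm_num)]; norm_num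
            rw [h5]
            exact Real.exp_le_exp.2 (by linarith)
          gcongr
      _ = Real.exp ((4 + 4 * C1) * E) := by
          rw [← Real.exp_add, ← Real.exp_add, ← Real.exp_add]; congr 1; ring
      _ ≤ Real.exp (Real.log X) := by
          apply Real.exp_le_exp.2
          refine le_trans ?_ hlog
          exact mul_le_mul_of_nonneg_right (le_max_left _ _) hE0.le
      _ = X := Real.exp_log hX
  have hfin : X * δ ^ (-Cg) + X ≤ X * δ ^ (-C) := by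
    have h6 : 1 ≤ δ ^ (-Cg) := by
      rw [Real.rpow_neg hδ.le]
      rw [← one_div, le_div_iff₀ (Real.rpow_pos_of_pos hδ _), one_mul]
      exact Real.rpow_le_one hδ.le (by linarith) hCg0
    have h7 : 2 * δ ^ (-Cg) ≤ δ ^ (-(Cg + 1)) := by
      have h8 : δ ^ (-(Cg + 1)) = δ ^ (-Cg) / δ := by
        rw [show -(Cg + 1) = -Cg - 1 by ring, Real.rpow_sub_one hδ.ne']
      rw [h8, le_div_iff₀ hδ]
      nlinarith
    have h9 : δ ^ (-(Cg + 1)) ≤ δ ^ (-C) :=
      Real.rpow_le_rpow_of_exponent_ge hδ (by linarith) (by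
        have := le_max_right (4 + 4 * C1) (Cg + 1)
        linarith)
    nlinarith
  have h10 : X * ∑ n ∈ F2 y K, ‖cc s y K n‖ ^ 2 * (n:ℝ) ^ (-(1 + 2 * δ)) ≤ X * δ ^ (-Cg) :=
    mul_le_mul_of_nonneg_left hd1 hX.le
  linarith

end Pool.Agent.N748.MG.L4
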