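import Pool.Agent.N748.MG.Ev

set_option autoImplicit false

/-! (MG) the Fourier transform of the law of `log |ζ|`. -/

namespace Pool.Agent.N748.MG.MODG

open Finset Filter MeasureTheory Topology Complex

/-- the modulus of an imaginary power -/
lemma norm_le_one (x ξ : ℝ) (hx : 0 ≤ x) : ‖((x : ℝ) : ℂ) ^ ((ξ : ℂ) * I)‖ ≤ 1 := by
  rcases eq_or_lt_of_le hx with h | h
  · rw [← h, Complex.ofReal_zero]
    by_cases h0 : (ξ : ℂ) * I = 0
    · rw [h0, Complex.cpow_zero, norm_one]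
    · rw [Complex.zero_cpow h0, norm_zero]
      exact zero_le_one
  · rw [Complex.norm_cpow_eq_rpow_re_of_pos h]
    have h1 : ((ξ : ℂ) * I).re = 0 := by simp
    rw [h1, Real.rpow_zero]

lemma pw_ne_one {δ : ℝ} (h0 : δ ≤ 1 / 16) (t : ℝ) : pw δ t ≠ 1 := by
  intro h
  have h1 := congrArg Complex.re h
  unfold pw at h1
  simp at h1
  linarith

lemma cont {δ : ℝ} (h0 : δ ≤ 1 / 16) : Continuous fun t : ℝ => riemannZeta (pw δ t) := by
  rw [continuous_iff_continuousAt]
  intro t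
  have h1 : ContinuousAt riemannZeta (pw δ t) :=
    (differentiableAt_riemannZeta (pw_ne_one h0 t)).continuousAt
  have h2 : Continuous (pw δ) := by
    unfold pw
    fun_prop
  exact ContinuousAt.comp (f := fun t : ℝ => pw δ t) h1 h2.continuousAt

theorem main (hC : S_CM) : S_MG := by
  intro d hd R hR ε hε
  set D : ℝ := R ^ 2 + 2 with hD
  have hD0 : 0 < D := by positivity
  have h1 := (hC (R / 2 + 1) D (by positivity) hD0 (ε / 2) (by positivity)).app hd
  have h2 := (Ev.small (C := 1) (c := D - R ^ 2 / 4) (e := ε / 2) (by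
    rw [hD]
    nlinarith [sq_nonneg R]) (by positivity)).app hd
  have h3 := (Ev.of_le (d := 1 / 16) (by norm_num)).app hd
  filter_upwards [h1, h2, h3, hd.pos, eventually_gt_atTop 0] with T g1 g2 g3 g4 g5 ξ hξ
  obtain ⟨N, n1, n2, n3, -, n5⟩ := g1
  set δ : ℝ := d T with hδ
  set s : ℂ := (ξ : ℂ) * I / 2 with hs
  have hsn : ‖s‖ ≤ R / 2 + 1 := by
    rw [hs, norm_div, norm_mul, Complex.norm_I, mul_one, Complex.norm_real, Real.norm_eq_abs]
    have : ‖(2 : ℂ)‖ = 2 := by norm_num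
    rw [this]
    linarith
  have g6 := n5 s hsn
  have e1 : s ^ 2 = (((-(ξ ^ 2 / 4)) : ℝ) : ℂ) := by
    rw [hs]
    push_cast
    have : I ^ 2 = -1 := Complex.I_sq
    linear_combination (ξ : ℂ) ^ 2 / 4 * this
  have e2 : 2 * s = (ξ : ℂ) * I := by
    rw [hs]
    ring
  rw [e1, e2, ← Complex.ofReal_cpow (by positivity)] at g6
  set c : ℝ := (2 * δ) ^ (-(ξ ^ 2 / 4)) with hc
  have hc0 : 0 < c := Real.rpow_pos_of_pos (by positivity) _
  set f : ℝ → ℂ := fun t => ((‖riemannZeta (pw δ t)‖ : ℝ) : ℂ) ^ ((ξ : ℂ) * I) with hf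
  have hfb : ∀ t, ‖f t‖ ≤ 1 := fun t => norm_le_one _ _ (norm_nonneg _)
  have hfm : Measurable f := by
    have h4 : Measurable fun t : ℝ => ((‖riemannZeta (pw δ t)‖ : ℝ) : ℂ) :=
      (Complex.continuous_ofReal.comp (cont g3).norm).measurable
    exact h4.pow_const _
  have hfin : volume (Set.Icc (0 : ℝ) T) < ⊤ := by
    rw [Real.volume_Icc]
    exact ENNReal.ofReal_lt_top
  have hint : IntegrableOn f (Set.Icc 0 T) volume :=
    Measure.integrableOn_of_bounded hfin.ne hfm.aestronglyMeasurable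
      (Eventually.of_forall fun t => hfb t)
  have e3 : (∫ t in (0 : ℝ)..T, f t) = (∫ t in N, f t) + ∫ t in Set.Icc 0 T \ N, f t := by
    rw [intervalIntegral.integral_of_le g5.le, ← integral_Icc_eq_integral_Ioc,
      ← integral_inter_add_sdiff n1 hint, Set.inter_eq_self_of_subset_right n2]
  have e4 : ‖∫ t in Set.Icc 0 T \ N, f t‖ ≤ δ ^ D * T := by
    have h5 : volume (Set.Icc 0 T \ N) < ⊤ := (measure_mono Set.sdiff_subset).trans_lt hfin
    refine (norm_setIntegral_le_of_norm_le_const h5 (C := 1) fun t _ => hfb t).trans ?_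
    rw [one_mul]
    exact ENNReal.toReal_le_of_le_ofReal (by positivity) n3
  have e5 : c * δ ^ D ≤ ε / 2 := by
    refine le_trans ?_ g2
    rw [one_mul]
    have h6 : c ≤ δ ^ (-(R ^ 2 / 4)) := by
      have h7 : ξ ^ 2 ≤ R ^ 2 := by
        rw [← sq_abs ξ]
        exact pow_le_pow_left₀ (abs_nonneg _) hξ 2
      calc c ≤ (2 * δ) ^ (-(R ^ 2 / 4)) :=
            Real.rpow_le_rpow_of_exponent_ge (by positivity) (by linarith) (by linarith)
        _ ≤ δ ^ (-(R ^ 2 / 4)) := by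
            apply Real.rpow_le_rpow_of_nonpos g4 (by linarith)
            have : 0 ≤ R ^ 2 / 4 := by positivity
            linarith
    calc c * δ ^ D ≤ δ ^ (-(R ^ 2 / 4)) * δ ^ D := by gcongr
      _ = δ ^ (D - R ^ 2 / 4) := by
          rw [← Real.rpow_add g4]
          congr 1
          ring
  have hT : (T : ℂ) ≠ 0 := by exact_mod_cast g5.ne'
  have e6 : (c : ℂ) * ((1 / T) * ∫ t in (0 : ℝ)..T, f t) - aC s =
      (1 / (T : ℂ)) * ((c : ℂ) * (∫ t in N, f t) - T * aC s) +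
        (1 / (T : ℂ)) * ((c : ℂ) * ∫ t in Set.Icc 0 T \ N, f t) := by
    rw [e3]
    field_simp
    ring
  change ‖(c : ℂ) * ((1 / T) * ∫ t in (0 : ℝ)..T, f t) - aC s‖ ≤ ε
  rw [e6]
  have hTn : ‖(1 / (T : ℂ))‖ = 1 / T := by
    rw [norm_div, norm_one, Complex.norm_real, Real.norm_of_nonneg g5.le]
  calc _ ≤ ‖(1 / (T : ℂ)) * ((c : ℂ) * (∫ t in N, f t) - T * aC s)‖ +
        ‖(1 / (T : ℂ)) * ((c : ℂ) * ∫ t in Set.Icc 0 T \ N, f t)‖ := norm_add_le _ _
    _ ≤ 1 / T * (ε / 2 * T) + 1 / T * (c * (δ ^ D * T)) := by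
        rw [norm_mul, norm_mul, hTn, norm_mul, Complex.norm_real, Real.norm_of_nonneg hc0.le]
        gcongr
    _ = ε / 2 + c * δ ^ D := by
        field_simp
    _ ≤ ε := by linarith

end Pool.Agent.N748.MG.MODG
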