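import Mathlib

set_option autoImplicit false

/-!
# Complex moments near the critical line outside tiny sets, and exact large deviations: statements (over Mathlib only)

`w = 1/2 + δ + i t`, `L = log (1/δ)`; the polynomials `AS s y K` approximate `ζ^s`: primes up to `y`, at most `K` prime
factors (with multiplicity), `log y` is about `L / δ` and `K` about `L`, and `δ log X / L²` is large.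
-/

namespace Pool.Agent.N748.MG

open Finset Filter MeasureTheory Topology Complex

/-! ### definitions -/

/-- `lC s m = s (s+1) ... (s+m-1) / m!`, the coefficient of `x^m` in `(1-x)^(-s)` -/
noncomputable def lC (s : ℂ) (m : ℕ) : ℂ := ∏ i ∈ range m, (s + i) / ((i : ℂ) + 1)

/-- the coefficients of `ζ^s`: multiplicative, `lC s m` at `p^m` -/
noncomputable def dS (s : ℂ) (n : ℕ) : ℂ := ∏ p ∈ n.primeFactors, lC s (n.factorization p)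

/-- the primes up to `y` -/
noncomputable def PA (y : ℝ) : Finset ℕ := (Icc 2 ⌊y⌋₊).filter Nat.Prime

/-- the integers composed of primes up to `y`, with at most `K` prime factors -/
noncomputable def FS (y : ℝ) (K : ℕ) : Finset ℕ :=
  (range (⌊y⌋₊ ^ K + 1)).filter fun n => n ≠ 0 ∧ n.primeFactors ⊆ PA y ∧ n.primeFactorsList.length ≤ K

/-- the truncation of `ζ^s` -/
noncomputable def AS (s : ℂ) (y : ℝ) (K : ℕ) (w : ℂ) : ℂ := ∑ n ∈ FS y K, dS s n * (n:ℂ) ^ (-w)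

/-- the point at distance `δ` from the critical line and height `t` -/
noncomputable def pw (δ t : ℝ) : ℂ := 1 / 2 + δ + t * I

/-- the arithmetic factor of the moment conjecture -/
noncomputable def aC (s : ℂ) : ℂ :=
  ∏' p : Nat.Primes, ((1 - 1 / (p : ℂ)) ^ (s ^ 2) * ∑' m : ℕ, lC s m ^ 2 * (1 / (p : ℂ)) ^ m)

/-- a property holds for large `X` and for the admissible `δ` -/
def Ev (P : ℝ → ℝ → Prop) : Prop := ∃ lam δ0 : ℝ, 0 < lam ∧ 0 < δ0 ∧ δ0 ≤ 1 / 16 ∧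
  ∀ᶠ X : ℝ in atTop, ∀ δ : ℝ, 0 < δ → δ ≤ δ0 → lam * Real.log (1 / δ) ^ 2 ≤ δ * Real.log X → P X δ

/-! ### what comes from project HM -/

/-- (ZM2) the mean square of the error of the mollified zeta function -/
def S_ZM2 : Prop := ∀ D : ℝ, 0 < D → ∃ a b : ℝ, 0 < a ∧ 0 < b ∧ ∃ lam δ0 : ℝ, 0 < δ0 ∧ δ0 ≤ 1 / 16 ∧
  ∀ᶠ X : ℝ in atTop, ∀ δ : ℝ, 0 < δ → δ ≤ δ0 → lam * Real.log (1 / δ) ≤ δ * Real.log X →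
  ∀ (y : ℝ) (K : ℕ), 2 ≤ y → a * Real.log (1 / δ) ≤ δ * Real.log y → b * Real.log (1 / δ) ≤ K →
  K * Real.log y ≤ Real.log X / 100 →
  ∫ t in (X ^ ((9:ℝ) / 10))..(2 * X), ‖riemannZeta (pw δ t) * AS (-1) y K (pw δ t) - 1‖ ^ 2 ≤ X * δ ^ D

/-- (XSA) the sum over the primes is rarely large -/
def S_XSA : Prop := ∀ D : ℝ, 0 < D → ∃ a b : ℝ, 0 < a ∧ 0 < b ∧ ∃ δ0 : ℝ, 0 < δ0 ∧ δ0 ≤ 1 / 16 ∧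
  ∀ᶠ X : ℝ in atTop, ∀ δ : ℝ, 0 < δ → δ ≤ δ0 → ∀ y : ℝ, 2 ≤ y →
  b * Real.log (1 / δ) * Real.log y ≤ Real.log X → 1 / δ ≤ Real.log X →
  volume {t : ℝ | X ^ ((9:ℝ) / 10) + 1 ≤ t ∧ t ≤ X ∧ a * Real.log (1 / δ) < ‖∑ p ∈ PA y, (p:ℂ) ^ (-(pw δ t))‖} ≤
    ENNReal.ofReal (2 * X * δ ^ D)

/-- (MEA) Mertens -/
def S_MEA : Prop := ∃ C : ℝ, 0 < C ∧ ∀ y : ℝ, 3 ≤ y → ∑ p ∈ PA y, 1 / (p:ℝ) ≤ Real.log (Real.log y) + C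

/-! ### the parts -/

/-- (EUL) the truncation of the power of the Euler product -/
def S_EUL : Prop := ∀ R : ℝ, 0 ≤ R → ∃ C : ℝ, 0 < C ∧ ∀ (y : ℝ) (K : ℕ) (w s : ℂ) (a v : ℝ), 2 ≤ y →
  1 / 2 ≤ w.re → ‖s‖ ≤ R → ‖∑ p ∈ PA y, (p:ℂ) ^ (-w)‖ ≤ a → ∑ p ∈ PA y, 1 / (p:ℝ) ≤ v →
  ‖AS s y K w - ∏ p ∈ PA y, (1 - (p:ℂ) ^ (-w)) ^ (-s)‖ ≤ (4 / 5) ^ K * Real.exp (C * (a + v + 1))

/-- (CMP) pointwise comparison -/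
def S_CMP : Prop := ∀ R : ℝ, 0 ≤ R → ∃ C : ℝ, 0 < C ∧ ∀ (y : ℝ) (K : ℕ) (w : ℂ) (a v e : ℝ), 2 ≤ y → 1 / 2 ≤ w.re →
  ‖∑ p ∈ PA y, (p:ℂ) ^ (-w)‖ ≤ a → ∑ p ∈ PA y, 1 / (p:ℝ) ≤ v → 0 < e →
  ‖riemannZeta w * AS (-1) y K w - 1‖ ≤ e → (4 / 5) ^ K * Real.exp (C * (a + v + 1)) ≤ e →
  e * Real.exp (C * (a + v + 1)) ≤ 1 → ∀ s : ℂ, ‖s‖ ≤ R →
  ‖((‖riemannZeta w‖ : ℝ) : ℂ) ^ (2 * s) - AS s y K w * (starRingEnd ℂ) (AS ((starRingEnd ℂ) s) y K w)‖ ≤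
    e * Real.exp (C * (a + v + 1))

/-- (MVS) the mean value of the product of two Dirichlet polynomials -/
def S_MVS : Prop := ∀ (F : Finset ℕ) (N : ℝ) (a b : ℕ → ℂ), (∀ n ∈ F, 1 ≤ n ∧ (n:ℝ) ≤ N) → ∀ δ X : ℝ, 0 ≤ δ → 0 ≤ X →
  ‖(∫ t in (0:ℝ)..X, (∑ n ∈ F, a n * (n:ℂ) ^ (-(pw δ t))) *
      (starRingEnd ℂ) (∑ n ∈ F, b n * (n:ℂ) ^ (-(pw δ t)))) -
    X * ∑ n ∈ F, a n * (starRingEnd ℂ) (b n) * (((n:ℝ) ^ (-(1 + 2 * δ)) : ℝ) : ℂ)‖ ≤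
    4 * N * (∑ n ∈ F, ‖a n‖) * (∑ n ∈ F, ‖b n‖)

/-- (SIZ) lengths and sizes -/
def S_SIZ : Prop := ∀ R : ℝ, 0 ≤ R → ∃ C : ℝ, 0 < C ∧ ∀ y : ℝ, 2 ≤ y → ∀ K : ℕ,
  (∀ n ∈ FS y K, 1 ≤ n ∧ (n:ℝ) ≤ Real.exp (K * Real.log y)) ∧
  ∀ s : ℂ, ‖s‖ ≤ R → ∑ n ∈ FS y K, ‖dS s n‖ ≤ Real.exp (C * ((K + 1) * Real.log y))

/-- (L4) the fourth moments of the polynomials -/
def S_L4 : Prop := ∀ R : ℝ, 0 ≤ R → ∃ C : ℝ, 0 < C ∧ ∀ (y : ℝ) (K : ℕ) (δ X : ℝ), 2 ≤ y → 0 < δ → δ ≤ 1 / 16 →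
  0 < X → C * ((K + 1) * Real.log y) ≤ Real.log X → ∀ s : ℂ, ‖s‖ ≤ R →
  ∫ t in (0:ℝ)..X, ‖AS s y K (pw δ t)‖ ^ 4 ≤ X * δ ^ (-C)

/-- (DIA1) the diagonal terms, tails -/
def S_DIA1 : Prop := ∀ R D : ℝ, 0 ≤ R → 0 < D → ∃ C δ0 : ℝ, 0 < C ∧ 0 < δ0 ∧ ∀ δ : ℝ, 0 < δ → δ ≤ δ0 →
  ∀ (y : ℝ) (K : ℕ), 2 ≤ y → C * Real.log (1 / δ) ≤ δ * Real.log y → C * Real.log (1 / δ) ≤ K → ∀ s : ℂ, ‖s‖ ≤ R →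
  ‖(∑ n ∈ FS y K, dS s n ^ 2 * (((n:ℝ) ^ (-(1 + 2 * δ)) : ℝ) : ℂ)) -
    ∑' n : ℕ, dS s n ^ 2 * (((n:ℝ) ^ (-(1 + 2 * δ)) : ℝ) : ℂ)‖ ≤ δ ^ D

/-- (DIA2) the diagonal terms, asymptotics -/
def S_DIA2 : Prop := ∀ R : ℝ, 0 ≤ R → ∀ ε : ℝ, 0 < ε → ∃ δ0 : ℝ, 0 < δ0 ∧ ∀ δ : ℝ, 0 < δ → δ ≤ δ0 → ∀ s : ℂ,
  ‖s‖ ≤ R → ‖((2 * δ : ℝ) : ℂ) ^ (s ^ 2) * (∑' n : ℕ, dS s n ^ 2 * (((n:ℝ) ^ (-(1 + 2 * δ)) : ℝ) : ℂ)) - aC s‖ ≤ ε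

/-- (CON) the arithmetic factor is continuous, and positive at real points -/
def S_CON : Prop := Continuous aC ∧ ∀ V : ℝ, ∃ r : ℝ, 0 < r ∧ aC V = r

/-- (NIC) the choice of the parameters, and the set of the points where the approximations hold -/
def S_NIC : Prop := ∀ D : ℝ, 0 < D → ∃ ca : ℝ, 0 < ca ∧ ∀ C : ℝ, 0 < C → Ev fun X δ =>
  ∃ (y : ℝ) (K : ℕ) (N : Set ℝ), 2 ≤ y ∧ C * Real.log (1 / δ) ≤ δ * Real.log y ∧ C * Real.log (1 / δ) ≤ K ∧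
    C * ((K + 1) * Real.log y) ≤ Real.log X ∧ ∑ p ∈ PA y, 1 / (p:ℝ) ≤ 2 * Real.log (1 / δ) ∧
    MeasurableSet N ∧ N ⊆ Set.Icc 0 X ∧ volume (Set.Icc 0 X \ N) ≤ ENNReal.ofReal (δ ^ D * X) ∧
    ∀ t ∈ N, ‖∑ p ∈ PA y, (p:ℂ) ^ (-(pw δ t))‖ ≤ ca * Real.log (1 / δ) ∧
      ‖riemannZeta (pw δ t) * AS (-1) y K (pw δ t) - 1‖ ≤ δ ^ C

/-- (CM) complex moments outside tiny sets -/
def S_CM : Prop := ∀ R D : ℝ, 0 < R → 0 < D → ∀ ε : ℝ, 0 < ε → Ev fun X δ =>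
  ∃ N : Set ℝ, MeasurableSet N ∧ N ⊆ Set.Icc 0 X ∧ volume (Set.Icc 0 X \ N) ≤ ENNReal.ofReal (δ ^ D * X) ∧
    (∀ t ∈ N, riemannZeta (pw δ t) ≠ 0) ∧
    ∀ s : ℂ, ‖s‖ ≤ R → ‖((2 * δ : ℝ) : ℂ) ^ (s ^ 2) * (∫ t in N, ((‖riemannZeta (pw δ t)‖ : ℝ) : ℂ) ^ (2 * s)) -
      X * aC s‖ ≤ ε * X

/-- (LLT) the local limit lemma -/
def S_LLT : Prop := ∀ (ν : ℝ → Measure ℝ) (Λ : ℝ → ℝ) (g : ℝ → ℂ), (∀ᶠ T in atTop, IsFiniteMeasure (ν T)) →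
  Tendsto Λ atTop atTop → Continuous g → g 0 = 1 →
  (∀ R : ℝ, 0 < R → ∀ ε : ℝ, 0 < ε → ∀ᶠ T in atTop, ∀ ξ : ℝ, |ξ| ≤ R →
    ‖(∫ x, Complex.exp (ξ * x * I) ∂(ν T)) - g ξ * Real.exp (-(ξ ^ 2 * Λ T / 4))‖ ≤
      ε * Real.exp (-(ξ ^ 2 * Λ T / 4))) →
  ∀ (h : ℝ → ℝ) (S : Finset ℝ), Measurable h → (∀ x, x ∉ S → ContinuousAt h x) →
    (∃ C : ℝ, ∀ x, |h x| * (1 + x ^ 2) ≤ C) →
    Tendsto (fun T => Real.sqrt (Real.pi * Λ T) * ∫ x, h x ∂(ν T)) atTop (𝓝 (∫ x, h x))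

/-! ### the results -/

/-- admissible distances to the critical line -/
structure Ad (d : ℝ → ℝ) : Prop where
  pos : ∀ᶠ T : ℝ in atTop, 0 < d T
  t0 : Tendsto d atTop (𝓝 0)
  tL : Tendsto (fun T : ℝ => d T * Real.log T / Real.log (1 / d T) ^ 2) atTop atTop

/-- (MG) the Fourier transform of the law of `log |ζ|` -/
def S_MG : Prop := ∀ d : ℝ → ℝ, Ad d → ∀ R : ℝ, 0 < R → ∀ ε : ℝ, 0 < ε → ∀ᶠ T : ℝ in atTop, ∀ ξ : ℝ, |ξ| ≤ R →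
  ‖(((2 * d T) ^ (-(ξ ^ 2 / 4)) : ℝ) : ℂ) * ((1 / T) * ∫ t in (0:ℝ)..T, ((‖riemannZeta (pw (d T) t)‖ : ℝ) : ℂ) ^ (ξ * I)) -
    aC (ξ * I / 2)‖ ≤ ε

/-- (LD) the law of `log |ζ|` at the large deviation scales -/
def S_LD : Prop := ∀ d : ℝ → ℝ, Ad d → ∀ V : ℝ, ∀ (h : ℝ → ℝ) (S : Finset ℝ), Measurable h →
  (∀ x, x ∉ S → ContinuousAt h x) → (∃ C : ℝ, ∀ x, |h x| ≤ C) → (∃ C : ℝ, ∀ x, |h x| * (1 + x ^ 2) ≤ C * Real.exp (2 * V * x)) →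
  Tendsto (fun T : ℝ => Real.sqrt (Real.pi * Real.log (1 / (2 * d T))) * (2 * d T) ^ (-(V ^ 2)) *
    ((1 / T) * ∫ t in (0:ℝ)..T, h (Real.log ‖riemannZeta (pw (d T) t)‖ - V * Real.log (1 / (2 * d T))))) atTop
    (𝓝 ((aC V).re * ∫ x, Real.exp (-(2 * V * x)) * h x))

end Pool.Agent.N748.MG
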