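import Mathlib
import Pool.Agent.N748.MG.Stm

set_option autoImplicit false

/-!
# The mean value of the product of two Dirichlet polynomials
-/

namespace Pool.Agent.N748.MG.MVS

open Finset Filter MeasureTheory Topology Complex

/-- the modulus of `n ^ (-w)` -/
noncomputable def cc (δ : ℝ) (n : ℕ) : ℝ := (n : ℝ) ^ (-(1 / 2 + δ))

theorem cc_nonneg (δ : ℝ) (n : ℕ) : 0 ≤ cc δ n := Real.rpow_nonneg (Nat.cast_nonneg n) _

theorem cc_le_one {δ : ℝ} (hδ : 0 ≤ δ) {n : ℕ} (hn : 1 ≤ n) : cc δ n ≤ 1 :=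
  Real.rpow_le_one_of_one_le_of_nonpos (by exact_mod_cast hn) (by linarith)

theorem cc_sq (δ : ℝ) {n : ℕ} (hn : 1 ≤ n) : cc δ n * cc δ n = (n : ℝ) ^ (-(1 + 2 * δ)) := by
  have h0 : (0 : ℝ) < n := by exact_mod_cast hn
  rw [cc, ← Real.rpow_add h0]
  congr 1
  ring

theorem cpow_eq (δ t : ℝ) {n : ℕ} (hn : 1 ≤ n) : (n : ℂ) ^ (-(pw δ t)) =
    (cc δ n : ℂ) * exp (-(t * Real.log n : ℝ) * I) := by
  have h0 : (0 : ℝ) < n := by exact_mod_cast hn
  have h1 : (n : ℂ) ≠ 0 := by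
    rw [Ne, Nat.cast_eq_zero]; omega
  rw [Complex.cpow_def_of_ne_zero h1, cc, Real.rpow_def_of_pos h0, ← Complex.natCast_log]
  rw [Complex.ofReal_exp, ← Complex.exp_add]
  congr 1
  unfold pw
  push_cast
  ring

theorem conj_cpow_eq (δ t : ℝ) {n : ℕ} (hn : 1 ≤ n) : (starRingEnd ℂ) ((n : ℂ) ^ (-(pw δ t))) =
    (cc δ n : ℂ) * exp ((t * Real.log n : ℝ) * I) := by
  rw [cpow_eq δ t hn, map_mul, Complex.conj_ofReal, ← Complex.exp_conj, map_mul, map_neg,
    Complex.conj_ofReal, Complex.conj_I]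
  congr 2
  ring

theorem int_bound {l : ℝ} (hl : l ≠ 0) (X : ℝ) :
    ‖∫ t in (0:ℝ)..X, exp ((t * l : ℝ) * I)‖ ≤ 2 / |l| := by
  have hc : (l * I : ℂ) ≠ 0 := mul_ne_zero (by exact_mod_cast hl) I_ne_zero
  have h1 : (∫ t in (0:ℝ)..X, exp ((t * l : ℝ) * I)) = ∫ t in (0:ℝ)..X, exp (l * I * t) := by
    congr 1
    ext t
    congr 1
    push_cast
    ring
  rw [h1, integral_exp_mul_complex hc, norm_div, norm_mul, Complex.norm_I, mul_one,
    Complex.norm_real, Real.norm_eq_abs]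
  apply div_le_div_of_nonneg_right _ (abs_nonneg l)
  have e1 : ‖exp (l * I * X)‖ = 1 := by
    rw [show (l * I * X : ℂ) = ((l * X : ℝ) : ℂ) * I by push_cast; ring]
    exact Complex.norm_exp_ofReal_mul_I _
  have e2 : ‖exp (l * I * (0 : ℝ))‖ = 1 := by simp
  calc ‖exp (l * I * X) - exp (l * I * (0 : ℝ))‖ ≤ ‖exp (l * I * X)‖ + ‖exp (l * I * (0 : ℝ))‖ :=
        norm_sub_le _ _
    _ = 2 := by rw [e1, e2]; norm_num

theorem log_gap {N : ℝ} {n m : ℕ} (hn : 1 ≤ n) (hm : 1 ≤ m) (hnN : (n : ℝ) ≤ N) (hmN : (m : ℝ) ≤ N)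
    (h : n ≠ m) : 1 / N ≤ |Real.log m - Real.log n| := by
  have main : ∀ u v : ℕ, 1 ≤ u → 1 ≤ v → (v : ℝ) ≤ N → u < v → 1 / N ≤ Real.log v - Real.log u := by
    intro u v hu hv hvN huv
    have hu0 : (0 : ℝ) < u := by exact_mod_cast hu
    have hv0 : (0 : ℝ) < v := by exact_mod_cast hv
    rw [← Real.log_div hv0.ne' hu0.ne']
    have h1 := Real.one_sub_inv_le_log_of_pos (div_pos hv0 hu0)
    refine le_trans ?_ h1
    rw [inv_div]
    have h2 : (1 : ℝ) / v ≤ 1 - u / v := by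
      rw [div_le_iff₀ hv0, sub_mul, div_mul_cancel₀ _ hv0.ne']
      have : (u : ℝ) + 1 ≤ v := by exact_mod_cast huv
      linarith
    exact (one_div_le_one_div_of_le hv0 hvN).trans h2
  rcases lt_or_gt_of_ne h with h1 | h1
  · exact (main n m hn hm hmN h1).trans (le_abs_self _)
  · rw [abs_sub_comm]
    exact (main m n hm hn hnN h1).trans (le_abs_self _)

/-- the oscillating integral -/
noncomputable def JJ (X : ℝ) (n m : ℕ) : ℂ := ∫ t in (0:ℝ)..X, exp ((t * (Real.log m - Real.log n) : ℝ) * I)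

theorem JJ_self (X : ℝ) (n : ℕ) : JJ X n n = X := by
  simp [JJ]

theorem JJ_bound {N : ℝ} (X : ℝ) {n m : ℕ} (hn : 1 ≤ n) (hm : 1 ≤ m) (hnN : (n : ℝ) ≤ N)
    (hmN : (m : ℝ) ≤ N) (h : n ≠ m) : ‖JJ X n m‖ ≤ 2 * N := by
  have hN : 0 < N := lt_of_lt_of_le (by exact_mod_cast hn) hnN
  have hg := log_gap hn hm hnN hmN h
  have hl : Real.log m - Real.log n ≠ 0 := by
    intro h0
    rw [h0, abs_zero] at hg
    exact absurd hg (not_le.2 (by positivity))
  refine (int_bound hl X).trans ?_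
  rw [div_le_iff₀ (abs_pos.2 hl)]
  calc (2 : ℝ) = 2 * N * (1 / N) := by field_simp
    _ ≤ 2 * N * |Real.log m - Real.log n| := by
        apply mul_le_mul_of_nonneg_left hg; positivity

theorem main : S_MVS := by
  intro F N a b hF δ X hδ hX
  have h1 : (∫ t in (0:ℝ)..X, (∑ n ∈ F, a n * (n:ℂ) ^ (-(pw δ t))) *
      (starRingEnd ℂ) (∑ n ∈ F, b n * (n:ℂ) ^ (-(pw δ t)))) =
      ∑ n ∈ F, ∑ m ∈ F, (a n * (starRingEnd ℂ) (b m) * (cc δ n * cc δ m)) * JJ X n m := by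
    have h2 : ∀ t : ℝ, (∑ n ∈ F, a n * (n:ℂ) ^ (-(pw δ t))) *
        (starRingEnd ℂ) (∑ n ∈ F, b n * (n:ℂ) ^ (-(pw δ t))) =
        ∑ n ∈ F, ∑ m ∈ F, (a n * (starRingEnd ℂ) (b m) * (cc δ n * cc δ m)) *
          exp ((t * (Real.log m - Real.log n) : ℝ) * I) := by
      intro t
      rw [map_sum, Finset.sum_mul_sum]
      apply Finset.sum_congr rfl
      intro n hn
      apply Finset.sum_congr rfl
      intro m hm
      rw [map_mul, conj_cpow_eq δ t (hF m hm).1, cpow_eq δ t (hF n hn).1]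
      have h3 : exp ((t * (Real.log m - Real.log n) : ℝ) * I) =
          exp (-(t * Real.log n : ℝ) * I) * exp ((t * Real.log m : ℝ) * I) := by
        rw [← Complex.exp_add]
        congr 1
        push_cast
        ring
      rw [h3]
      ring
    simp_rw [h2]
    rw [intervalIntegral.integral_finsetSum]
    · apply Finset.sum_congr rfl
      intro n hn
      rw [intervalIntegral.integral_finsetSum]
      · apply Finset.sum_congr rfl
        intro m hm
        rw [intervalIntegral.integral_const_mul, JJ]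
      · intro m hm
        apply Continuous.intervalIntegrable
        fun_prop
    · intro n hn
      apply Continuous.intervalIntegrable
      fun_prop
  rw [h1]
  have h4 : (X : ℂ) * ∑ n ∈ F, a n * (starRingEnd ℂ) (b n) * (((n:ℝ) ^ (-(1 + 2 * δ)) : ℝ) : ℂ) =
      ∑ n ∈ F, ∑ m ∈ F, if n = m then
        (a n * (starRingEnd ℂ) (b m) * (cc δ n * cc δ m)) * X else 0 := by
    rw [Finset.mul_sum]
    apply Finset.sum_congr rfl
    intro n hn
    rw [Finset.sum_ite_eq F n, if_pos hn, ← cc_sq δ (hF n hn).1]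
    push_cast
    ring
  rw [h4, ← Finset.sum_sub_distrib]
  have h5 : ∀ n ∈ F, ‖(∑ m ∈ F, (a n * (starRingEnd ℂ) (b m) * (cc δ n * cc δ m)) * JJ X n m) -
      (∑ m ∈ F, if n = m then (a n * (starRingEnd ℂ) (b m) * (cc δ n * cc δ m)) * (X : ℂ) else 0)‖ ≤
      ‖a n‖ * (2 * N * ∑ m ∈ F, ‖b m‖) := by
    intro n hn
    rw [← Finset.sum_sub_distrib, Finset.mul_sum, Finset.mul_sum]
    refine (norm_sum_le _ _).trans (Finset.sum_le_sum ?_)
    intro m hm
    have hN : 0 ≤ N := (Nat.cast_nonneg n).trans (hF n hn).2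
    by_cases hnm : n = m
    · subst hnm
      rw [if_pos rfl, JJ_self, sub_self, norm_zero]
      positivity
    · rw [if_neg hnm, sub_zero, norm_mul, norm_mul, norm_mul, norm_mul, RCLike.norm_conj,
        Complex.norm_real, Complex.norm_real, Real.norm_of_nonneg (cc_nonneg δ n),
        Real.norm_of_nonneg (cc_nonneg δ m)]
      have e1 := cc_le_one hδ (hF n hn).1
      have e2 := cc_le_one hδ (hF m hm).1
      have e3 : cc δ n * cc δ m ≤ 1 := mul_le_one₀ e1 (cc_nonneg δ m) e2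
      have e4 := JJ_bound X (hF n hn).1 (hF m hm).1 (hF n hn).2 (hF m hm).2 hnm
      calc ‖a n‖ * ‖b m‖ * (cc δ n * cc δ m) * ‖JJ X n m‖ ≤ ‖a n‖ * ‖b m‖ * 1 * (2 * N) := by
            gcongr
        _ = ‖a n‖ * (2 * N * ‖b m‖) := by ring
  refine (norm_sum_le _ _).trans ((Finset.sum_le_sum h5).trans ?_)
  rw [← Finset.sum_mul]
  rcases F.eq_empty_or_nonempty with rfl | ⟨n, hn⟩
  · simp
  · have hN : 0 ≤ N := (Nat.cast_nonneg n).trans (hF n hn).2
    have hA : 0 ≤ ∑ n ∈ F, ‖a n‖ := Finset.sum_nonneg fun _ _ => norm_nonneg _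
    have hB : 0 ≤ ∑ n ∈ F, ‖b n‖ := Finset.sum_nonneg fun _ _ => norm_nonneg _
    have := mul_nonneg (mul_nonneg hN hA) hB
    nlinarith

end Pool.Agent.N748.MG.MVS

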