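import Pool.Agent.N748.MG.Ev

set_option autoImplicit false

/-! Part NIC: the choice of the parameters, and the set where the approximations hold (helper82). -/

namespace Pool.Agent.N748.MG.NIC

open Finset Filter MeasureTheory Topology Complex

lemma cont_pw (δ : ℝ) : Continuous fun t : ℝ => pw δ t := by
  unfold pw
  fun_prop

lemma cont_zeta {δ : ℝ} (h16 : δ ≤ 1 / 16) : Continuous fun t : ℝ => riemannZeta (pw δ t) := by
  rw [continuous_iff_continuousAt]
  intro t
  have hne : pw δ t ≠ 1 := by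
    intro h
    have h1 := congrArg Complex.re h
    have h2 : (pw δ t).re = 1 / 2 + δ := by
      simp [pw]
    rw [h2, Complex.one_re] at h1
    linarith
  exact ContinuousAt.comp (f := fun t : ℝ => pw δ t) (g := riemannZeta)
    (differentiableAt_riemannZeta hne).continuousAt (cont_pw δ).continuousAt

lemma cont_AS (s : ℂ) (y : ℝ) (K : ℕ) (δ : ℝ) : Continuous fun t : ℝ => AS s y K (pw δ t) := by
  unfold AS
  refine continuous_finsetSum _ fun n hn => continuous_const.mul ?_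
  refine Continuous.const_cpow (cont_pw δ).neg (Or.inl ?_)
  have := (Finset.mem_filter.mp hn).2.1
  exact_mod_cast this

lemma cont_P (y : ℝ) (δ : ℝ) : Continuous fun t : ℝ => ∑ p ∈ PA y, (p:ℂ) ^ (-(pw δ t)) := by
  refine continuous_finsetSum _ fun n hn => ?_
  refine Continuous.const_cpow (cont_pw δ).neg (Or.inl ?_)
  have := (Finset.mem_filter.mp hn).2
  exact_mod_cast this.ne_zero

lemma log_le_half {L : ℝ} (hL : 1 ≤ L) : Real.log L ≤ L / 2 := by
  have h1 := Real.log_le_sub_one_of_pos (show 0 < L / 2 by linarith)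
  rw [Real.log_div (by linarith) (by norm_num)] at h1
  have h2 := Real.log_two_lt_d9
  linarith

/-- Markov's inequality -/
lemma markov {f : ℝ → ℝ} (hf : Continuous f) (h0 : ∀ t, 0 ≤ f t) {a b e M : ℝ} (hab : a ≤ b)
    (he : 0 < e) (hM : ∫ t in a..b, f t ≤ e * M) (hM0 : 0 ≤ M) :
    volume {t : ℝ | t ∈ Set.Ioc a b ∧ e ≤ f t} ≤ ENNReal.ofReal M := by
  have hint : IntegrableOn f (Set.Ioc a b) := (hf.integrableOn_Icc).mono_set Set.Ioc_subset_Icc_self
  have h1 := mul_meas_ge_le_integral_of_nonneg (μ := volume.restrict (Set.Ioc a b))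
    (Eventually.of_forall h0) hint e
  rw [← intervalIntegral.integral_of_le hab] at h1
  have h2 : (volume.restrict (Set.Ioc a b)).real {t | e ≤ f t} ≤ M := by
    have := h1.trans hM
    exact le_of_mul_le_mul_left this he
  have hms : MeasurableSet {t | e ≤ f t} := measurableSet_le measurable_const hf.measurable
  have h3 : volume {t : ℝ | t ∈ Set.Ioc a b ∧ e ≤ f t} =
      (volume.restrict (Set.Ioc a b)) {t | e ≤ f t} := by
    rw [Measure.restrict_apply hms]
    congr 1
    ext t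
    simp only [Set.mem_ofPred_eq, Set.mem_inter_iff]
    tauto
  rw [h3]
  rw [Measure.real] at h2
  rw [ENNReal.le_ofReal_iff_toReal_le ?_ hM0]
  · exact h2
  · exact measure_ne_top _ _

theorem main (hZ : S_ZM2) (hX : S_XSA) (hM : S_MEA) : S_NIC := by
  intro D hD
  obtain ⟨a0, b0, ha0, hb0, δx, hδx, hδx16, evx⟩ := hX (D + 3) (by linarith)
  refine ⟨a0, ha0, fun C hC => ?_⟩
  obtain ⟨a1, b1, ha1, hb1, lam1, δ1, hδ1, hδ116, ev1⟩ := hZ (2 * C + D + 3) (by linarith)
  obtain ⟨Cm, hCm, mert⟩ := hM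
  set C1 := max (max C a1) 1 with hC1
  set C2 := max (max C b1) 1 with hC2
  have hC1C : C ≤ C1 := (le_max_left _ _).trans (le_max_left _ _)
  have hC1a : a1 ≤ C1 := (le_max_right _ _).trans (le_max_left _ _)
  have hC11 : 1 ≤ C1 := le_max_right _ _
  have hC2C : C ≤ C2 := (le_max_left _ _).trans (le_max_left _ _)
  have hC2b : b1 ≤ C2 := (le_max_right _ _).trans (le_max_left _ _)
  have hC21 : 1 ≤ C2 := le_max_right _ _
  set lamB := C * (C2 + 2) * C1 + 100 * (C2 + 2) * C1 + b0 * C1 + |lam1| with hlamB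
  have hd3 : 0 < Real.exp (-(2 * (Real.log C1 + Cm))) := Real.exp_pos _
  have E := (Ev.of_ev ev1).and ((Ev.of_ev evx).and ((Ev.of_le hδ1).and ((Ev.of_le hδx).and
    ((Ev.of_le hd3).and ((Ev.lam lamB).and (Ev.linv.and
      (Ev.win (D := D) (c := 1 / 6) (e := 1 / 10) (by norm_num) (by norm_num))))))))
  refine E.mono ?_
  clear E
  rintro X δ hX1 hδ hδ16 ⟨h1, hx, hd1, hdx, hdd, hlam, hlinv, hwin⟩
  have hL := log_inv_ge hδ hδ16
  set L := Real.log (1 / δ) with hLdef
  have hL0 : 0 < L := by linarith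
  have hLL : L ≤ L ^ 2 := by nlinarith
  set ly := C1 * L / δ with hly
  have hly0 : 0 < ly := by positivity
  have hδly : δ * ly = C1 * L := by rw [hly]; field_simp
  -- bounds for `log X`
  have hb1' : C * (C2 + 2) * C1 * L ^ 2 ≤ δ * Real.log X := by
    refine le_trans (mul_le_mul_of_nonneg_right ?_ (sq_nonneg L)) hlam
    have : 0 ≤ 100 * (C2 + 2) * C1 + b0 * C1 + |lam1| := by positivity
    rw [hlamB]; linarith
  have hb2' : 100 * (C2 + 2) * C1 * L ^ 2 ≤ δ * Real.log X := by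
    refine le_trans (mul_le_mul_of_nonneg_right ?_ (sq_nonneg L)) hlam
    have : 0 ≤ C * (C2 + 2) * C1 + b0 * C1 + |lam1| := by positivity
    rw [hlamB]; linarith
  have hb3' : b0 * C1 * L ^ 2 ≤ δ * Real.log X := by
    refine le_trans (mul_le_mul_of_nonneg_right ?_ (sq_nonneg L)) hlam
    have : 0 ≤ C * (C2 + 2) * C1 + 100 * (C2 + 2) * C1 + |lam1| := by positivity
    rw [hlamB]; linarith
  have hb4' : lam1 * L ≤ δ * Real.log X := by
    have h5 : |lam1| * L ^ 2 ≤ δ * Real.log X := by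
      refine le_trans (mul_le_mul_of_nonneg_right ?_ (sq_nonneg L)) hlam
      have : 0 ≤ C * (C2 + 2) * C1 + 100 * (C2 + 2) * C1 + b0 * C1 := by positivity
      rw [hlamB]; linarith
    refine le_trans ?_ h5
    calc lam1 * L ≤ |lam1| * L := mul_le_mul_of_nonneg_right (le_abs_self _) hL0.le
      _ ≤ |lam1| * L ^ 2 := mul_le_mul_of_nonneg_left hLL (abs_nonneg _)
  have hly_of : ∀ c : ℝ, 0 ≤ c → c * C1 * L ^ 2 ≤ δ * Real.log X → c * L * ly ≤ Real.log X := by
    intro c hc h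
    have : c * L * ly = c * C1 * L ^ 2 / δ := by rw [hly]; ring
    rw [this, div_le_iff₀ hδ]
    linarith
  -- the parameters
  set K : ℕ := ⌈C2 * L⌉₊ with hK
  have hK1 : C2 * L ≤ K := Nat.le_ceil _
  have hK2 : (K : ℝ) + 1 ≤ (C2 + 2) * L := by
    have := Nat.ceil_lt_add_one (show 0 ≤ C2 * L by positivity)
    rw [← hK] at this
    nlinarith
  set y := Real.exp ly with hy
  have hlogy : Real.log y = ly := Real.log_exp _
  have hly16 : 16 ≤ ly := by
    rw [hly, le_div_iff₀ hδ]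
    nlinarith
  have hy3 : 3 ≤ y := by
    have := Real.add_one_le_exp ly
    rw [← hy] at this
    linarith
  have hy2 : 2 ≤ y := by linarith
  have c2 : C * L ≤ δ * Real.log y := by
    rw [hlogy, hδly]
    exact mul_le_mul_of_nonneg_right hC1C hL0.le
  have c3 : C * L ≤ K := (mul_le_mul_of_nonneg_right hC2C hL0.le).trans hK1
  have c4 : C * ((K + 1) * Real.log y) ≤ Real.log X := by
    rw [hlogy]
    refine le_trans ?_ (hly_of (C * (C2 + 2)) (by positivity) hb1')
    calc C * (((K : ℝ) + 1) * ly) ≤ C * (((C2 + 2) * L) * ly) :=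
          mul_le_mul_of_nonneg_left (mul_le_mul_of_nonneg_right hK2 hly0.le) hC.le
      _ = C * (C2 + 2) * L * ly := by ring
  have c5 : ∑ p ∈ PA y, 1 / (p:ℝ) ≤ 2 * L := by
    refine (mert y hy3).trans ?_
    rw [hlogy, hly, Real.log_div (by positivity) hδ.ne', Real.log_mul (by positivity) hL0.ne']
    have e1 : Real.log δ = -L := by rw [hLdef, one_div, Real.log_inv, neg_neg]
    have e2 := log_le_half hL
    have e3 : 2 * (Real.log C1 + Cm) ≤ L := by
      have := Real.log_le_log hδ hdd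
      rw [Real.log_exp, e1] at this
      linarith
    rw [e1]
    linarith
  have c6 : K * Real.log y ≤ Real.log X / 100 := by
    rw [hlogy]
    have h6 := hly_of (100 * (C2 + 2)) (by positivity) hb2'
    have h7 : (K : ℝ) * ly ≤ (C2 + 2) * L * ly :=
      mul_le_mul_of_nonneg_right (by linarith) hly0.le
    linarith
  have c7 : a1 * L ≤ δ * Real.log y := by
    rw [hlogy, hδly]
    exact mul_le_mul_of_nonneg_right hC1a hL0.le
  have c8 : b1 * L ≤ K := (mul_le_mul_of_nonneg_right hC2b hL0.le).trans hK1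
  have c9 : b0 * L * Real.log y ≤ Real.log X := by
    rw [hlogy]
    exact hly_of b0 hb0.le hb3'
  have hmean := h1 δ hδ hd1 hb4' y K hy2 c7 c8 c6
  have hrare := hx δ hδ hdx y hy2 c9 hlinv
  -- the set
  set F : ℝ → ℂ := fun t => riemannZeta (pw δ t) * AS (-1) y K (pw δ t) - 1 with hF
  have hFc : Continuous F := ((cont_zeta hδ16).mul (cont_AS (-1) y K δ)).sub continuous_const
  set G : ℝ → ℂ := fun t => ∑ p ∈ PA y, (p:ℂ) ^ (-(pw δ t)) with hG
  have hGc : Continuous G := cont_P y δ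
  have hX0 : 0 < X := by linarith
  set X9 := X ^ ((9:ℝ) / 10) with hX9
  have hX91 : 1 ≤ X9 := Real.one_le_rpow hX1 (by norm_num)
  have hX9X : X9 ≤ X := by
    calc X9 ≤ X ^ (1 : ℝ) := Real.rpow_le_rpow_of_exponent_le hX1 (by norm_num)
      _ = X := Real.rpow_one X
  set N : Set ℝ := {t | (X9 + 1 ≤ t ∧ t ≤ X) ∧ ‖G t‖ ≤ a0 * L ∧ ‖F t‖ ≤ δ ^ C} with hN
  have hNm : MeasurableSet N := by
    refine MeasurableSet.inter ?_ (MeasurableSet.inter ?_ ?_)
    · exact measurableSet_Icc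
    · exact measurableSet_le hGc.norm.measurable measurable_const
    · exact measurableSet_le hFc.norm.measurable measurable_const
  refine ⟨y, K, N, hy2, c2, c3, c4, c5, hNm, ?_, ?_, ?_⟩
  · rintro t ⟨⟨ht1, ht2⟩, -, -⟩
    exact ⟨by linarith, ht2⟩
  · -- the measure of the complement
    set B1 : Set ℝ := {t : ℝ | X9 + 1 ≤ t ∧ t ≤ X ∧ a0 * L < ‖G t‖} with hB1
    set B2 : Set ℝ := {t : ℝ | t ∈ Set.Ioc X9 (2 * X) ∧ (δ ^ C) ^ 2 ≤ ‖F t‖ ^ 2} with hB2
    have hsub : Set.Icc 0 X \ N ⊆ Set.Icc 0 (X9 + 1) ∪ (B1 ∪ B2) := by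
      rintro t ⟨⟨ht0, htX⟩, htN⟩
      by_cases h : t ≤ X9 + 1
      · exact Or.inl ⟨ht0, h⟩
      · push Not at h
        right
        by_cases hg : ‖G t‖ ≤ a0 * L
        · right
          have hf : ¬ ‖F t‖ ≤ δ ^ C := fun hf => htN ⟨⟨h.le, htX⟩, hg, hf⟩
          push Not at hf
          refine ⟨⟨by linarith, by linarith⟩, ?_⟩
          exact pow_le_pow_left₀ (Real.rpow_nonneg hδ.le _) hf.le 2
        · push Not at hg
          exact Or.inl ⟨h.le, htX, hg⟩
    have hδD : 0 < δ ^ D := Real.rpow_pos_of_pos hδ _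
    have hδ3 : δ ^ (D + 3) ≤ δ ^ D / 6 := by
      rw [Real.rpow_add hδ]
      have : δ ^ (3:ℝ) ≤ 1 / 6 := by
        calc δ ^ (3:ℝ) ≤ (1 / 16 : ℝ) ^ (3:ℝ) := Real.rpow_le_rpow hδ.le hδ16 (by norm_num)
          _ = (1 / 16 : ℝ) ^ (3:ℕ) := by rw [← Real.rpow_natCast]; norm_num
          _ ≤ 1 / 6 := by norm_num
      calc δ ^ D * δ ^ (3:ℝ) ≤ δ ^ D * (1 / 6) := mul_le_mul_of_nonneg_left this hδD.le
        _ = δ ^ D / 6 := by ring
    have v0 : volume (Set.Icc 0 (X9 + 1)) ≤ ENNReal.ofReal (δ ^ D * X / 3) := by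
      rw [Real.volume_Icc, sub_zero]
      refine ENNReal.ofReal_le_ofReal ?_
      have h8 : δ ^ (-D) * X9 ≤ 1 / 6 * X := by
        calc δ ^ (-D) * X9 ≤ (1 / 6 * X ^ ((1:ℝ) / 10)) * X9 :=
              mul_le_mul_of_nonneg_right hwin (by linarith)
          _ = 1 / 6 * (X ^ ((1:ℝ) / 10) * X ^ ((9:ℝ) / 10)) := by rw [hX9]; ring
          _ = 1 / 6 * X := by
              rw [← Real.rpow_add hX0]; norm_num
      have h9 : X9 ≤ δ ^ D * (1 / 6 * X) := by
        calc X9 = δ ^ D * (δ ^ (-D) * X9) := by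
              rw [← mul_assoc, ← Real.rpow_add hδ, add_neg_cancel, Real.rpow_zero, one_mul]
          _ ≤ δ ^ D * (1 / 6 * X) := mul_le_mul_of_nonneg_left h8 hδD.le
      linarith
    have v1 : volume B1 ≤ ENNReal.ofReal (δ ^ D * X / 3) := by
      refine hrare.trans (ENNReal.ofReal_le_ofReal ?_)
      calc 2 * X * δ ^ (D + 3) ≤ 2 * X * (δ ^ D / 6) := mul_le_mul_of_nonneg_left hδ3 (by positivity)
        _ = δ ^ D * X / 3 := by ring
    have v2 : volume B2 ≤ ENNReal.ofReal (δ ^ D * X / 3) := by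
      refine (markov (f := fun t => ‖F t‖ ^ 2) (hFc.norm.pow 2) (fun t => sq_nonneg _)
        (by linarith) (by positivity) (M := X * δ ^ (D + 3)) ?_ (by positivity)).trans
        (ENNReal.ofReal_le_ofReal ?_)
      · refine hmean.trans (le_of_eq ?_)
        have e1 : (δ ^ C) ^ 2 = δ ^ (2 * C) := by
          rw [← Real.rpow_natCast, ← Real.rpow_mul hδ.le]
          congr 1
          push_cast
          ring
        rw [e1, show 2 * C + D + 3 = 2 * C + (D + 3) by ring, Real.rpow_add hδ (2 * C)]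
        ring
      · calc X * δ ^ (D + 3) ≤ X * (δ ^ D / 6) := mul_le_mul_of_nonneg_left hδ3 hX0.le
          _ ≤ δ ^ D * X / 3 := by
              have h10 := mul_pos hδD hX0
              linarith
    have hq : 0 ≤ δ ^ D * X / 3 := by positivity
    calc volume (Set.Icc 0 X \ N) ≤ volume (Set.Icc 0 (X9 + 1) ∪ (B1 ∪ B2)) := measure_mono hsub
      _ ≤ volume (Set.Icc 0 (X9 + 1)) + volume (B1 ∪ B2) := measure_union_le _ _
      _ ≤ volume (Set.Icc 0 (X9 + 1)) + (volume B1 + volume B2) := by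
          gcongr; exact measure_union_le _ _
      _ ≤ ENNReal.ofReal (δ ^ D * X / 3) +
          (ENNReal.ofReal (δ ^ D * X / 3) + ENNReal.ofReal (δ ^ D * X / 3)) := by gcongr
      _ = ENNReal.ofReal (δ ^ D * X) := by
          rw [← ENNReal.ofReal_add hq hq, ← ENNReal.ofReal_add hq (by linarith)]
          congr 1
          ring
  · rintro t ⟨-, ht1, ht2⟩
    exact ⟨ht1, ht2⟩

end Pool.Agent.N748.MG.NIC
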