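import Pool.Agent.N748.MG.Stm

set_option autoImplicit false

/-! Project MG (helper748): lengths and sizes of the polynomials (helper434). -/

namespace Pool.Agent.N748.MG.SIZ

open Finset Complex

lemma lC_le {R : ℝ} (hR : 0 ≤ R) {s : ℂ} (hs : ‖s‖ ≤ R) (m : ℕ) : ‖lC s m‖ ≤ (R + 1) ^ m := by
  unfold lC
  rw [norm_prod]
  calc ∏ i ∈ range m, ‖(s + i) / ((i : ℂ) + 1)‖ ≤ ∏ _i ∈ range m, (R + 1) := by
        refine prod_le_prod (fun i _ => norm_nonneg _) (fun i _ => ?_)
        have e : ‖(i : ℂ) + 1‖ = (i : ℝ) + 1 := by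
          have : (i : ℂ) + 1 = ((i + 1 : ℕ) : ℂ) := by push_cast; rfl
          rw [this, Complex.norm_natCast]
          push_cast
          rfl
        have h0 : (0 : ℝ) ≤ i := Nat.cast_nonneg i
        rw [norm_div, e, div_le_iff₀ (by positivity)]
        calc ‖s + i‖ ≤ ‖s‖ + ‖(i : ℂ)‖ := norm_add_le _ _
          _ ≤ R + i := by
              rw [Complex.norm_natCast]
              linarith
          _ ≤ (R + 1) * (i + 1) := by nlinarith
    _ = (R + 1) ^ m := by rw [prod_const, card_range]

lemma dS_le {R : ℝ} (hR : 0 ≤ R) {s : ℂ} (hs : ‖s‖ ≤ R) {n K : ℕ}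
    (hK : n.primeFactorsList.length ≤ K) : ‖dS s n‖ ≤ (R + 1) ^ K := by
  unfold dS
  rw [norm_prod]
  calc ∏ p ∈ n.primeFactors, ‖lC s (n.factorization p)‖ ≤
        ∏ p ∈ n.primeFactors, (R + 1) ^ (n.factorization p) :=
        prod_le_prod (fun i _ => norm_nonneg _) (fun i _ => lC_le hR hs _)
    _ = (R + 1) ^ (∑ p ∈ n.primeFactors, n.factorization p) := prod_pow_eq_pow_sum _ _ _
    _ ≤ (R + 1) ^ K := by
        refine pow_le_pow_right₀ (by linarith) ?_
        have : ∑ p ∈ n.primeFactors, n.factorization p = n.primeFactorsList.length := by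
          rw [← ArithmeticFunction.cardFactors_apply, ArithmeticFunction.cardFactors_eq_sum_factorization]
          rfl
        rw [this]
        exact hK

theorem main : S_SIZ := by
  intro R hR
  have hl2 : 0 < Real.log 2 := Real.log_pos (by norm_num)
  have hlR : 0 ≤ Real.log (R + 1) := Real.log_nonneg (by linarith)
  refine ⟨1 + Real.log (R + 1) / Real.log 2, by positivity, fun y hy K => ?_⟩
  have hy0 : 0 < y := by linarith
  have hly : Real.log 2 ≤ Real.log y := Real.log_le_log (by norm_num) hy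
  have hyK : Real.exp (K * Real.log y) = y ^ K := by
    rw [Real.exp_nat_mul, Real.exp_log hy0]
  have hfl : ((⌊y⌋₊ ^ K : ℕ) : ℝ) ≤ y ^ K := by
    push_cast
    exact pow_le_pow_left₀ (by positivity) (Nat.floor_le hy0.le) K
  refine ⟨fun n hn => ?_, fun s hs => ?_⟩
  · unfold FS at hn
    rw [mem_filter, mem_range] at hn
    refine ⟨Nat.one_le_iff_ne_zero.2 hn.2.1, ?_⟩
    rw [hyK]
    refine le_trans ?_ hfl
    exact_mod_cast Nat.lt_succ_iff.1 hn.1
  · have hcard : ((FS y K).card : ℝ) ≤ y ^ K := by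
      refine le_trans ?_ hfl
      have h1 : FS y K ⊆ (range (⌊y⌋₊ ^ K + 1)).erase 0 := by
        intro n hn
        unfold FS at hn
        rw [mem_filter] at hn
        exact mem_erase.2 ⟨hn.2.1, hn.1⟩
      have h2 := card_le_card h1
      rw [card_erase_of_mem (by simp), card_range] at h2
      exact_mod_cast (by omega : (FS y K).card ≤ ⌊y⌋₊ ^ K)
    calc ∑ n ∈ FS y K, ‖dS s n‖ ≤ ∑ n ∈ FS y K, (R + 1) ^ K := by
          refine sum_le_sum fun n hn => ?_
          unfold FS at hn
          rw [mem_filter] at hn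
          exact dS_le hR hs hn.2.2.2
      _ = ((FS y K).card : ℝ) * (R + 1) ^ K := by rw [sum_const, nsmul_eq_mul]
      _ ≤ y ^ K * (R + 1) ^ K := mul_le_mul_of_nonneg_right hcard (by positivity)
      _ = Real.exp (K * Real.log y + K * Real.log (R + 1)) := by
          rw [Real.exp_add, hyK, Real.exp_nat_mul, Real.exp_log (by linarith)]
      _ ≤ _ := by
          apply Real.exp_le_exp.2
          have hK0 : (0 : ℝ) ≤ K := Nat.cast_nonneg K
          have h1 : Real.log (R + 1) ≤ Real.log (R + 1) / Real.log 2 * Real.log y := by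
            rw [div_mul_eq_mul_div, le_div_iff₀ hl2]
            exact mul_le_mul_of_nonneg_left hly hlR
          have h2 : 0 ≤ Real.log y := by linarith
          have h3 : 0 ≤ Real.log (R + 1) / Real.log 2 := by positivity
          have h4 : (K : ℝ) * Real.log (R + 1) ≤ K * (Real.log (R + 1) / Real.log 2 * Real.log y) :=
            mul_le_mul_of_nonneg_left h1 hK0
          have h5 : 0 ≤ (1 + Real.log (R + 1) / Real.log 2) * Real.log y := by positivity
          nlinarith

end Pool.Agent.N748.MG.SIZ
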