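import Pool.Agent.N748.MG.CM
import Pool.Agent.N748.MG.CMP
import Pool.Agent.N748.MG.CONT
import Pool.Agent.N748.MG.DIA1
import Pool.Agent.N748.MG.DIA2
import Pool.Agent.N748.MG.EUL
import Pool.Agent.N748.MG.Inp
import Pool.Agent.N748.MG.L4
import Pool.Agent.N748.MG.LD
import Pool.Agent.N748.MG.LLT
import Pool.Agent.N748.MG.MODG
import Pool.Agent.N748.MG.MVS
import Pool.Agent.N748.MG.NIC
import Pool.Agent.N748.MG.SIZ

set_option autoImplicit false

/-! Complex moments outside tiny sets, mod-Gaussian convergence, exact large deviations: the theorems. -/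

namespace Pool.Agent.N748.MG

theorem cmF : S_CM :=
  CM.main (CMP.main EUL.main) MVS.main SIZ.main (L4.main MVS.main SIZ.main) DIA1.main DIA2.main
    (NIC.main Inp.zm2 Inp.xsa Inp.mea)

theorem mgF : S_MG := MODG.main cmF

theorem ldF : S_LD := LD.main cmF LLT.main CON.main

end Pool.Agent.N748.MG
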