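import Pool.Agent.N748.MG.Fin
import Pool.Agent.N748.MG.TMA
import Pool.Agent.N748.MG.TMB
import Pool.Agent.N748.MG.TMC

set_option autoImplicit false

/-! The theorems, and the real arithmetic factor. -/

namespace Pool.Agent.N748.MG

open Finset Filter MeasureTheory Topology Complex

/-- the arithmetic factor of the moment conjecture for real exponents -/
noncomputable def akR (k : ℝ) : ℝ :=
  ∏' p : Nat.Primes, ((1 - 1 / (p : ℝ)) ^ (k ^ 2) *
    ∑' m : ℕ, (∏ i ∈ Finset.range m, (k + i) / ((i : ℝ) + 1)) ^ 2 * (1 / (p : ℝ)) ^ m)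

open CON in
theorem aC_akR (V : ℝ) : 0 < akR V ∧ aC V = ((akR V : ℝ) : ℂ) := by
  obtain ⟨k, hk⟩ := exists_nat_ge ‖(V : ℂ)‖
  obtain ⟨C, hC, hCb⟩ := Gp_bd k
  set g : Nat.Primes → ℝ := fun p => (1 - 1 / (p : ℝ)) ^ (V ^ 2) *
    ∑' m : ℕ, lR V m ^ 2 * (1 / (p : ℝ)) ^ m with hg
  have h12 : ∀ p : Nat.Primes, (1 : ℝ) / 2 ≤ 1 - 1 / (p : ℝ) := by
    intro p
    have h := (px p).2
    rw [(px p).1] at h
    linarith
  have hsum : ∀ p : Nat.Primes, Summable fun m : ℕ => lR V m ^ 2 * (1 / (p : ℝ)) ^ m := by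
    intro p
    have h := (FF_summable (s := V) (px p).2).norm
    refine Summable.of_norm (h.congr fun m => ?_)
    rw [lC_ofReal, norm_mul, norm_mul, norm_pow, norm_pow, norm_pow, norm_pow, Complex.norm_real,
      (px p).1, Real.norm_of_nonneg (r := 1 / (p : ℝ)) (by positivity)]
  have hgC : ∀ p : Nat.Primes, Gp V (1 / (p : ℂ)) = ((g p : ℝ) : ℂ) := by
    intro p
    unfold Gp FF
    rw [hg]
    simp only
    rw [Complex.ofReal_mul, Complex.ofReal_cpow (by linarith [h12 p]), Complex.ofReal_tsum]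
    congr 1
    · push_cast
      rfl
    · congr 1
      funext m
      rw [lC_ofReal]
      push_cast
      rfl
  have hgpos : ∀ p, 0 < g p := by
    intro p
    rw [hg]
    refine mul_pos (Real.rpow_pos_of_pos (by linarith [h12 p]) _) ?_
    have h1 := (hsum p).le_tsum 0 fun m _ => by positivity
    have h2 : lR V 0 ^ 2 * (1 / (p : ℝ)) ^ 0 = 1 := by
      unfold lR
      simp
    rw [h2] at h1
    linarith
  have hgs : Summable fun p => g p - 1 := by
    refine Summable.of_norm_bounded (sum_px C) fun p => ?_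
    have h1 := hCb V (1 / (p : ℂ)) hk (px p).2
    rw [(px p).1, hgC] at h1
    rwa [← Complex.ofReal_one, ← Complex.ofReal_sub, Complex.norm_real] at h1
  have hlog : Summable fun p => Real.log (g p) := by
    refine (Real.summable_log_one_add_of_summable hgs).congr fun p => ?_
    rw [add_sub_cancel]
  have hprod := Real.hasProd_of_hasSum_log hgpos hlog.hasSum
  have h1 := hprod.map Complex.ofRealHom Complex.continuous_ofReal
  have h2 : (fun p : Nat.Primes => 1 + (Gp V (1 / (p : ℂ)) - 1)) = Complex.ofRealHom ∘ g := by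
    funext p
    rw [hgC, add_sub_cancel]
    rfl
  have h3 : akR V = Real.exp (∑' p, Real.log (g p)) := hprod.tprod_eq
  refine ⟨by rw [h3]; exact Real.exp_pos _, ?_⟩
  rw [aC_eq, h2, h3]
  exact h1.tprod_eq

theorem aC_re (V : ℝ) : (aC V).re = akR V := by rw [(aC_akR V).2, Complex.ofReal_re]

theorem conF : S_CON := CON.main

theorem tm1F : S_TM1 := (TMA.main cmF conF).1
theorem nm1F : S_NM1 := (TMA.main cmF conF).2
theorem tm2F : S_TM2 := (TMB.main cmF conF).1
theorem nm2F : S_NM2 := (TMB.main cmF conF).2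
theorem tm3F : S_TM3 := (TMC.main ldF cmF).1
theorem nm3F : S_NM3 := (TMC.main ldF cmF).2.1
theorem utF : S_UT := (TMC.main ldF cmF).2.2.1
theorem ltF : S_LT := (TMC.main ldF cmF).2.2.2

end Pool.Agent.N748.MG
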