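import Pool.Agent.N748.MG.Stm

set_option autoImplicit false

/-!
# Complex moments near the critical line: consequences (statements)
-/

namespace Pool.Agent.N748.MG

open Finset Filter MeasureTheory Topology Complex

/-- the modulus of zeta at distance `δ` from the critical line and height `t` -/
noncomputable def mz (δ t : ℝ) : ℝ := ‖riemannZeta (pw δ t)‖

/-- the moment of order `2k` over the points where `|ζ| ≤ c` -/
noncomputable def ML (k c δ T : ℝ) : ℝ := (1 / T) * ∫ t in {t : ℝ | t ∈ Set.Icc 0 T ∧ mz δ t ≤ c}, mz δ t ^ (2 * k)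

/-- the moment of order `2k` over the points where `|ζ| ≥ c` -/
noncomputable def MU (k c δ T : ℝ) : ℝ := (1 / T) * ∫ t in {t : ℝ | t ∈ Set.Icc 0 T ∧ c ≤ mz δ t}, mz δ t ^ (2 * k)

/-- the normal distribution function -/
noncomputable def Phi (x : ℝ) : ℝ := (ProbabilityTheory.gaussianReal 0 1 (Set.Iic x)).toReal

/-- (TM1) truncated moments, supercritical level -/
def S_TM1 : Prop := ∀ d : ℝ → ℝ, Ad d → ∀ k V : ℝ, 0 < k → k < V →
  Tendsto (fun T : ℝ => (2 * d T) ^ (k ^ 2) * ML k ((2 * d T) ^ (-V)) (d T) T) atTop (𝓝 (aC k).re)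

/-- (TM2) truncated moments, critical window -/
def S_TM2 : Prop := ∀ d : ℝ → ℝ, Ad d → ∀ k x : ℝ, 0 < k →
  Tendsto (fun T : ℝ => (2 * d T) ^ (k ^ 2) *
    ML k ((2 * d T) ^ (-k) * Real.exp (x * Real.sqrt (Real.log (1 / (2 * d T)) / 2))) (d T) T) atTop
    (𝓝 ((aC k).re * Phi x))

/-- (TM3) truncated moments, subcritical level -/
def S_TM3 : Prop := ∀ d : ℝ → ℝ, Ad d → ∀ k V : ℝ, 0 < k → V < k →
  Tendsto (fun T : ℝ => Real.sqrt (Real.pi * Real.log (1 / (2 * d T))) * (2 * d T) ^ (2 * k * V - V ^ 2) *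
    ML k ((2 * d T) ^ (-V)) (d T) T) atTop (𝓝 ((aC V).re / (2 * (k - V))))

/-- (NM1) negative moments without the very small values -/
def S_NM1 : Prop := ∀ d : ℝ → ℝ, Ad d → ∀ k V : ℝ, k < 0 → V < k →
  Tendsto (fun T : ℝ => (2 * d T) ^ (k ^ 2) * MU k ((2 * d T) ^ (-V)) (d T) T) atTop (𝓝 (aC k).re)

/-- (NM2) negative moments, critical window -/
def S_NM2 : Prop := ∀ d : ℝ → ℝ, Ad d → ∀ k x : ℝ, k < 0 →
  Tendsto (fun T : ℝ => (2 * d T) ^ (k ^ 2) *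
    MU k ((2 * d T) ^ (-k) * Real.exp (-(x * Real.sqrt (Real.log (1 / (2 * d T)) / 2)))) (d T) T) atTop
    (𝓝 ((aC k).re * Phi x))

/-- (NM3) negative moments, level above the critical one -/
def S_NM3 : Prop := ∀ d : ℝ → ℝ, Ad d → ∀ k V : ℝ, k < 0 → k < V →
  Tendsto (fun T : ℝ => Real.sqrt (Real.pi * Real.log (1 / (2 * d T))) * (2 * d T) ^ (2 * k * V - V ^ 2) *
    MU k ((2 * d T) ^ (-V)) (d T) T) atTop (𝓝 ((aC V).re / (2 * (V - k))))

/-- (UT) large values -/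
def S_UT : Prop := ∀ d : ℝ → ℝ, Ad d → ∀ V : ℝ, 0 < V →
  Tendsto (fun T : ℝ => Real.sqrt (Real.pi * Real.log (1 / (2 * d T))) * (2 * d T) ^ (-(V ^ 2)) *
    ((1 / T) * (volume {t : ℝ | 0 ≤ t ∧ t ≤ T ∧ (2 * d T) ^ (-V) < mz (d T) t}).toReal)) atTop
    (𝓝 ((aC V).re / (2 * V)))

/-- (LT) small values -/
def S_LT : Prop := ∀ d : ℝ → ℝ, Ad d → ∀ V : ℝ, V < 0 →
  Tendsto (fun T : ℝ => Real.sqrt (Real.pi * Real.log (1 / (2 * d T))) * (2 * d T) ^ (-(V ^ 2)) *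
    ((1 / T) * (volume {t : ℝ | 0 ≤ t ∧ t ≤ T ∧ mz (d T) t < (2 * d T) ^ (-V)}).toReal)) atTop
    (𝓝 ((aC V).re / (2 * (-V))))

end Pool.Agent.N748.MG
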